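import Pool.Agent.helper63.DP.TabData

/-!
# The two differential posets (generated)
-/

namespace Pool.Agent.helper63.DP

/-- Sizes of the levels of the first poset (Young's lattice up to level `17`). -/
def szY : ℕ → ℕ
  | 0 => 1
  | 1 => 1
  | 2 => 2
  | 3 => 3
  | 4 => 5
  | 5 => 7
  | 6 => 11
  | 7 => 15
  | 8 => 22
  | 9 => 30
  | 10 => 42
  | 11 => 56
  | 12 => 77
  | 13 => 101
  | 14 => 135
  | 15 => 176
  | 16 => 231
  | 17 => 297
  | _ => 0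

/-- Lower covers in the first poset. -/
def fY : ℕ → RT (List ℕ)
  | 0 => l0
  | 1 => nd1a.low
  | 2 => nd2a.low
  | 3 => nd3a.low
  | 4 => nd4a.low
  | 5 => nd5a.low
  | 6 => nd6c.low
  | 7 => nd7a.low
  | 8 => nd8c.low
  | 9 => nd9l.low
  | 10 => nd10o.low
  | 11 => nd11a.low
  | 12 => nd12b.low
  | 13 => nd13a.low
  | 14 => nd14a.low
  | 15 => nd15a.low
  | 16 => nd16a.low
  | 17 => y17
  | _ => l0

/-- Sizes of the levels of the second poset. -/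
def szE : ℕ → ℕ
  | 0 => 1
  | 1 => 1
  | 2 => 2
  | 3 => 3
  | 4 => 5
  | 5 => 7
  | 6 => 11
  | 7 => 15
  | 8 => 22
  | 9 => 30
  | 10 => 42
  | 11 => 56
  | 12 => 77
  | 13 => 101
  | 14 => 135
  | 15 => 176
  | 16 => 231
  | 17 => 299
  | 18 => 528
  | 19 => 825
  | _ => 0

/-- Lower covers in the second poset. -/
def fE : ℕ → RT (List ℕ)
  | 0 => l0
  | 1 => nd1a.low
  | 2 => nd2a.low
  | 3 => nd3a.low
  | 4 => nd4a.low
  | 5 => nd5a.low
  | 6 => nd6c.low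
  | 7 => nd7a.low
  | 8 => nd8c.low
  | 9 => nd9l.low
  | 10 => nd10o.low
  | 11 => nd11a.low
  | 12 => nd12b.low
  | 13 => nd13a.low
  | 14 => nd14a.low
  | 15 => nd15a.low
  | 16 => nd16a.low
  | 17 => e17
  | 18 => e18
  | 19 => e19
  | _ => l0

theorem lok0 :
    LocOK 1 1 (RT.get l0) (RT.get nd1a.low) ∧ ∀ z < 1, ∀ x ∈ RT.get nd1a.low z, z ∈ RT.get J0 x :=
  stepOK_spec loc0 (by
    intro v _ a ha
    exact absurd (show a ∈ ([] : List ℕ) from ha) List.not_mem_nil)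

theorem lok1 :
    LocOK 1 2 (RT.get nd1a.low) (RT.get nd2a.low) ∧ ∀ z < 2, ∀ x ∈ RT.get nd2a.low z, z ∈ RT.get J1 x :=
  stepOK_spec loc1 lok0.2

theorem lok2 :
    LocOK 2 3 (RT.get nd2a.low) (RT.get nd3a.low) ∧ ∀ z < 3, ∀ x ∈ RT.get nd3a.low z, z ∈ RT.get J2 x :=
  stepOK_spec loc2 lok1.2

theorem lok3 :
    LocOK 3 5 (RT.get nd3a.low) (RT.get nd4a.low) ∧ ∀ z < 5, ∀ x ∈ RT.get nd4a.low z, z ∈ RT.get J3 x :=
  stepOK_spec loc3 lok2.2

theorem lok4 :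
    LocOK 5 7 (RT.get nd4a.low) (RT.get nd5a.low) ∧ ∀ z < 7, ∀ x ∈ RT.get nd5a.low z, z ∈ RT.get J4 x :=
  stepOK_spec loc4 lok3.2

theorem lok5 :
    LocOK 7 11 (RT.get nd5a.low) (RT.get nd6c.low) ∧ ∀ z < 11, ∀ x ∈ RT.get nd6c.low z, z ∈ RT.get J5 x :=
  stepOK_spec loc5 lok4.2

theorem lok6 :
    LocOK 11 15 (RT.get nd6c.low) (RT.get nd7a.low) ∧ ∀ z < 15, ∀ x ∈ RT.get nd7a.low z, z ∈ RT.get J6 x :=
  stepOK_spec loc6 lok5.2

theorem lok7 :
    LocOK 15 22 (RT.get nd7a.low) (RT.get nd8c.low) ∧ ∀ z < 22, ∀ x ∈ RT.get nd8c.low z, z ∈ RT.get J7 x :=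
  stepOK_spec loc7 lok6.2

theorem lok8 :
    LocOK 22 30 (RT.get nd8c.low) (RT.get nd9l.low) ∧ ∀ z < 30, ∀ x ∈ RT.get nd9l.low z, z ∈ RT.get J8 x :=
  stepOK_spec loc8 lok7.2

theorem lok9 :
    LocOK 30 42 (RT.get nd9l.low) (RT.get nd10o.low) ∧ ∀ z < 42, ∀ x ∈ RT.get nd10o.low z, z ∈ RT.get J9 x :=
  stepOK_spec loc9 lok8.2

theorem lok10 :
    LocOK 42 56 (RT.get nd10o.low) (RT.get nd11a.low) ∧ ∀ z < 56, ∀ x ∈ RT.get nd11a.low z, z ∈ RT.get J10 x :=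
  stepOK_spec loc10 lok9.2

theorem lok11 :
    LocOK 56 77 (RT.get nd11a.low) (RT.get nd12b.low) ∧ ∀ z < 77, ∀ x ∈ RT.get nd12b.low z, z ∈ RT.get J11 x :=
  stepOK_spec loc11 lok10.2

theorem lok12 :
    LocOK 77 101 (RT.get nd12b.low) (RT.get nd13a.low) ∧ ∀ z < 101, ∀ x ∈ RT.get nd13a.low z, z ∈ RT.get J12 x :=
  stepOK_spec loc12 lok11.2

theorem lok13 :
    LocOK 101 135 (RT.get nd13a.low) (RT.get nd14a.low) ∧ ∀ z < 135, ∀ x ∈ RT.get nd14a.low z, z ∈ RT.get J13 x :=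
  stepOK_spec loc13 lok12.2

theorem lok14 :
    LocOK 135 176 (RT.get nd14a.low) (RT.get nd15a.low) ∧ ∀ z < 176, ∀ x ∈ RT.get nd15a.low z, z ∈ RT.get J14 x :=
  stepOK_spec loc14 lok13.2

theorem lok15 :
    LocOK 176 231 (RT.get nd15a.low) (RT.get nd16a.low) ∧ ∀ z < 231, ∀ x ∈ RT.get nd16a.low z, z ∈ RT.get J15 x :=
  stepOK_spec loc15 lok14.2

theorem lok16Y :
    LocOK 231 297 (RT.get nd16a.low) (RT.get y17) ∧ ∀ z < 297, ∀ x ∈ RT.get y17 z, z ∈ RT.get J16Y x :=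
  stepOK_spec loc16Y lok15.2

theorem lok16E :
    LocOK 231 299 (RT.get nd16a.low) (RT.get e17) ∧ ∀ z < 299, ∀ x ∈ RT.get e17 z, z ∈ RT.get J16E x :=
  stepOK_spec loc16E lok15.2

theorem lok17E :
    LocOK 299 528 (RT.get e17) (RT.get e18) ∧ ∀ z < 528, ∀ x ∈ RT.get e18 z, z ∈ RT.get J17E x :=
  stepOK_spec loc17E lok16E.2

theorem lok18E :
    LocOK 528 825 (RT.get e18) (RT.get e19) ∧ ∀ z < 825, ∀ x ∈ RT.get e19 z, z ∈ RT.get J18E x :=
  stepOK_spec loc18E lok17E.2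

theorem locY : ∀ n < 17, LocOK (szY n) (szY (n + 1)) (fY n).get (fY (n + 1)).get := by
  intro n hn
  match n, hn with
  | 0, _ => exact lok0.1
  | 1, _ => exact lok1.1
  | 2, _ => exact lok2.1
  | 3, _ => exact lok3.1
  | 4, _ => exact lok4.1
  | 5, _ => exact lok5.1
  | 6, _ => exact lok6.1
  | 7, _ => exact lok7.1
  | 8, _ => exact lok8.1
  | 9, _ => exact lok9.1
  | 10, _ => exact lok10.1
  | 11, _ => exact lok11.1
  | 12, _ => exact lok12.1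
  | 13, _ => exact lok13.1
  | 14, _ => exact lok14.1
  | 15, _ => exact lok15.1
  | 16, _ => exact lok16Y.1
  | n + 17, h => exact absurd h (by omega)

theorem locE : ∀ n < 19, LocOK (szE n) (szE (n + 1)) (fE n).get (fE (n + 1)).get := by
  intro n hn
  match n, hn with
  | 0, _ => exact lok0.1
  | 1, _ => exact lok1.1
  | 2, _ => exact lok2.1
  | 3, _ => exact lok3.1
  | 4, _ => exact lok4.1
  | 5, _ => exact lok5.1
  | 6, _ => exact lok6.1
  | 7, _ => exact lok7.1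
  | 8, _ => exact lok8.1
  | 9, _ => exact lok9.1
  | 10, _ => exact lok10.1
  | 11, _ => exact lok11.1
  | 12, _ => exact lok12.1
  | 13, _ => exact lok13.1
  | 14, _ => exact lok14.1
  | 15, _ => exact lok15.1
  | 16, _ => exact lok16E.1
  | 17, _ => exact lok17E.1
  | 18, _ => exact lok18E.1
  | n + 19, h => exact absurd h (by omega)

/-- The first differential poset. -/
theorem exY : ∃ (P : Type) (_ : PartialOrder P) (_ : GradeMinOrder ℕ P)
    (_ : LocallyFiniteOrder P), Diff1 P ∧ ∀ n, Nat.card {x : P // grade ℕ x = n} =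
      if n ≤ 17 then szY n else (fibc 231 297 (n - 17)).2 :=
  exists_of_table 16 szY (fun n => (fY n).get) rfl rfl locY

/-- The second differential poset. -/
theorem exE : ∃ (P : Type) (_ : PartialOrder P) (_ : GradeMinOrder ℕ P)
    (_ : LocallyFiniteOrder P), Diff1 P ∧ ∀ n, Nat.card {x : P // grade ℕ x = n} =
      if n ≤ 19 then szE n else (fibc 528 825 (n - 19)).2 :=
  exists_of_table 18 szE (fun n => (fE n).get) rfl rfl locE

end Pool.Agent.helper63.DP
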