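import Mathlib.Data.List.Basic
import Mathlib.Data.List.Sort
import Mathlib.Data.Nat.Bitwise
import Mathlib.Algebra.BigOperators.Group.Finset.Basic
import Mathlib.Algebra.BigOperators.Ring.Finset
import Mathlib.Algebra.BigOperators.Group.List.Basic
import Mathlib.Algebra.Order.BigOperators.Group.Finset
import Mathlib.Tactic.Linarith
import Mathlib.Tactic.Ring
import Mathlib.Tactic.Push

/-!
# Kernel friendly list programs

Small functions written directly with recursors (so that the kernel evaluates them fast), with
their specifications.
-/

namespace Pool.Agent.helper63.DP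

/-- Random access tree. -/
inductive RT (α : Type) : Type where
  | leaf (a : α) : RT α
  | node (k : ℕ) (l r : RT α) : RT α

/-- Lookup. -/
noncomputable def RT.get {α : Type} (t : RT α) : ℕ → α :=
  RT.rec (motive := fun _ => ℕ → α) (fun a _ => a)
    (fun k _ _ gl gr x => Bool.rec (motive := fun _ => α) (gl x) (gr x) (Nat.ble k x)) t

/-- Lookup with continuation. -/
noncomputable def RT.getK {α β : Type} (t : RT α) (x : ℕ) (k : α → β) : β :=
  RT.rec (motive := fun _ => ℕ → β) (fun a _ => k a)
    (fun c _ _ gl gr x => Bool.rec (motive := fun _ => β) (gl x) (gr x) (Nat.ble c x)) t x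

theorem RT.getK_eq {α β : Type} (t : RT α) (x : ℕ) (k : α → β) : t.getK x k = k (t.get x) := by
  induction t with
  | leaf a => rfl
  | node c l r ihl ihr =>
    show Bool.rec (motive := fun _ => β) (l.getK x k) (r.getK x k) (Nat.ble c x) =
      k (Bool.rec (motive := fun _ => α) (l.get x) (r.get x) (Nat.ble c x))
    cases Nat.ble c x
    · exact ihl
    · exact ihr

/-- Force the evaluation of a number. -/
noncomputable def forceNat {β : Type} (e : ℕ) (k : ℕ → β) : β :=
  Nat.rec (motive := fun _ => β) (k 0) (fun n _ => k (Nat.succ n)) e

theorem forceNat_eq {β : Type} (e : ℕ) (k : ℕ → β) : forceNat e k = k e := by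
  cases e <;> rfl

/-- `∀ i < n, p i`. -/
noncomputable def allN (p : ℕ → Bool) (n : ℕ) : Bool :=
  Nat.rec (motive := fun _ => Bool) true
    (fun i ih => Bool.rec (motive := fun _ => Bool) false ih (p i)) n

theorem allN_iff (p : ℕ → Bool) (n : ℕ) : allN p n = true ↔ ∀ i < n, p i = true := by
  induction n with
  | zero => simp [allN]
  | succ n ih =>
    have h : allN p (n + 1) = Bool.rec (motive := fun _ => Bool) false (allN p n) (p n) := rfl
    rw [h]
    cases hp : p n
    · constructor
      · intro h; exact absurd h (by simp)
      · intro h; have := h n (Nat.lt_succ_self n); rw [hp] at this; exact this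
    · show allN p n = true ↔ _
      rw [ih]
      constructor
      · intro h i hi
        rcases Nat.lt_succ_iff_lt_or_eq.1 hi with h1 | h1
        · exact h i h1
        · rw [h1]; exact hp
      · intro h i hi
        exact h i (Nat.lt_succ_of_lt hi)

/-- Sum over `i < n`. -/
noncomputable def sumN (f : ℕ → ℕ) (n : ℕ) : ℕ :=
  Nat.rec (motive := fun _ => ℕ) 0 (fun i ih => f i + ih) n

theorem sumN_eq (f : ℕ → ℕ) (n : ℕ) : sumN f n = ∑ i ∈ Finset.range n, f i := by
  induction n with
  | zero => simp [sumN]
  | succ n ih =>
    have h : sumN f (n + 1) = f n + sumN f n := rfl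
    rw [h, ih, Finset.sum_range_succ, add_comm]

/-- `∀ a ∈ l, p a`. -/
noncomputable def lall {α : Type} (p : α → Bool) (l : List α) : Bool :=
  List.rec (motive := fun _ => Bool) true
    (fun a _ ih => Bool.rec (motive := fun _ => Bool) false ih (p a)) l

theorem lall_iff {α : Type} (p : α → Bool) (l : List α) :
    lall p l = true ↔ ∀ a ∈ l, p a = true := by
  induction l with
  | nil => simp [lall]
  | cons a l ih =>
    have h : lall p (a :: l) = Bool.rec (motive := fun _ => Bool) false (lall p l) (p a) := rfl
    rw [h]
    cases hp : p a
    · simp [hp]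
    · show lall p l = true ↔ _
      rw [ih]; simp [hp]

/-- Membership. -/
noncomputable def elem (x : ℕ) (l : List ℕ) : Bool :=
  List.rec (motive := fun _ => Bool) false
    (fun a _ ih => Bool.rec (motive := fun _ => Bool) ih true (Nat.beq a x)) l

theorem elem_iff (x : ℕ) (l : List ℕ) : elem x l = true ↔ x ∈ l := by
  induction l with
  | nil => simp [elem]
  | cons a l ih =>
    have h : elem x (a :: l) =
      Bool.rec (motive := fun _ => Bool) (elem x l) true (Nat.beq a x) := rfl
    rw [h]
    cases hp : Nat.beq a x
    · have : a ≠ x := by
        intro h; rw [h, Nat.beq_refl] at hp; exact absurd hp (by simp)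
      show elem x l = true ↔ _
      rw [ih]; simp [this.symm]
    · have : a = x := Nat.eq_of_beq_eq_true hp
      simp [this]

/-- Sum over a list. -/
noncomputable def sumL {α : Type} (f : α → ℕ) (l : List α) : ℕ :=
  List.rec (motive := fun _ => ℕ) 0 (fun a _ ih => f a + ih) l

@[simp] theorem sumL_nil {α : Type} (f : α → ℕ) : sumL f [] = 0 := rfl
@[simp] theorem sumL_cons {α : Type} (f : α → ℕ) (a : α) (l : List α) :
    sumL f (a :: l) = f a + sumL f l := rfl

theorem sumL_eq {α : Type} (f : α → ℕ) (l : List α) : sumL f l = (l.map f).sum := by
  induction l with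
  | nil => rfl
  | cons a l ih => simp [ih]

theorem sumL_nodup (f : ℕ → ℕ) (l : List ℕ) (h : l.Nodup) :
    sumL f l = ∑ x ∈ l.toFinset, f x := by
  rw [sumL_eq, ← List.sum_toFinset _ h]

/-- Length. -/
noncomputable def len {α : Type} (l : List α) : ℕ :=
  List.rec (motive := fun _ => ℕ) 0 (fun _ _ ih => Nat.succ ih) l

theorem len_eq {α : Type} (l : List α) : len l = l.length := by
  induction l with
  | nil => rfl
  | cons a l ih =>
    have h : len (a :: l) = Nat.succ (len l) := rfl
    rw [h, ih, List.length_cons]

/-- Lookup in two aligned lists. -/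
noncomputable def look (v : ℕ) (ids ys : List ℕ) : ℕ :=
  List.rec (motive := fun _ => List ℕ → ℕ) (fun _ => 0)
    (fun a _ ih ys => List.rec (motive := fun _ => ℕ) 0
      (fun c cs _ => Bool.rec (motive := fun _ => ℕ) (ih cs) c (Nat.beq a v)) ys) ids ys

/-- Strictly ascending lists. -/
noncomputable def asc (l : List ℕ) : Bool :=
  List.rec (motive := fun _ => Bool) true
    (fun a l' ih => Bool.rec (motive := fun _ => Bool) false ih
      (List.rec (motive := fun _ => Bool) true (fun b _ _ => Nat.ble (Nat.succ a) b) l')) l

theorem asc_iff (l : List ℕ) (h : asc l = true) : l.Pairwise (· < ·) := by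
  induction l with
  | nil => exact List.Pairwise.nil
  | cons a l ih =>
    have h1 : asc (a :: l) = Bool.rec (motive := fun _ => Bool) false (asc l)
      (List.rec (motive := fun _ => Bool) true (fun b _ _ => Nat.ble (Nat.succ a) b) l) := rfl
    rw [h1] at h
    cases l with
    | nil => exact List.pairwise_singleton _ _
    | cons b l =>
      cases hb : Nat.ble (Nat.succ a) b
      · have h2 : Bool.rec (motive := fun _ => Bool) false (asc (b :: l))
          (Nat.ble (Nat.succ a) b) = true := h
        rw [hb] at h2
        exact absurd h2 (by simp)
      · have h2 : Bool.rec (motive := fun _ => Bool) false (asc (b :: l))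
          (Nat.ble (Nat.succ a) b) = true := h
        rw [hb] at h2
        have h3 := ih h2
        have hab : a < b := Nat.le_of_ble_eq_true hb
        refine List.Pairwise.cons ?_ h3
        intro c hc
        rcases List.mem_cons.1 hc with rfl | hc'
        · exact hab
        · exact lt_trans hab (List.rel_of_pairwise_cons h3 hc')

/-- Number of common elements. -/
noncomputable def cm (l m : List ℕ) : ℕ :=
  sumL (fun a => Bool.rec (motive := fun _ => ℕ) 0 1 (elem a m)) l

theorem cm_eq (l m : List ℕ) : cm l m = (l.filter (fun a => a ∈ m)).length := by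
  unfold cm
  induction l with
  | nil => rfl
  | cons a l ih =>
    rw [sumL_cons, ih, List.filter_cons]
    cases h : elem a m
    · have : ¬ a ∈ m := by
        intro h'; rw [(elem_iff a m).2 h'] at h; exact absurd h (by simp)
      simp [this]
    · have : a ∈ m := (elem_iff a m).1 h
      simp [this, add_comm]

/-- Equality of lists of numbers. -/
noncomputable def leq (l m : List ℕ) : Bool :=
  List.rec (motive := fun _ => List ℕ → Bool)
    (fun m => List.rec (motive := fun _ => Bool) true (fun _ _ _ => false) m)
    (fun a _ ih m => List.rec (motive := fun _ => Bool) false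
      (fun b m' _ => Bool.rec (motive := fun _ => Bool) false (ih m') (Nat.beq a b)) m) l m

theorem leq_iff (l m : List ℕ) : leq l m = true ↔ l = m := by
  induction l generalizing m with
  | nil =>
    cases m with
    | nil => exact ⟨fun _ => rfl, fun _ => rfl⟩
    | cons b m => exact ⟨fun h => absurd h (by simp [leq]), fun h => absurd h (by simp)⟩
  | cons a l ih =>
    cases m with
    | nil => exact ⟨fun h => absurd h (by simp [leq]), fun h => absurd h (by simp)⟩
    | cons b m =>
      have h1 : leq (a :: l) (b :: m) =
        Bool.rec (motive := fun _ => Bool) false (leq l m) (Nat.beq a b) := rfl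
      rw [h1]
      cases hb : Nat.beq a b
      · have : a ≠ b := by
          intro h; rw [h, Nat.beq_refl] at hb; exact absurd hb (by simp)
        simp [this]
      · have : a = b := Nat.eq_of_beq_eq_true hb
        show leq l m = true ↔ _
        rw [ih]; simp [this]

/-- Equality of lists of lists of numbers. -/
noncomputable def lleq (l m : List (List ℕ)) : Bool :=
  List.rec (motive := fun _ => List (List ℕ) → Bool)
    (fun m => List.rec (motive := fun _ => Bool) true (fun _ _ _ => false) m)
    (fun a _ ih m => List.rec (motive := fun _ => Bool) false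
      (fun b m' _ => Bool.rec (motive := fun _ => Bool) false (ih m') (leq a b)) m) l m

theorem lleq_iff (l m : List (List ℕ)) : lleq l m = true ↔ l = m := by
  induction l generalizing m with
  | nil =>
    cases m with
    | nil => exact ⟨fun _ => rfl, fun _ => rfl⟩
    | cons b m => exact ⟨fun h => absurd h (by simp [lleq]), fun h => absurd h (by simp)⟩
  | cons a l ih =>
    cases m with
    | nil => exact ⟨fun h => absurd h (by simp [lleq]), fun h => absurd h (by simp)⟩
    | cons b m =>
      have h1 : lleq (a :: l) (b :: m) =
        Bool.rec (motive := fun _ => Bool) false (lleq l m) (leq a b) := rfl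
      rw [h1]
      cases hb : leq a b
      · have : a ≠ b := by
          intro h; rw [(leq_iff a b).2 h] at hb; exact absurd hb (by simp)
        simp [this]
      · have : a = b := (leq_iff a b).1 hb
        show lleq l m = true ↔ _
        rw [ih]; simp [this]

/-- Filter into an accumulator, then continue. -/
noncomputable def fwalk {β : Type} (p : ℕ → Bool) (l acc : List ℕ) (k : List ℕ → β) : β :=
  List.rec (motive := fun _ => List ℕ → β) (fun acc => k acc)
    (fun a _ ih acc => Bool.rec (motive := fun _ => β) (ih acc) (ih (a :: acc)) (p a)) l acc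

theorem fwalk_eq {β : Type} (p : ℕ → Bool) (l acc : List ℕ) (k : List ℕ → β) :
    fwalk p l acc k = k ((l.filter p).reverse ++ acc) := by
  induction l generalizing acc with
  | nil => rfl
  | cons a l ih =>
    have h1 : fwalk p (a :: l) acc k = Bool.rec (motive := fun _ => β)
      (fwalk p l acc k) (fwalk p l (a :: acc) k) (p a) := rfl
    rw [h1, List.filter_cons]
    cases hp : p a
    · show fwalk p l acc k = _
      rw [ih]; simp
    · show fwalk p l (a :: acc) k = _
      rw [ih]; simp

/-- Outcome of a filter step on states. -/
inductive Op : Type where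
  | drop | keep | mark

/-- A state: a list of cliques, some of them marked. -/
abbrev State := List (List ℕ × Bool)

/-- Walk through a state. -/
noncomputable def walk {β : Type} (g : List ℕ → Bool → Op) (S acc : State) (k : State → β) : β :=
  List.rec (motive := fun _ => State → β) (fun acc => k acc)
    (fun r _ ih acc => Prod.rec (motive := fun _ => β)
      (fun C b => Op.rec (motive := fun _ => β) (ih acc) (ih ((C, false) :: acc))
        (ih ((C, true) :: acc)) (g C b)) r) S acc

/-- The specification of `walk`. -/
def app (g : List ℕ → Bool → Op) (r : List ℕ × Bool) : Option (List ℕ × Bool) :=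
  match g r.1 r.2 with
  | Op.drop => none
  | Op.keep => some (r.1, false)
  | Op.mark => some (r.1, true)

theorem walk_eq {β : Type} (g : List ℕ → Bool → Op) (S acc : State) (k : State → β) :
    walk g S acc k = k ((S.filterMap (app g)).reverse ++ acc) := by
  induction S generalizing acc with
  | nil => rfl
  | cons r S ih =>
    obtain ⟨C, b⟩ := r
    have h1 : walk g ((C, b) :: S) acc k = Op.rec (motive := fun _ => β)
      (walk g S acc k) (walk g S ((C, false) :: acc) k)
        (walk g S ((C, true) :: acc) k) (g C b) := rfl
    rw [h1, List.filterMap_cons]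
    unfold app
    cases hp : g C b
    · show walk g S acc k = _
      rw [ih]; simp [hp]; rfl
    · show walk g S ((C, false) :: acc) k = _
      rw [ih]; simp [hp]; rfl
    · show walk g S ((C, true) :: acc) k = _
      rw [ih]; simp [hp]; rfl

/-- Table of a function. -/
noncomputable def tab {α : Type} (f : ℕ → α) (n : ℕ) : List α :=
  Nat.rec (motive := fun _ => List α → List α) (fun acc => acc)
    (fun i ih acc => ih (f i :: acc)) n []

theorem tab_eq {α : Type} (f : ℕ → α) (n : ℕ) : tab f n = (List.range n).map f := by
  have key : ∀ (n : ℕ) (acc : List α),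
      Nat.rec (motive := fun _ => List α → List α) (fun acc => acc)
        (fun i ih acc => ih (f i :: acc)) n acc = (List.range n).map f ++ acc := by
    intro n
    induction n with
    | zero => intro acc; rfl
    | succ n ih =>
      intro acc
      show Nat.rec (motive := fun _ => List α → List α) (fun acc => acc)
        (fun i ih acc => ih (f i :: acc)) n (f n :: acc) = _
      rw [ih, List.range_succ]
      simp
  have := key n []
  rw [List.append_nil] at this
  exact this

/-- Is the list of length at least two? -/
noncomputable def big (l : List ℕ) : Bool :=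
  List.rec (motive := fun _ => Bool) false
    (fun _ l' _ => List.rec (motive := fun _ => Bool) false (fun _ _ _ => true) l') l

theorem big_iff (l : List ℕ) : big l = true ↔ 2 ≤ l.length := by
  cases l with
  | nil => simp [big]
  | cons a l =>
    cases l with
    | nil => simp [big]
    | cons b l => simp [big]

/-- Keep the big lists. -/
noncomputable def bigs (l : List (List ℕ)) : List (List ℕ) :=
  List.rec (motive := fun _ => List (List ℕ)) []
    (fun a _ ih => Bool.rec (motive := fun _ => List (List ℕ)) ih (a :: ih) (big a)) l

theorem bigs_eq (l : List (List ℕ)) : bigs l = l.filter (fun a => 2 ≤ a.length) := by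
  induction l with
  | nil => rfl
  | cons a l ih =>
    have h1 : bigs (a :: l) = Bool.rec (motive := fun _ => List (List ℕ))
      (bigs l) (a :: bigs l) (big a) := rfl
    rw [h1, List.filter_cons]
    cases hb : big a
    · have : ¬ 2 ≤ a.length := by
        intro h; rw [(big_iff a).2 h] at hb; exact absurd hb (by simp)
      simp only [this, decide_false]
      exact ih
    · have : 2 ≤ a.length := (big_iff a).1 hb
      simp only [this, decide_true]
      show a :: bigs l = _
      rw [ih]; rfl

/-- Test bit. -/
noncomputable def tb (m n : ℕ) : Bool := Nat.beq (Nat.land 1 (Nat.shiftRight m n)) 1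

theorem tb_eq (m n : ℕ) : tb m n = Nat.testBit m n := by
  unfold tb Nat.testBit
  have h1 : Nat.land 1 (Nat.shiftRight m n) = 1 &&& (m >>> n) := rfl
  rw [h1, Nat.one_and_eq_mod_two]
  rcases Nat.mod_two_eq_zero_or_one (m >>> n) with h | h
  · rw [h]; rfl
  · rw [h]; rfl

end Pool.Agent.helper63.DP
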