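import Pool.Agent.helper63.DP.Poset

/-!
# Construction of differential posets from tables
-/

namespace Pool.Agent.helper63.DP

/-- Correctness of one step: `f` gives the lower covers of a level with `N` elements, `g` those of
the next level, with `N2` elements. -/
structure LocOK (N N2 : ℕ) (f g : ℕ → List ℕ) : Prop where
  asc : ∀ z < N2, (g z).Nodup ∧ (∀ x ∈ g z, x < N) ∧ g z ≠ []
  deg : ∀ x < N, ((Finset.range N2).filter (fun z => x ∈ g z)).card = (f x).length + 1
  pair : ∀ x < N, ∀ v < x,
    ((Finset.range N2).filter (fun z => x ∈ g z ∧ v ∈ g z)).card = cm (f x) (f v)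

/-- Elements of the constructed poset. -/
@[ext] structure Qt (sz : ℕ → ℕ) (f : ℕ → ℕ → List ℕ) : Type where
  n : ℕ
  i : ℕ
  h : i < sz n

/-- All levels are correct. -/
structure Good (sz : ℕ → ℕ) (f : ℕ → ℕ → List ℕ) : Prop where
  z : sz 0 = 1
  f0 : f 0 0 = []
  loc : ∀ n, LocOK (sz n) (sz (n + 1)) (f n) (f (n + 1))

section

variable {sz : ℕ → ℕ} {f : ℕ → ℕ → List ℕ}

/-- The covering relation. -/
def cov (p q : Qt sz f) : Prop := q.n = p.n + 1 ∧ p.i ∈ f q.n q.i

theorem le_rank {p q : Qt sz f} (h : Relation.ReflTransGen cov p q) :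
    p.n < q.n ∨ p = q := by
  induction h with
  | refl => exact Or.inr rfl
  | tail _ h ih =>
    left
    rcases ih with h1 | h1
    · have := h.1; omega
    · rw [h1]; have := h.1; omega

instance : PartialOrder (Qt sz f) where
  le p q := Relation.ReflTransGen cov p q
  le_refl _ := Relation.ReflTransGen.refl
  le_trans _ _ _ h1 h2 := Relation.ReflTransGen.trans h1 h2
  le_antisymm p q h1 h2 := by
    rcases le_rank h1 with h3 | h3
    · rcases le_rank h2 with h4 | h4
      · omega
      · exact h4.symm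
    · exact h3

theorem le_def {p q : Qt sz f} : p ≤ q ↔ Relation.ReflTransGen cov p q := Iff.rfl

theorem lt_rank {p q : Qt sz f} (h : p < q) : p.n < q.n := by
  rcases le_rank (le_def.1 h.le) with h1 | h1
  · exact h1
  · exact absurd h1 h.ne

theorem covBy_iff {p q : Qt sz f} : p ⋖ q ↔ cov p q := by
  constructor
  · intro h
    rcases Relation.ReflTransGen.cases_head (le_def.1 h.1.le) with h1 | ⟨c, hc, hcq⟩
    · exact absurd h1 h.1.ne
    · by_cases he : c = q
      · rw [← he]; exact hc
      · exfalso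
        have h2 : p < c := by
          refine lt_of_le_of_ne (le_def.2 (Relation.ReflTransGen.single hc)) ?_
          intro hpc
          have := hc.1
          rw [hpc] at this
          omega
        have h3 : c < q := lt_of_le_of_ne (le_def.2 hcq) he
        exact h.2 h2 h3
  · intro h
    refine ⟨lt_of_le_of_ne (le_def.2 (Relation.ReflTransGen.single h)) ?_, ?_⟩
    · intro he
      have := h.1
      rw [he] at this
      omega
    · intro c h1 h2
      have h3 := lt_rank h1
      have h4 := lt_rank h2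
      have := h.1
      omega

variable (hG : Good sz f)

/-- The grading. -/
@[reducible] noncomputable def gradeQt (hG : Good sz f) : GradeMinOrder ℕ (Qt sz f) where
  grade p := p.n
  grade_strictMono _ _ h := lt_rank h
  covBy_grade p q h := by
    rw [Nat.covBy_iff_add_one_eq]
    exact (covBy_iff.1 h).1.symm
  isMin_grade p h := by
    obtain ⟨n, i, hi⟩ := p
    cases n with
    | zero => exact isMin_bot
    | succ n =>
      exfalso
      obtain ⟨_, h2, h3⟩ := (hG.loc n).asc i hi
      obtain ⟨a, ha⟩ := List.exists_mem_of_ne_nil _ h3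
      have hc : cov (⟨n, a, h2 a ha⟩ : Qt sz f) ⟨n + 1, i, hi⟩ := ⟨rfl, ha⟩
      exact (covBy_iff.2 hc).1.not_ge (h (covBy_iff.2 hc).1.le)

theorem fin_le (m : ℕ) : {p : Qt sz f | p.n ≤ m}.Finite := by
  have h1 : (⋃ n ∈ Set.Iic m, (fun i => ((n, i) : ℕ × ℕ)) '' Set.Iio (sz n)).Finite := by
    apply Set.Finite.biUnion (Set.finite_Iic m)
    intro n _
    exact (Set.finite_Iio _).image _
  refine Set.Finite.of_finite_image (f := fun p : Qt sz f => (p.n, p.i)) (h1.subset ?_) ?_
  · rintro _ ⟨p, hp, rfl⟩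
    simp only [Set.mem_iUnion]
    exact ⟨p.n, hp, p.i, p.h, rfl⟩
  · intro p _ q _ h
    have h2 : (p.n, p.i) = (q.n, q.i) := h
    exact Qt.ext (congrArg Prod.fst h2) (congrArg Prod.snd h2)

/-- Local finiteness. -/
@[reducible] noncomputable def lfo : LocallyFiniteOrder (Qt sz f) :=
  LocallyFiniteOrder.ofFiniteIcc (fun a b => (fin_le b.n).subset (by
    intro p hp
    show p.n ≤ b.n
    rcases le_rank (le_def.1 hp.2) with h | h
    · exact h.le
    · exact le_of_eq (congrArg Qt.n h)))

theorem card_level (n : ℕ) : Nat.card {p : Qt sz f // p.n = n} = sz n := by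
  have e : {p : Qt sz f // p.n = n} ≃ Fin (sz n) :=
    { toFun := fun p => ⟨p.1.i, by have := p.1.h; rw [p.2] at this; exact this⟩
      invFun := fun i => ⟨⟨n, i.1, i.2⟩, rfl⟩
      left_inv := by
        rintro ⟨⟨m, i, hi⟩, hm⟩
        subst hm
        rfl
      right_inv := by rintro ⟨i, hi⟩; rfl }
  rw [Nat.card_congr e, Nat.card_eq_fintype_card, Fintype.card_fin]

theorem encard_up (n : ℕ) (Q : Qt sz f → Prop) (R : ℕ → Prop) [DecidablePred R]
    (hQ : ∀ z, Q z → z.n = n + 1) (hR : ∀ z : Qt sz f, z.n = n + 1 → (Q z ↔ R z.i)) :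
    {z | Q z}.encard = (((Finset.range (sz (n + 1))).filter R).card : ℕ∞) := by
  have h1 : (fun z : Qt sz f => z.i) '' {z | Q z} =
      (((Finset.range (sz (n + 1))).filter R : Finset ℕ) : Set ℕ) := by
    ext j
    constructor
    · rintro ⟨z, hz, rfl⟩
      have h2 := hQ z hz
      have h3 := z.h
      rw [h2] at h3
      have : R z.i := (hR z h2).1 hz
      simp [h3, this]
    · intro hj
      have hj' : j < sz (n + 1) ∧ R j := by simpa using hj
      exact ⟨⟨n + 1, j, hj'.1⟩, (hR _ rfl).2 hj'.2, rfl⟩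
  rw [← Set.encard_coe_eq_coe_finsetCard, ← h1, Set.InjOn.encard_image]
  intro z hz z' hz' he
  exact Qt.ext (by rw [hQ z hz, hQ z' hz']) he

theorem encard_down (hG : Good sz f) (x : Qt sz f) (Q : Qt sz f → Prop) (l : List ℕ)
    (hnd : l.Nodup) (hl : ∀ a ∈ l, a ∈ f x.n x.i)
    (hQ : ∀ z, Q z ↔ z.n + 1 = x.n ∧ z.i ∈ l) :
    {z | Q z}.encard = (l.length : ℕ∞) := by
  have h1 : (fun z : Qt sz f => z.i) '' {z | Q z} = ((l.toFinset : Finset ℕ) : Set ℕ) := by
    ext j
    constructor
    · rintro ⟨z, hz, rfl⟩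
      have := ((hQ z).1 hz).2
      simpa using this
    · intro hj
      have hj' : j ∈ l := by simpa using hj
      obtain ⟨n, i, hi⟩ := x
      cases n with
      | zero =>
        exfalso
        have h2 := hl j hj'
        have h3 : i = 0 := by
          have h4 : i < sz 0 := hi
          rw [hG.z] at h4; omega
        have h5 : j ∈ f 0 i := h2
        rw [h3, hG.f0] at h5
        exact absurd h5 List.not_mem_nil
      | succ n =>
        have h2 := ((hG.loc n).asc i hi).2.1 j (hl j hj')
        exact ⟨⟨n, j, h2⟩, (hQ _).2 ⟨rfl, hj'⟩, rfl⟩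
  rw [← List.toFinset_card_of_nodup hnd, ← Set.encard_coe_eq_coe_finsetCard, ← h1,
    Set.InjOn.encard_image]
  intro z hz z' hz' he
  have h2 := ((hQ z).1 hz).1
  have h3 := ((hQ z').1 hz').1
  exact Qt.ext (by omega) he

theorem nodup_f (hG : Good sz f) (x : Qt sz f) : (f x.n x.i).Nodup := by
  obtain ⟨n, i, hi⟩ := x
  cases n with
  | zero =>
    have h3 : i = 0 := by
      have h4 : i < sz 0 := hi
      rw [hG.z] at h4; omega
    show (f 0 i).Nodup
    rw [h3, hG.f0]
    exact List.nodup_nil
  | succ n => exact ((hG.loc n).asc i hi).1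

theorem diff1_Qt (hG : Good sz f) : @Diff1 (Qt sz f) _ (gradeQt hG) := by
  letI := gradeQt hG
  constructor
  · refine ⟨⟨0, 0, by rw [hG.z]; omega⟩, rfl, ?_⟩
    intro y hy
    have h1 : y.n = 0 := hy
    have h2 := y.h
    rw [h1, hG.z] at h2
    exact Qt.ext h1 (by show y.i = 0; omega)
  · intro x y hxy
    by_cases hn : x.n = y.n
    · -- same level; order the two elements
      have key : ∀ x y : Qt sz f, x.n = y.n → y.i < x.i →
          {z : Qt sz f | z ⋖ x ∧ z ⋖ y}.encard = {z : Qt sz f | x ⋖ z ∧ y ⋖ z}.encard := by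
        intro x y hn hlt
        rw [encard_down hG x (fun z => z ⋖ x ∧ z ⋖ y)
          ((f x.n x.i).filter (fun a => a ∈ f y.n y.i)) ((nodup_f hG x).filter _)
          (fun a ha => (List.mem_filter.1 ha).1) ?_,
          encard_up x.n (fun z => x ⋖ z ∧ y ⋖ z)
            (fun z => x.i ∈ f (x.n + 1) z ∧ y.i ∈ f (x.n + 1) z)]
        · have h1 := (hG.loc x.n).pair x.i x.h y.i hlt
          rw [h1, cm_eq, ← hn]
        · intro z hz
          exact (covBy_iff.1 hz.1).1
        · intro z hz
          rw [covBy_iff, covBy_iff]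
          unfold cov
          rw [hz, ← hn]
          exact ⟨fun h => ⟨h.1.2, h.2.2⟩, fun h => ⟨⟨rfl, h.1⟩, ⟨rfl, h.2⟩⟩⟩
        · intro z
          rw [covBy_iff, covBy_iff, List.mem_filter, decide_eq_true_iff]
          unfold cov
          rw [← hn]
          constructor
          · rintro ⟨⟨h1, h2⟩, ⟨_, h4⟩⟩
            exact ⟨h1.symm, h2, h4⟩
          · rintro ⟨h1, h2, h4⟩
            exact ⟨⟨h1.symm, h2⟩, ⟨h1.symm, h4⟩⟩
      rcases lt_trichotomy x.i y.i with h | h | h
      · have h1 := key y x hn.symm h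
        have e1 : {z : Qt sz f | z ⋖ x ∧ z ⋖ y} = {z : Qt sz f | z ⋖ y ∧ z ⋖ x} := by
          ext z; exact and_comm
        have e2 : {z : Qt sz f | x ⋖ z ∧ y ⋖ z} = {z : Qt sz f | y ⋖ z ∧ x ⋖ z} := by
          ext z; exact and_comm
        rw [e1, e2]; exact h1
      · exact absurd (Qt.ext hn h) hxy
      · exact key x y hn h
    · have e1 : {z : Qt sz f | z ⋖ x ∧ z ⋖ y} = ∅ := by
        ext z
        simp only [Set.mem_setOf_eq, Set.mem_empty_iff_false, iff_false]
        rintro ⟨h1, h2⟩
        rw [covBy_iff] at h1 h2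
        exact hn (h1.1.trans h2.1.symm)
      have e2 : {z : Qt sz f | x ⋖ z ∧ y ⋖ z} = ∅ := by
        ext z
        simp only [Set.mem_setOf_eq, Set.mem_empty_iff_false, iff_false]
        rintro ⟨h1, h2⟩
        rw [covBy_iff] at h1 h2
        have := h1.1.symm.trans h2.1
        exact hn (by omega)
      rw [e1, e2]
  · intro x m hm
    rw [encard_down hG x (fun z => z ⋖ x) (f x.n x.i) (nodup_f hG x) (fun a ha => ha) ?_] at hm
    · rw [encard_up x.n (fun z => x ⋖ z) (fun z => x.i ∈ f (x.n + 1) z)]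
      · rw [(hG.loc x.n).deg x.i x.h]
        have : (f x.n x.i).length = m := by exact_mod_cast hm
        rw [this]
        push_cast
        rfl
      · intro z hz
        exact (covBy_iff.1 hz).1
      · intro z hz
        rw [covBy_iff]
        unfold cov
        rw [hz]
        exact ⟨fun h => h.2, fun h => ⟨rfl, h⟩⟩
    · intro z
      rw [covBy_iff]
      unfold cov
      exact ⟨fun h => ⟨h.1.symm, h.2⟩, fun h => ⟨h.1.symm, h.2⟩⟩

theorem exists_of_good (hG : Good sz f) :
    ∃ (P : Type) (_ : PartialOrder P) (_ : GradeMinOrder ℕ P) (_ : LocallyFiniteOrder P),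
      Diff1 P ∧ ∀ n, Nat.card {x : P // grade ℕ x = n} = sz n :=
  ⟨Qt sz f, inferInstance, gradeQt hG, lfo, diff1_Qt hG, fun n => card_level n⟩

end

/-! ### Reflection -/

/-- Lower covers in the reflected level. -/
def rf (Np N : ℕ) (f : ℕ → List ℕ) (j : ℕ) : List ℕ :=
  if j < Np then (List.range N).filter (fun x => j ∈ f x) else [j - Np]

/-- A level ready to be reflected. -/
structure Ready (Np N : ℕ) (f : ℕ → List ℕ) : Prop where
  nd : ∀ x < N, (f x).Nodup ∧ ∀ a ∈ f x, a < Np
  ex : ∀ a < Np, ∃ x < N, a ∈ f x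

theorem rf_loc {Np N : ℕ} {f : ℕ → List ℕ} (h : Ready Np N f) :
    LocOK N (Np + N) f (rf Np N f) := by
  have hs : ∀ (R : ℕ → Prop) [DecidablePred R],
      ((Finset.range (Np + N)).filter R).card =
        ((Finset.range Np).filter R).card + ((Finset.range N).filter (fun i => R (Np + i))).card := by
    intro R _
    rw [Finset.card_filter, Finset.card_filter, Finset.card_filter, Finset.sum_range_add]
  have h1 : ∀ x < N, ∀ j < Np, (x ∈ rf Np N f j ↔ j ∈ f x) := by
    intro x hx j hj
    unfold rf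
    rw [if_pos hj, List.mem_filter, List.mem_range]
    simp [hx]
  have h2 : ∀ x i : ℕ, (x ∈ rf Np N f (Np + i) ↔ x = i) := by
    intro x i
    unfold rf
    rw [if_neg (by omega), List.mem_singleton, Nat.add_sub_cancel_left]
  constructor
  · intro z hz
    unfold rf
    split_ifs with hlt
    · refine ⟨List.nodup_range.filter _, ?_, ?_⟩
      · intro x hx
        rw [List.mem_filter, List.mem_range] at hx
        exact hx.1
      · obtain ⟨x, hx, hxa⟩ := h.ex z hlt
        exact List.ne_nil_of_mem (List.mem_filter.2 ⟨List.mem_range.2 hx, by simpa using hxa⟩)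
    · refine ⟨List.nodup_singleton _, ?_, List.cons_ne_nil _ _⟩
      intro x hx
      rw [List.mem_singleton] at hx
      omega
  · intro x hx
    rw [hs]
    have e1 : (Finset.range Np).filter (fun j => x ∈ rf Np N f j) = (f x).toFinset := by
      ext j
      rw [Finset.mem_filter, Finset.mem_range, List.mem_toFinset]
      constructor
      · rintro ⟨h3, h4⟩
        exact (h1 x hx j h3).1 h4
      · intro h3
        have h4 := (h.nd x hx).2 j h3
        exact ⟨h4, (h1 x hx j h4).2 h3⟩
    have e2 : (Finset.range N).filter (fun i => x ∈ rf Np N f (Np + i)) = {x} := by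
      ext i
      rw [Finset.mem_filter, Finset.mem_range, Finset.mem_singleton, h2]
      constructor
      · rintro ⟨_, h4⟩; exact h4.symm
      · intro h4; rw [h4]; exact ⟨hx, rfl⟩
    rw [e1, e2, List.toFinset_card_of_nodup (h.nd x hx).1, Finset.card_singleton]
  · intro x hx v hv
    have hvN := lt_trans hv hx
    rw [hs, cm_eq]
    have e1 : (Finset.range Np).filter (fun j => x ∈ rf Np N f j ∧ v ∈ rf Np N f j) =
        ((f x).filter (fun a => a ∈ f v)).toFinset := by
      ext j
      rw [Finset.mem_filter, Finset.mem_range, List.mem_toFinset, List.mem_filter,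
        decide_eq_true_iff]
      constructor
      · rintro ⟨h3, h4, h5⟩
        exact ⟨(h1 x hx j h3).1 h4, (h1 v hvN j h3).1 h5⟩
      · rintro ⟨h3, h5⟩
        have h4 := (h.nd x hx).2 j h3
        exact ⟨h4, (h1 x hx j h4).2 h3, (h1 v hvN j h4).2 h5⟩
    have e2 : (Finset.range N).filter
        (fun i => x ∈ rf Np N f (Np + i) ∧ v ∈ rf Np N f (Np + i)) = ∅ := by
      rw [Finset.filter_eq_empty_iff]
      rintro i _ ⟨h3, h4⟩
      rw [h2] at h3 h4
      omega
    rw [e1, e2, List.toFinset_card_of_nodup ((h.nd x hx).1.filter _), Finset.card_empty,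
      add_zero]

theorem rf_ready {Np N : ℕ} {f : ℕ → List ℕ} (h : Ready Np N f) :
    Ready N (Np + N) (rf Np N f) := by
  have h1 := rf_loc h
  refine ⟨fun x hx => ⟨(h1.asc x hx).1, (h1.asc x hx).2.1⟩, ?_⟩
  intro a ha
  have h2 := h1.deg a ha
  have h3 : 0 < ((Finset.range (Np + N)).filter (fun z => a ∈ rf Np N f z)).card := by omega
  obtain ⟨z, hz⟩ := Finset.card_pos.1 h3
  rw [Finset.mem_filter, Finset.mem_range] at hz
  exact ⟨z, hz.1, hz.2⟩

/-- Iterated reflection: sizes of two consecutive levels and lower covers. -/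
def rit (Np N : ℕ) (f : ℕ → List ℕ) : ℕ → ℕ × ℕ × (ℕ → List ℕ)
  | 0 => (Np, N, f)
  | m + 1 =>
    let r := rit Np N f m
    (r.2.1, r.1 + r.2.1, rf r.1 r.2.1 r.2.2)

/-- Fibonacci continuation. -/
def fibc (a b : ℕ) : ℕ → ℕ × ℕ
  | 0 => (a, b)
  | m + 1 => ((fibc a b m).2, (fibc a b m).1 + (fibc a b m).2)

theorem rit_size (Np N : ℕ) (f : ℕ → List ℕ) (m : ℕ) :
    ((rit Np N f m).1, (rit Np N f m).2.1) = fibc Np N m := by
  induction m with
  | zero => rfl
  | succ m ih =>
    show ((rit Np N f m).2.1, (rit Np N f m).1 + (rit Np N f m).2.1) =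
      ((fibc Np N m).2, (fibc Np N m).1 + (fibc Np N m).2)
    rw [← ih]

theorem rit_ready {Np N : ℕ} {f : ℕ → List ℕ} (h : Ready Np N f) (m : ℕ) :
    Ready (rit Np N f m).1 (rit Np N f m).2.1 (rit Np N f m).2.2 := by
  induction m with
  | zero => exact h
  | succ m ih => exact rf_ready ih

/-- A differential poset from a finite table, continued by reflection. -/
theorem exists_of_table (K : ℕ) (N : ℕ → ℕ) (g : ℕ → ℕ → List ℕ) (h0 : N 0 = 1)
    (g0 : g 0 0 = []) (hloc : ∀ n < K + 1, LocOK (N n) (N (n + 1)) (g n) (g (n + 1))) :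
    ∃ (P : Type) (_ : PartialOrder P) (_ : GradeMinOrder ℕ P) (_ : LocallyFiniteOrder P),
      Diff1 P ∧ ∀ n, Nat.card {x : P // grade ℕ x = n} =
        if n ≤ K + 1 then N n else (fibc (N K) (N (K + 1)) (n - (K + 1))).2 := by
  have hready : Ready (N K) (N (K + 1)) (g (K + 1)) := by
    have h1 := hloc K (Nat.lt_succ_self K)
    refine ⟨fun x hx => ⟨(h1.asc x hx).1, (h1.asc x hx).2.1⟩, ?_⟩
    intro a ha
    have h2 := h1.deg a ha
    have h3 : 0 < ((Finset.range (N (K + 1))).filter (fun z => a ∈ g (K + 1) z)).card := by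
      omega
    obtain ⟨z, hz⟩ := Finset.card_pos.1 h3
    rw [Finset.mem_filter, Finset.mem_range] at hz
    exact ⟨z, hz.1, hz.2⟩
  let sz : ℕ → ℕ := fun n => if n ≤ K + 1 then N n else
    (rit (N K) (N (K + 1)) (g (K + 1)) (n - (K + 1))).2.1
  let f : ℕ → ℕ → List ℕ := fun n => if n ≤ K + 1 then g n else
    (rit (N K) (N (K + 1)) (g (K + 1)) (n - (K + 1))).2.2
  have hsz : ∀ m, sz (K + 1 + m) = (rit (N K) (N (K + 1)) (g (K + 1)) m).2.1 := by
    intro m
    show (if K + 1 + m ≤ K + 1 then _ else _) = _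
    by_cases hm : m = 0
    · subst hm; simp [rit]
    · rw [if_neg (by omega), show K + 1 + m - (K + 1) = m by omega]
  have hf : ∀ m, f (K + 1 + m) = (rit (N K) (N (K + 1)) (g (K + 1)) m).2.2 := by
    intro m
    show (if K + 1 + m ≤ K + 1 then _ else _) = _
    by_cases hm : m = 0
    · subst hm; simp [rit]
    · rw [if_neg (by omega), show K + 1 + m - (K + 1) = m by omega]
  have hG : Good sz f := by
    refine ⟨?_, ?_, ?_⟩
    · show (if 0 ≤ K + 1 then N 0 else _) = 1
      rw [if_pos (Nat.zero_le _)]; exact h0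
    · show (if 0 ≤ K + 1 then g 0 else _) 0 = []
      rw [if_pos (Nat.zero_le _)]; exact g0
    · intro n
      by_cases hn : n < K + 1
      · have e1 : sz n = N n := if_pos (by omega)
        have e2 : sz (n + 1) = N (n + 1) := if_pos (by omega)
        have e3 : f n = g n := if_pos (by omega)
        have e4 : f (n + 1) = g (n + 1) := if_pos (by omega)
        rw [e1, e2, e3, e4]
        exact hloc n hn
      · obtain ⟨m, rfl⟩ : ∃ m, n = K + 1 + m := ⟨n - (K + 1), by omega⟩
        rw [hsz m, hf m, show K + 1 + m + 1 = K + 1 + (m + 1) by omega, hsz (m + 1), hf (m + 1)]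
        exact rf_loc (rit_ready hready m)
  obtain ⟨P, i1, i2, i3, h1, h2⟩ := exists_of_good hG
  refine ⟨P, i1, i2, i3, h1, fun n => ?_⟩
  rw [h2 n]
  show (if n ≤ K + 1 then N n else _) = _
  split_ifs with hn
  · rfl
  · rw [← rit_size (N K) (N (K + 1)) (g (K + 1))]

end Pool.Agent.helper63.DP
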