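import Pool.Agent.helper63.DP.Poset
import Pool.Agent.helper63.DP.D1
import Pool.Agent.helper63.DP.D9
import Pool.Agent.helper63.DP.D10
import Pool.Agent.helper63.DP.D11
import Pool.Agent.helper63.DP.D13
import Pool.Agent.helper63.DP.D15
import Pool.Agent.helper63.DP.D16

/-!
# Uniqueness of the first sixteen levels (generated)
-/

set_option linter.all false

namespace Pool.Agent.helper63.DP

/-- The level sizes are those of Young's lattice up to level `16`. -/
structure Sizes (P : Type) [PartialOrder P] [GradeMinOrder ℕ P] : Prop where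
  c1 : Nat.card {z : P // grade ℕ z = 1} = 1
  c2 : Nat.card {z : P // grade ℕ z = 2} = 2
  c3 : Nat.card {z : P // grade ℕ z = 3} = 3
  c4 : Nat.card {z : P // grade ℕ z = 4} = 5
  c5 : Nat.card {z : P // grade ℕ z = 5} = 7
  c6 : Nat.card {z : P // grade ℕ z = 6} = 11
  c7 : Nat.card {z : P // grade ℕ z = 7} = 15
  c8 : Nat.card {z : P // grade ℕ z = 8} = 22
  c9 : Nat.card {z : P // grade ℕ z = 9} = 30
  c10 : Nat.card {z : P // grade ℕ z = 10} = 42
  c11 : Nat.card {z : P // grade ℕ z = 11} = 56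
  c12 : Nat.card {z : P // grade ℕ z = 12} = 77
  c13 : Nat.card {z : P // grade ℕ z = 13} = 101
  c14 : Nat.card {z : P // grade ℕ z = 14} = 135
  c15 : Nat.card {z : P // grade ℕ z = 15} = 176
  c16 : Nat.card {z : P // grade ℕ z = 16} = 231

section

variable {P : Type} [PartialOrder P] [GradeMinOrder ℕ P] [LocallyFiniteOrder P]

theorem r16a (hP : Diff1 P) (H : Sizes P) (h : Lvl P 16 176 nd16a) : Lvl P 16 176 nd16a := h

theorem r15a (hP : Diff1 P) (H : Sizes P) (h : Lvl P 15 135 nd15a) :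
    Lvl P 16 176 nd16a := by
  obtain ⟨o, ho, hd⟩ := step (t := 231) hP h H.c16 (by norm_num) n15a_ok
  have ho' : o = nd16a.low := List.mem_singleton.1 ho
  exact r16a hP H (hd nd16a ho'.symm rfl)

theorem r14a (hP : Diff1 P) (H : Sizes P) (h : Lvl P 14 101 nd14a) :
    Lvl P 16 176 nd16a := by
  obtain ⟨o, ho, hd⟩ := step (t := 176) hP h H.c15 (by norm_num) n14a_ok
  have ho' : o = nd15a.low := List.mem_singleton.1 ho
  exact r15a hP H (hd nd15a ho'.symm rfl)

theorem r13a (hP : Diff1 P) (H : Sizes P) (h : Lvl P 13 77 nd13a) :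
    Lvl P 16 176 nd16a := by
  obtain ⟨o, ho, hd⟩ := step (t := 135) hP h H.c14 (by norm_num) n13a_ok
  have ho' : o = nd14a.low := List.mem_singleton.1 ho
  exact r14a hP H (hd nd14a ho'.symm rfl)

theorem r12d (hP : Diff1 P) (H : Sizes P) (h : Lvl P 12 56 nd12d) :
    Lvl P 16 176 nd16a := by
  obtain ⟨o, ho, hd⟩ := step (t := 101) hP h H.c13 (by norm_num) n12d_ok
  exact absurd ho List.not_mem_nil

theorem r12c (hP : Diff1 P) (H : Sizes P) (h : Lvl P 12 56 nd12c) :
    Lvl P 16 176 nd16a := by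
  obtain ⟨o, ho, hd⟩ := step (t := 101) hP h H.c13 (by norm_num) n12c_ok
  exact absurd ho List.not_mem_nil

theorem r12b (hP : Diff1 P) (H : Sizes P) (h : Lvl P 12 56 nd12b) :
    Lvl P 16 176 nd16a := by
  obtain ⟨o, ho, hd⟩ := step (t := 101) hP h H.c13 (by norm_num) n12b_ok
  have ho' : o = nd13a.low := List.mem_singleton.1 ho
  exact r13a hP H (hd nd13a ho'.symm rfl)

theorem r12a (hP : Diff1 P) (H : Sizes P) (h : Lvl P 12 56 nd12a) :
    Lvl P 16 176 nd16a := by
  obtain ⟨o, ho, hd⟩ := step (t := 101) hP h H.c13 (by norm_num) n12a_ok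
  exact absurd ho List.not_mem_nil

theorem r11a (hP : Diff1 P) (H : Sizes P) (h : Lvl P 11 42 nd11a) :
    Lvl P 16 176 nd16a := by
  obtain ⟨o, ho, hd⟩ := step (t := 77) hP h H.c12 (by norm_num) n11a_ok
  simp only [List.mem_cons, List.not_mem_nil, or_false] at ho
  rcases ho with h1 | h1 | h1 | h1
  · exact r12a hP H (hd nd12a h1.symm rfl)
  · exact r12b hP H (hd nd12b h1.symm rfl)
  · exact r12c hP H (hd nd12c h1.symm rfl)
  · exact r12d hP H (hd nd12d h1.symm rfl)

theorem r10o (hP : Diff1 P) (H : Sizes P) (h : Lvl P 10 30 nd10o) :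
    Lvl P 16 176 nd16a := by
  obtain ⟨o, ho, hd⟩ := step (t := 56) hP h H.c11 (by norm_num) n10o_ok
  have ho' : o = nd11a.low := List.mem_singleton.1 ho
  exact r11a hP H (hd nd11a ho'.symm rfl)

theorem r10n (hP : Diff1 P) (H : Sizes P) (h : Lvl P 10 30 nd10n) :
    Lvl P 16 176 nd16a := by
  obtain ⟨o, ho, hd⟩ := step (t := 56) hP h H.c11 (by norm_num) n10n_ok
  exact absurd ho List.not_mem_nil

theorem r10m (hP : Diff1 P) (H : Sizes P) (h : Lvl P 10 30 nd10m) :
    Lvl P 16 176 nd16a := by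
  obtain ⟨o, ho, hd⟩ := step (t := 56) hP h H.c11 (by norm_num) n10m_ok
  exact absurd ho List.not_mem_nil

theorem r10l (hP : Diff1 P) (H : Sizes P) (h : Lvl P 10 30 nd10l) :
    Lvl P 16 176 nd16a := by
  obtain ⟨o, ho, hd⟩ := step (t := 56) hP h H.c11 (by norm_num) n10l_ok
  exact absurd ho List.not_mem_nil

theorem r10k (hP : Diff1 P) (H : Sizes P) (h : Lvl P 10 30 nd10k) :
    Lvl P 16 176 nd16a := by
  obtain ⟨o, ho, hd⟩ := step (t := 56) hP h H.c11 (by norm_num) n10k_ok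
  exact absurd ho List.not_mem_nil

theorem r10j (hP : Diff1 P) (H : Sizes P) (h : Lvl P 10 30 nd10j) :
    Lvl P 16 176 nd16a := by
  obtain ⟨o, ho, hd⟩ := step (t := 56) hP h H.c11 (by norm_num) n10j_ok
  exact absurd ho List.not_mem_nil

theorem r10i (hP : Diff1 P) (H : Sizes P) (h : Lvl P 10 30 nd10i) :
    Lvl P 16 176 nd16a := by
  obtain ⟨o, ho, hd⟩ := step (t := 56) hP h H.c11 (by norm_num) n10i_ok
  exact absurd ho List.not_mem_nil

theorem r10h (hP : Diff1 P) (H : Sizes P) (h : Lvl P 10 30 nd10h) :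
    Lvl P 16 176 nd16a := by
  obtain ⟨o, ho, hd⟩ := step (t := 56) hP h H.c11 (by norm_num) n10h_ok
  exact absurd ho List.not_mem_nil

theorem r10g (hP : Diff1 P) (H : Sizes P) (h : Lvl P 10 30 nd10g) :
    Lvl P 16 176 nd16a := by
  obtain ⟨o, ho, hd⟩ := step (t := 56) hP h H.c11 (by norm_num) n10g_ok
  exact absurd ho List.not_mem_nil

theorem r10f (hP : Diff1 P) (H : Sizes P) (h : Lvl P 10 30 nd10f) :
    Lvl P 16 176 nd16a := by
  obtain ⟨o, ho, hd⟩ := step (t := 56) hP h H.c11 (by norm_num) n10f_ok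
  exact absurd ho List.not_mem_nil

theorem r10e (hP : Diff1 P) (H : Sizes P) (h : Lvl P 10 30 nd10e) :
    Lvl P 16 176 nd16a := by
  obtain ⟨o, ho, hd⟩ := step (t := 56) hP h H.c11 (by norm_num) n10e_ok
  exact absurd ho List.not_mem_nil

theorem r10d (hP : Diff1 P) (H : Sizes P) (h : Lvl P 10 30 nd10d) :
    Lvl P 16 176 nd16a := by
  obtain ⟨o, ho, hd⟩ := step (t := 56) hP h H.c11 (by norm_num) n10d_ok
  exact absurd ho List.not_mem_nil

theorem r10c (hP : Diff1 P) (H : Sizes P) (h : Lvl P 10 30 nd10c) :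
    Lvl P 16 176 nd16a := by
  obtain ⟨o, ho, hd⟩ := step (t := 56) hP h H.c11 (by norm_num) n10c_ok
  exact absurd ho List.not_mem_nil

theorem r10b (hP : Diff1 P) (H : Sizes P) (h : Lvl P 10 30 nd10b) :
    Lvl P 16 176 nd16a := by
  obtain ⟨o, ho, hd⟩ := step (t := 56) hP h H.c11 (by norm_num) n10b_ok
  exact absurd ho List.not_mem_nil

theorem r10a (hP : Diff1 P) (H : Sizes P) (h : Lvl P 10 30 nd10a) :
    Lvl P 16 176 nd16a := by
  obtain ⟨o, ho, hd⟩ := step (t := 56) hP h H.c11 (by norm_num) n10a_ok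
  exact absurd ho List.not_mem_nil

theorem r9l (hP : Diff1 P) (H : Sizes P) (h : Lvl P 9 22 nd9l) :
    Lvl P 16 176 nd16a := by
  obtain ⟨o, ho, hd⟩ := step (t := 42) hP h H.c10 (by norm_num) n9l_ok
  simp only [List.mem_cons, List.not_mem_nil, or_false] at ho
  rcases ho with h1 | h1 | h1 | h1
  · exact r10l hP H (hd nd10l h1.symm rfl)
  · exact r10m hP H (hd nd10m h1.symm rfl)
  · exact r10n hP H (hd nd10n h1.symm rfl)
  · exact r10o hP H (hd nd10o h1.symm rfl)

theorem r9k (hP : Diff1 P) (H : Sizes P) (h : Lvl P 9 22 nd9k) :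
    Lvl P 16 176 nd16a := by
  obtain ⟨o, ho, hd⟩ := step (t := 42) hP h H.c10 (by norm_num) n9k_ok
  simp only [List.mem_cons, List.not_mem_nil, or_false] at ho
  rcases ho with h1 | h1 | h1
  · exact r10i hP H (hd nd10i h1.symm rfl)
  · exact r10j hP H (hd nd10j h1.symm rfl)
  · exact r10k hP H (hd nd10k h1.symm rfl)

theorem r9j (hP : Diff1 P) (H : Sizes P) (h : Lvl P 9 22 nd9j) :
    Lvl P 16 176 nd16a := by
  obtain ⟨o, ho, hd⟩ := step (t := 42) hP h H.c10 (by norm_num) n9j_ok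
  simp only [List.mem_cons, List.not_mem_nil, or_false] at ho
  rcases ho with h1 | h1
  · exact r10g hP H (hd nd10g h1.symm rfl)
  · exact r10h hP H (hd nd10h h1.symm rfl)

theorem r9i (hP : Diff1 P) (H : Sizes P) (h : Lvl P 9 22 nd9i) :
    Lvl P 16 176 nd16a := by
  obtain ⟨o, ho, hd⟩ := step (t := 42) hP h H.c10 (by norm_num) n9i_ok
  simp only [List.mem_cons, List.not_mem_nil, or_false] at ho
  rcases ho with h1 | h1
  · exact r10e hP H (hd nd10e h1.symm rfl)
  · exact r10f hP H (hd nd10f h1.symm rfl)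

theorem r9h (hP : Diff1 P) (H : Sizes P) (h : Lvl P 9 22 nd9h) :
    Lvl P 16 176 nd16a := by
  obtain ⟨o, ho, hd⟩ := step (t := 42) hP h H.c10 (by norm_num) n9h_ok
  exact absurd ho List.not_mem_nil

theorem r9g (hP : Diff1 P) (H : Sizes P) (h : Lvl P 9 22 nd9g) :
    Lvl P 16 176 nd16a := by
  obtain ⟨o, ho, hd⟩ := step (t := 42) hP h H.c10 (by norm_num) n9g_ok
  exact absurd ho List.not_mem_nil

theorem r9f (hP : Diff1 P) (H : Sizes P) (h : Lvl P 9 22 nd9f) :
    Lvl P 16 176 nd16a := by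
  obtain ⟨o, ho, hd⟩ := step (t := 42) hP h H.c10 (by norm_num) n9f_ok
  simp only [List.mem_cons, List.not_mem_nil, or_false] at ho
  rcases ho with h1 | h1
  · exact r10c hP H (hd nd10c h1.symm rfl)
  · exact r10d hP H (hd nd10d h1.symm rfl)

theorem r9e (hP : Diff1 P) (H : Sizes P) (h : Lvl P 9 22 nd9e) :
    Lvl P 16 176 nd16a := by
  obtain ⟨o, ho, hd⟩ := step (t := 42) hP h H.c10 (by norm_num) n9e_ok
  exact absurd ho List.not_mem_nil

theorem r9d (hP : Diff1 P) (H : Sizes P) (h : Lvl P 9 22 nd9d) :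
    Lvl P 16 176 nd16a := by
  obtain ⟨o, ho, hd⟩ := step (t := 42) hP h H.c10 (by norm_num) n9d_ok
  exact absurd ho List.not_mem_nil

theorem r9c (hP : Diff1 P) (H : Sizes P) (h : Lvl P 9 22 nd9c) :
    Lvl P 16 176 nd16a := by
  obtain ⟨o, ho, hd⟩ := step (t := 42) hP h H.c10 (by norm_num) n9c_ok
  exact absurd ho List.not_mem_nil

theorem r9b (hP : Diff1 P) (H : Sizes P) (h : Lvl P 9 22 nd9b) :
    Lvl P 16 176 nd16a := by
  obtain ⟨o, ho, hd⟩ := step (t := 42) hP h H.c10 (by norm_num) n9b_ok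
  simp only [List.mem_cons, List.not_mem_nil, or_false] at ho
  rcases ho with h1 | h1
  · exact r10a hP H (hd nd10a h1.symm rfl)
  · exact r10b hP H (hd nd10b h1.symm rfl)

theorem r9a (hP : Diff1 P) (H : Sizes P) (h : Lvl P 9 22 nd9a) :
    Lvl P 16 176 nd16a := by
  obtain ⟨o, ho, hd⟩ := step (t := 42) hP h H.c10 (by norm_num) n9a_ok
  exact absurd ho List.not_mem_nil

theorem r8e (hP : Diff1 P) (H : Sizes P) (h : Lvl P 8 15 nd8e) :
    Lvl P 16 176 nd16a := by
  obtain ⟨o, ho, hd⟩ := step (t := 30) hP h H.c9 (by norm_num) n8e_ok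
  exact absurd ho List.not_mem_nil

theorem r8d (hP : Diff1 P) (H : Sizes P) (h : Lvl P 8 15 nd8d) :
    Lvl P 16 176 nd16a := by
  obtain ⟨o, ho, hd⟩ := step (t := 30) hP h H.c9 (by norm_num) n8d_ok
  exact absurd ho List.not_mem_nil

theorem r8c (hP : Diff1 P) (H : Sizes P) (h : Lvl P 8 15 nd8c) :
    Lvl P 16 176 nd16a := by
  obtain ⟨o, ho, hd⟩ := step (t := 30) hP h H.c9 (by norm_num) n8c_ok
  simp only [List.mem_cons, List.not_mem_nil, or_false] at ho
  rcases ho with h1 | h1 | h1 | h1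
  · exact r9i hP H (hd nd9i h1.symm rfl)
  · exact r9j hP H (hd nd9j h1.symm rfl)
  · exact r9k hP H (hd nd9k h1.symm rfl)
  · exact r9l hP H (hd nd9l h1.symm rfl)

theorem r8b (hP : Diff1 P) (H : Sizes P) (h : Lvl P 8 15 nd8b) :
    Lvl P 16 176 nd16a := by
  obtain ⟨o, ho, hd⟩ := step (t := 30) hP h H.c9 (by norm_num) n8b_ok
  simp only [List.mem_cons, List.not_mem_nil, or_false] at ho
  rcases ho with h1 | h1 | h1 | h1
  · exact r9e hP H (hd nd9e h1.symm rfl)
  · exact r9f hP H (hd nd9f h1.symm rfl)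
  · exact r9g hP H (hd nd9g h1.symm rfl)
  · exact r9h hP H (hd nd9h h1.symm rfl)

theorem r8a (hP : Diff1 P) (H : Sizes P) (h : Lvl P 8 15 nd8a) :
    Lvl P 16 176 nd16a := by
  obtain ⟨o, ho, hd⟩ := step (t := 30) hP h H.c9 (by norm_num) n8a_ok
  simp only [List.mem_cons, List.not_mem_nil, or_false] at ho
  rcases ho with h1 | h1 | h1 | h1
  · exact r9a hP H (hd nd9a h1.symm rfl)
  · exact r9b hP H (hd nd9b h1.symm rfl)
  · exact r9c hP H (hd nd9c h1.symm rfl)
  · exact r9d hP H (hd nd9d h1.symm rfl)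

theorem r7a (hP : Diff1 P) (H : Sizes P) (h : Lvl P 7 11 nd7a) :
    Lvl P 16 176 nd16a := by
  obtain ⟨o, ho, hd⟩ := step (t := 22) hP h H.c8 (by norm_num) n7a_ok
  simp only [List.mem_cons, List.not_mem_nil, or_false] at ho
  rcases ho with h1 | h1 | h1 | h1 | h1
  · exact r8a hP H (hd nd8a h1.symm rfl)
  · exact r8b hP H (hd nd8b h1.symm rfl)
  · exact r8c hP H (hd nd8c h1.symm rfl)
  · exact r8d hP H (hd nd8d h1.symm rfl)
  · exact r8e hP H (hd nd8e h1.symm rfl)

theorem r6c (hP : Diff1 P) (H : Sizes P) (h : Lvl P 6 7 nd6c) :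
    Lvl P 16 176 nd16a := by
  obtain ⟨o, ho, hd⟩ := step (t := 15) hP h H.c7 (by norm_num) n6c_ok
  have ho' : o = nd7a.low := List.mem_singleton.1 ho
  exact r7a hP H (hd nd7a ho'.symm rfl)

theorem r6b (hP : Diff1 P) (H : Sizes P) (h : Lvl P 6 7 nd6b) :
    Lvl P 16 176 nd16a := by
  obtain ⟨o, ho, hd⟩ := step (t := 15) hP h H.c7 (by norm_num) n6b_ok
  exact absurd ho List.not_mem_nil

theorem r6a (hP : Diff1 P) (H : Sizes P) (h : Lvl P 6 7 nd6a) :
    Lvl P 16 176 nd16a := by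
  obtain ⟨o, ho, hd⟩ := step (t := 15) hP h H.c7 (by norm_num) n6a_ok
  exact absurd ho List.not_mem_nil

theorem r5a (hP : Diff1 P) (H : Sizes P) (h : Lvl P 5 5 nd5a) :
    Lvl P 16 176 nd16a := by
  obtain ⟨o, ho, hd⟩ := step (t := 11) hP h H.c6 (by norm_num) n5a_ok
  simp only [List.mem_cons, List.not_mem_nil, or_false] at ho
  rcases ho with h1 | h1 | h1
  · exact r6a hP H (hd nd6a h1.symm rfl)
  · exact r6b hP H (hd nd6b h1.symm rfl)
  · exact r6c hP H (hd nd6c h1.symm rfl)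

theorem r4a (hP : Diff1 P) (H : Sizes P) (h : Lvl P 4 3 nd4a) :
    Lvl P 16 176 nd16a := by
  obtain ⟨o, ho, hd⟩ := step (t := 7) hP h H.c5 (by norm_num) n4a_ok
  have ho' : o = nd5a.low := List.mem_singleton.1 ho
  exact r5a hP H (hd nd5a ho'.symm rfl)

theorem r3a (hP : Diff1 P) (H : Sizes P) (h : Lvl P 3 2 nd3a) :
    Lvl P 16 176 nd16a := by
  obtain ⟨o, ho, hd⟩ := step (t := 5) hP h H.c4 (by norm_num) n3a_ok
  have ho' : o = nd4a.low := List.mem_singleton.1 ho
  exact r4a hP H (hd nd4a ho'.symm rfl)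

theorem r2a (hP : Diff1 P) (H : Sizes P) (h : Lvl P 2 1 nd2a) :
    Lvl P 16 176 nd16a := by
  obtain ⟨o, ho, hd⟩ := step (t := 3) hP h H.c3 (by norm_num) n2a_ok
  have ho' : o = nd3a.low := List.mem_singleton.1 ho
  exact r3a hP H (hd nd3a ho'.symm rfl)

theorem r1a (hP : Diff1 P) (H : Sizes P) (h : Lvl P 1 1 nd1a) :
    Lvl P 16 176 nd16a := by
  obtain ⟨o, ho, hd⟩ := step (t := 2) hP h H.c2 (by norm_num) n1a_ok
  have ho' : o = nd2a.low := List.mem_singleton.1 ho
  exact r2a hP H (hd nd2a ho'.symm rfl)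

/-- There is no `1`-differential poset with the level sizes of Young's lattice up to level `16`
and `298` elements of rank `17`. -/
theorem no298 (hP : Diff1 P) (H : Sizes P)
    (h : Nat.card {z : P // grade ℕ z = 17} = 298) : False := by
  have h1 := r1a hP H (base hP nd1a rfl rfl H.c1)
  obtain ⟨o, ho, _⟩ := step (t := 298) hP h1 h (by norm_num) fin_ok
  exact absurd ho List.not_mem_nil

end

end Pool.Agent.helper63.DP
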