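import Pool.Agent.helper63.DP.Prog
import Mathlib.Algebra.BigOperators.Group.Multiset.Basic
import Mathlib.Data.Fintype.Card

/-!
# The certificate checker and its soundness
-/

namespace Pool.Agent.helper63.DP

/-- Data of a level: number of elements, lower covers, smaller neighbours (elements with a common
lower cover), sum of the numbers of upper covers, number of pairs with a common lower cover. -/
structure Nd : Type where
  N : ℕ
  low : RT (List ℕ)
  nb : RT (List ℕ)
  sd : ℕ
  ne : ℕ

/-- A dual certificate. -/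
structure Cert : Type where
  M : ℕ
  K2 : ℕ
  K : ℕ
  T : RT (ℕ × List ℕ)

/-- A certificate tree. -/
inductive Tr : Type where
  | cert (c : Cert) (n : Tr)
  | dead (c : Cert)
  | split (C : List ℕ) (a b : Tr)
  | solved (i : ℕ)
  | bad

/-- The neighbour data is correct. -/
noncomputable def graphOK (d : Nd) : Bool :=
  allN (fun y => d.low.getK y (fun ly => d.nb.getK y (fun ny =>
    (asc ny && lall (fun x => Nat.ble (Nat.succ x) y) ny) &&
      allN (fun x => d.low.getK x (fun lx =>
        Nat.beq (cm ly lx) (Bool.rec (motive := fun _ => ℕ) 0 1 (elem x ny)))) y))) d.N &&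
  (Nat.beq (sumN (fun x => d.low.getK x (fun l => len l + 1)) d.N) d.sd &&
  (Nat.beq (sumN (fun x => d.nb.getK x (fun l => len l)) d.N) d.ne &&
  Nat.ble d.N 256))

/-- The facts given by `graphOK`. -/
structure GOK (d : Nd) : Prop where
  asc : ∀ y < d.N, (d.nb.get y).Pairwise (· < ·)
  lt : ∀ y < d.N, ∀ x ∈ d.nb.get y, x < y
  cm : ∀ y < d.N, ∀ x < y, cm (d.low.get y) (d.low.get x) = if x ∈ d.nb.get y then 1 else 0
  sd : ∑ x ∈ Finset.range d.N, ((d.low.get x).length + 1) = d.sd
  ne : ∑ x ∈ Finset.range d.N, (d.nb.get x).length = d.ne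
  N : d.N ≤ 256

theorem graphOK_spec (d : Nd) (h : graphOK d = true) : GOK d := by
  unfold graphOK at h
  rw [Bool.and_eq_true, Bool.and_eq_true, Bool.and_eq_true] at h
  obtain ⟨h1, h2, h3, h4⟩ := h
  rw [allN_iff] at h1
  have h1' : ∀ y < d.N, (asc (d.nb.get y) = true ∧
      lall (fun x => Nat.ble (Nat.succ x) y) (d.nb.get y) = true) ∧
      ∀ x < y, Nat.beq (cm (d.low.get y) (d.low.get x))
        (Bool.rec (motive := fun _ => ℕ) 0 1 (elem x (d.nb.get y))) = true := by
    intro y hy
    have := h1 y hy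
    rw [RT.getK_eq, RT.getK_eq, Bool.and_eq_true, Bool.and_eq_true, allN_iff] at this
    refine ⟨this.1, ?_⟩
    intro x hx
    have h5 := this.2 x hx
    rw [RT.getK_eq] at h5
    exact h5
  refine ⟨fun y hy => asc_iff _ (h1' y hy).1.1, ?_, ?_, ?_, ?_, Nat.le_of_ble_eq_true h4⟩
  · intro y hy x hx
    exact Nat.le_of_ble_eq_true ((lall_iff _ _).1 (h1' y hy).1.2 x hx)
  · intro y hy x hx
    have h5 := Nat.eq_of_beq_eq_true ((h1' y hy).2 x hx)
    rw [h5]
    cases he : elem x (d.nb.get y)
    · have : ¬ x ∈ d.nb.get y := by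
        intro h'; rw [(elem_iff _ _).2 h'] at he; exact absurd he (by simp)
      rw [if_neg this]
    · rw [if_pos ((elem_iff _ _).1 he)]
  · have := Nat.eq_of_beq_eq_true h2
    rw [sumN_eq] at this
    rw [← this]
    apply Finset.sum_congr rfl
    intro x _
    rw [RT.getK_eq, len_eq]
  · have := Nat.eq_of_beq_eq_true h3
    rw [sumN_eq] at this
    rw [← this]
    apply Finset.sum_congr rfl
    intro x _
    rw [RT.getK_eq, len_eq]

/-- A family of sets (given as ascending lists) over the level `d`, which is locally like the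
family of sets of lower covers of the elements of the next level of a differential poset. -/
structure Fam (d : Nd) (t : ℕ) {ι : Type} [Fintype ι] (L : ι → List ℕ) : Prop where
  asc : ∀ i, (L i).Pairwise (· < ·)
  lt : ∀ i, ∀ x ∈ L i, x < d.N
  ne : ∀ i, L i ≠ []
  deg : ∀ x < d.N, (Finset.univ.filter (fun i => x ∈ L i)).card = (d.low.get x).length + 1
  pair : ∀ x < d.N, ∀ v < x,
    (Finset.univ.filter (fun i => x ∈ L i ∧ v ∈ L i)).card = cm (d.low.get x) (d.low.get v)
  card : Fintype.card ι = t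

theorem lv_eq (w : ℕ → ℕ) (y : ℕ → ℕ → ℕ) (C prev : List ℕ) (hC : C.Pairwise (· < ·)) :
    lv w y C prev = ∑ x ∈ C.toFinset, (w x + (prev.map (y x)).sum +
      ∑ u ∈ C.toFinset.filter (· < x), y x u) := by
  induction C generalizing prev with
  | nil => simp [lv]
  | cons x r ih =>
    rw [List.pairwise_cons] at hC
    have hx : x ∉ r.toFinset := by
      intro h
      exact absurd (hC.1 x (List.mem_toFinset.1 h)) (lt_irrefl x)
    have e : lv w y (x :: r) prev = w x + (prev.map (y x)).sum + lv w y r (x :: prev) := rfl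
    rw [e, ih _ hC.2, List.toFinset_cons, Finset.sum_insert hx]
    congr 1
    · have : (insert x r.toFinset).filter (· < x) = ∅ := by
        rw [Finset.filter_eq_empty_iff]
        intro z hz
        rcases Finset.mem_insert.1 hz with rfl | h
        · exact lt_irrefl _
        · exact not_lt.2 (le_of_lt (hC.1 z (List.mem_toFinset.1 h)))
      rw [this]; simp
    · apply Finset.sum_congr rfl
      intro z hz
      have hxz : x < z := hC.1 z (List.mem_toFinset.1 hz)
      rw [Finset.filter_insert, if_pos hxz, Finset.sum_insert (by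
        rw [Finset.mem_filter]; exact fun h => hx h.1)]
      simp only [List.map_cons, List.sum_cons]
      ring

section

variable {d : Nd} {t : ℕ} {ι : Type} [Fintype ι] {L : ι → List ℕ}

theorem total (hF : Fam d t L) (hg : GOK d) (w : ℕ → ℕ) (y : ℕ → ℕ → ℕ) :
    ∑ i, lv w y (L i) [] = ∑ x ∈ Finset.range d.N,
      (((d.low.get x).length + 1) * w x + ∑ u ∈ (d.nb.get x).toFinset, y x u) := by
  have h1 : ∀ i, lv w y (L i) [] = ∑ x ∈ Finset.range d.N,
      ((if x ∈ L i then w x else 0) +
        ∑ u ∈ Finset.range x, if x ∈ L i ∧ u ∈ L i then y x u else 0) := by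
    intro i
    rw [lv_eq _ _ _ _ (hF.asc i)]
    have hsub : (L i).toFinset = (Finset.range d.N).filter (fun x => x ∈ L i) := by
      ext x
      rw [List.mem_toFinset, Finset.mem_filter, Finset.mem_range]
      exact ⟨fun h => ⟨hF.lt i x h, h⟩, fun h => h.2⟩
    rw [show (∑ x ∈ (L i).toFinset, (w x + (List.map (y x) []).sum +
      ∑ u ∈ (L i).toFinset.filter (· < x), y x u)) =
      ∑ x ∈ (Finset.range d.N).filter (fun x => x ∈ L i), (w x +
      ∑ u ∈ (L i).toFinset.filter (· < x), y x u) by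
        rw [← hsub]; simp, Finset.sum_filter]
    apply Finset.sum_congr rfl
    intro x hx
    by_cases hxi : x ∈ L i
    · rw [if_pos hxi, if_pos hxi]
      congr 1
      have : (L i).toFinset.filter (· < x) = (Finset.range x).filter (fun u => u ∈ L i) := by
        ext u
        rw [Finset.mem_filter, Finset.mem_filter, Finset.mem_range, List.mem_toFinset]
        exact ⟨fun h => ⟨h.2, h.1⟩, fun h => ⟨h.2, h.1⟩⟩
      rw [this, Finset.sum_filter]
      apply Finset.sum_congr rfl
      intro u _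
      simp [hxi]
    · rw [if_neg hxi, if_neg hxi]
      symm
      rw [zero_add]
      apply Finset.sum_eq_zero
      intro u _
      simp [hxi]
  rw [Finset.sum_congr rfl (fun i _ => h1 i), Finset.sum_comm]
  apply Finset.sum_congr rfl
  intro x hx
  rw [Finset.mem_range] at hx
  rw [Finset.sum_add_distrib]
  congr 1
  · rw [← hF.deg x hx, ← Finset.sum_filter, Finset.sum_const, nsmul_eq_mul, Nat.cast_id]
  · rw [Finset.sum_comm]
    have h2 : ∀ u ∈ Finset.range x, ∑ i, (if x ∈ L i ∧ u ∈ L i then y x u else 0) =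
        if u ∈ d.nb.get x then y x u else 0 := by
      intro u hu
      rw [Finset.mem_range] at hu
      rw [← Finset.sum_filter, Finset.sum_const, nsmul_eq_mul, Nat.cast_id, hF.pair x hx u hu,
        hg.cm x hx u hu]
      split_ifs <;> simp
    rw [Finset.sum_congr rfl h2, ← Finset.sum_filter]
    apply Finset.sum_congr _ (fun _ _ => rfl)
    ext u
    rw [Finset.mem_filter, Finset.mem_range, List.mem_toFinset]
    exact ⟨fun h => h.2, fun h => ⟨hg.lt x hx u h, h⟩⟩

/-- Two members of the family sharing a pair are equal. -/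
theorem pairinj (hF : Fam d t L) (hg : GOK d) {i j : ι} {x v : ℕ} (hvx : v < x)
    (h1 : x ∈ L i) (h2 : v ∈ L i) (h3 : x ∈ L j) (h4 : v ∈ L j) : i = j := by
  have hx := hF.lt i x h1
  have h5 : (Finset.univ.filter (fun i => x ∈ L i ∧ v ∈ L i)).card ≤ 1 := by
    rw [hF.pair x hx v hvx, hg.cm x hx v hvx]
    split_ifs <;> omega
  rw [Finset.card_le_one] at h5
  exact h5 i (by simp [h1, h2]) j (by simp [h3, h4])

theorem biginj (hF : Fam d t L) (hg : GOK d) {i j : ι} (h : 2 ≤ (L i).length)
    (hij : L i = L j) : i = j := by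
  have ha := hF.asc i
  match hL : L i, h, ha with
  | [], h, _ => simp at h
  | [a], h, _ => simp at h
  | a :: b :: r, _, ha =>
    rw [List.pairwise_cons] at ha
    have hab := ha.1 b (by simp)
    exact pairinj hF hg hab (by rw [hL]; simp) (by rw [hL]; simp)
      (by rw [← hij, hL]; simp) (by rw [← hij, hL]; simp)

/-- The invariant of a state. -/
structure Inv (L : ι → List ℕ) (S : State) : Prop where
  mem : ∀ i, 2 ≤ (L i).length → ∃ b, (L i, b) ∈ S
  used : ∀ C, (C, true) ∈ S → ∃ i, L i = C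
  big : ∀ r ∈ S, 2 ≤ r.1.length

open Classical in
/-- The big members form a sub-multiset of the state. -/
theorem sub_state (hF : Fam d t L) (hg : GOK d) {S : State} (hS : Inv L S) :
    (Finset.univ.filter (fun i => 2 ≤ (L i).length)).val.map L ≤
      ((S.map Prod.fst : List (List ℕ)) : Multiset (List ℕ)) := by
  have hnd : ((Finset.univ.filter (fun i => 2 ≤ (L i).length)).val.map L).Nodup := by
    apply Multiset.Nodup.map_on
    · intro i hi j _ hij
      rw [Finset.mem_val, Finset.mem_filter] at hi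
      exact biginj hF hg hi.2 hij
    · exact Finset.nodup _
  rw [Multiset.le_iff_subset hnd]
  intro C hC
  rw [Multiset.mem_map] at hC
  obtain ⟨i, hi, rfl⟩ := hC
  rw [Finset.mem_val, Finset.mem_filter] at hi
  obtain ⟨b, hb⟩ := hS.mem i hi.2
  rw [Multiset.mem_coe, List.mem_map]
  exact ⟨_, hb, rfl⟩

open Classical in
theorem sub_erase (hF : Fam d t L) (hg : GOK d) {S : State} (hS : Inv L S) {C : List ℕ}
    (hC : ∀ i, L i ≠ C) :
    (Finset.univ.filter (fun i => 2 ≤ (L i).length)).val.map L ≤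
      ((S.map Prod.fst : List (List ℕ)) : Multiset (List ℕ)).erase C := by
  have hnd : ((Finset.univ.filter (fun i => 2 ≤ (L i).length)).val.map L).Nodup := by
    apply Multiset.Nodup.map_on
    · intro i hi j _ hij
      rw [Finset.mem_val, Finset.mem_filter] at hi
      exact biginj hF hg hi.2 hij
    · exact Finset.nodup _
  rw [Multiset.le_iff_subset hnd]
  intro C' hC'
  have h1 := Multiset.mem_of_le (sub_state hF hg hS) hC'
  rw [Multiset.mem_map] at hC'
  obtain ⟨i, _, rfl⟩ := hC'
  exact (Multiset.mem_erase_of_ne (hC i)).2 h1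

theorem sum_le_of_le {α : Type} (f : α → ℕ) {m n : Multiset α} (h : m ≤ n) :
    (m.map f).sum ≤ (n.map f).sum := by
  obtain ⟨u, rfl⟩ := Multiset.le_iff_exists_add.1 h
  rw [Multiset.map_add, Multiset.sum_add]
  exact Nat.le_add_right _ _

/-- Excess of a clique. -/
def exc (w : ℕ → ℕ) (y : ℕ → ℕ → ℕ) (M K2 K : ℕ) (C : List ℕ) : ℕ :=
  lv w y C [] - (M + lv (fun _ => K2) (fun _ _ => K) C [])

/-- Total excess of a state. -/
def Vof (w : ℕ → ℕ) (y : ℕ → ℕ → ℕ) (M K2 K : ℕ) (S : State) : ℕ :=
  (S.map (fun r => exc w y M K2 K r.1)).sum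

theorem small_exc (hF : Fam d t L) (w : ℕ → ℕ) (y : ℕ → ℕ → ℕ) (M K2 K : ℕ)
    (hw : ∀ x < d.N, w x ≤ M + K2) (i : ι) (hi : ¬ 2 ≤ (L i).length) :
    exc w y M K2 K (L i) = 0 := by
  have hne := hF.ne i
  have hlt := hF.lt i
  match hL : L i with
  | [] => exact absurd hL hne
  | [x] =>
    unfold exc
    simp only [lv, List.map_nil, List.sum_nil, add_zero]
    have := hw x (hlt x (by rw [hL]; simp))
    omega
  | a :: b :: r =>
    rw [hL] at hi
    simp at hi

open Classical in
theorem sum_exc (hF : Fam d t L) (w : ℕ → ℕ) (y : ℕ → ℕ → ℕ) (M K2 K : ℕ)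
    (hw : ∀ x < d.N, w x ≤ M + K2) :
    ∑ i, exc w y M K2 K (L i) =
      (((Finset.univ.filter (fun i => 2 ≤ (L i).length)).val.map L).map
        (exc w y M K2 K)).sum := by
  rw [Multiset.map_map]
  show _ = ∑ i ∈ Finset.univ.filter (fun i => 2 ≤ (L i).length), exc w y M K2 K (L i)
  symm
  apply Finset.sum_filter_of_ne
  intro i _ hne
  by_contra hcon
  exact hne (small_exc hF w y M K2 K hw i hcon)

theorem Vof_eq (w : ℕ → ℕ) (y : ℕ → ℕ → ℕ) (M K2 K : ℕ) (S : State) :
    Vof w y M K2 K S =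
      ((((S.map Prod.fst : List (List ℕ)) : Multiset (List ℕ)).map (exc w y M K2 K))).sum := by
  unfold Vof
  rw [Multiset.map_coe, Multiset.sum_coe, List.map_map]
  rfl

theorem balance (w : ℕ → ℕ) (y : ℕ → ℕ → ℕ) (M K2 K : ℕ) (hF : Fam d t L) :
    ∑ i, lv w y (L i) [] +
      ∑ i, ((M + lv (fun _ => K2) (fun _ _ => K) (L i) []) - lv w y (L i) []) =
    (M * t + ∑ i, lv (fun _ => K2) (fun _ _ => K) (L i) []) +
      ∑ i, exc w y M K2 K (L i) := by
  have h1 : M * t = ∑ _i : ι, M := by
    rw [Finset.sum_const, Finset.card_univ, hF.card, nsmul_eq_mul, Nat.cast_id, mul_comm]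
  rw [h1, ← Finset.sum_add_distrib, ← Finset.sum_add_distrib, ← Finset.sum_add_distrib]
  apply Finset.sum_congr rfl
  intro i _
  unfold exc
  omega

theorem ineq0 (hF : Fam d t L) (hg : GOK d) {S : State} (hS : Inv L S) (w : ℕ → ℕ)
    (y : ℕ → ℕ → ℕ) (M K2 K : ℕ) (hw : ∀ x < d.N, w x ≤ M + K2) :
    ∑ i, lv w y (L i) [] +
      ∑ i, ((M + lv (fun _ => K2) (fun _ _ => K) (L i) []) - lv w y (L i) []) ≤
    (M * t + ∑ i, lv (fun _ => K2) (fun _ _ => K) (L i) []) + Vof w y M K2 K S := by
  rw [balance w y M K2 K hF, sum_exc hF w y M K2 K hw, Vof_eq]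
  exact Nat.add_le_add_left (sum_le_of_le _ (sub_state hF hg hS)) _

theorem ineq1 (hF : Fam d t L) (hg : GOK d) {S : State} (hS : Inv L S) (w : ℕ → ℕ)
    (y : ℕ → ℕ → ℕ) (M K2 K : ℕ) (hw : ∀ x < d.N, w x ≤ M + K2) (i : ι) :
    ∑ i, lv w y (L i) [] +
      ((M + lv (fun _ => K2) (fun _ _ => K) (L i) []) - lv w y (L i) []) ≤
    (M * t + ∑ i, lv (fun _ => K2) (fun _ _ => K) (L i) []) + Vof w y M K2 K S := by
  refine le_trans (Nat.add_le_add_left ?_ _) (ineq0 hF hg hS w y M K2 K hw)
  exact Finset.single_le_sum (f := fun i => (M + lv (fun _ => K2) (fun _ _ => K) (L i) []) -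
    lv w y (L i) []) (fun _ _ => Nat.zero_le _) (Finset.mem_univ i)

open Classical in
theorem ineq2 (hF : Fam d t L) (hg : GOK d) {S : State} (hS : Inv L S) (w : ℕ → ℕ)
    (y : ℕ → ℕ → ℕ) (M K2 K : ℕ) (hw : ∀ x < d.N, w x ≤ M + K2) {C : List ℕ} {b : Bool}
    (hC : (C, b) ∈ S) (hun : ∀ i, L i ≠ C) :
    ∑ i, lv w y (L i) [] + exc w y M K2 K C ≤
    (M * t + ∑ i, lv (fun _ => K2) (fun _ _ => K) (L i) []) + Vof w y M K2 K S := by
  have h1 := balance w y M K2 K hF
  rw [sum_exc hF w y M K2 K hw] at h1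
  have h2 := sum_le_of_le (exc w y M K2 K) (sub_erase hF hg hS hun)
  have hmem : C ∈ ((S.map Prod.fst : List (List ℕ)) : Multiset (List ℕ)) := by
    rw [Multiset.mem_coe, List.mem_map]
    exact ⟨_, hC, rfl⟩
  have h3 : Vof w y M K2 K S = exc w y M K2 K C +
      ((((S.map Prod.fst : List (List ℕ)) : Multiset (List ℕ)).erase C).map
        (exc w y M K2 K)).sum := by
    rw [Vof_eq]
    conv_lhs => rw [← Multiset.cons_erase hmem]
    rw [Multiset.map_cons, Multiset.sum_cons]
  omega

end

end Pool.Agent.helper63.DP
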