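import Pool.Agent.helper63.DP.Sound

/-!
# Certificate data (generated)
-/

set_option maxRecDepth 100000
set_option linter.all false

namespace Pool.Agent.helper63.DP

open RT Tr

/-- Level data. -/
def nd1a : Nd :=
⟨1, (.leaf [0]), (.leaf []), 2, 0⟩

/-- Level data. -/
def nd2a : Nd :=
⟨2, (.node 1 (.leaf [0]) (.leaf [0])), (.node 1 (.leaf []) (.leaf [0])), 4, 1⟩

/-- Level data. -/
def nd3a : Nd :=
⟨3, (.node 1 (.leaf [0, 1]) (.node 2 (.leaf [0]) (.leaf [1]))), (.node 1 (.leaf []) (.node 2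
  (.leaf [0]) (.leaf [0]))), 7, 2⟩

/-- Level data. -/
def nd4a : Nd :=
⟨5, (.node 2 (.node 1 (.leaf [0, 1]) (.leaf [0, 2])) (.node 3 (.leaf [0]) (.node 4 (.leaf [1])
  (.leaf [2])))), (.node 2 (.node 1 (.leaf []) (.leaf [0])) (.node 3 (.leaf [0, 1]) (.node 4
  (.leaf [0]) (.leaf [1])))), 12, 5⟩

/-- Level data. -/
def nd5a : Nd :=
⟨7, (.node 3 (.node 1 (.leaf [0, 1]) (.node 2 (.leaf [1, 2]) (.leaf [0, 2]))) (.node 5 (.node 4
  (.leaf [0, 3]) (.leaf [1, 4])) (.node 6 (.leaf [3]) (.leaf [4])))), (.node 3 (.node 1 (.leaf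
  []) (.node 2 (.leaf [0]) (.leaf [0, 1]))) (.node 5 (.node 4 (.leaf [0, 2]) (.leaf [0, 1]))
  (.node 6 (.leaf [3]) (.leaf [4])))), 19, 9⟩

/-- Level data. -/
def nd6a : Nd :=
⟨11, (.node 5 (.node 2 (.node 1 (.leaf [0, 1]) (.leaf [1, 2])) (.node 3 (.leaf [0, 2, 3]) (.node
  4 (.leaf [1, 4]) (.leaf [0, 4])))) (.node 8 (.node 6 (.leaf [3, 5]) (.node 7 (.leaf [4, 6])
  (.leaf [2]))) (.node 9 (.leaf [3]) (.node 10 (.leaf [5]) (.leaf [6]))))), (.node 5 (.node 2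
  (.node 1 (.leaf []) (.leaf [0])) (.node 3 (.leaf [0, 1]) (.node 4 (.leaf [0, 1]) (.leaf [0, 2,
  3])))) (.node 8 (.node 6 (.leaf [2]) (.node 7 (.leaf [3, 4]) (.leaf [1, 2]))) (.node 9 (.leaf
  [2, 5]) (.node 10 (.leaf [5]) (.leaf [6]))))), 30, 17⟩

/-- Level data. -/
def nd6b : Nd :=
⟨11, (.node 5 (.node 2 (.node 1 (.leaf [1, 2]) (.leaf [0, 2])) (.node 3 (.leaf [2, 3]) (.node 4
  (.leaf [0, 3]) (.leaf [0, 1, 4])))) (.node 8 (.node 6 (.leaf [3, 5]) (.node 7 (.leaf [4, 6])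
  (.leaf [1]))) (.node 9 (.leaf [4]) (.node 10 (.leaf [5]) (.leaf [6]))))), (.node 5 (.node 2
  (.node 1 (.leaf []) (.leaf [0])) (.node 3 (.leaf [0, 1]) (.node 4 (.leaf [1, 2]) (.leaf [0, 1,
  3])))) (.node 8 (.node 6 (.leaf [2, 3]) (.node 7 (.leaf [4]) (.leaf [0, 4]))) (.node 9 (.leaf
  [4, 6]) (.node 10 (.leaf [5]) (.leaf [6]))))), 30, 17⟩

/-- Level data. -/
def nd6c : Nd :=
⟨11, (.node 5 (.node 2 (.node 1 (.leaf [0, 1, 2]) (.leaf [2, 3])) (.node 3 (.leaf [0, 3]) (.node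
  4 (.leaf [1, 4]) (.leaf [0, 4])))) (.node 8 (.node 6 (.leaf [3, 5]) (.node 7 (.leaf [4, 6])
  (.leaf [1]))) (.node 9 (.leaf [2]) (.node 10 (.leaf [5]) (.leaf [6]))))), (.node 5 (.node 2
  (.node 1 (.leaf []) (.leaf [0])) (.node 3 (.leaf [0, 1]) (.node 4 (.leaf [0]) (.leaf [0, 2,
  3])))) (.node 8 (.node 6 (.leaf [1, 2]) (.node 7 (.leaf [3, 4]) (.leaf [0, 3]))) (.node 9
  (.leaf [0, 1]) (.node 10 (.leaf [5]) (.leaf [6]))))), 30, 17⟩

/-- Level data. -/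
def nd7a : Nd :=
⟨15, (.node 7 (.node 3 (.node 1 (.leaf [0, 1, 2]) (.node 2 (.leaf [0, 3, 4]) (.leaf [2, 4])))
  (.node 5 (.node 4 (.leaf [2, 5]) (.leaf [1, 5])) (.node 6 (.leaf [4, 6]) (.leaf [3, 6]))))
  (.node 11 (.node 9 (.node 8 (.leaf [3, 7]) (.leaf [0, 7])) (.node 10 (.leaf [1, 8]) (.leaf [0,
  8]))) (.node 13 (.node 12 (.leaf [5, 9]) (.leaf [6, 10])) (.node 14 (.leaf [9]) (.leaf
  [10]))))), (.node 7 (.node 3 (.node 1 (.leaf []) (.node 2 (.leaf [0]) (.leaf [0, 1]))) (.node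
  5 (.node 4 (.leaf [0, 2]) (.leaf [0, 3])) (.node 6 (.leaf [1, 2]) (.leaf [1, 5])))) (.node 11
  (.node 9 (.node 8 (.leaf [1, 6]) (.leaf [0, 1, 7])) (.node 10 (.leaf [0, 4]) (.leaf [0, 1, 8,
  9]))) (.node 13 (.node 12 (.leaf [3, 4]) (.leaf [5, 6])) (.node 14 (.leaf [11]) (.leaf
  [12]))))), 45, 28⟩

/-- Level data. -/
def nd8a : Nd :=
⟨22, (.node 11 (.node 5 (.node 2 (.node 1 (.leaf [0, 1, 2]) (.leaf [2, 3])) (.node 3 (.leaf [0,
  3, 4]) (.node 4 (.leaf [2, 5]) (.leaf [1, 5, 6])))) (.node 8 (.node 6 (.leaf [6, 7]) (.node 7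
  (.leaf [1, 7, 8]) (.leaf [4, 9]))) (.node 9 (.leaf [0, 9]) (.node 10 (.leaf [9, 10]) (.leaf
  [0, 8, 10]))))) (.node 16 (.node 13 (.node 12 (.leaf [1, 10]) (.leaf [4, 11])) (.node 14
  (.leaf [3, 11]) (.node 15 (.leaf [6, 12]) (.leaf [5, 12])))) (.node 19 (.node 17 (.leaf [11,
  13]) (.node 18 (.leaf [12, 14]) (.leaf [7]))) (.node 20 (.leaf [8]) (.node 21 (.leaf [13])
  (.leaf [14])))))), (.node 11 (.node 5 (.node 2 (.node 1 (.leaf []) (.leaf [0])) (.node 3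
  (.leaf [0, 1]) (.node 4 (.leaf [0, 1]) (.leaf [0, 3])))) (.node 8 (.node 6 (.leaf [4]) (.node
  7 (.leaf [0, 4, 5]) (.leaf [2]))) (.node 9 (.leaf [0, 2, 7]) (.node 10 (.leaf [7, 8]) (.leaf
  [0, 2, 6, 8, 9]))))) (.node 16 (.node 13 (.node 12 (.leaf [0, 4, 6, 9, 10]) (.leaf [2, 7]))
  (.node 14 (.leaf [1, 2, 12]) (.node 15 (.leaf [4, 5]) (.leaf [3, 4, 14])))) (.node 19 (.node
  17 (.leaf [12, 13]) (.node 18 (.leaf [14, 15]) (.leaf [5, 6]))) (.node 20 (.leaf [6, 10])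
  (.node 21 (.leaf [16]) (.leaf [17])))))), 67, 47⟩

/-- Level data. -/
def nd8b : Nd :=
⟨22, (.node 11 (.node 5 (.node 2 (.node 1 (.leaf [0, 1, 2]) (.leaf [2, 3])) (.node 3 (.leaf [0,
  3, 4]) (.node 4 (.leaf [2, 5]) (.leaf [1, 5, 6])))) (.node 8 (.node 6 (.leaf [6, 7]) (.node 7
  (.leaf [1, 7]) (.leaf [7, 8]))) (.node 9 (.leaf [0, 8]) (.node 10 (.leaf [4, 9]) (.leaf [0, 9,
  10]))))) (.node 16 (.node 13 (.node 12 (.leaf [1, 8, 10]) (.leaf [4, 11])) (.node 14 (.leaf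
  [3, 11]) (.node 15 (.leaf [6, 12]) (.leaf [5, 12])))) (.node 19 (.node 17 (.leaf [11, 13])
  (.node 18 (.leaf [12, 14]) (.leaf [9]))) (.node 20 (.leaf [10]) (.node 21 (.leaf [13]) (.leaf
  [14])))))), (.node 11 (.node 5 (.node 2 (.node 1 (.leaf []) (.leaf [0])) (.node 3 (.leaf [0,
  1]) (.node 4 (.leaf [0, 1]) (.leaf [0, 3])))) (.node 8 (.node 6 (.leaf [4]) (.node 7 (.leaf
  [0, 4, 5]) (.leaf [5, 6]))) (.node 9 (.leaf [0, 2, 7]) (.node 10 (.leaf [2]) (.leaf [0, 2, 8,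
  9]))))) (.node 16 (.node 13 (.node 12 (.leaf [0, 4, 6, 7, 8, 10]) (.leaf [2, 9])) (.node 14
  (.leaf [1, 2, 12]) (.node 15 (.leaf [4, 5]) (.leaf [3, 4, 14])))) (.node 19 (.node 17 (.leaf
  [12, 13]) (.node 18 (.leaf [14, 15]) (.leaf [9, 10]))) (.node 20 (.leaf [10, 11]) (.node 21
  (.leaf [16]) (.leaf [17])))))), 67, 47⟩

/-- Level data. -/
def nd8c : Nd :=
⟨22, (.node 11 (.node 5 (.node 2 (.node 1 (.leaf [0, 1, 2]) (.leaf [2, 3])) (.node 3 (.leaf [0,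
  3, 4]) (.node 4 (.leaf [2, 5]) (.leaf [1, 5, 6])))) (.node 8 (.node 6 (.leaf [6, 7]) (.node 7
  (.leaf [1, 7, 8]) (.leaf [0, 8]))) (.node 9 (.leaf [4, 9]) (.node 10 (.leaf [0, 9, 10]) (.leaf
  [8, 10]))))) (.node 16 (.node 13 (.node 12 (.leaf [1, 10]) (.leaf [4, 11])) (.node 14 (.leaf
  [3, 11]) (.node 15 (.leaf [6, 12]) (.leaf [5, 12])))) (.node 19 (.node 17 (.leaf [11, 13])
  (.node 18 (.leaf [12, 14]) (.leaf [7]))) (.node 20 (.leaf [9]) (.node 21 (.leaf [13]) (.leaf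
  [14])))))), (.node 11 (.node 5 (.node 2 (.node 1 (.leaf []) (.leaf [0])) (.node 3 (.leaf [0,
  1]) (.node 4 (.leaf [0, 1]) (.leaf [0, 3])))) (.node 8 (.node 6 (.leaf [4]) (.node 7 (.leaf
  [0, 4, 5]) (.leaf [0, 2, 6]))) (.node 9 (.leaf [2]) (.node 10 (.leaf [0, 2, 7, 8]) (.leaf [6,
  7, 9]))))) (.node 16 (.node 13 (.node 12 (.leaf [0, 4, 6, 9, 10]) (.leaf [2, 8])) (.node 14
  (.leaf [1, 2, 12]) (.node 15 (.leaf [4, 5]) (.leaf [3, 4, 14])))) (.node 19 (.node 17 (.leaf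
  [12, 13]) (.node 18 (.leaf [14, 15]) (.leaf [5, 6]))) (.node 20 (.leaf [8, 9]) (.node 21
  (.leaf [16]) (.leaf [17])))))), 67, 47⟩

/-- Level data. -/
def nd8d : Nd :=
⟨22, (.node 11 (.node 5 (.node 2 (.node 1 (.leaf [0, 2]) (.leaf [2, 3])) (.node 3 (.leaf [0, 3,
  4]) (.node 4 (.leaf [1, 2, 5]) (.leaf [5, 6])))) (.node 8 (.node 6 (.leaf [1, 6, 7]) (.node 7
  (.leaf [7, 8]) (.leaf [0, 1, 8]))) (.node 9 (.leaf [4, 9]) (.node 10 (.leaf [0, 9, 10]) (.leaf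
  [8, 10]))))) (.node 16 (.node 13 (.node 12 (.leaf [1, 10]) (.leaf [4, 11])) (.node 14 (.leaf
  [3, 11]) (.node 15 (.leaf [6, 12]) (.leaf [5, 12])))) (.node 19 (.node 17 (.leaf [11, 13])
  (.node 18 (.leaf [12, 14]) (.leaf [7]))) (.node 20 (.leaf [9]) (.node 21 (.leaf [13]) (.leaf
  [14])))))), (.node 11 (.node 5 (.node 2 (.node 1 (.leaf []) (.leaf [0])) (.node 3 (.leaf [0,
  1]) (.node 4 (.leaf [0, 1]) (.leaf [3])))) (.node 8 (.node 6 (.leaf [3, 4]) (.node 7 (.leaf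
  [5]) (.leaf [0, 2, 3, 5, 6]))) (.node 9 (.leaf [2]) (.node 10 (.leaf [0, 2, 7, 8]) (.leaf [6,
  7, 9]))))) (.node 16 (.node 13 (.node 12 (.leaf [3, 5, 7, 9, 10]) (.leaf [2, 8])) (.node 14
  (.leaf [1, 2, 12]) (.node 15 (.leaf [4, 5]) (.leaf [3, 4, 14])))) (.node 19 (.node 17 (.leaf
  [12, 13]) (.node 18 (.leaf [14, 15]) (.leaf [5, 6]))) (.node 20 (.leaf [8, 9]) (.node 21
  (.leaf [16]) (.leaf [17])))))), 67, 47⟩

/-- Level data. -/
def nd8e : Nd :=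
⟨22, (.node 11 (.node 5 (.node 2 (.node 1 (.leaf [1, 2]) (.leaf [0, 2, 3])) (.node 3 (.leaf [3,
  4]) (.node 4 (.leaf [2, 5]) (.leaf [1, 5, 6])))) (.node 8 (.node 6 (.leaf [6, 7]) (.node 7
  (.leaf [1, 7, 8]) (.leaf [0, 8]))) (.node 9 (.leaf [0, 4, 9]) (.node 10 (.leaf [9, 10]) (.leaf
  [8, 10]))))) (.node 16 (.node 13 (.node 12 (.leaf [0, 1, 10]) (.leaf [4, 11])) (.node 14
  (.leaf [3, 11]) (.node 15 (.leaf [6, 12]) (.leaf [5, 12])))) (.node 19 (.node 17 (.leaf [11,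
  13]) (.node 18 (.leaf [12, 14]) (.leaf [7]))) (.node 20 (.leaf [9]) (.node 21 (.leaf [13])
  (.leaf [14])))))), (.node 11 (.node 5 (.node 2 (.node 1 (.leaf []) (.leaf [0])) (.node 3
  (.leaf [1]) (.node 4 (.leaf [0, 1]) (.leaf [0, 3])))) (.node 8 (.node 6 (.leaf [4]) (.node 7
  (.leaf [0, 4, 5]) (.leaf [1, 6]))) (.node 9 (.leaf [1, 2, 7]) (.node 10 (.leaf [8]) (.leaf [6,
  7, 9]))))) (.node 16 (.node 13 (.node 12 (.leaf [0, 1, 4, 6, 7, 8, 9, 10]) (.leaf [2, 8]))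
  (.node 14 (.leaf [1, 2, 12]) (.node 15 (.leaf [4, 5]) (.leaf [3, 4, 14])))) (.node 19 (.node
  17 (.leaf [12, 13]) (.node 18 (.leaf [14, 15]) (.leaf [5, 6]))) (.node 20 (.leaf [8, 9])
  (.node 21 (.leaf [16]) (.leaf [17])))))), 67, 47⟩

/-- Level data. -/
def nd9a : Nd :=
⟨30, (.node 15 (.node 7 (.node 3 (.node 1 (.leaf [0, 1]) (.node 2 (.leaf [1, 3]) (.leaf [0, 3,
  4]))) (.node 5 (.node 4 (.leaf [4, 5, 6]) (.leaf [7, 8])) (.node 6 (.leaf [0, 2, 8]) (.leaf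
  [7, 9])))) (.node 11 (.node 9 (.node 8 (.leaf [8, 9, 10]) (.leaf [2, 10])) (.node 10 (.leaf
  [0, 6, 10, 11]) (.leaf [9, 11]))) (.node 13 (.node 12 (.leaf [4, 11]) (.leaf [2, 7, 12]))
  (.node 14 (.leaf [12, 13]) (.leaf [1, 2, 13]))))) (.node 22 (.node 18 (.node 16 (.leaf [5,
  14]) (.node 17 (.leaf [4, 14, 15]) (.leaf [3, 15]))) (.node 20 (.node 19 (.leaf [13, 16])
  (.leaf [12, 16])) (.node 21 (.leaf [15, 17]) (.leaf [14, 17])))) (.node 26 (.node 24 (.node 23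
  (.leaf [6, 18]) (.leaf [5, 18])) (.node 25 (.leaf [10, 19]) (.leaf [6, 19]))) (.node 28 (.node
  27 (.leaf [16, 20]) (.leaf [17, 21])) (.node 29 (.leaf [20]) (.leaf [21])))))), (.node 15
  (.node 7 (.node 3 (.node 1 (.leaf []) (.node 2 (.leaf [0]) (.leaf [0, 1]))) (.node 5 (.node 4
  (.leaf [2]) (.leaf [])) (.node 6 (.leaf [0, 2, 4]) (.leaf [4])))) (.node 11 (.node 9 (.node 8
  (.leaf [4, 5, 6]) (.leaf [5, 7])) (.node 10 (.leaf [0, 2, 3, 5, 7, 8]) (.leaf [6, 7, 9])))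
  (.node 13 (.node 12 (.leaf [2, 3, 9, 10]) (.leaf [4, 5, 6, 8])) (.node 14 (.leaf [12]) (.leaf
  [0, 1, 5, 8, 12, 13]))))) (.node 22 (.node 18 (.node 16 (.leaf [3]) (.node 17 (.leaf [2, 3,
  11, 15]) (.leaf [1, 2, 16]))) (.node 20 (.node 19 (.leaf [13, 14]) (.leaf [12, 13, 18]))
  (.node 21 (.leaf [16, 17]) (.leaf [15, 16, 20])))) (.node 26 (.node 24 (.node 23 (.leaf [3,
  9]) (.leaf [3, 15, 22])) (.node 25 (.leaf [7, 8, 9]) (.leaf [3, 9, 22, 24]))) (.node 28 (.node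
  27 (.leaf [18, 19]) (.leaf [20, 21])) (.node 29 (.leaf [26]) (.leaf [27])))))), 97, 73⟩

/-- Level data. -/
def nd9b : Nd :=
⟨30, (.node 15 (.node 7 (.node 3 (.node 1 (.leaf [0, 1, 2]) (.node 2 (.leaf [1, 3]) (.leaf [0,
  3, 4]))) (.node 5 (.node 4 (.leaf [4, 5, 6]) (.leaf [2, 7])) (.node 6 (.leaf [0, 8]) (.leaf
  [7, 8, 9])))) (.node 11 (.node 9 (.node 8 (.leaf [9, 10]) (.leaf [2, 8, 10])) (.node 10 (.leaf
  [0, 6, 10, 11]) (.leaf [9, 11]))) (.node 13 (.node 12 (.leaf [4, 11]) (.leaf [7, 12])) (.node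
  14 (.leaf [2, 12, 13]) (.leaf [1, 13]))))) (.node 22 (.node 18 (.node 16 (.leaf [5, 14])
  (.node 17 (.leaf [4, 14, 15]) (.leaf [3, 15]))) (.node 20 (.node 19 (.leaf [13, 16]) (.leaf
  [12, 16])) (.node 21 (.leaf [15, 17]) (.leaf [14, 17])))) (.node 26 (.node 24 (.node 23 (.leaf
  [6, 18]) (.leaf [5, 18])) (.node 25 (.leaf [10, 19]) (.leaf [6, 19]))) (.node 28 (.node 27
  (.leaf [16, 20]) (.leaf [17, 21])) (.node 29 (.leaf [20]) (.leaf [21])))))), (.node 15 (.node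
  7 (.node 3 (.node 1 (.leaf []) (.node 2 (.leaf [0]) (.leaf [0, 1]))) (.node 5 (.node 4 (.leaf
  [2]) (.leaf [0])) (.node 6 (.leaf [0, 2]) (.leaf [4, 5])))) (.node 11 (.node 9 (.node 8 (.leaf
  [6]) (.leaf [0, 4, 5, 6, 7])) (.node 10 (.leaf [0, 2, 3, 5, 7, 8]) (.leaf [6, 7, 9]))) (.node
  13 (.node 12 (.leaf [2, 3, 9, 10]) (.leaf [4, 6])) (.node 14 (.leaf [0, 4, 8, 12]) (.leaf [0,
  1, 13]))))) (.node 22 (.node 18 (.node 16 (.leaf [3]) (.node 17 (.leaf [2, 3, 11, 15]) (.leaf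
  [1, 2, 16]))) (.node 20 (.node 19 (.leaf [13, 14]) (.leaf [12, 13, 18])) (.node 21 (.leaf [16,
  17]) (.leaf [15, 16, 20])))) (.node 26 (.node 24 (.node 23 (.leaf [3, 9]) (.leaf [3, 15, 22]))
  (.node 25 (.leaf [7, 8, 9]) (.leaf [3, 9, 22, 24]))) (.node 28 (.node 27 (.leaf [18, 19])
  (.leaf [20, 21])) (.node 29 (.leaf [26]) (.leaf [27])))))), 97, 73⟩

/-- Level data. -/
def nd9c : Nd :=
⟨30, (.node 15 (.node 7 (.node 3 (.node 1 (.leaf [0, 1, 2]) (.node 2 (.leaf [1, 3]) (.leaf [0,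
  3, 4]))) (.node 5 (.node 4 (.leaf [4, 5, 6]) (.leaf [2, 7, 8])) (.node 6 (.leaf [0, 8]) (.leaf
  [7, 9])))) (.node 11 (.node 9 (.node 8 (.leaf [8, 9, 10]) (.leaf [2, 10])) (.node 10 (.leaf
  [0, 6, 10, 11]) (.leaf [9, 11]))) (.node 13 (.node 12 (.leaf [4, 11]) (.leaf [7, 12])) (.node
  14 (.leaf [2, 12, 13]) (.leaf [1, 13]))))) (.node 22 (.node 18 (.node 16 (.leaf [5, 14])
  (.node 17 (.leaf [4, 14, 15]) (.leaf [3, 15]))) (.node 20 (.node 19 (.leaf [13, 16]) (.leaf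
  [12, 16])) (.node 21 (.leaf [15, 17]) (.leaf [14, 17])))) (.node 26 (.node 24 (.node 23 (.leaf
  [6, 18]) (.leaf [5, 18])) (.node 25 (.leaf [10, 19]) (.leaf [6, 19]))) (.node 28 (.node 27
  (.leaf [16, 20]) (.leaf [17, 21])) (.node 29 (.leaf [20]) (.leaf [21])))))), (.node 15 (.node
  7 (.node 3 (.node 1 (.leaf []) (.node 2 (.leaf [0]) (.leaf [0, 1]))) (.node 5 (.node 4 (.leaf
  [2]) (.leaf [0])) (.node 6 (.leaf [0, 2, 4]) (.leaf [4])))) (.node 11 (.node 9 (.node 8 (.leaf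
  [4, 5, 6]) (.leaf [0, 4, 7])) (.node 10 (.leaf [0, 2, 3, 5, 7, 8]) (.leaf [6, 7, 9]))) (.node
  13 (.node 12 (.leaf [2, 3, 9, 10]) (.leaf [4, 6])) (.node 14 (.leaf [0, 4, 8, 12]) (.leaf [0,
  1, 13]))))) (.node 22 (.node 18 (.node 16 (.leaf [3]) (.node 17 (.leaf [2, 3, 11, 15]) (.leaf
  [1, 2, 16]))) (.node 20 (.node 19 (.leaf [13, 14]) (.leaf [12, 13, 18])) (.node 21 (.leaf [16,
  17]) (.leaf [15, 16, 20])))) (.node 26 (.node 24 (.node 23 (.leaf [3, 9]) (.leaf [3, 15, 22]))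
  (.node 25 (.leaf [7, 8, 9]) (.leaf [3, 9, 22, 24]))) (.node 28 (.node 27 (.leaf [18, 19])
  (.leaf [20, 21])) (.node 29 (.leaf [26]) (.leaf [27])))))), 97, 73⟩

/-- Level data. -/
def nd9d : Nd :=
⟨30, (.node 15 (.node 7 (.node 3 (.node 1 (.leaf [0, 1, 2]) (.node 2 (.leaf [1, 3]) (.leaf [0,
  3, 4]))) (.node 5 (.node 4 (.leaf [4, 5, 6]) (.leaf [2, 7, 8])) (.node 6 (.leaf [8, 9]) (.leaf
  [7, 9])))) (.node 11 (.node 9 (.node 8 (.leaf [0, 8, 10]) (.leaf [2, 10])) (.node 10 (.leaf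
  [9, 10, 11]) (.leaf [0, 6, 11]))) (.node 13 (.node 12 (.leaf [4, 11]) (.leaf [7, 12])) (.node
  14 (.leaf [2, 12, 13]) (.leaf [1, 13]))))) (.node 22 (.node 18 (.node 16 (.leaf [5, 14])
  (.node 17 (.leaf [4, 14, 15]) (.leaf [3, 15]))) (.node 20 (.node 19 (.leaf [13, 16]) (.leaf
  [12, 16])) (.node 21 (.leaf [15, 17]) (.leaf [14, 17])))) (.node 26 (.node 24 (.node 23 (.leaf
  [6, 18]) (.leaf [5, 18])) (.node 25 (.leaf [6, 10, 19]) (.leaf [16, 20]))) (.node 28 (.node 27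
  (.leaf [17, 21]) (.leaf [19])) (.node 29 (.leaf [20]) (.leaf [21])))))), (.node 15 (.node 7
  (.node 3 (.node 1 (.leaf []) (.node 2 (.leaf [0]) (.leaf [0, 1]))) (.node 5 (.node 4 (.leaf
  [2]) (.leaf [0])) (.node 6 (.leaf [4]) (.leaf [4, 5])))) (.node 11 (.node 9 (.node 8 (.leaf
  [0, 2, 4, 5]) (.leaf [0, 4, 7])) (.node 10 (.leaf [5, 6, 7, 8]) (.leaf [0, 2, 3, 7, 9])))
  (.node 13 (.node 12 (.leaf [2, 3, 9, 10]) (.leaf [4, 6])) (.node 14 (.leaf [0, 4, 8, 12])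
  (.leaf [0, 1, 13]))))) (.node 22 (.node 18 (.node 16 (.leaf [3]) (.node 17 (.leaf [2, 3, 11,
  15]) (.leaf [1, 2, 16]))) (.node 20 (.node 19 (.leaf [13, 14]) (.leaf [12, 13, 18])) (.node 21
  (.leaf [16, 17]) (.leaf [15, 16, 20])))) (.node 26 (.node 24 (.node 23 (.leaf [3, 10]) (.leaf
  [3, 15, 22])) (.node 25 (.leaf [3, 7, 8, 9, 10, 22]) (.leaf [18, 19]))) (.node 28 (.node 27
  (.leaf [20, 21]) (.leaf [24])) (.node 29 (.leaf [25]) (.leaf [26])))))), 97, 73⟩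

/-- Level data. -/
def nd9e : Nd :=
⟨30, (.node 15 (.node 7 (.node 3 (.node 1 (.leaf [0, 1, 2]) (.node 2 (.leaf [1, 3]) (.leaf [0,
  3]))) (.node 5 (.node 4 (.leaf [5, 6]) (.leaf [0, 4, 6])) (.node 6 (.leaf [5, 7]) (.leaf [7,
  8])))) (.node 11 (.node 9 (.node 8 (.leaf [2, 8]) (.leaf [2, 9, 10])) (.node 10 (.leaf [0, 8,
  10, 11]) (.leaf [6, 7, 11]))) (.node 13 (.node 12 (.leaf [4, 11]) (.leaf [9, 12])) (.node 14
  (.leaf [2, 12, 13]) (.leaf [1, 13]))))) (.node 22 (.node 18 (.node 16 (.leaf [4, 5, 14])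
  (.node 17 (.leaf [14, 15]) (.leaf [3, 4, 15]))) (.node 20 (.node 19 (.leaf [13, 16]) (.leaf
  [12, 16])) (.node 21 (.leaf [15, 17]) (.leaf [14, 17])))) (.node 26 (.node 24 (.node 23 (.leaf
  [10, 18]) (.leaf [9, 18])) (.node 25 (.leaf [11, 19]) (.leaf [10, 19]))) (.node 28 (.node 27
  (.leaf [16, 20]) (.leaf [17, 21])) (.node 29 (.leaf [20]) (.leaf [21])))))), (.node 15 (.node
  7 (.node 3 (.node 1 (.leaf []) (.node 2 (.leaf [0]) (.leaf [0, 1]))) (.node 5 (.node 4 (.leaf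
  []) (.leaf [0, 2, 3])) (.node 6 (.leaf [3]) (.leaf [5])))) (.node 11 (.node 9 (.node 8 (.leaf
  [0, 6]) (.leaf [0, 7])) (.node 10 (.leaf [0, 2, 4, 6, 7, 8]) (.leaf [3, 4, 5, 6, 9]))) (.node
  13 (.node 12 (.leaf [4, 9, 10]) (.leaf [8])) (.node 14 (.leaf [0, 7, 8, 12]) (.leaf [0, 1,
  13]))))) (.node 22 (.node 18 (.node 16 (.leaf [3, 4, 5, 11]) (.node 17 (.leaf [15]) (.leaf [1,
  2, 4, 11, 15, 16]))) (.node 20 (.node 19 (.leaf [13, 14]) (.leaf [12, 13, 18])) (.node 21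
  (.leaf [16, 17]) (.leaf [15, 16, 20])))) (.node 26 (.node 24 (.node 23 (.leaf [8, 9]) (.leaf
  [8, 12, 22])) (.node 25 (.leaf [9, 10, 11]) (.leaf [8, 9, 22, 24]))) (.node 28 (.node 27
  (.leaf [18, 19]) (.leaf [20, 21])) (.node 29 (.leaf [26]) (.leaf [27])))))), 97, 73⟩

/-- Level data. -/
def nd9f : Nd :=
⟨30, (.node 15 (.node 7 (.node 3 (.node 1 (.leaf [0, 1, 2]) (.node 2 (.leaf [1, 3]) (.leaf [0,
  3, 4]))) (.node 5 (.node 4 (.leaf [4, 5]) (.leaf [0, 6])) (.node 6 (.leaf [5, 6, 7]) (.leaf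
  [7, 8])))) (.node 11 (.node 9 (.node 8 (.leaf [2, 8]) (.leaf [2, 9, 10])) (.node 10 (.leaf [0,
  8, 10, 11]) (.leaf [7, 11]))) (.node 13 (.node 12 (.leaf [4, 6, 11]) (.leaf [9, 12])) (.node
  14 (.leaf [2, 12, 13]) (.leaf [1, 13]))))) (.node 22 (.node 18 (.node 16 (.leaf [5, 14])
  (.node 17 (.leaf [4, 14, 15]) (.leaf [3, 15]))) (.node 20 (.node 19 (.leaf [13, 16]) (.leaf
  [12, 16])) (.node 21 (.leaf [15, 17]) (.leaf [14, 17])))) (.node 26 (.node 24 (.node 23 (.leaf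
  [10, 18]) (.leaf [9, 18])) (.node 25 (.leaf [11, 19]) (.leaf [10, 19]))) (.node 28 (.node 27
  (.leaf [16, 20]) (.leaf [17, 21])) (.node 29 (.leaf [20]) (.leaf [21])))))), (.node 15 (.node
  7 (.node 3 (.node 1 (.leaf []) (.node 2 (.leaf [0]) (.leaf [0, 1]))) (.node 5 (.node 4 (.leaf
  [2]) (.leaf [0, 2])) (.node 6 (.leaf [3, 4]) (.leaf [5])))) (.node 11 (.node 9 (.node 8 (.leaf
  [0, 6]) (.leaf [0, 7])) (.node 10 (.leaf [0, 2, 4, 6, 7, 8]) (.leaf [5, 6, 9]))) (.node 13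
  (.node 12 (.leaf [2, 3, 4, 5, 9, 10]) (.leaf [8])) (.node 14 (.leaf [0, 7, 8, 12]) (.leaf [0,
  1, 13]))))) (.node 22 (.node 18 (.node 16 (.leaf [3, 5]) (.node 17 (.leaf [2, 3, 11, 15])
  (.leaf [1, 2, 16]))) (.node 20 (.node 19 (.leaf [13, 14]) (.leaf [12, 13, 18])) (.node 21
  (.leaf [16, 17]) (.leaf [15, 16, 20])))) (.node 26 (.node 24 (.node 23 (.leaf [8, 9]) (.leaf
  [8, 12, 22])) (.node 25 (.leaf [9, 10, 11]) (.leaf [8, 9, 22, 24]))) (.node 28 (.node 27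
  (.leaf [18, 19]) (.leaf [20, 21])) (.node 29 (.leaf [26]) (.leaf [27])))))), 97, 73⟩

/-- Level data. -/
def nd9g : Nd :=
⟨30, (.node 15 (.node 7 (.node 3 (.node 1 (.leaf [0, 1, 2]) (.node 2 (.leaf [1, 3]) (.leaf [0,
  3, 4]))) (.node 5 (.node 4 (.leaf [4, 5, 6]) (.leaf [0, 6])) (.node 6 (.leaf [5, 7]) (.leaf
  [7, 8])))) (.node 11 (.node 9 (.node 8 (.leaf [2, 8]) (.leaf [2, 9, 10])) (.node 10 (.leaf [0,
  8, 10, 11]) (.leaf [6, 7, 11]))) (.node 13 (.node 12 (.leaf [4, 11]) (.leaf [9, 12])) (.node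
  14 (.leaf [2, 12, 13]) (.leaf [1, 13]))))) (.node 22 (.node 18 (.node 16 (.leaf [5, 14])
  (.node 17 (.leaf [4, 14, 15]) (.leaf [3, 15]))) (.node 20 (.node 19 (.leaf [13, 16]) (.leaf
  [12, 16])) (.node 21 (.leaf [15, 17]) (.leaf [14, 17])))) (.node 26 (.node 24 (.node 23 (.leaf
  [10, 18]) (.leaf [9, 18])) (.node 25 (.leaf [11, 19]) (.leaf [10, 19]))) (.node 28 (.node 27
  (.leaf [16, 20]) (.leaf [17, 21])) (.node 29 (.leaf [20]) (.leaf [21])))))), (.node 15 (.node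
  7 (.node 3 (.node 1 (.leaf []) (.node 2 (.leaf [0]) (.leaf [0, 1]))) (.node 5 (.node 4 (.leaf
  [2]) (.leaf [0, 2, 3])) (.node 6 (.leaf [3]) (.leaf [5])))) (.node 11 (.node 9 (.node 8 (.leaf
  [0, 6]) (.leaf [0, 7])) (.node 10 (.leaf [0, 2, 4, 6, 7, 8]) (.leaf [3, 4, 5, 6, 9]))) (.node
  13 (.node 12 (.leaf [2, 3, 9, 10]) (.leaf [8])) (.node 14 (.leaf [0, 7, 8, 12]) (.leaf [0, 1,
  13]))))) (.node 22 (.node 18 (.node 16 (.leaf [3, 5]) (.node 17 (.leaf [2, 3, 11, 15]) (.leaf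
  [1, 2, 16]))) (.node 20 (.node 19 (.leaf [13, 14]) (.leaf [12, 13, 18])) (.node 21 (.leaf [16,
  17]) (.leaf [15, 16, 20])))) (.node 26 (.node 24 (.node 23 (.leaf [8, 9]) (.leaf [8, 12, 22]))
  (.node 25 (.leaf [9, 10, 11]) (.leaf [8, 9, 22, 24]))) (.node 28 (.node 27 (.leaf [18, 19])
  (.leaf [20, 21])) (.node 29 (.leaf [26]) (.leaf [27])))))), 97, 73⟩

/-- Level data. -/
def nd9h : Nd :=
⟨30, (.node 15 (.node 7 (.node 3 (.node 1 (.leaf [0, 1, 2]) (.node 2 (.leaf [1, 3]) (.leaf [0,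
  3, 4]))) (.node 5 (.node 4 (.leaf [4, 5, 6]) (.leaf [6, 7])) (.node 6 (.leaf [5, 7]) (.leaf
  [2, 8])))) (.node 11 (.node 9 (.node 8 (.leaf [2, 9, 10]) (.leaf [0, 8, 10])) (.node 10 (.leaf
  [7, 8, 11]) (.leaf [0, 6, 11]))) (.node 13 (.node 12 (.leaf [4, 11]) (.leaf [9, 12])) (.node
  14 (.leaf [2, 12, 13]) (.leaf [1, 13]))))) (.node 22 (.node 18 (.node 16 (.leaf [5, 14])
  (.node 17 (.leaf [4, 14, 15]) (.leaf [3, 15]))) (.node 20 (.node 19 (.leaf [13, 16]) (.leaf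
  [12, 16])) (.node 21 (.leaf [15, 17]) (.leaf [14, 17])))) (.node 26 (.node 24 (.node 23 (.leaf
  [10, 18]) (.leaf [9, 18])) (.node 25 (.leaf [10, 11, 19]) (.leaf [16, 20]))) (.node 28 (.node
  27 (.leaf [17, 21]) (.leaf [19])) (.node 29 (.leaf [20]) (.leaf [21])))))), (.node 15 (.node 7
  (.node 3 (.node 1 (.leaf []) (.node 2 (.leaf [0]) (.leaf [0, 1]))) (.node 5 (.node 4 (.leaf
  [2]) (.leaf [3])) (.node 6 (.leaf [3, 4]) (.leaf [0])))) (.node 11 (.node 9 (.node 8 (.leaf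
  [0, 6]) (.leaf [0, 2, 6, 7])) (.node 10 (.leaf [4, 5, 6, 8]) (.leaf [0, 2, 3, 4, 8, 9])))
  (.node 13 (.node 12 (.leaf [2, 3, 9, 10]) (.leaf [7])) (.node 14 (.leaf [0, 6, 7, 12]) (.leaf
  [0, 1, 13]))))) (.node 22 (.node 18 (.node 16 (.leaf [3, 5]) (.node 17 (.leaf [2, 3, 11, 15])
  (.leaf [1, 2, 16]))) (.node 20 (.node 19 (.leaf [13, 14]) (.leaf [12, 13, 18])) (.node 21
  (.leaf [16, 17]) (.leaf [15, 16, 20])))) (.node 26 (.node 24 (.node 23 (.leaf [7, 8]) (.leaf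
  [7, 12, 22])) (.node 25 (.leaf [7, 8, 9, 10, 11, 22]) (.leaf [18, 19]))) (.node 28 (.node 27
  (.leaf [20, 21]) (.leaf [24])) (.node 29 (.leaf [25]) (.leaf [26])))))), 97, 73⟩

/-- Level data. -/
def nd9i : Nd :=
⟨30, (.node 15 (.node 7 (.node 3 (.node 1 (.leaf [0, 1, 2]) (.node 2 (.leaf [1, 3]) (.leaf [0,
  3, 4]))) (.node 5 (.node 4 (.leaf [4, 5]) (.leaf [0, 6, 7])) (.node 6 (.leaf [2, 7]) (.leaf
  [2, 8, 9])))) (.node 11 (.node 9 (.node 8 (.leaf [7, 9, 10]) (.leaf [6, 10])) (.node 10 (.leaf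
  [10, 11]) (.leaf [0, 9, 11]))) (.node 13 (.node 12 (.leaf [4, 6, 11]) (.leaf [8, 12])) (.node
  14 (.leaf [2, 12, 13]) (.leaf [1, 13]))))) (.node 22 (.node 18 (.node 16 (.leaf [5, 14])
  (.node 17 (.leaf [4, 14, 15]) (.leaf [3, 15]))) (.node 20 (.node 19 (.leaf [13, 16]) (.leaf
  [12, 16])) (.node 21 (.leaf [15, 17]) (.leaf [14, 17])))) (.node 26 (.node 24 (.node 23 (.leaf
  [5, 6, 18]) (.leaf [9, 19])) (.node 25 (.leaf [8, 19]) (.leaf [16, 20]))) (.node 28 (.node 27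
  (.leaf [17, 21]) (.leaf [18])) (.node 29 (.leaf [20]) (.leaf [21])))))), (.node 15 (.node 7
  (.node 3 (.node 1 (.leaf []) (.node 2 (.leaf [0]) (.leaf [0, 1]))) (.node 5 (.node 4 (.leaf
  [2]) (.leaf [0, 2])) (.node 6 (.leaf [0, 4]) (.leaf [0, 5])))) (.node 11 (.node 9 (.node 8
  (.leaf [4, 5, 6]) (.leaf [4, 7])) (.node 10 (.leaf [7, 8]) (.leaf [0, 2, 4, 6, 7, 9]))) (.node
  13 (.node 12 (.leaf [2, 3, 4, 8, 9, 10]) (.leaf [6])) (.node 14 (.leaf [0, 5, 6, 12]) (.leaf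
  [0, 1, 13]))))) (.node 22 (.node 18 (.node 16 (.leaf [3]) (.node 17 (.leaf [2, 3, 11, 15])
  (.leaf [1, 2, 16]))) (.node 20 (.node 19 (.leaf [13, 14]) (.leaf [12, 13, 18])) (.node 21
  (.leaf [16, 17]) (.leaf [15, 16, 20])))) (.node 26 (.node 24 (.node 23 (.leaf [3, 4, 8, 11,
  15]) (.leaf [6, 7, 10])) (.node 25 (.leaf [6, 12, 23]) (.leaf [18, 19]))) (.node 28 (.node 27
  (.leaf [20, 21]) (.leaf [22])) (.node 29 (.leaf [25]) (.leaf [26])))))), 97, 73⟩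

/-- Level data. -/
def nd9j : Nd :=
⟨30, (.node 15 (.node 7 (.node 3 (.node 1 (.leaf [0, 1, 2]) (.node 2 (.leaf [1, 3]) (.leaf [0,
  3, 4]))) (.node 5 (.node 4 (.leaf [4, 5, 6]) (.leaf [0, 6, 7])) (.node 6 (.leaf [2, 8]) (.leaf
  [2, 7, 9])))) (.node 11 (.node 9 (.node 8 (.leaf [9, 10]) (.leaf [7, 10])) (.node 10 (.leaf
  [6, 10, 11]) (.leaf [0, 9, 11]))) (.node 13 (.node 12 (.leaf [4, 11]) (.leaf [8, 12])) (.node
  14 (.leaf [2, 12, 13]) (.leaf [1, 13]))))) (.node 22 (.node 18 (.node 16 (.leaf [5, 14])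
  (.node 17 (.leaf [4, 14, 15]) (.leaf [3, 15]))) (.node 20 (.node 19 (.leaf [13, 16]) (.leaf
  [12, 16])) (.node 21 (.leaf [15, 17]) (.leaf [14, 17])))) (.node 26 (.node 24 (.node 23 (.leaf
  [6, 18]) (.leaf [5, 18])) (.node 25 (.leaf [8, 9, 19]) (.leaf [16, 20]))) (.node 28 (.node 27
  (.leaf [17, 21]) (.leaf [19])) (.node 29 (.leaf [20]) (.leaf [21])))))), (.node 15 (.node 7
  (.node 3 (.node 1 (.leaf []) (.node 2 (.leaf [0]) (.leaf [0, 1]))) (.node 5 (.node 4 (.leaf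
  [2]) (.leaf [0, 2, 3])) (.node 6 (.leaf [0]) (.leaf [0, 4, 5])))) (.node 11 (.node 9 (.node 8
  (.leaf [6]) (.leaf [4, 6, 7])) (.node 10 (.leaf [3, 4, 7, 8]) (.leaf [0, 2, 4, 6, 7, 9])))
  (.node 13 (.node 12 (.leaf [2, 3, 9, 10]) (.leaf [5])) (.node 14 (.leaf [0, 5, 6, 12]) (.leaf
  [0, 1, 13]))))) (.node 22 (.node 18 (.node 16 (.leaf [3]) (.node 17 (.leaf [2, 3, 11, 15])
  (.leaf [1, 2, 16]))) (.node 20 (.node 19 (.leaf [13, 14]) (.leaf [12, 13, 18])) (.node 21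
  (.leaf [16, 17]) (.leaf [15, 16, 20])))) (.node 26 (.node 24 (.node 23 (.leaf [3, 4, 9])
  (.leaf [3, 15, 22])) (.node 25 (.leaf [5, 6, 7, 10, 12]) (.leaf [18, 19]))) (.node 28 (.node
  27 (.leaf [20, 21]) (.leaf [24])) (.node 29 (.leaf [25]) (.leaf [26])))))), 97, 73⟩

/-- Level data. -/
def nd9k : Nd :=
⟨30, (.node 15 (.node 7 (.node 3 (.node 1 (.leaf [0, 1, 2]) (.node 2 (.leaf [1, 3]) (.leaf [0,
  3, 4]))) (.node 5 (.node 4 (.leaf [4, 5, 6]) (.leaf [2, 7])) (.node 6 (.leaf [2, 8, 9]) (.leaf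
  [0, 7, 9])))) (.node 11 (.node 9 (.node 8 (.leaf [6, 7, 10]) (.leaf [9, 10, 11])) (.node 10
  (.leaf [0, 6, 11]) (.leaf [4, 11]))) (.node 13 (.node 12 (.leaf [8, 12]) (.leaf [2, 12, 13]))
  (.node 14 (.leaf [1, 13]) (.leaf [5, 14]))))) (.node 22 (.node 18 (.node 16 (.leaf [4, 14,
  15]) (.node 17 (.leaf [3, 15]) (.leaf [13, 16]))) (.node 20 (.node 19 (.leaf [12, 16]) (.leaf
  [15, 17])) (.node 21 (.leaf [14, 17]) (.leaf [6, 18])))) (.node 26 (.node 24 (.node 23 (.leaf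
  [5, 18]) (.leaf [9, 19])) (.node 25 (.leaf [8, 19]) (.leaf [16, 20]))) (.node 28 (.node 27
  (.leaf [17, 21]) (.leaf [10])) (.node 29 (.leaf [20]) (.leaf [21])))))), (.node 15 (.node 7
  (.node 3 (.node 1 (.leaf []) (.node 2 (.leaf [0]) (.leaf [0, 1]))) (.node 5 (.node 4 (.leaf
  [2]) (.leaf [0])) (.node 6 (.leaf [0, 4]) (.leaf [0, 2, 4, 5])))) (.node 11 (.node 9 (.node 8
  (.leaf [3, 4, 6]) (.leaf [5, 6, 7])) (.node 10 (.leaf [0, 2, 3, 6, 7, 8]) (.leaf [2, 3, 8,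
  9]))) (.node 13 (.node 12 (.leaf [5]) (.leaf [0, 4, 5, 11])) (.node 14 (.leaf [0, 1, 12])
  (.leaf [3]))))) (.node 22 (.node 18 (.node 16 (.leaf [2, 3, 10, 14]) (.node 17 (.leaf [1, 2,
  15]) (.leaf [12, 13]))) (.node 20 (.node 19 (.leaf [11, 12, 17]) (.leaf [15, 16])) (.node 21
  (.leaf [14, 15, 19]) (.leaf [3, 7, 9])))) (.node 26 (.node 24 (.node 23 (.leaf [3, 14, 21])
  (.leaf [5, 6, 8])) (.node 25 (.leaf [5, 11, 23]) (.leaf [17, 18]))) (.node 28 (.node 27 (.leaf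
  [19, 20]) (.leaf [7, 8])) (.node 29 (.leaf [25]) (.leaf [26])))))), 97, 73⟩

/-- Level data. -/
def nd9l : Nd :=
⟨30, (.node 15 (.node 7 (.node 3 (.node 1 (.leaf [0, 1, 2]) (.node 2 (.leaf [1, 3]) (.leaf [0,
  3, 4]))) (.node 5 (.node 4 (.leaf [4, 5, 6]) (.leaf [0, 6, 7])) (.node 6 (.leaf [2, 7]) (.leaf
  [2, 8, 9])))) (.node 11 (.node 9 (.node 8 (.leaf [7, 9, 10]) (.leaf [6, 10, 11])) (.node 10
  (.leaf [0, 9, 11]) (.leaf [4, 11]))) (.node 13 (.node 12 (.leaf [8, 12]) (.leaf [2, 12, 13]))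
  (.node 14 (.leaf [1, 13]) (.leaf [5, 14]))))) (.node 22 (.node 18 (.node 16 (.leaf [4, 14,
  15]) (.node 17 (.leaf [3, 15]) (.leaf [13, 16]))) (.node 20 (.node 19 (.leaf [12, 16]) (.leaf
  [15, 17])) (.node 21 (.leaf [14, 17]) (.leaf [6, 18])))) (.node 26 (.node 24 (.node 23 (.leaf
  [5, 18]) (.leaf [9, 19])) (.node 25 (.leaf [8, 19]) (.leaf [16, 20]))) (.node 28 (.node 27
  (.leaf [17, 21]) (.leaf [10])) (.node 29 (.leaf [20]) (.leaf [21])))))), (.node 15 (.node 7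
  (.node 3 (.node 1 (.leaf []) (.node 2 (.leaf [0]) (.leaf [0, 1]))) (.node 5 (.node 4 (.leaf
  [2]) (.leaf [0, 2, 3])) (.node 6 (.leaf [0, 4]) (.leaf [0, 5])))) (.node 11 (.node 9 (.node 8
  (.leaf [4, 5, 6]) (.leaf [3, 4, 7])) (.node 10 (.leaf [0, 2, 4, 6, 7, 8]) (.leaf [2, 3, 8,
  9]))) (.node 13 (.node 12 (.leaf [6]) (.leaf [0, 5, 6, 11])) (.node 14 (.leaf [0, 1, 12])
  (.leaf [3]))))) (.node 22 (.node 18 (.node 16 (.leaf [2, 3, 10, 14]) (.node 17 (.leaf [1, 2,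
  15]) (.leaf [12, 13]))) (.node 20 (.node 19 (.leaf [11, 12, 17]) (.leaf [15, 16])) (.node 21
  (.leaf [14, 15, 19]) (.leaf [3, 4, 8])))) (.node 26 (.node 24 (.node 23 (.leaf [3, 14, 21])
  (.leaf [6, 7, 9])) (.node 25 (.leaf [6, 11, 23]) (.leaf [17, 18]))) (.node 28 (.node 27 (.leaf
  [19, 20]) (.leaf [7, 8])) (.node 29 (.leaf [25]) (.leaf [26])))))), 97, 73⟩

/-- Level data. -/
def nd10a : Nd :=
⟨42, (.node 21 (.node 10 (.node 5 (.node 2 (.node 1 (.leaf [0, 1, 2]) (.leaf [0, 4])) (.node 3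
  (.leaf [2, 5]) (.node 4 (.leaf [5, 6]) (.leaf [6, 7, 8])))) (.node 7 (.node 6 (.leaf [0, 5, 8,
  9]) (.leaf [7, 9, 10])) (.node 8 (.leaf [6, 10]) (.node 9 (.leaf [10, 11]) (.leaf [2, 3, 9,
  11]))))) (.node 15 (.node 12 (.node 11 (.leaf [4, 6, 12]) (.leaf [12, 13])) (.node 13 (.leaf
  [4, 8, 13]) (.node 14 (.leaf [0, 13, 14]) (.leaf [1, 14])))) (.node 18 (.node 16 (.leaf [3,
  15, 16]) (.node 17 (.leaf [11, 16]) (.leaf [2, 16, 17]))) (.node 19 (.leaf [1, 17]) (.node 20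
  (.leaf [14, 18]) (.leaf [13, 18, 19])))))) (.node 31 (.node 26 (.node 23 (.node 22 (.leaf [12,
  19]) (.leaf [17, 20])) (.node 24 (.leaf [16, 20, 21]) (.node 25 (.leaf [15, 21]) (.leaf [9,
  22])))) (.node 28 (.node 27 (.leaf [22, 23]) (.leaf [15, 23])) (.node 29 (.leaf [3, 23])
  (.node 30 (.leaf [8, 24]) (.leaf [7, 24]))))) (.node 36 (.node 33 (.node 32 (.leaf [9, 24,
  25]) (.leaf [3, 22, 25])) (.node 34 (.leaf [19, 26]) (.node 35 (.leaf [18, 26]) (.leaf [21,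
  27])))) (.node 39 (.node 37 (.leaf [20, 27]) (.node 38 (.leaf [26, 28]) (.leaf [27, 29])))
  (.node 40 (.leaf [25]) (.node 41 (.leaf [28]) (.leaf [29]))))))), (.node 21 (.node 10 (.node 5
  (.node 2 (.node 1 (.leaf []) (.leaf [0])) (.node 3 (.leaf [0]) (.node 4 (.leaf [2]) (.leaf
  [3])))) (.node 7 (.node 6 (.leaf [0, 1, 2, 3, 4]) (.leaf [4, 5])) (.node 8 (.leaf [3, 4, 6])
  (.node 9 (.leaf [6, 7]) (.leaf [0, 2, 5, 6, 8]))))) (.node 15 (.node 12 (.node 11 (.leaf [1,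
  3, 4, 7]) (.leaf [10])) (.node 13 (.leaf [1, 4, 5, 10, 11]) (.node 14 (.leaf [0, 1, 5, 11,
  12]) (.leaf [0, 13])))) (.node 18 (.node 16 (.leaf [9]) (.node 17 (.leaf [8, 9, 15]) (.leaf
  [0, 2, 9, 15, 16]))) (.node 19 (.leaf [0, 14, 17]) (.node 20 (.leaf [13, 14]) (.leaf [11, 12,
  13, 19])))))) (.node 31 (.node 26 (.node 23 (.node 22 (.leaf [10, 11, 20]) (.leaf [17, 18]))
  (.node 24 (.leaf [15, 16, 17, 22]) (.node 25 (.leaf [15, 23]) (.leaf [5, 6, 9])))) (.node 28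
  (.node 27 (.leaf [25]) (.leaf [15, 24, 26])) (.node 29 (.leaf [9, 15, 26, 27]) (.node 30
  (.leaf [4, 5, 12]) (.leaf [4, 6, 29]))))) (.node 36 (.node 33 (.node 32 (.leaf [5, 6, 9, 25,
  29, 30]) (.leaf [9, 15, 25, 26, 28, 31])) (.node 34 (.leaf [20, 21]) (.node 35 (.leaf [19, 20,
  33]) (.leaf [23, 24])))) (.node 39 (.node 37 (.leaf [22, 23, 35]) (.node 38 (.leaf [33, 34])
  (.leaf [35, 36]))) (.node 40 (.leaf [31, 32]) (.node 41 (.leaf [37]) (.leaf [38]))))))), 139,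
  114⟩

/-- Level data. -/
def nd10b : Nd :=
⟨42, (.node 21 (.node 10 (.node 5 (.node 2 (.node 1 (.leaf [0, 1, 2]) (.leaf [0, 4])) (.node 3
  (.leaf [2, 5]) (.node 4 (.leaf [5, 6]) (.leaf [6, 7, 8])))) (.node 7 (.node 6 (.leaf [0, 5, 8,
  9]) (.leaf [7, 9, 10])) (.node 8 (.leaf [6, 10]) (.node 9 (.leaf [10, 11]) (.leaf [2, 3, 9,
  11]))))) (.node 15 (.node 12 (.node 11 (.leaf [4, 6, 12]) (.leaf [12, 13])) (.node 13 (.leaf
  [4, 8, 13]) (.node 14 (.leaf [0, 13, 14]) (.leaf [1, 14])))) (.node 18 (.node 16 (.leaf [3,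
  15, 16]) (.node 17 (.leaf [11, 16]) (.leaf [2, 16, 17]))) (.node 19 (.leaf [1, 17]) (.node 20
  (.leaf [14, 18]) (.leaf [13, 18, 19])))))) (.node 31 (.node 26 (.node 23 (.node 22 (.leaf [12,
  19]) (.leaf [17, 20])) (.node 24 (.leaf [16, 20, 21]) (.node 25 (.leaf [15, 21]) (.leaf [9,
  22])))) (.node 28 (.node 27 (.leaf [3, 22, 23]) (.leaf [15, 23])) (.node 29 (.leaf [8, 24])
  (.node 30 (.leaf [7, 24]) (.leaf [9, 24, 25]))))) (.node 36 (.node 33 (.node 32 (.leaf [22,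
  25]) (.leaf [3, 25])) (.node 34 (.leaf [19, 26]) (.node 35 (.leaf [18, 26]) (.leaf [21,
  27])))) (.node 39 (.node 37 (.leaf [20, 27]) (.node 38 (.leaf [26, 28]) (.leaf [27, 29])))
  (.node 40 (.leaf [23]) (.node 41 (.leaf [28]) (.leaf [29]))))))), (.node 21 (.node 10 (.node 5
  (.node 2 (.node 1 (.leaf []) (.leaf [0])) (.node 3 (.leaf [0]) (.node 4 (.leaf [2]) (.leaf
  [3])))) (.node 7 (.node 6 (.leaf [0, 1, 2, 3, 4]) (.leaf [4, 5])) (.node 8 (.leaf [3, 4, 6])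
  (.node 9 (.leaf [6, 7]) (.leaf [0, 2, 5, 6, 8]))))) (.node 15 (.node 12 (.node 11 (.leaf [1,
  3, 4, 7]) (.leaf [10])) (.node 13 (.leaf [1, 4, 5, 10, 11]) (.node 14 (.leaf [0, 1, 5, 11,
  12]) (.leaf [0, 13])))) (.node 18 (.node 16 (.leaf [9]) (.node 17 (.leaf [8, 9, 15]) (.leaf
  [0, 2, 9, 15, 16]))) (.node 19 (.leaf [0, 14, 17]) (.node 20 (.leaf [13, 14]) (.leaf [11, 12,
  13, 19])))))) (.node 31 (.node 26 (.node 23 (.node 22 (.leaf [10, 11, 20]) (.leaf [17, 18]))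
  (.node 24 (.leaf [15, 16, 17, 22]) (.node 25 (.leaf [15, 23]) (.leaf [5, 6, 9])))) (.node 28
  (.node 27 (.leaf [9, 15, 25]) (.leaf [15, 24, 26])) (.node 29 (.leaf [4, 5, 12]) (.node 30
  (.leaf [4, 6, 28]) (.leaf [5, 6, 9, 25, 28, 29]))))) (.node 36 (.node 33 (.node 32 (.leaf [25,
  26, 30]) (.leaf [9, 15, 26, 30, 31])) (.node 34 (.leaf [20, 21]) (.node 35 (.leaf [19, 20,
  33]) (.leaf [23, 24])))) (.node 39 (.node 37 (.leaf [22, 23, 35]) (.node 38 (.leaf [33, 34])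
  (.leaf [35, 36]))) (.node 40 (.leaf [26, 27]) (.node 41 (.leaf [37]) (.leaf [38]))))))), 139,
  114⟩

/-- Level data. -/
def nd10c : Nd :=
⟨42, (.node 21 (.node 10 (.node 5 (.node 2 (.node 1 (.leaf [0, 1, 2]) (.leaf [2, 3])) (.node 3
  (.leaf [0, 4]) (.node 4 (.leaf [4, 5]) (.leaf [5, 6])))) (.node 7 (.node 6 (.leaf [6, 7])
  (.leaf [0, 7, 8, 9])) (.node 8 (.leaf [6, 9, 10]) (.node 9 (.leaf [5, 10, 11]) (.leaf [2, 4,
  9, 11]))))) (.node 15 (.node 12 (.node 11 (.leaf [8, 12, 13]) (.leaf [7, 13])) (.node 13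
  (.leaf [0, 13, 14]) (.node 14 (.leaf [1, 14]) (.leaf [3, 5, 15])))) (.node 18 (.node 16 (.leaf
  [15, 16]) (.node 17 (.leaf [3, 11, 16]) (.leaf [2, 16, 17]))) (.node 19 (.leaf [1, 17]) (.node
  20 (.leaf [14, 18]) (.leaf [13, 18, 19])))))) (.node 31 (.node 26 (.node 23 (.node 22 (.leaf
  [12, 19]) (.leaf [17, 20])) (.node 24 (.leaf [16, 20, 21]) (.node 25 (.leaf [15, 21]) (.leaf
  [9, 22])))) (.node 28 (.node 27 (.leaf [22, 23]) (.leaf [12, 23])) (.node 29 (.leaf [8, 23])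
  (.node 30 (.leaf [11, 24]) (.leaf [10, 24]))))) (.node 36 (.node 33 (.node 32 (.leaf [9, 24,
  25]) (.leaf [8, 22, 25])) (.node 34 (.leaf [19, 26]) (.node 35 (.leaf [18, 26]) (.leaf [21,
  27])))) (.node 39 (.node 37 (.leaf [20, 27]) (.node 38 (.leaf [26, 28]) (.leaf [27, 29])))
  (.node 40 (.leaf [25]) (.node 41 (.leaf [28]) (.leaf [29]))))))), (.node 21 (.node 10 (.node 5
  (.node 2 (.node 1 (.leaf []) (.leaf [0])) (.node 3 (.leaf [0]) (.node 4 (.leaf [2]) (.leaf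
  [3])))) (.node 7 (.node 6 (.leaf [4]) (.leaf [0, 2, 5])) (.node 8 (.leaf [4, 5, 6]) (.node 9
  (.leaf [3, 4, 7]) (.leaf [0, 1, 2, 3, 6, 7, 8]))))) (.node 15 (.node 12 (.node 11 (.leaf [6])
  (.leaf [5, 6, 10])) (.node 13 (.leaf [0, 2, 6, 10, 11]) (.node 14 (.leaf [0, 12]) (.leaf [1,
  3, 4, 8])))) (.node 18 (.node 16 (.leaf [14]) (.node 17 (.leaf [1, 8, 9, 14, 15]) (.leaf [0,
  1, 9, 15, 16]))) (.node 19 (.leaf [0, 13, 17]) (.node 20 (.leaf [12, 13]) (.leaf [10, 11, 12,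
  19])))))) (.node 31 (.node 26 (.node 23 (.node 22 (.leaf [10, 20]) (.leaf [17, 18])) (.node 24
  (.leaf [15, 16, 17, 22]) (.node 25 (.leaf [14, 15, 23]) (.leaf [6, 7, 9])))) (.node 28 (.node
  27 (.leaf [25]) (.leaf [10, 21, 26])) (.node 29 (.leaf [6, 10, 26, 27]) (.node 30 (.leaf [8,
  9, 16]) (.leaf [7, 8, 29]))))) (.node 36 (.node 33 (.node 32 (.leaf [6, 7, 9, 25, 29, 30])
  (.leaf [6, 10, 25, 26, 28, 31])) (.node 34 (.leaf [20, 21]) (.node 35 (.leaf [19, 20, 33])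
  (.leaf [23, 24])))) (.node 39 (.node 37 (.leaf [22, 23, 35]) (.node 38 (.leaf [33, 34]) (.leaf
  [35, 36]))) (.node 40 (.leaf [31, 32]) (.node 41 (.leaf [37]) (.leaf [38]))))))), 139, 114⟩

/-- Level data. -/
def nd10d : Nd :=
⟨42, (.node 21 (.node 10 (.node 5 (.node 2 (.node 1 (.leaf [0, 1, 2]) (.leaf [2, 3])) (.node 3
  (.leaf [0, 4]) (.node 4 (.leaf [4, 5]) (.leaf [5, 6])))) (.node 7 (.node 6 (.leaf [6, 7])
  (.leaf [0, 7, 8, 9])) (.node 8 (.leaf [6, 9, 10]) (.node 9 (.leaf [5, 10, 11]) (.leaf [2, 4,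
  9, 11]))))) (.node 15 (.node 12 (.node 11 (.leaf [8, 12, 13]) (.leaf [7, 13])) (.node 13
  (.leaf [0, 13, 14]) (.node 14 (.leaf [1, 14]) (.leaf [3, 5, 15])))) (.node 18 (.node 16 (.leaf
  [15, 16]) (.node 17 (.leaf [3, 11, 16]) (.leaf [2, 16, 17]))) (.node 19 (.leaf [1, 17]) (.node
  20 (.leaf [14, 18]) (.leaf [13, 18, 19])))))) (.node 31 (.node 26 (.node 23 (.node 22 (.leaf
  [12, 19]) (.leaf [17, 20])) (.node 24 (.leaf [16, 20, 21]) (.node 25 (.leaf [15, 21]) (.leaf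
  [9, 22])))) (.node 28 (.node 27 (.leaf [8, 22, 23]) (.leaf [12, 23])) (.node 29 (.leaf [11,
  24]) (.node 30 (.leaf [10, 24]) (.leaf [9, 24, 25]))))) (.node 36 (.node 33 (.node 32 (.leaf
  [22, 25]) (.leaf [8, 25])) (.node 34 (.leaf [19, 26]) (.node 35 (.leaf [18, 26]) (.leaf [21,
  27])))) (.node 39 (.node 37 (.leaf [20, 27]) (.node 38 (.leaf [26, 28]) (.leaf [27, 29])))
  (.node 40 (.leaf [23]) (.node 41 (.leaf [28]) (.leaf [29]))))))), (.node 21 (.node 10 (.node 5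
  (.node 2 (.node 1 (.leaf []) (.leaf [0])) (.node 3 (.leaf [0]) (.node 4 (.leaf [2]) (.leaf
  [3])))) (.node 7 (.node 6 (.leaf [4]) (.leaf [0, 2, 5])) (.node 8 (.leaf [4, 5, 6]) (.node 9
  (.leaf [3, 4, 7]) (.leaf [0, 1, 2, 3, 6, 7, 8]))))) (.node 15 (.node 12 (.node 11 (.leaf [6])
  (.leaf [5, 6, 10])) (.node 13 (.leaf [0, 2, 6, 10, 11]) (.node 14 (.leaf [0, 12]) (.leaf [1,
  3, 4, 8])))) (.node 18 (.node 16 (.leaf [14]) (.node 17 (.leaf [1, 8, 9, 14, 15]) (.leaf [0,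
  1, 9, 15, 16]))) (.node 19 (.leaf [0, 13, 17]) (.node 20 (.leaf [12, 13]) (.leaf [10, 11, 12,
  19])))))) (.node 31 (.node 26 (.node 23 (.node 22 (.leaf [10, 20]) (.leaf [17, 18])) (.node 24
  (.leaf [15, 16, 17, 22]) (.node 25 (.leaf [14, 15, 23]) (.leaf [6, 7, 9])))) (.node 28 (.node
  27 (.leaf [6, 10, 25]) (.leaf [10, 21, 26])) (.node 29 (.leaf [8, 9, 16]) (.node 30 (.leaf [7,
  8, 28]) (.leaf [6, 7, 9, 25, 28, 29]))))) (.node 36 (.node 33 (.node 32 (.leaf [25, 26, 30])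
  (.leaf [6, 10, 26, 30, 31])) (.node 34 (.leaf [20, 21]) (.node 35 (.leaf [19, 20, 33]) (.leaf
  [23, 24])))) (.node 39 (.node 37 (.leaf [22, 23, 35]) (.node 38 (.leaf [33, 34]) (.leaf [35,
  36]))) (.node 40 (.leaf [26, 27]) (.node 41 (.leaf [37]) (.leaf [38]))))))), 139, 114⟩

/-- Level data. -/
def nd10e : Nd :=
⟨42, (.node 21 (.node 10 (.node 5 (.node 2 (.node 1 (.leaf [0, 1, 2]) (.leaf [2, 3])) (.node 3
  (.leaf [0, 4, 5]) (.node 4 (.leaf [5, 7]) (.leaf [4, 7, 8])))) (.node 7 (.node 6 (.leaf [8,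
  9]) (.leaf [7, 9, 10])) (.node 8 (.leaf [0, 6, 10]) (.node 9 (.leaf [2, 4, 10, 11]) (.leaf [9,
  11]))))) (.node 15 (.node 12 (.node 11 (.leaf [12, 13]) (.leaf [5, 6, 13])) (.node 13 (.leaf
  [0, 13, 14]) (.node 14 (.leaf [1, 14]) (.leaf [15, 16])))) (.node 18 (.node 16 (.leaf [3, 11,
  16]) (.node 17 (.leaf [2, 16, 17]) (.leaf [1, 17]))) (.node 19 (.leaf [14, 18]) (.node 20
  (.leaf [13, 18, 19]) (.leaf [12, 19])))))) (.node 31 (.node 26 (.node 23 (.node 22 (.leaf [17,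
  20]) (.leaf [16, 20, 21])) (.node 24 (.leaf [15, 21]) (.node 25 (.leaf [3, 15, 22]) (.leaf [8,
  11, 22])))) (.node 28 (.node 27 (.leaf [4, 22]) (.leaf [10, 23])) (.node 29 (.leaf [6, 7, 23])
  (.node 30 (.leaf [23, 24]) (.leaf [6, 12, 24]))))) (.node 36 (.node 33 (.node 32 (.leaf [19,
  25]) (.leaf [18, 25])) (.node 34 (.leaf [21, 26]) (.node 35 (.leaf [20, 26]) (.leaf [22,
  27])))) (.node 39 (.node 37 (.leaf [25, 28]) (.node 38 (.leaf [26, 29]) (.leaf [24]))) (.node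
  40 (.leaf [27]) (.node 41 (.leaf [28]) (.leaf [29]))))))), (.node 21 (.node 10 (.node 5 (.node
  2 (.node 1 (.leaf []) (.leaf [0])) (.node 3 (.leaf [0]) (.node 4 (.leaf [2]) (.leaf [2, 3]))))
  (.node 7 (.node 6 (.leaf [4]) (.leaf [3, 4, 5])) (.node 8 (.leaf [0, 2, 6]) (.node 9 (.leaf
  [0, 1, 2, 4, 6, 7]) (.leaf [5, 6, 8]))))) (.node 15 (.node 12 (.node 11 (.leaf []) (.leaf [2,
  3, 7, 10])) (.node 13 (.leaf [0, 2, 7, 10, 11]) (.node 14 (.leaf [0, 12]) (.leaf [])))) (.node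
  18 (.node 16 (.leaf [1, 8, 9, 14]) (.node 17 (.leaf [0, 1, 8, 14, 15]) (.leaf [0, 13, 16])))
  (.node 19 (.leaf [12, 13]) (.node 20 (.leaf [10, 11, 12, 18]) (.leaf [10, 19])))))) (.node 31
  (.node 26 (.node 23 (.node 22 (.leaf [16, 17]) (.leaf [14, 15, 16, 21])) (.node 24 (.leaf [14,
  22]) (.node 25 (.leaf [1, 14, 15, 23]) (.leaf [4, 5, 8, 9, 15, 24])))) (.node 28 (.node 27
  (.leaf [2, 4, 8, 24, 25]) (.leaf [6, 7, 8])) (.node 29 (.leaf [3, 4, 6, 7, 11, 27]) (.node 30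
  (.leaf [27, 28]) (.leaf [7, 10, 11, 20, 28, 29]))))) (.node 36 (.node 33 (.node 32 (.leaf [19,
  20]) (.leaf [18, 19, 31])) (.node 34 (.leaf [22, 23]) (.node 35 (.leaf [21, 22, 33]) (.leaf
  [24, 25, 26])))) (.node 39 (.node 37 (.leaf [31, 32]) (.node 38 (.leaf [33, 34]) (.leaf [29,
  30]))) (.node 40 (.leaf [35]) (.node 41 (.leaf [36]) (.leaf [37]))))))), 139, 114⟩

/-- Level data. -/
def nd10f : Nd :=
⟨42, (.node 21 (.node 10 (.node 5 (.node 2 (.node 1 (.leaf [0, 1, 2]) (.leaf [2, 3])) (.node 3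
  (.leaf [0, 4, 5]) (.node 4 (.leaf [5, 6, 7]) (.leaf [4, 7, 8])))) (.node 7 (.node 6 (.leaf [8,
  9]) (.leaf [7, 9, 10])) (.node 8 (.leaf [0, 6, 10]) (.node 9 (.leaf [2, 4, 10, 11]) (.leaf [9,
  11]))))) (.node 15 (.node 12 (.node 11 (.leaf [6, 12, 13]) (.leaf [5, 13])) (.node 13 (.leaf
  [0, 13, 14]) (.node 14 (.leaf [1, 14]) (.leaf [15, 16])))) (.node 18 (.node 16 (.leaf [3, 11,
  16]) (.node 17 (.leaf [2, 16, 17]) (.leaf [1, 17]))) (.node 19 (.leaf [14, 18]) (.node 20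
  (.leaf [13, 18, 19]) (.leaf [12, 19])))))) (.node 31 (.node 26 (.node 23 (.node 22 (.leaf [17,
  20]) (.leaf [16, 20, 21])) (.node 24 (.leaf [15, 21]) (.node 25 (.leaf [3, 15, 22]) (.leaf [8,
  11, 22])))) (.node 28 (.node 27 (.leaf [4, 22]) (.leaf [10, 23])) (.node 29 (.leaf [7, 23])
  (.node 30 (.leaf [6, 23, 24]) (.leaf [12, 24]))))) (.node 36 (.node 33 (.node 32 (.leaf [19,
  25]) (.leaf [18, 25])) (.node 34 (.leaf [21, 26]) (.node 35 (.leaf [20, 26]) (.leaf [22,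
  27])))) (.node 39 (.node 37 (.leaf [25, 28]) (.node 38 (.leaf [26, 29]) (.leaf [24]))) (.node
  40 (.leaf [27]) (.node 41 (.leaf [28]) (.leaf [29]))))))), (.node 21 (.node 10 (.node 5 (.node
  2 (.node 1 (.leaf []) (.leaf [0])) (.node 3 (.leaf [0]) (.node 4 (.leaf [2]) (.leaf [2, 3]))))
  (.node 7 (.node 6 (.leaf [4]) (.leaf [3, 4, 5])) (.node 8 (.leaf [0, 2, 3, 6]) (.node 9 (.leaf
  [0, 1, 2, 4, 6, 7]) (.leaf [5, 6, 8]))))) (.node 15 (.node 12 (.node 11 (.leaf [3, 7]) (.leaf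
  [2, 3, 10])) (.node 13 (.leaf [0, 2, 7, 10, 11]) (.node 14 (.leaf [0, 12]) (.leaf []))))
  (.node 18 (.node 16 (.leaf [1, 8, 9, 14]) (.node 17 (.leaf [0, 1, 8, 14, 15]) (.leaf [0, 13,
  16]))) (.node 19 (.leaf [12, 13]) (.node 20 (.leaf [10, 11, 12, 18]) (.leaf [10, 19]))))))
  (.node 31 (.node 26 (.node 23 (.node 22 (.leaf [16, 17]) (.leaf [14, 15, 16, 21])) (.node 24
  (.leaf [14, 22]) (.node 25 (.leaf [1, 14, 15, 23]) (.leaf [4, 5, 8, 9, 15, 24])))) (.node 28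
  (.node 27 (.leaf [2, 4, 8, 24, 25]) (.leaf [6, 7, 8])) (.node 29 (.leaf [3, 4, 6, 27]) (.node
  30 (.leaf [3, 7, 10, 27, 28]) (.leaf [10, 20, 29]))))) (.node 36 (.node 33 (.node 32 (.leaf
  [19, 20]) (.leaf [18, 19, 31])) (.node 34 (.leaf [22, 23]) (.node 35 (.leaf [21, 22, 33])
  (.leaf [24, 25, 26])))) (.node 39 (.node 37 (.leaf [31, 32]) (.node 38 (.leaf [33, 34]) (.leaf
  [29, 30]))) (.node 40 (.leaf [35]) (.node 41 (.leaf [36]) (.leaf [37]))))))), 139, 114⟩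

/-- Level data. -/
def nd10g : Nd :=
⟨42, (.node 21 (.node 10 (.node 5 (.node 2 (.node 1 (.leaf [0, 1, 2]) (.leaf [2, 3, 4])) (.node
  3 (.leaf [0, 5]) (.node 4 (.leaf [7, 8]) (.leaf [6, 8])))) (.node 7 (.node 6 (.leaf [4, 8, 9])
  (.leaf [7, 9, 10])) (.node 8 (.leaf [0, 4, 6, 10]) (.node 9 (.leaf [2, 10, 11]) (.leaf [9,
  11]))))) (.node 15 (.node 12 (.node 11 (.leaf [12, 13]) (.leaf [5, 6, 13])) (.node 13 (.leaf
  [0, 13, 14]) (.node 14 (.leaf [1, 14]) (.leaf [15, 16])))) (.node 18 (.node 16 (.leaf [3, 11,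
  16]) (.node 17 (.leaf [2, 16, 17]) (.leaf [1, 17]))) (.node 19 (.leaf [14, 18]) (.node 20
  (.leaf [13, 18, 19]) (.leaf [12, 19])))))) (.node 31 (.node 26 (.node 23 (.node 22 (.leaf [17,
  20]) (.leaf [16, 20, 21])) (.node 24 (.leaf [15, 21]) (.node 25 (.leaf [3, 9, 22]) (.leaf [4,
  22])))) (.node 28 (.node 27 (.leaf [22, 23]) (.leaf [3, 15, 23])) (.node 29 (.leaf [5, 12,
  24]) (.node 30 (.leaf [10, 24]) (.leaf [6, 7, 24]))))) (.node 36 (.node 33 (.node 32 (.leaf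
  [19, 25]) (.leaf [18, 25])) (.node 34 (.leaf [21, 26]) (.node 35 (.leaf [20, 26]) (.leaf [24,
  27])))) (.node 39 (.node 37 (.leaf [25, 28]) (.node 38 (.leaf [26, 29]) (.leaf [23]))) (.node
  40 (.leaf [27]) (.node 41 (.leaf [28]) (.leaf [29]))))))), (.node 21 (.node 10 (.node 5 (.node
  2 (.node 1 (.leaf []) (.leaf [0])) (.node 3 (.leaf [0]) (.node 4 (.leaf []) (.leaf [3]))))
  (.node 7 (.node 6 (.leaf [1, 3, 4]) (.leaf [3, 5])) (.node 8 (.leaf [0, 1, 2, 4, 5, 6]) (.node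
  9 (.leaf [0, 1, 6, 7]) (.leaf [5, 6, 8]))))) (.node 15 (.node 12 (.node 11 (.leaf []) (.leaf
  [2, 4, 7, 10])) (.node 13 (.leaf [0, 2, 7, 10, 11]) (.node 14 (.leaf [0, 12]) (.leaf []))))
  (.node 18 (.node 16 (.leaf [1, 8, 9, 14]) (.node 17 (.leaf [0, 1, 8, 14, 15]) (.leaf [0, 13,
  16]))) (.node 19 (.leaf [12, 13]) (.node 20 (.leaf [10, 11, 12, 18]) (.leaf [10, 19]))))))
  (.node 31 (.node 26 (.node 23 (.node 22 (.leaf [16, 17]) (.leaf [14, 15, 16, 21])) (.node 24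
  (.leaf [14, 22]) (.node 25 (.leaf [1, 5, 6, 9, 15]) (.leaf [1, 5, 7, 24])))) (.node 28 (.node
  27 (.leaf [24, 25]) (.leaf [1, 14, 15, 23, 24, 26])) (.node 29 (.leaf [2, 10, 11, 20]) (.node
  30 (.leaf [6, 7, 8, 28]) (.leaf [3, 4, 6, 7, 11, 28, 29]))))) (.node 36 (.node 33 (.node 32
  (.leaf [19, 20]) (.leaf [18, 19, 31])) (.node 34 (.leaf [22, 23]) (.node 35 (.leaf [21, 22,
  33]) (.leaf [28, 29, 30])))) (.node 39 (.node 37 (.leaf [31, 32]) (.node 38 (.leaf [33, 34])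
  (.leaf [26, 27]))) (.node 40 (.leaf [35]) (.node 41 (.leaf [36]) (.leaf [37]))))))), 139, 114⟩

/-- Level data. -/
def nd10h : Nd :=
⟨42, (.node 21 (.node 10 (.node 5 (.node 2 (.node 1 (.leaf [0, 1, 2]) (.leaf [2, 3, 4])) (.node
  3 (.leaf [0, 5]) (.node 4 (.leaf [7, 8]) (.leaf [6, 8])))) (.node 7 (.node 6 (.leaf [4, 8, 9])
  (.leaf [7, 9, 10])) (.node 8 (.leaf [0, 4, 6, 10]) (.node 9 (.leaf [2, 10, 11]) (.leaf [3, 9,
  11]))))) (.node 15 (.node 12 (.node 11 (.leaf [12, 13]) (.leaf [5, 6, 13])) (.node 13 (.leaf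
  [0, 13, 14]) (.node 14 (.leaf [1, 14]) (.leaf [3, 15, 16])))) (.node 18 (.node 16 (.leaf [11,
  16]) (.node 17 (.leaf [2, 16, 17]) (.leaf [1, 17]))) (.node 19 (.leaf [14, 18]) (.node 20
  (.leaf [13, 18, 19]) (.leaf [12, 19])))))) (.node 31 (.node 26 (.node 23 (.node 22 (.leaf [17,
  20]) (.leaf [16, 20, 21])) (.node 24 (.leaf [15, 21]) (.node 25 (.leaf [9, 22]) (.leaf [4,
  22])))) (.node 28 (.node 27 (.leaf [3, 22, 23]) (.leaf [15, 23])) (.node 29 (.leaf [5, 12,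
  24]) (.node 30 (.leaf [10, 24]) (.leaf [6, 7, 24]))))) (.node 36 (.node 33 (.node 32 (.leaf
  [19, 25]) (.leaf [18, 25])) (.node 34 (.leaf [21, 26]) (.node 35 (.leaf [20, 26]) (.leaf [24,
  27])))) (.node 39 (.node 37 (.leaf [25, 28]) (.node 38 (.leaf [26, 29]) (.leaf [23]))) (.node
  40 (.leaf [27]) (.node 41 (.leaf [28]) (.leaf [29]))))))), (.node 21 (.node 10 (.node 5 (.node
  2 (.node 1 (.leaf []) (.leaf [0])) (.node 3 (.leaf [0]) (.node 4 (.leaf []) (.leaf [3]))))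
  (.node 7 (.node 6 (.leaf [1, 3, 4]) (.leaf [3, 5])) (.node 8 (.leaf [0, 1, 2, 4, 5, 6]) (.node
  9 (.leaf [0, 1, 6, 7]) (.leaf [1, 5, 6, 8]))))) (.node 15 (.node 12 (.node 11 (.leaf [])
  (.leaf [2, 4, 7, 10])) (.node 13 (.leaf [0, 2, 7, 10, 11]) (.node 14 (.leaf [0, 12]) (.leaf
  [1, 9])))) (.node 18 (.node 16 (.leaf [8, 9, 14]) (.node 17 (.leaf [0, 1, 8, 14, 15]) (.leaf
  [0, 13, 16]))) (.node 19 (.leaf [12, 13]) (.node 20 (.leaf [10, 11, 12, 18]) (.leaf [10,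
  19])))))) (.node 31 (.node 26 (.node 23 (.node 22 (.leaf [16, 17]) (.leaf [14, 15, 16, 21]))
  (.node 24 (.leaf [14, 22]) (.node 25 (.leaf [5, 6, 9]) (.leaf [1, 5, 7, 24])))) (.node 28
  (.node 27 (.leaf [1, 9, 14, 24, 25]) (.leaf [14, 23, 26])) (.node 29 (.leaf [2, 10, 11, 20])
  (.node 30 (.leaf [6, 7, 8, 28]) (.leaf [3, 4, 6, 7, 11, 28, 29]))))) (.node 36 (.node 33
  (.node 32 (.leaf [19, 20]) (.leaf [18, 19, 31])) (.node 34 (.leaf [22, 23]) (.node 35 (.leaf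
  [21, 22, 33]) (.leaf [28, 29, 30])))) (.node 39 (.node 37 (.leaf [31, 32]) (.node 38 (.leaf
  [33, 34]) (.leaf [26, 27]))) (.node 40 (.leaf [35]) (.node 41 (.leaf [36]) (.leaf [37]))))))),
  139, 114⟩

/-- Level data. -/
def nd10i : Nd :=
⟨42, (.node 21 (.node 10 (.node 5 (.node 2 (.node 1 (.leaf [0, 1, 2]) (.leaf [0, 4, 5, 6]))
  (.node 3 (.leaf [4, 7]) (.node 4 (.leaf [6, 7, 8]) (.leaf [2, 6, 9])))) (.node 7 (.node 6
  (.leaf [0, 9]) (.leaf [8, 9, 10])) (.node 8 (.leaf [2, 3, 10]) (.node 9 (.leaf [5, 11, 12])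
  (.leaf [4, 12]))))) (.node 15 (.node 12 (.node 11 (.leaf [0, 12, 13]) (.leaf [1, 13])) (.node
  13 (.leaf [3, 14, 15]) (.node 14 (.leaf [10, 15]) (.leaf [2, 15, 16])))) (.node 18 (.node 16
  (.leaf [1, 16]) (.node 17 (.leaf [13, 17]) (.leaf [12, 17, 18]))) (.node 19 (.leaf [11, 18])
  (.node 20 (.leaf [16, 19]) (.leaf [15, 19, 20])))))) (.node 31 (.node 26 (.node 23 (.node 22
  (.leaf [14, 20]) (.leaf [3, 7, 9, 21])) (.node 24 (.leaf [21, 22]) (.node 25 (.leaf [14, 22])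
  (.leaf [3, 22])))) (.node 28 (.node 27 (.leaf [5, 8, 23]) (.leaf [6, 23])) (.node 29 (.leaf
  [23, 24]) (.node 30 (.leaf [11, 24]) (.leaf [5, 24]))))) (.node 36 (.node 33 (.node 32 (.leaf
  [18, 25]) (.leaf [17, 25])) (.node 34 (.leaf [20, 26]) (.node 35 (.leaf [19, 26]) (.leaf [8,
  27])))) (.node 39 (.node 37 (.leaf [7, 27]) (.node 38 (.leaf [25, 28]) (.leaf [26, 29])))
  (.node 40 (.leaf [21]) (.node 41 (.leaf [28]) (.leaf [29]))))))), (.node 21 (.node 10 (.node 5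
  (.node 2 (.node 1 (.leaf []) (.leaf [0])) (.node 3 (.leaf [1]) (.node 4 (.leaf [1, 2]) (.leaf
  [0, 1, 3])))) (.node 7 (.node 6 (.leaf [0, 1, 4]) (.leaf [3, 4, 5])) (.node 8 (.leaf [0, 4,
  6]) (.node 9 (.leaf [1]) (.leaf [1, 2, 8]))))) (.node 15 (.node 12 (.node 11 (.leaf [0, 1, 5,
  8, 9]) (.leaf [0, 10])) (.node 13 (.leaf [7]) (.node 14 (.leaf [6, 7, 12]) (.leaf [0, 4, 7,
  12, 13])))) (.node 18 (.node 16 (.leaf [0, 11, 14]) (.node 17 (.leaf [10, 11]) (.leaf [8, 9,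
  10, 16]))) (.node 19 (.leaf [8, 17]) (.node 20 (.leaf [14, 15]) (.leaf [12, 13, 14, 19]))))))
  (.node 31 (.node 26 (.node 23 (.node 22 (.leaf [12, 20]) (.leaf [2, 3, 4, 5, 6, 7, 12]))
  (.node 24 (.leaf [22]) (.node 25 (.leaf [12, 21, 23]) (.leaf [7, 12, 22, 23, 24])))) (.node 28
  (.node 27 (.leaf [1, 3, 6, 8]) (.leaf [1, 3, 4, 26])) (.node 29 (.leaf [26, 27]) (.node 30
  (.leaf [8, 18, 28]) (.leaf [1, 8, 26, 28, 29]))))) (.node 36 (.node 33 (.node 32 (.leaf [17,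
  18]) (.leaf [16, 17, 31])) (.node 34 (.leaf [20, 21]) (.node 35 (.leaf [19, 20, 33]) (.leaf
  [3, 6, 26])))) (.node 39 (.node 37 (.leaf [2, 3, 22, 35]) (.node 38 (.leaf [31, 32]) (.leaf
  [33, 34]))) (.node 40 (.leaf [22, 23]) (.node 41 (.leaf [37]) (.leaf [38]))))))), 139, 114⟩

/-- Level data. -/
def nd10j : Nd :=
⟨42, (.node 21 (.node 10 (.node 5 (.node 2 (.node 1 (.leaf [0, 1, 2]) (.leaf [0, 4, 5, 6]))
  (.node 3 (.leaf [2, 6]) (.node 4 (.leaf [4, 7]) (.leaf [6, 7, 8, 9])))) (.node 7 (.node 6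
  (.leaf [0, 9]) (.leaf [2, 3, 9, 10])) (.node 8 (.leaf [8, 10]) (.node 9 (.leaf [5, 11, 12])
  (.leaf [4, 12]))))) (.node 15 (.node 12 (.node 11 (.leaf [0, 12, 13]) (.leaf [1, 13])) (.node
  13 (.leaf [3, 14, 15]) (.node 14 (.leaf [10, 15]) (.leaf [2, 15, 16])))) (.node 18 (.node 16
  (.leaf [1, 16]) (.node 17 (.leaf [13, 17]) (.leaf [12, 17, 18]))) (.node 19 (.leaf [11, 18])
  (.node 20 (.leaf [16, 19]) (.leaf [15, 19, 20])))))) (.node 31 (.node 26 (.node 23 (.node 22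
  (.leaf [14, 20]) (.leaf [9, 21])) (.node 24 (.leaf [3, 7, 21]) (.node 25 (.leaf [21, 22])
  (.leaf [14, 22])))) (.node 28 (.node 27 (.leaf [3, 22]) (.leaf [5, 8, 23])) (.node 29 (.leaf
  [6, 23]) (.node 30 (.leaf [23, 24]) (.leaf [11, 24]))))) (.node 36 (.node 33 (.node 32 (.leaf
  [5, 24]) (.leaf [18, 25])) (.node 34 (.leaf [17, 25]) (.node 35 (.leaf [20, 26]) (.leaf [19,
  26])))) (.node 39 (.node 37 (.leaf [8, 27]) (.node 38 (.leaf [7, 27]) (.leaf [25, 28])))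
  (.node 40 (.leaf [26, 29]) (.node 41 (.leaf [28]) (.leaf [29]))))))), (.node 21 (.node 10
  (.node 5 (.node 2 (.node 1 (.leaf []) (.leaf [0])) (.node 3 (.leaf [0, 1]) (.node 4 (.leaf
  [1]) (.leaf [1, 2, 3])))) (.node 7 (.node 6 (.leaf [0, 1, 4]) (.leaf [0, 2, 4, 5])) (.node 8
  (.leaf [4, 6]) (.node 9 (.leaf [1]) (.leaf [1, 3, 8]))))) (.node 15 (.node 12 (.node 11 (.leaf
  [0, 1, 5, 8, 9]) (.leaf [0, 10])) (.node 13 (.leaf [6]) (.node 14 (.leaf [6, 7, 12]) (.leaf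
  [0, 2, 6, 12, 13])))) (.node 18 (.node 16 (.leaf [0, 11, 14]) (.node 17 (.leaf [10, 11])
  (.leaf [8, 9, 10, 16]))) (.node 19 (.leaf [8, 17]) (.node 20 (.leaf [14, 15]) (.leaf [12, 13,
  14, 19])))))) (.node 31 (.node 26 (.node 23 (.node 22 (.leaf [12, 20]) (.leaf [4, 5, 6]))
  (.node 24 (.leaf [3, 4, 6, 12, 22]) (.node 25 (.leaf [22, 23]) (.leaf [12, 21, 24])))) (.node
  28 (.node 27 (.leaf [6, 12, 23, 24, 25]) (.leaf [1, 4, 7, 8])) (.node 29 (.leaf [1, 2, 4, 27])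
  (.node 30 (.leaf [27, 28]) (.leaf [8, 18, 29]))))) (.node 36 (.node 33 (.node 32 (.leaf [1, 8,
  27, 29, 30]) (.leaf [17, 18])) (.node 34 (.leaf [16, 17, 32]) (.node 35 (.leaf [20, 21])
  (.leaf [19, 20, 34])))) (.node 39 (.node 37 (.leaf [4, 7, 27]) (.node 38 (.leaf [3, 4, 23,
  36]) (.leaf [32, 33]))) (.node 40 (.leaf [34, 35]) (.node 41 (.leaf [38]) (.leaf [39]))))))),
  139, 114⟩

/-- Level data. -/
def nd10k : Nd :=
⟨42, (.node 21 (.node 10 (.node 5 (.node 2 (.node 1 (.leaf [0, 1, 2]) (.leaf [0, 4, 5])) (.node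
  3 (.leaf [2, 6]) (.node 4 (.leaf [4, 6, 7]) (.leaf [7, 8, 9])))) (.node 7 (.node 6 (.leaf [0,
  6, 9]) (.leaf [2, 3, 9, 10])) (.node 8 (.leaf [8, 10]) (.node 9 (.leaf [5, 11, 12]) (.leaf [4,
  12]))))) (.node 15 (.node 12 (.node 11 (.leaf [0, 12, 13]) (.leaf [1, 13])) (.node 13 (.leaf
  [3, 14, 15]) (.node 14 (.leaf [10, 15]) (.leaf [2, 15, 16])))) (.node 18 (.node 16 (.leaf [1,
  16]) (.node 17 (.leaf [13, 17]) (.leaf [12, 17, 18]))) (.node 19 (.leaf [11, 18]) (.node 20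
  (.leaf [16, 19]) (.leaf [15, 19, 20])))))) (.node 31 (.node 26 (.node 23 (.node 22 (.leaf [14,
  20]) (.leaf [9, 21])) (.node 24 (.leaf [3, 7, 21]) (.node 25 (.leaf [21, 22]) (.leaf [14,
  22])))) (.node 28 (.node 27 (.leaf [3, 22]) (.leaf [5, 6, 8, 23])) (.node 29 (.leaf [23, 24])
  (.node 30 (.leaf [11, 24]) (.leaf [5, 24]))))) (.node 36 (.node 33 (.node 32 (.leaf [18, 25])
  (.leaf [17, 25])) (.node 34 (.leaf [20, 26]) (.node 35 (.leaf [19, 26]) (.leaf [8, 27]))))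
  (.node 39 (.node 37 (.leaf [7, 27]) (.node 38 (.leaf [25, 28]) (.leaf [26, 29]))) (.node 40
  (.leaf [23]) (.node 41 (.leaf [28]) (.leaf [29]))))))), (.node 21 (.node 10 (.node 5 (.node 2
  (.node 1 (.leaf []) (.leaf [0])) (.node 3 (.leaf [0]) (.node 4 (.leaf [1, 2]) (.leaf [3]))))
  (.node 7 (.node 6 (.leaf [0, 1, 2, 3, 4]) (.leaf [0, 2, 4, 5])) (.node 8 (.leaf [4, 6]) (.node
  9 (.leaf [1]) (.leaf [1, 3, 8]))))) (.node 15 (.node 12 (.node 11 (.leaf [0, 1, 5, 8, 9])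
  (.leaf [0, 10])) (.node 13 (.leaf [6]) (.node 14 (.leaf [6, 7, 12]) (.leaf [0, 2, 6, 12,
  13])))) (.node 18 (.node 16 (.leaf [0, 11, 14]) (.node 17 (.leaf [10, 11]) (.leaf [8, 9, 10,
  16]))) (.node 19 (.leaf [8, 17]) (.node 20 (.leaf [14, 15]) (.leaf [12, 13, 14, 19]))))))
  (.node 31 (.node 26 (.node 23 (.node 22 (.leaf [12, 20]) (.leaf [4, 5, 6])) (.node 24 (.leaf
  [3, 4, 6, 12, 22]) (.node 25 (.leaf [22, 23]) (.leaf [12, 21, 24])))) (.node 28 (.node 27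
  (.leaf [6, 12, 23, 24, 25]) (.leaf [1, 2, 3, 4, 5, 7, 8])) (.node 29 (.leaf [27]) (.node 30
  (.leaf [8, 18, 28]) (.leaf [1, 8, 27, 28, 29]))))) (.node 36 (.node 33 (.node 32 (.leaf [17,
  18]) (.leaf [16, 17, 31])) (.node 34 (.leaf [20, 21]) (.node 35 (.leaf [19, 20, 33]) (.leaf
  [4, 7, 27])))) (.node 39 (.node 37 (.leaf [3, 4, 23, 35]) (.node 38 (.leaf [31, 32]) (.leaf
  [33, 34]))) (.node 40 (.leaf [27, 28]) (.node 41 (.leaf [37]) (.leaf [38]))))))), 139, 114⟩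

/-- Level data. -/
def nd10l : Nd :=
⟨42, (.node 21 (.node 10 (.node 5 (.node 2 (.node 1 (.leaf [0, 1, 2]) (.leaf [2, 3, 4])) (.node
  3 (.leaf [0, 4, 5]) (.node 4 (.leaf [5, 7]) (.leaf [4, 7, 8, 9])))) (.node 7 (.node 6 (.leaf
  [0, 6, 9]) (.leaf [2, 9, 10])) (.node 8 (.leaf [8, 10]) (.node 9 (.leaf [11, 12]) (.leaf [5,
  6, 12]))))) (.node 15 (.node 12 (.node 11 (.leaf [0, 12, 13]) (.leaf [1, 13])) (.node 13
  (.leaf [14, 15]) (.node 14 (.leaf [3, 10, 15]) (.leaf [2, 15, 16])))) (.node 18 (.node 16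
  (.leaf [1, 16]) (.node 17 (.leaf [13, 17]) (.leaf [12, 17, 18]))) (.node 19 (.leaf [11, 18])
  (.node 20 (.leaf [16, 19]) (.leaf [15, 19, 20])))))) (.node 31 (.node 26 (.node 23 (.node 22
  (.leaf [14, 20]) (.leaf [3, 8, 21])) (.node 24 (.leaf [4, 21]) (.node 25 (.leaf [21, 22])
  (.leaf [3, 14, 22])))) (.node 28 (.node 27 (.leaf [9, 23]) (.leaf [6, 7, 23])) (.node 29
  (.leaf [23, 24]) (.node 30 (.leaf [6, 11, 24]) (.leaf [18, 25]))))) (.node 36 (.node 33 (.node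
  32 (.leaf [17, 25]) (.leaf [20, 26])) (.node 34 (.leaf [19, 26]) (.node 35 (.leaf [8, 27])
  (.leaf [7, 27])))) (.node 39 (.node 37 (.leaf [25, 28]) (.node 38 (.leaf [26, 29]) (.leaf
  [22]))) (.node 40 (.leaf [24]) (.node 41 (.leaf [28]) (.leaf [29]))))))), (.node 21 (.node 10
  (.node 5 (.node 2 (.node 1 (.leaf []) (.leaf [0])) (.node 3 (.leaf [0, 1]) (.node 4 (.leaf
  [2]) (.leaf [1, 2, 3])))) (.node 7 (.node 6 (.leaf [0, 2, 4]) (.leaf [0, 1, 4, 5])) (.node 8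
  (.leaf [4, 6]) (.node 9 (.leaf []) (.leaf [2, 3, 5, 8]))))) (.node 15 (.node 12 (.node 11
  (.leaf [0, 2, 5, 8, 9]) (.leaf [0, 10])) (.node 13 (.leaf []) (.node 14 (.leaf [1, 6, 7, 12])
  (.leaf [0, 1, 6, 12, 13])))) (.node 18 (.node 16 (.leaf [0, 11, 14]) (.node 17 (.leaf [10,
  11]) (.leaf [8, 9, 10, 16]))) (.node 19 (.leaf [8, 17]) (.node 20 (.leaf [14, 15]) (.leaf [12,
  13, 14, 19])))))) (.node 31 (.node 26 (.node 23 (.node 22 (.leaf [12, 20]) (.leaf [1, 4, 7,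
  13])) (.node 24 (.leaf [1, 2, 4, 22]) (.node 25 (.leaf [22, 23]) (.leaf [1, 12, 13, 21, 22,
  24])))) (.node 28 (.node 27 (.leaf [4, 5, 6]) (.leaf [3, 4, 5, 9, 26])) (.node 29 (.leaf [26,
  27]) (.node 30 (.leaf [5, 8, 9, 18, 27, 28]) (.leaf [17, 18]))))) (.node 36 (.node 33 (.node
  32 (.leaf [16, 17, 30]) (.leaf [20, 21])) (.node 34 (.leaf [19, 20, 32]) (.node 35 (.leaf [4,
  7, 22]) (.leaf [3, 4, 27, 34])))) (.node 39 (.node 37 (.leaf [30, 31]) (.node 38 (.leaf [32,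
  33]) (.leaf [24, 25]))) (.node 40 (.leaf [28, 29]) (.node 41 (.leaf [36]) (.leaf [37]))))))),
  139, 114⟩

/-- Level data. -/
def nd10m : Nd :=
⟨42, (.node 21 (.node 10 (.node 5 (.node 2 (.node 1 (.leaf [0, 1, 2]) (.leaf [2, 3, 4])) (.node
  3 (.leaf [0, 4, 5]) (.node 4 (.leaf [5, 6, 7]) (.leaf [4, 7, 8, 9])))) (.node 7 (.node 6
  (.leaf [0, 6, 9]) (.leaf [2, 9, 10])) (.node 8 (.leaf [8, 10]) (.node 9 (.leaf [6, 11, 12])
  (.leaf [5, 12]))))) (.node 15 (.node 12 (.node 11 (.leaf [0, 12, 13]) (.leaf [1, 13])) (.node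
  13 (.leaf [14, 15]) (.node 14 (.leaf [3, 10, 15]) (.leaf [2, 15, 16])))) (.node 18 (.node 16
  (.leaf [1, 16]) (.node 17 (.leaf [13, 17]) (.leaf [12, 17, 18]))) (.node 19 (.leaf [11, 18])
  (.node 20 (.leaf [16, 19]) (.leaf [15, 19, 20])))))) (.node 31 (.node 26 (.node 23 (.node 22
  (.leaf [14, 20]) (.leaf [3, 8, 21])) (.node 24 (.leaf [4, 21]) (.node 25 (.leaf [21, 22])
  (.leaf [3, 14, 22])))) (.node 28 (.node 27 (.leaf [9, 23]) (.leaf [7, 23])) (.node 29 (.leaf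
  [6, 23, 24]) (.node 30 (.leaf [11, 24]) (.leaf [18, 25]))))) (.node 36 (.node 33 (.node 32
  (.leaf [17, 25]) (.leaf [20, 26])) (.node 34 (.leaf [19, 26]) (.node 35 (.leaf [8, 27]) (.leaf
  [7, 27])))) (.node 39 (.node 37 (.leaf [25, 28]) (.node 38 (.leaf [26, 29]) (.leaf [22])))
  (.node 40 (.leaf [24]) (.node 41 (.leaf [28]) (.leaf [29]))))))), (.node 21 (.node 10 (.node 5
  (.node 2 (.node 1 (.leaf []) (.leaf [0])) (.node 3 (.leaf [0, 1]) (.node 4 (.leaf [2]) (.leaf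
  [1, 2, 3])))) (.node 7 (.node 6 (.leaf [0, 2, 3, 4]) (.leaf [0, 1, 4, 5])) (.node 8 (.leaf [4,
  6]) (.node 9 (.leaf [3, 5]) (.leaf [2, 3, 8]))))) (.node 15 (.node 12 (.node 11 (.leaf [0, 2,
  5, 8, 9]) (.leaf [0, 10])) (.node 13 (.leaf []) (.node 14 (.leaf [1, 6, 7, 12]) (.leaf [0, 1,
  6, 12, 13])))) (.node 18 (.node 16 (.leaf [0, 11, 14]) (.node 17 (.leaf [10, 11]) (.leaf [8,
  9, 10, 16]))) (.node 19 (.leaf [8, 17]) (.node 20 (.leaf [14, 15]) (.leaf [12, 13, 14,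
  19])))))) (.node 31 (.node 26 (.node 23 (.node 22 (.leaf [12, 20]) (.leaf [1, 4, 7, 13]))
  (.node 24 (.leaf [1, 2, 4, 22]) (.node 25 (.leaf [22, 23]) (.leaf [1, 12, 13, 21, 22, 24]))))
  (.node 28 (.node 27 (.leaf [4, 5, 6]) (.leaf [3, 4, 26])) (.node 29 (.leaf [3, 5, 8, 26, 27])
  (.node 30 (.leaf [8, 18, 28]) (.leaf [17, 18]))))) (.node 36 (.node 33 (.node 32 (.leaf [16,
  17, 30]) (.leaf [20, 21])) (.node 34 (.leaf [19, 20, 32]) (.node 35 (.leaf [4, 7, 22]) (.leaf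
  [3, 4, 27, 34])))) (.node 39 (.node 37 (.leaf [30, 31]) (.node 38 (.leaf [32, 33]) (.leaf [24,
  25]))) (.node 40 (.leaf [28, 29]) (.node 41 (.leaf [36]) (.leaf [37]))))))), 139, 114⟩

/-- Level data. -/
def nd10n : Nd :=
⟨42, (.node 21 (.node 10 (.node 5 (.node 2 (.node 1 (.leaf [0, 1, 2]) (.leaf [2, 3, 4])) (.node
  3 (.leaf [0, 4, 5]) (.node 4 (.leaf [5, 7]) (.leaf [4, 7, 8, 9])))) (.node 7 (.node 6 (.leaf
  [0, 6, 9]) (.leaf [2, 9, 10])) (.node 8 (.leaf [3, 8, 10]) (.node 9 (.leaf [11, 12]) (.leaf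
  [5, 6, 12]))))) (.node 15 (.node 12 (.node 11 (.leaf [0, 12, 13]) (.leaf [1, 13])) (.node 13
  (.leaf [3, 14, 15]) (.node 14 (.leaf [10, 15]) (.leaf [2, 15, 16])))) (.node 18 (.node 16
  (.leaf [1, 16]) (.node 17 (.leaf [13, 17]) (.leaf [12, 17, 18]))) (.node 19 (.leaf [11, 18])
  (.node 20 (.leaf [16, 19]) (.leaf [15, 19, 20])))))) (.node 31 (.node 26 (.node 23 (.node 22
  (.leaf [14, 20]) (.leaf [8, 21])) (.node 24 (.leaf [4, 21]) (.node 25 (.leaf [3, 21, 22])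
  (.leaf [14, 22])))) (.node 28 (.node 27 (.leaf [9, 23]) (.leaf [6, 7, 23])) (.node 29 (.leaf
  [23, 24]) (.node 30 (.leaf [6, 11, 24]) (.leaf [18, 25]))))) (.node 36 (.node 33 (.node 32
  (.leaf [17, 25]) (.leaf [20, 26])) (.node 34 (.leaf [19, 26]) (.node 35 (.leaf [8, 27]) (.leaf
  [7, 27])))) (.node 39 (.node 37 (.leaf [25, 28]) (.node 38 (.leaf [26, 29]) (.leaf [22])))
  (.node 40 (.leaf [24]) (.node 41 (.leaf [28]) (.leaf [29]))))))), (.node 21 (.node 10 (.node 5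
  (.node 2 (.node 1 (.leaf []) (.leaf [0])) (.node 3 (.leaf [0, 1]) (.node 4 (.leaf [2]) (.leaf
  [1, 2, 3])))) (.node 7 (.node 6 (.leaf [0, 2, 4]) (.leaf [0, 1, 4, 5])) (.node 8 (.leaf [1, 4,
  6]) (.node 9 (.leaf []) (.leaf [2, 3, 5, 8]))))) (.node 15 (.node 12 (.node 11 (.leaf [0, 2,
  5, 8, 9]) (.leaf [0, 10])) (.node 13 (.leaf [1, 7]) (.node 14 (.leaf [6, 7, 12]) (.leaf [0, 1,
  6, 12, 13])))) (.node 18 (.node 16 (.leaf [0, 11, 14]) (.node 17 (.leaf [10, 11]) (.leaf [8,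
  9, 10, 16]))) (.node 19 (.leaf [8, 17]) (.node 20 (.leaf [14, 15]) (.leaf [12, 13, 14,
  19])))))) (.node 31 (.node 26 (.node 23 (.node 22 (.leaf [12, 20]) (.leaf [4, 7])) (.node 24
  (.leaf [1, 2, 4, 22]) (.node 25 (.leaf [1, 7, 12, 22, 23]) (.leaf [12, 21, 24])))) (.node 28
  (.node 27 (.leaf [4, 5, 6]) (.leaf [3, 4, 5, 9, 26])) (.node 29 (.leaf [26, 27]) (.node 30
  (.leaf [5, 8, 9, 18, 27, 28]) (.leaf [17, 18]))))) (.node 36 (.node 33 (.node 32 (.leaf [16,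
  17, 30]) (.leaf [20, 21])) (.node 34 (.leaf [19, 20, 32]) (.node 35 (.leaf [4, 7, 22]) (.leaf
  [3, 4, 27, 34])))) (.node 39 (.node 37 (.leaf [30, 31]) (.node 38 (.leaf [32, 33]) (.leaf [24,
  25]))) (.node 40 (.leaf [28, 29]) (.node 41 (.leaf [36]) (.leaf [37]))))))), 139, 114⟩

/-- Level data. -/
def nd10o : Nd :=
⟨42, (.node 21 (.node 10 (.node 5 (.node 2 (.node 1 (.leaf [0, 1, 2]) (.leaf [2, 3, 4])) (.node
  3 (.leaf [0, 4, 5]) (.node 4 (.leaf [5, 6, 7]) (.leaf [4, 7, 8, 9])))) (.node 7 (.node 6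
  (.leaf [0, 6, 9]) (.leaf [2, 9, 10])) (.node 8 (.leaf [3, 8, 10]) (.node 9 (.leaf [6, 11, 12])
  (.leaf [5, 12]))))) (.node 15 (.node 12 (.node 11 (.leaf [0, 12, 13]) (.leaf [1, 13])) (.node
  13 (.leaf [3, 14, 15]) (.node 14 (.leaf [10, 15]) (.leaf [2, 15, 16])))) (.node 18 (.node 16
  (.leaf [1, 16]) (.node 17 (.leaf [13, 17]) (.leaf [12, 17, 18]))) (.node 19 (.leaf [11, 18])
  (.node 20 (.leaf [16, 19]) (.leaf [15, 19, 20])))))) (.node 31 (.node 26 (.node 23 (.node 22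
  (.leaf [14, 20]) (.leaf [8, 21])) (.node 24 (.leaf [4, 21]) (.node 25 (.leaf [3, 21, 22])
  (.leaf [14, 22])))) (.node 28 (.node 27 (.leaf [9, 23]) (.leaf [7, 23])) (.node 29 (.leaf [6,
  23, 24]) (.node 30 (.leaf [11, 24]) (.leaf [18, 25]))))) (.node 36 (.node 33 (.node 32 (.leaf
  [17, 25]) (.leaf [20, 26])) (.node 34 (.leaf [19, 26]) (.node 35 (.leaf [8, 27]) (.leaf [7,
  27])))) (.node 39 (.node 37 (.leaf [25, 28]) (.node 38 (.leaf [26, 29]) (.leaf [22]))) (.node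
  40 (.leaf [24]) (.node 41 (.leaf [28]) (.leaf [29]))))))), (.node 21 (.node 10 (.node 5 (.node
  2 (.node 1 (.leaf []) (.leaf [0])) (.node 3 (.leaf [0, 1]) (.node 4 (.leaf [2]) (.leaf [1, 2,
  3])))) (.node 7 (.node 6 (.leaf [0, 2, 3, 4]) (.leaf [0, 1, 4, 5])) (.node 8 (.leaf [1, 4, 6])
  (.node 9 (.leaf [3, 5]) (.leaf [2, 3, 8]))))) (.node 15 (.node 12 (.node 11 (.leaf [0, 2, 5,
  8, 9]) (.leaf [0, 10])) (.node 13 (.leaf [1, 7]) (.node 14 (.leaf [6, 7, 12]) (.leaf [0, 1, 6,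
  12, 13])))) (.node 18 (.node 16 (.leaf [0, 11, 14]) (.node 17 (.leaf [10, 11]) (.leaf [8, 9,
  10, 16]))) (.node 19 (.leaf [8, 17]) (.node 20 (.leaf [14, 15]) (.leaf [12, 13, 14, 19]))))))
  (.node 31 (.node 26 (.node 23 (.node 22 (.leaf [12, 20]) (.leaf [4, 7])) (.node 24 (.leaf [1,
  2, 4, 22]) (.node 25 (.leaf [1, 7, 12, 22, 23]) (.leaf [12, 21, 24])))) (.node 28 (.node 27
  (.leaf [4, 5, 6]) (.leaf [3, 4, 26])) (.node 29 (.leaf [3, 5, 8, 26, 27]) (.node 30 (.leaf [8,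
  18, 28]) (.leaf [17, 18]))))) (.node 36 (.node 33 (.node 32 (.leaf [16, 17, 30]) (.leaf [20,
  21])) (.node 34 (.leaf [19, 20, 32]) (.node 35 (.leaf [4, 7, 22]) (.leaf [3, 4, 27, 34]))))
  (.node 39 (.node 37 (.leaf [30, 31]) (.node 38 (.leaf [32, 33]) (.leaf [24, 25]))) (.node 40
  (.leaf [28, 29]) (.node 41 (.leaf [36]) (.leaf [37]))))))), 139, 114⟩

/-- Level data. -/
def nd11a : Nd :=
⟨56, (.node 28 (.node 14 (.node 7 (.node 3 (.node 1 (.leaf [0, 1, 2]) (.node 2 (.leaf [2, 3, 4,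
  5]) (.leaf [0, 5, 6]))) (.node 5 (.node 4 (.leaf [1, 4, 6, 7]) (.leaf [3, 8, 9])) (.node 6
  (.leaf [2, 9, 10]) (.leaf [5, 8, 10])))) (.node 10 (.node 8 (.leaf [0, 10, 11]) (.node 9
  (.leaf [7, 12, 13]) (.leaf [6, 13, 14]))) (.node 12 (.node 11 (.leaf [1, 12, 14]) (.leaf [0,
  14, 15])) (.node 13 (.leaf [11, 15]) (.leaf [11, 16]))))) (.node 21 (.node 17 (.node 15 (.leaf
  [10, 16, 17]) (.node 16 (.leaf [9, 17]) (.leaf [8, 17, 18]))) (.node 19 (.node 18 (.leaf [15,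
  19]) (.leaf [14, 19, 20])) (.node 20 (.leaf [13, 20]) (.leaf [12, 20, 21])))) (.node 24 (.node
  22 (.leaf [4, 22, 23]) (.node 23 (.leaf [2, 23]) (.leaf [1, 23, 24]))) (.node 26 (.node 25
  (.leaf [7, 22, 24]) (.leaf [12, 24, 25])) (.node 27 (.leaf [21, 25]) (.leaf [6, 26]))))))
  (.node 42 (.node 35 (.node 31 (.node 29 (.leaf [4, 26, 27]) (.node 30 (.leaf [3, 27, 28])
  (.leaf [5, 26, 28]))) (.node 33 (.node 32 (.leaf [8, 28, 29]) (.leaf [18, 29])) (.node 34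
  (.leaf [18, 30]) (.leaf [17, 30, 31])))) (.node 38 (.node 36 (.leaf [16, 31]) (.node 37 (.leaf
  [21, 32]) (.leaf [20, 32, 33]))) (.node 40 (.node 39 (.leaf [19, 33]) (.leaf [22, 34])) (.node
  41 (.leaf [7, 34]) (.leaf [4, 34, 35]))))) (.node 49 (.node 45 (.node 43 (.leaf [27, 35])
  (.node 44 (.leaf [3, 35]) (.leaf [31, 36]))) (.node 47 (.node 46 (.leaf [30, 36]) (.leaf [33,
  37])) (.node 48 (.leaf [32, 37]) (.leaf [25, 38])))) (.node 52 (.node 50 (.leaf [24, 38])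
  (.node 51 (.leaf [29, 39]) (.leaf [28, 39]))) (.node 54 (.node 53 (.leaf [36, 40]) (.leaf [37,
  41])) (.node 55 (.leaf [40]) (.leaf [41]))))))), (.node 28 (.node 14 (.node 7 (.node 3 (.node
  1 (.leaf []) (.node 2 (.leaf [0]) (.leaf [0, 1]))) (.node 5 (.node 4 (.leaf [0, 1, 2]) (.leaf
  [1])) (.node 6 (.leaf [0, 1, 4]) (.leaf [1, 2, 4, 5])))) (.node 10 (.node 8 (.leaf [0, 2, 5,
  6]) (.node 9 (.leaf [3]) (.leaf [2, 3, 8]))) (.node 12 (.node 11 (.leaf [0, 3, 8, 9]) (.leaf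
  [0, 2, 7, 9, 10])) (.node 13 (.leaf [7, 11]) (.leaf [7, 12]))))) (.node 21 (.node 17 (.node 15
  (.leaf [5, 6, 7, 13]) (.node 16 (.leaf [4, 5, 14]) (.leaf [4, 6, 14, 15]))) (.node 19 (.node
  18 (.leaf [11, 12]) (.leaf [9, 10, 11, 17])) (.node 20 (.leaf [8, 9, 18]) (.leaf [8, 10, 18,
  19])))) (.node 24 (.node 22 (.leaf [1, 3]) (.node 23 (.leaf [0, 1, 5, 21]) (.leaf [0, 3, 10,
  21, 22]))) (.node 26 (.node 25 (.leaf [3, 8, 21, 23]) (.leaf [8, 10, 20, 23, 24])) (.node 27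
  (.leaf [20, 25]) (.leaf [2, 3, 9])))))) (.node 42 (.node 35 (.node 31 (.node 29 (.leaf [1, 3,
  21, 27]) (.node 30 (.leaf [1, 4, 28]) (.leaf [1, 2, 6, 27, 28, 29]))) (.node 33 (.node 32
  (.leaf [4, 6, 16, 29, 30]) (.leaf [16, 31])) (.node 34 (.leaf [16, 32]) (.leaf [14, 15, 16,
  33])))) (.node 38 (.node 36 (.leaf [13, 14, 34]) (.node 37 (.leaf [20, 26]) (.leaf [18, 19,
  20, 36]))) (.node 40 (.node 39 (.leaf [17, 18, 37]) (.leaf [21, 24])) (.node 41 (.leaf [3, 8,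
  24, 39]) (.leaf [1, 3, 21, 28, 39, 40]))))) (.node 49 (.node 45 (.node 43 (.leaf [28, 29, 41])
  (.node 44 (.leaf [1, 4, 29, 41, 42]) (.leaf [34, 35]))) (.node 47 (.node 46 (.leaf [33, 34,
  44]) (.leaf [37, 38])) (.node 48 (.leaf [36, 37, 46]) (.leaf [25, 26])))) (.node 52 (.node 50
  (.leaf [23, 24, 25, 48]) (.node 51 (.leaf [31, 32]) (.leaf [29, 30, 31, 50]))) (.node 54
  (.node 53 (.leaf [44, 45]) (.leaf [46, 47])) (.node 55 (.leaf [52]) (.leaf [53]))))))), 195,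
  170⟩

/-- Level data. -/
def nd12a : Nd :=
⟨77, (.node 38 (.node 19 (.node 9 (.node 4 (.node 2 (.node 1 (.leaf [0, 1, 2, 3]) (.leaf [1, 4,
  5, 6])) (.node 3 (.leaf [2, 6, 7]) (.leaf [0, 5, 7]))) (.node 6 (.node 5 (.leaf [3, 8, 9, 10])
  (.leaf [0, 10, 11])) (.node 7 (.leaf [2, 9, 11]) (.node 8 (.leaf [7, 11, 12]) (.leaf [12,
  13]))))) (.node 14 (.node 11 (.node 10 (.leaf [7, 13, 14]) (.leaf [5, 14, 15])) (.node 12
  (.leaf [4, 15, 16]) (.node 13 (.leaf [6, 14, 16]) (.leaf [12, 17])))) (.node 16 (.node 15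
  (.leaf [11, 17, 18]) (.leaf [9, 18, 19])) (.node 17 (.leaf [8, 19]) (.node 18 (.leaf [10, 18,
  20]) (.leaf [1, 21, 22])))))) (.node 28 (.node 23 (.node 21 (.node 20 (.leaf [5, 22]) (.leaf
  [0, 22, 23])) (.node 22 (.leaf [3, 21, 23, 24]) (.leaf [10, 23, 25]))) (.node 25 (.node 24
  (.leaf [8, 20, 25]) (.leaf [9, 27])) (.node 26 (.leaf [3, 27, 28]) (.node 27 (.leaf [21, 28])
  (.leaf [1, 28, 29, 30]))))) (.node 33 (.node 30 (.node 29 (.leaf [2, 27, 30]) (.leaf [6, 30,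
  31])) (.node 31 (.leaf [4, 29, 31]) (.node 32 (.leaf [16, 31, 32]) (.leaf [32, 33])))) (.node
  35 (.node 34 (.leaf [16, 33, 34]) (.leaf [15, 34])) (.node 36 (.leaf [14, 34, 35]) (.node 37
  (.leaf [13, 35]) (.leaf [20, 26, 36]))))))) (.node 57 (.node 47 (.node 42 (.node 40 (.node 39
  (.leaf [36, 37]) (.leaf [19, 20, 37])) (.node 41 (.leaf [18, 37, 38]) (.leaf [17, 38])))
  (.node 44 (.node 43 (.leaf [24, 39]) (.leaf [39, 40])) (.node 45 (.leaf [8, 24, 40]) (.node 46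
  (.leaf [3, 40, 41]) (.leaf [21, 39, 41]))))) (.node 52 (.node 49 (.node 48 (.leaf [28, 41,
  42]) (.leaf [29, 42, 43])) (.node 50 (.leaf [1, 41, 43]) (.node 51 (.leaf [4, 43]) (.leaf [35,
  44])))) (.node 54 (.node 53 (.leaf [34, 44, 45]) (.leaf [33, 45])) (.node 55 (.leaf [38, 46])
  (.node 56 (.leaf [37, 46, 47]) (.leaf [36, 47])))))) (.node 67 (.node 62 (.node 59 (.node 58
  (.leaf [25, 26, 48]) (.leaf [48, 49])) (.node 60 (.leaf [24, 25, 49]) (.node 61 (.leaf [23,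
  49]) (.leaf [32, 50])))) (.node 64 (.node 63 (.leaf [31, 50, 51]) (.leaf [30, 51])) (.node 65
  (.leaf [29, 51]) (.node 66 (.leaf [45, 52]) (.leaf [44, 52]))))) (.node 72 (.node 69 (.node 68
  (.leaf [47, 53]) (.leaf [46, 53])) (.node 70 (.leaf [52, 54]) (.node 71 (.leaf [53, 55])
  (.leaf [26])))) (.node 74 (.node 73 (.leaf [42]) (.leaf [48])) (.node 75 (.leaf [50]) (.node
  76 (.leaf [54]) (.leaf [55])))))))), (.node 38 (.node 19 (.node 9 (.node 4 (.node 2 (.node 1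
  (.leaf []) (.leaf [0])) (.node 3 (.leaf [0, 1]) (.leaf [0, 1, 2]))) (.node 6 (.node 5 (.leaf
  [0]) (.leaf [0, 3, 4])) (.node 7 (.leaf [0, 2, 4, 5]) (.node 8 (.leaf [2, 3, 5, 6]) (.leaf
  [7]))))) (.node 14 (.node 11 (.node 10 (.leaf [2, 3, 7, 8]) (.leaf [1, 3, 9])) (.node 12
  (.leaf [1, 10]) (.node 13 (.leaf [1, 2, 9, 10, 11]) (.leaf [7, 8])))) (.node 16 (.node 15
  (.leaf [5, 6, 7, 13]) (.leaf [4, 6, 14])) (.node 17 (.leaf [4, 15]) (.node 18 (.leaf [4, 5,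
  14, 15]) (.leaf [0, 1])))))) (.node 28 (.node 23 (.node 21 (.node 20 (.leaf [1, 3, 10, 18])
  (.leaf [0, 3, 5, 18, 19])) (.node 22 (.leaf [0, 4, 18, 20]) (.leaf [4, 5, 17, 20, 21])))
  (.node 25 (.node 24 (.leaf [4, 16, 17, 22]) (.leaf [4, 6, 15])) (.node 26 (.leaf [0, 4, 21,
  24]) (.node 27 (.leaf [18, 21, 25]) (.leaf [0, 1, 18, 25, 26]))))) (.node 33 (.node 30 (.node
  29 (.leaf [0, 2, 6, 24, 25, 27]) (.leaf [1, 2, 12, 27, 28])) (.node 31 (.leaf [1, 11, 27, 29])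
  (.node 32 (.leaf [11, 12, 29, 30]) (.leaf [31])))) (.node 35 (.node 34 (.leaf [11, 12, 31,
  32]) (.leaf [10, 11, 33])) (.node 36 (.leaf [9, 10, 12, 33, 34]) (.node 37 (.leaf [8, 9, 35])
  (.leaf [17, 23]))))))) (.node 57 (.node 47 (.node 42 (.node 40 (.node 39 (.leaf [37]) (.leaf
  [15, 16, 17, 23, 37, 38])) (.node 41 (.leaf [14, 15, 17, 38, 39]) (.leaf [13, 14, 40])))
  (.node 44 (.node 43 (.leaf [21]) (.leaf [42])) (.node 45 (.leaf [4, 16, 21, 23, 42, 43])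
  (.node 46 (.leaf [0, 4, 21, 25, 43, 44]) (.leaf [18, 21, 26, 42, 43, 45]))))) (.node 52 (.node
  49 (.node 48 (.leaf [25, 26, 27, 45, 46]) (.leaf [27, 30, 47])) (.node 50 (.leaf [0, 1, 18,
  27, 45, 46, 47, 48]) (.node 51 (.leaf [1, 11, 30, 48, 49]) (.leaf [35, 36])))) (.node 54
  (.node 53 (.leaf [33, 34, 35, 51]) (.leaf [32, 33, 52])) (.node 55 (.leaf [40, 41]) (.node 56
  (.leaf [38, 39, 40, 54]) (.leaf [37, 38, 55])))))) (.node 67 (.node 62 (.node 59 (.node 58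
  (.leaf [22, 23, 37]) (.leaf [57])) (.node 60 (.leaf [21, 22, 23, 42, 44, 57, 58]) (.node 61
  (.leaf [20, 21, 22, 58, 59]) (.leaf [31, 32])))) (.node 64 (.node 63 (.leaf [29, 30, 31, 61])
  (.leaf [27, 28, 29, 62])) (.node 65 (.leaf [27, 30, 48, 62, 63]) (.node 66 (.leaf [52, 53])
  (.leaf [51, 52, 65]))))) (.node 72 (.node 69 (.node 68 (.leaf [55, 56]) (.leaf [54, 55, 67]))
  (.node 70 (.leaf [65, 66]) (.node 71 (.leaf [67, 68]) (.leaf [37, 57])))) (.node 74 (.node 73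
  (.leaf [47, 48]) (.leaf [57, 58])) (.node 75 (.leaf [61, 62]) (.node 76 (.leaf [69]) (.leaf
  [70])))))))), 272, 253⟩

/-- Level data. -/
def nd12b : Nd :=
⟨77, (.node 38 (.node 19 (.node 9 (.node 4 (.node 2 (.node 1 (.leaf [0, 1, 2, 3]) (.leaf [1, 4,
  5, 6])) (.node 3 (.leaf [2, 6, 7]) (.leaf [0, 5, 7]))) (.node 6 (.node 5 (.leaf [3, 8, 9, 10])
  (.leaf [0, 10, 11])) (.node 7 (.leaf [2, 9, 11]) (.node 8 (.leaf [7, 11, 12]) (.leaf [12,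
  13]))))) (.node 14 (.node 11 (.node 10 (.leaf [7, 13, 14]) (.leaf [5, 14, 15])) (.node 12
  (.leaf [4, 15, 16]) (.node 13 (.leaf [6, 14, 16]) (.leaf [12, 17])))) (.node 16 (.node 15
  (.leaf [11, 17, 18]) (.leaf [9, 18, 19])) (.node 17 (.leaf [8, 19, 20]) (.node 18 (.leaf [10,
  18, 20]) (.leaf [1, 21, 22])))))) (.node 28 (.node 23 (.node 21 (.node 20 (.leaf [5, 22])
  (.leaf [0, 22, 23])) (.node 22 (.leaf [3, 21, 23, 24]) (.leaf [8, 24, 25]))) (.node 25 (.node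
  24 (.leaf [10, 23, 25]) (.leaf [20, 25, 26])) (.node 26 (.leaf [9, 27]) (.node 27 (.leaf [3,
  27, 28]) (.leaf [21, 28]))))) (.node 33 (.node 30 (.node 29 (.leaf [1, 28, 29, 30]) (.leaf [2,
  27, 30])) (.node 31 (.leaf [6, 30, 31]) (.node 32 (.leaf [4, 29, 31]) (.leaf [16, 31, 32]))))
  (.node 35 (.node 34 (.leaf [32, 33]) (.leaf [16, 33, 34])) (.node 36 (.leaf [15, 34]) (.node
  37 (.leaf [14, 34, 35]) (.leaf [13, 35]))))))) (.node 57 (.node 47 (.node 42 (.node 40 (.node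
  39 (.leaf [26, 36]) (.leaf [20, 36, 37])) (.node 41 (.leaf [19, 37]) (.leaf [18, 37, 38])))
  (.node 44 (.node 43 (.leaf [17, 38]) (.leaf [24, 39, 40])) (.node 45 (.leaf [8, 40]) (.node 46
  (.leaf [3, 40, 41]) (.leaf [21, 39, 41]))))) (.node 52 (.node 49 (.node 48 (.leaf [28, 41,
  42]) (.leaf [29, 42, 43])) (.node 50 (.leaf [1, 41, 43]) (.node 51 (.leaf [4, 43]) (.leaf [35,
  44])))) (.node 54 (.node 53 (.leaf [34, 44, 45]) (.leaf [33, 45])) (.node 55 (.leaf [38, 46])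
  (.node 56 (.leaf [37, 46, 47]) (.leaf [36, 47])))))) (.node 67 (.node 62 (.node 59 (.node 58
  (.leaf [26, 48]) (.leaf [25, 48, 49])) (.node 60 (.leaf [24, 49]) (.node 61 (.leaf [23, 49])
  (.leaf [32, 50])))) (.node 64 (.node 63 (.leaf [31, 50, 51]) (.leaf [30, 51])) (.node 65
  (.leaf [29, 51]) (.node 66 (.leaf [45, 52]) (.leaf [44, 52]))))) (.node 72 (.node 69 (.node 68
  (.leaf [47, 53]) (.leaf [46, 53])) (.node 70 (.leaf [52, 54]) (.node 71 (.leaf [53, 55])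
  (.leaf [39])))) (.node 74 (.node 73 (.leaf [42]) (.leaf [48])) (.node 75 (.leaf [50]) (.node
  76 (.leaf [54]) (.leaf [55])))))))), (.node 38 (.node 19 (.node 9 (.node 4 (.node 2 (.node 1
  (.leaf []) (.leaf [0])) (.node 3 (.leaf [0, 1]) (.leaf [0, 1, 2]))) (.node 6 (.node 5 (.leaf
  [0]) (.leaf [0, 3, 4])) (.node 7 (.leaf [0, 2, 4, 5]) (.node 8 (.leaf [2, 3, 5, 6]) (.leaf
  [7]))))) (.node 14 (.node 11 (.node 10 (.leaf [2, 3, 7, 8]) (.leaf [1, 3, 9])) (.node 12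
  (.leaf [1, 10]) (.node 13 (.leaf [1, 2, 9, 10, 11]) (.leaf [7, 8])))) (.node 16 (.node 15
  (.leaf [5, 6, 7, 13]) (.leaf [4, 6, 14])) (.node 17 (.leaf [4, 15]) (.node 18 (.leaf [4, 5,
  14, 15, 16]) (.leaf [0, 1])))))) (.node 28 (.node 23 (.node 21 (.node 20 (.leaf [1, 3, 10,
  18]) (.leaf [0, 3, 5, 18, 19])) (.node 22 (.leaf [0, 4, 18, 20]) (.leaf [4, 16, 21]))) (.node
  25 (.node 24 (.leaf [4, 5, 17, 20, 21, 22]) (.leaf [16, 17, 22, 23])) (.node 26 (.leaf [4, 6,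
  15]) (.node 27 (.leaf [0, 4, 21, 25]) (.leaf [18, 21, 26]))))) (.node 33 (.node 30 (.node 29
  (.leaf [0, 1, 18, 26, 27]) (.leaf [0, 2, 6, 25, 26, 28])) (.node 31 (.leaf [1, 2, 12, 28, 29])
  (.node 32 (.leaf [1, 11, 28, 30]) (.leaf [11, 12, 30, 31])))) (.node 35 (.node 34 (.leaf [32])
  (.leaf [11, 12, 32, 33])) (.node 36 (.leaf [10, 11, 34]) (.node 37 (.leaf [9, 10, 12, 34, 35])
  (.leaf [8, 9, 36]))))))) (.node 57 (.node 47 (.node 42 (.node 40 (.node 39 (.leaf [24]) (.leaf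
  [16, 17, 24, 38])) (.node 41 (.leaf [15, 16, 39]) (.leaf [14, 15, 17, 39, 40]))) (.node 44
  (.node 43 (.leaf [13, 14, 41]) (.leaf [21, 22])) (.node 45 (.leaf [4, 16, 22, 43]) (.node 46
  (.leaf [0, 4, 21, 26, 43, 44]) (.leaf [18, 21, 27, 43, 45]))))) (.node 52 (.node 49 (.node 48
  (.leaf [26, 27, 28, 45, 46]) (.leaf [28, 31, 47])) (.node 50 (.leaf [0, 1, 18, 28, 45, 46, 47,
  48]) (.node 51 (.leaf [1, 11, 31, 48, 49]) (.leaf [36, 37])))) (.node 54 (.node 53 (.leaf [34,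
  35, 36, 51]) (.leaf [33, 34, 52])) (.node 55 (.leaf [41, 42]) (.node 56 (.leaf [39, 40, 41,
  54]) (.leaf [38, 39, 55])))))) (.node 67 (.node 62 (.node 59 (.node 58 (.leaf [24, 38]) (.leaf
  [22, 23, 24, 57])) (.node 60 (.leaf [21, 22, 43, 58]) (.node 61 (.leaf [20, 21, 23, 58, 59])
  (.leaf [32, 33])))) (.node 64 (.node 63 (.leaf [30, 31, 32, 61]) (.leaf [28, 29, 30, 62]))
  (.node 65 (.leaf [28, 31, 48, 62, 63]) (.node 66 (.leaf [52, 53]) (.leaf [51, 52, 65])))))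
  (.node 72 (.node 69 (.node 68 (.leaf [55, 56]) (.leaf [54, 55, 67])) (.node 70 (.leaf [65,
  66]) (.node 71 (.leaf [67, 68]) (.leaf [43, 46])))) (.node 74 (.node 73 (.leaf [47, 48])
  (.leaf [57, 58])) (.node 75 (.leaf [61, 62]) (.node 76 (.leaf [69]) (.leaf [70])))))))), 272,
  253⟩

/-- Level data. -/
def nd12c : Nd :=
⟨77, (.node 38 (.node 19 (.node 9 (.node 4 (.node 2 (.node 1 (.leaf [0, 1, 2, 3]) (.leaf [1, 4,
  5, 6])) (.node 3 (.leaf [2, 6, 7]) (.leaf [0, 5, 7]))) (.node 6 (.node 5 (.leaf [3, 8, 9, 10])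
  (.leaf [0, 10, 11])) (.node 7 (.leaf [2, 9, 11]) (.node 8 (.leaf [7, 11, 12]) (.leaf [12,
  13]))))) (.node 14 (.node 11 (.node 10 (.leaf [7, 13, 14]) (.leaf [5, 14, 15])) (.node 12
  (.leaf [4, 15]) (.node 13 (.leaf [6, 14, 16]) (.leaf [12, 17])))) (.node 16 (.node 15 (.leaf
  [11, 17, 18]) (.leaf [9, 18, 19])) (.node 17 (.leaf [8, 19]) (.node 18 (.leaf [10, 18, 20])
  (.leaf [1, 21, 22])))))) (.node 28 (.node 23 (.node 21 (.node 20 (.leaf [5, 22]) (.leaf [0,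
  22, 23])) (.node 22 (.leaf [3, 21, 23, 24]) (.leaf [10, 23, 25]))) (.node 25 (.node 24 (.leaf
  [8, 20, 25]) (.leaf [9, 27])) (.node 26 (.leaf [3, 27, 28]) (.node 27 (.leaf [21, 28]) (.leaf
  [1, 28, 29, 30]))))) (.node 33 (.node 30 (.node 29 (.leaf [2, 27, 30]) (.leaf [6, 30, 31]))
  (.node 31 (.leaf [4, 16, 31]) (.node 32 (.leaf [16, 32, 33]) (.leaf [33, 34])))) (.node 35
  (.node 34 (.leaf [15, 16, 34]) (.leaf [14, 34, 35])) (.node 36 (.leaf [13, 35]) (.node 37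
  (.leaf [20, 26, 36]) (.leaf [36, 37]))))))) (.node 57 (.node 47 (.node 42 (.node 40 (.node 39
  (.leaf [19, 20, 37]) (.leaf [18, 37, 38])) (.node 41 (.leaf [17, 38]) (.leaf [24, 39])))
  (.node 44 (.node 43 (.leaf [39, 40]) (.leaf [8, 24, 40])) (.node 45 (.leaf [3, 40, 41]) (.node
  46 (.leaf [21, 39, 41]) (.leaf [28, 41, 42]))))) (.node 52 (.node 49 (.node 48 (.leaf [29,
  42]) (.leaf [42, 43])) (.node 50 (.leaf [1, 41, 43]) (.node 51 (.leaf [4, 29, 43]) (.leaf [35,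
  44])))) (.node 54 (.node 53 (.leaf [34, 44, 45]) (.leaf [33, 45])) (.node 55 (.leaf [38, 46])
  (.node 56 (.leaf [37, 46, 47]) (.leaf [36, 47])))))) (.node 67 (.node 62 (.node 59 (.node 58
  (.leaf [25, 26, 48]) (.leaf [48, 49])) (.node 60 (.leaf [24, 25, 49]) (.node 61 (.leaf [23,
  49]) (.leaf [31, 32, 50])))) (.node 64 (.node 63 (.leaf [50, 51]) (.leaf [29, 31, 51])) (.node
  65 (.leaf [30, 51]) (.node 66 (.leaf [45, 52]) (.leaf [44, 52]))))) (.node 72 (.node 69 (.node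
  68 (.leaf [47, 53]) (.leaf [46, 53])) (.node 70 (.leaf [52, 54]) (.node 71 (.leaf [53, 55])
  (.leaf [26])))) (.node 74 (.node 73 (.leaf [32]) (.leaf [48])) (.node 75 (.leaf [50]) (.node
  76 (.leaf [54]) (.leaf [55])))))))), (.node 38 (.node 19 (.node 9 (.node 4 (.node 2 (.node 1
  (.leaf []) (.leaf [0])) (.node 3 (.leaf [0, 1]) (.leaf [0, 1, 2]))) (.node 6 (.node 5 (.leaf
  [0]) (.leaf [0, 3, 4])) (.node 7 (.leaf [0, 2, 4, 5]) (.node 8 (.leaf [2, 3, 5, 6]) (.leaf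
  [7]))))) (.node 14 (.node 11 (.node 10 (.leaf [2, 3, 7, 8]) (.leaf [1, 3, 9])) (.node 12
  (.leaf [1, 10]) (.node 13 (.leaf [1, 2, 9, 10]) (.leaf [7, 8])))) (.node 16 (.node 15 (.leaf
  [5, 6, 7, 13]) (.leaf [4, 6, 14])) (.node 17 (.leaf [4, 15]) (.node 18 (.leaf [4, 5, 14, 15])
  (.leaf [0, 1])))))) (.node 28 (.node 23 (.node 21 (.node 20 (.leaf [1, 3, 10, 18]) (.leaf [0,
  3, 5, 18, 19])) (.node 22 (.leaf [0, 4, 18, 20]) (.leaf [4, 5, 17, 20, 21]))) (.node 25 (.node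
  24 (.leaf [4, 16, 17, 22]) (.leaf [4, 6, 15])) (.node 26 (.leaf [0, 4, 21, 24]) (.node 27
  (.leaf [18, 21, 25]) (.leaf [0, 1, 18, 25, 26]))))) (.node 33 (.node 30 (.node 29 (.leaf [0,
  2, 6, 24, 25, 27]) (.leaf [1, 2, 12, 27, 28])) (.node 31 (.leaf [1, 11, 12, 29]) (.node 32
  (.leaf [12, 30]) (.leaf [31])))) (.node 35 (.node 34 (.leaf [10, 11, 12, 30, 31, 32]) (.leaf
  [9, 10, 12, 32, 33])) (.node 36 (.leaf [8, 9, 34]) (.node 37 (.leaf [17, 23]) (.leaf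
  [36]))))))) (.node 57 (.node 47 (.node 42 (.node 40 (.node 39 (.leaf [15, 16, 17, 23, 36, 37])
  (.leaf [14, 15, 17, 37, 38])) (.node 41 (.leaf [13, 14, 39]) (.leaf [21]))) (.node 44 (.node
  43 (.leaf [41]) (.leaf [4, 16, 21, 23, 41, 42])) (.node 45 (.leaf [0, 4, 21, 25, 42, 43])
  (.node 46 (.leaf [18, 21, 26, 41, 42, 44]) (.leaf [25, 26, 27, 44, 45]))))) (.node 52 (.node
  49 (.node 48 (.leaf [27, 46]) (.leaf [46, 47])) (.node 50 (.leaf [0, 1, 18, 27, 44, 45, 46,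
  48]) (.node 51 (.leaf [1, 11, 27, 30, 47, 48, 49]) (.leaf [34, 35])))) (.node 54 (.node 53
  (.leaf [32, 33, 34, 51]) (.leaf [31, 32, 52])) (.node 55 (.leaf [39, 40]) (.node 56 (.leaf
  [37, 38, 39, 54]) (.leaf [36, 37, 55])))))) (.node 67 (.node 62 (.node 59 (.node 58 (.leaf
  [22, 23, 36]) (.leaf [57])) (.node 60 (.leaf [21, 22, 23, 41, 43, 57, 58]) (.node 61 (.leaf
  [20, 21, 22, 58, 59]) (.leaf [29, 30, 31])))) (.node 64 (.node 63 (.leaf [61]) (.leaf [27, 29,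
  30, 47, 50, 61, 62])) (.node 65 (.leaf [27, 28, 29, 62, 63]) (.node 66 (.leaf [52, 53]) (.leaf
  [51, 52, 65]))))) (.node 72 (.node 69 (.node 68 (.leaf [55, 56]) (.leaf [54, 55, 67])) (.node
  70 (.leaf [65, 66]) (.node 71 (.leaf [67, 68]) (.leaf [36, 57])))) (.node 74 (.node 73 (.leaf
  [31, 61]) (.leaf [57, 58])) (.node 75 (.leaf [61, 62]) (.node 76 (.leaf [69]) (.leaf
  [70])))))))), 272, 253⟩

/-- Level data. -/
def nd12d : Nd :=
⟨77, (.node 38 (.node 19 (.node 9 (.node 4 (.node 2 (.node 1 (.leaf [0, 1, 2, 3]) (.leaf [1, 4,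
  5, 6])) (.node 3 (.leaf [2, 6, 7]) (.leaf [0, 5, 7]))) (.node 6 (.node 5 (.leaf [3, 8, 9, 10])
  (.leaf [0, 10, 11])) (.node 7 (.leaf [2, 9, 11]) (.node 8 (.leaf [7, 11, 12]) (.leaf [12,
  13]))))) (.node 14 (.node 11 (.node 10 (.leaf [7, 13, 14]) (.leaf [5, 14, 15])) (.node 12
  (.leaf [4, 15]) (.node 13 (.leaf [6, 14, 16]) (.leaf [12, 17])))) (.node 16 (.node 15 (.leaf
  [11, 17, 18]) (.leaf [9, 18, 19])) (.node 17 (.leaf [8, 19, 20]) (.node 18 (.leaf [10, 18,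
  20]) (.leaf [1, 21, 22])))))) (.node 28 (.node 23 (.node 21 (.node 20 (.leaf [5, 22]) (.leaf
  [0, 22, 23])) (.node 22 (.leaf [3, 21, 23, 24]) (.leaf [8, 24, 25]))) (.node 25 (.node 24
  (.leaf [10, 23, 25]) (.leaf [20, 25, 26])) (.node 26 (.leaf [9, 27]) (.node 27 (.leaf [3, 27,
  28]) (.leaf [21, 28]))))) (.node 33 (.node 30 (.node 29 (.leaf [1, 28, 29, 30]) (.leaf [2, 27,
  30])) (.node 31 (.leaf [6, 30, 31]) (.node 32 (.leaf [4, 16, 31]) (.leaf [16, 32, 33]))))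
  (.node 35 (.node 34 (.leaf [33, 34]) (.leaf [15, 16, 34])) (.node 36 (.leaf [14, 34, 35])
  (.node 37 (.leaf [13, 35]) (.leaf [26, 36]))))))) (.node 57 (.node 47 (.node 42 (.node 40
  (.node 39 (.leaf [20, 36, 37]) (.leaf [19, 37])) (.node 41 (.leaf [18, 37, 38]) (.leaf [17,
  38]))) (.node 44 (.node 43 (.leaf [24, 39, 40]) (.leaf [8, 40])) (.node 45 (.leaf [3, 40, 41])
  (.node 46 (.leaf [21, 39, 41]) (.leaf [28, 41, 42]))))) (.node 52 (.node 49 (.node 48 (.leaf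
  [29, 42]) (.leaf [42, 43])) (.node 50 (.leaf [1, 41, 43]) (.node 51 (.leaf [4, 29, 43]) (.leaf
  [35, 44])))) (.node 54 (.node 53 (.leaf [34, 44, 45]) (.leaf [33, 45])) (.node 55 (.leaf [38,
  46]) (.node 56 (.leaf [37, 46, 47]) (.leaf [36, 47])))))) (.node 67 (.node 62 (.node 59 (.node
  58 (.leaf [26, 48]) (.leaf [25, 48, 49])) (.node 60 (.leaf [24, 49]) (.node 61 (.leaf [23,
  49]) (.leaf [31, 32, 50])))) (.node 64 (.node 63 (.leaf [50, 51]) (.leaf [29, 31, 51])) (.node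
  65 (.leaf [30, 51]) (.node 66 (.leaf [45, 52]) (.leaf [44, 52]))))) (.node 72 (.node 69 (.node
  68 (.leaf [47, 53]) (.leaf [46, 53])) (.node 70 (.leaf [52, 54]) (.node 71 (.leaf [53, 55])
  (.leaf [32])))) (.node 74 (.node 73 (.leaf [39]) (.leaf [48])) (.node 75 (.leaf [50]) (.node
  76 (.leaf [54]) (.leaf [55])))))))), (.node 38 (.node 19 (.node 9 (.node 4 (.node 2 (.node 1
  (.leaf []) (.leaf [0])) (.node 3 (.leaf [0, 1]) (.leaf [0, 1, 2]))) (.node 6 (.node 5 (.leaf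
  [0]) (.leaf [0, 3, 4])) (.node 7 (.leaf [0, 2, 4, 5]) (.node 8 (.leaf [2, 3, 5, 6]) (.leaf
  [7]))))) (.node 14 (.node 11 (.node 10 (.leaf [2, 3, 7, 8]) (.leaf [1, 3, 9])) (.node 12
  (.leaf [1, 10]) (.node 13 (.leaf [1, 2, 9, 10]) (.leaf [7, 8])))) (.node 16 (.node 15 (.leaf
  [5, 6, 7, 13]) (.leaf [4, 6, 14])) (.node 17 (.leaf [4, 15]) (.node 18 (.leaf [4, 5, 14, 15,
  16]) (.leaf [0, 1])))))) (.node 28 (.node 23 (.node 21 (.node 20 (.leaf [1, 3, 10, 18]) (.leaf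
  [0, 3, 5, 18, 19])) (.node 22 (.leaf [0, 4, 18, 20]) (.leaf [4, 16, 21]))) (.node 25 (.node 24
  (.leaf [4, 5, 17, 20, 21, 22]) (.leaf [16, 17, 22, 23])) (.node 26 (.leaf [4, 6, 15]) (.node
  27 (.leaf [0, 4, 21, 25]) (.leaf [18, 21, 26]))))) (.node 33 (.node 30 (.node 29 (.leaf [0, 1,
  18, 26, 27]) (.leaf [0, 2, 6, 25, 26, 28])) (.node 31 (.leaf [1, 2, 12, 28, 29]) (.node 32
  (.leaf [1, 11, 12, 30]) (.leaf [12, 31])))) (.node 35 (.node 34 (.leaf [32]) (.leaf [10, 11,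
  12, 31, 32, 33])) (.node 36 (.leaf [9, 10, 12, 33, 34]) (.node 37 (.leaf [8, 9, 35]) (.leaf
  [24]))))))) (.node 57 (.node 47 (.node 42 (.node 40 (.node 39 (.leaf [16, 17, 24, 37]) (.leaf
  [15, 16, 38])) (.node 41 (.leaf [14, 15, 17, 38, 39]) (.leaf [13, 14, 40]))) (.node 44 (.node
  43 (.leaf [21, 22]) (.leaf [4, 16, 22, 42])) (.node 45 (.leaf [0, 4, 21, 26, 42, 43]) (.node
  46 (.leaf [18, 21, 27, 42, 44]) (.leaf [26, 27, 28, 44, 45]))))) (.node 52 (.node 49 (.node 48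
  (.leaf [28, 46]) (.leaf [46, 47])) (.node 50 (.leaf [0, 1, 18, 28, 44, 45, 46, 48]) (.node 51
  (.leaf [1, 11, 28, 31, 47, 48, 49]) (.leaf [35, 36])))) (.node 54 (.node 53 (.leaf [33, 34,
  35, 51]) (.leaf [32, 33, 52])) (.node 55 (.leaf [40, 41]) (.node 56 (.leaf [38, 39, 40, 54])
  (.leaf [37, 38, 55])))))) (.node 67 (.node 62 (.node 59 (.node 58 (.leaf [24, 37]) (.leaf [22,
  23, 24, 57])) (.node 60 (.leaf [21, 22, 42, 58]) (.node 61 (.leaf [20, 21, 23, 58, 59]) (.leaf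
  [30, 31, 32])))) (.node 64 (.node 63 (.leaf [61]) (.leaf [28, 30, 31, 47, 50, 61, 62])) (.node
  65 (.leaf [28, 29, 30, 62, 63]) (.node 66 (.leaf [52, 53]) (.leaf [51, 52, 65]))))) (.node 72
  (.node 69 (.node 68 (.leaf [55, 56]) (.leaf [54, 55, 67])) (.node 70 (.leaf [65, 66]) (.node
  71 (.leaf [67, 68]) (.leaf [32, 61])))) (.node 74 (.node 73 (.leaf [42, 45]) (.leaf [57, 58]))
  (.node 75 (.leaf [61, 62]) (.node 76 (.leaf [69]) (.leaf [70])))))))), 272, 253⟩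

/-- Level data. -/
def nd13a : Nd :=
⟨101, (.node 50 (.node 25 (.node 12 (.node 6 (.node 3 (.node 1 (.leaf [0, 1, 2, 3]) (.node 2
  (.leaf [0, 4, 5, 6]) (.leaf [2, 6, 7]))) (.node 4 (.leaf [3, 5, 7]) (.node 5 (.leaf [7, 8, 9])
  (.leaf [3, 9, 10])))) (.node 9 (.node 7 (.leaf [1, 10, 11, 12]) (.node 8 (.leaf [2, 9, 12])
  (.leaf [8, 13]))) (.node 10 (.leaf [7, 13, 14]) (.node 11 (.leaf [6, 14, 15]) (.leaf [4, 15,
  16, 17]))))) (.node 18 (.node 15 (.node 13 (.leaf [5, 14, 17]) (.node 14 (.leaf [1, 18, 19])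
  (.leaf [10, 19]))) (.node 16 (.leaf [3, 19, 20]) (.node 17 (.leaf [0, 18, 20, 21]) (.leaf [4,
  21, 22, 23])))) (.node 21 (.node 19 (.leaf [5, 20, 23]) (.node 20 (.leaf [17, 23, 24]) (.leaf
  [16, 22, 24]))) (.node 23 (.node 22 (.leaf [15, 25]) (.leaf [4, 25, 26])) (.node 24 (.leaf
  [21, 26, 27]) (.leaf [18, 27, 28])))))) (.node 37 (.node 31 (.node 28 (.node 26 (.leaf [0, 26,
  28, 29]) (.node 27 (.leaf [6, 25, 29]) (.leaf [2, 29, 30]))) (.node 29 (.leaf [1, 28, 30, 31])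
  (.node 30 (.leaf [11, 31, 32]) (.leaf [12, 30, 32])))) (.node 34 (.node 32 (.leaf [32, 33,
  34]) (.node 33 (.leaf [11, 34, 35]) (.leaf [10, 35, 36]))) (.node 35 (.leaf [12, 34, 36])
  (.node 36 (.leaf [9, 36, 37]) (.leaf [8, 37]))))) (.node 43 (.node 40 (.node 38 (.leaf [24,
  38, 39]) (.node 39 (.leaf [16, 39, 40]) (.leaf [15, 40, 41]))) (.node 41 (.leaf [17, 39, 41])
  (.node 42 (.leaf [14, 41, 42]) (.leaf [13, 42])))) (.node 46 (.node 44 (.leaf [22, 43, 44])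
  (.node 45 (.leaf [16, 44]) (.leaf [4, 44, 45]))) (.node 48 (.node 47 (.leaf [21, 43, 45, 46])
  (.leaf [27, 46, 47])) (.node 49 (.leaf [26, 45, 47]) (.leaf [28, 47, 48, 49]))))))) (.node 75
  (.node 62 (.node 56 (.node 53 (.node 51 (.leaf [18, 46, 49]) (.node 52 (.leaf [0, 45, 49])
  (.leaf [1, 49, 50]))) (.node 54 (.leaf [31, 48, 50]) (.node 55 (.leaf [11, 50]) (.leaf [37,
  51])))) (.node 59 (.node 57 (.leaf [36, 51, 52]) (.node 58 (.leaf [35, 52]) (.leaf [34, 52,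
  53]))) (.node 60 (.leaf [33, 53]) (.node 61 (.leaf [42, 54]) (.leaf [41, 54, 55]))))) (.node
  68 (.node 65 (.node 63 (.leaf [40, 55]) (.node 64 (.leaf [39, 55, 56]) (.leaf [38, 56])))
  (.node 66 (.leaf [38, 57]) (.node 67 (.leaf [24, 57, 58]) (.leaf [22, 58, 59])))) (.node 71
  (.node 69 (.leaf [43, 59]) (.node 70 (.leaf [21, 59, 60]) (.leaf [23, 58, 60]))) (.node 73
  (.node 72 (.leaf [20, 60]) (.leaf [33, 61])) (.node 74 (.leaf [32, 61, 62]) (.leaf [30, 62,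
  63])))))) (.node 88 (.node 81 (.node 78 (.node 76 (.leaf [29, 63]) (.node 77 (.leaf [28, 63,
  64]) (.leaf [31, 62, 64]))) (.node 79 (.leaf [48, 64]) (.node 80 (.leaf [53, 65]) (.leaf [52,
  65, 66])))) (.node 84 (.node 82 (.leaf [51, 66]) (.node 83 (.leaf [56, 67]) (.leaf [55, 67,
  68]))) (.node 86 (.node 85 (.leaf [54, 68]) (.leaf [66, 69])) (.node 87 (.leaf [65, 69])
  (.leaf [68, 70]))))) (.node 94 (.node 91 (.node 89 (.leaf [67, 70]) (.node 90 (.leaf [46, 71])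
  (.leaf [43, 71]))) (.node 92 (.leaf [48, 72]) (.node 93 (.leaf [47, 72]) (.leaf [58, 73]))))
  (.node 97 (.node 95 (.leaf [57, 73]) (.node 96 (.leaf [62, 74]) (.leaf [61, 74]))) (.node 99
  (.node 98 (.leaf [69, 75]) (.leaf [70, 76])) (.node 100 (.leaf [75]) (.leaf [76])))))))),
  (.node 50 (.node 25 (.node 12 (.node 6 (.node 3 (.node 1 (.leaf []) (.node 2 (.leaf [0])
  (.leaf [0, 1]))) (.node 4 (.leaf [0, 1, 2]) (.node 5 (.leaf [2, 3]) (.leaf [0, 3, 4]))))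
  (.node 9 (.node 7 (.leaf [0, 5]) (.node 8 (.leaf [0, 2, 4, 5, 6]) (.leaf [4]))) (.node 10
  (.leaf [2, 3, 4, 8]) (.node 11 (.leaf [1, 2, 9]) (.leaf [1, 10]))))) (.node 18 (.node 15
  (.node 13 (.leaf [1, 3, 9, 10, 11]) (.node 14 (.leaf [0, 6]) (.leaf [5, 6, 13]))) (.node 16
  (.leaf [0, 3, 5, 13, 14]) (.node 17 (.leaf [0, 1, 13, 15]) (.leaf [1, 11, 16])))) (.node 21
  (.node 19 (.leaf [1, 3, 12, 15, 16, 17]) (.node 20 (.leaf [11, 12, 17, 18]) (.leaf [11, 17,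
  19]))) (.node 23 (.node 22 (.leaf [10, 11]) (.leaf [1, 11, 17, 21])) (.node 24 (.leaf [16, 17,
  22]) (.leaf [13, 16, 23])))))) (.node 37 (.node 31 (.node 28 (.node 26 (.leaf [0, 1, 16, 22,
  23, 24]) (.node 27 (.leaf [1, 2, 10, 21, 22, 25]) (.leaf [0, 2, 7, 25, 26]))) (.node 29 (.leaf
  [0, 6, 13, 24, 25, 27]) (.node 30 (.leaf [6, 28]) (.leaf [6, 7, 27, 28, 29])))) (.node 34
  (.node 32 (.leaf [29, 30]) (.node 33 (.leaf [6, 29, 31]) (.leaf [5, 6, 14, 32]))) (.node 35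
  (.leaf [6, 7, 30, 31, 32, 33]) (.node 36 (.leaf [4, 5, 7, 33, 34]) (.leaf [4, 8, 35])))))
  (.node 43 (.node 40 (.node 38 (.leaf [19, 20]) (.node 39 (.leaf [11, 20, 37]) (.leaf [10, 11,
  21, 38]))) (.node 41 (.leaf [11, 12, 19, 37, 38, 39]) (.node 42 (.leaf [9, 10, 12, 39, 40])
  (.leaf [8, 9, 41])))) (.node 46 (.node 44 (.leaf [17, 20]) (.node 45 (.leaf [11, 20, 38, 43])
  (.leaf [1, 11, 17, 22, 43, 44]))) (.node 48 (.node 47 (.leaf [16, 17, 23, 43, 45]) (.leaf [23,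
  24, 46])) (.node 49 (.leaf [22, 23, 25, 45, 46, 47]) (.leaf [24, 25, 28, 47, 48]))))))) (.node
  75 (.node 62 (.node 56 (.node 53 (.node 51 (.leaf [13, 16, 24, 46, 47, 49]) (.node 52 (.leaf
  [0, 1, 16, 25, 45, 46, 48, 49, 50]) (.leaf [0, 6, 13, 28, 49, 50, 51]))) (.node 54 (.leaf [28,
  29, 49, 52]) (.node 55 (.leaf [6, 29, 32, 52, 53]) (.leaf [35, 36])))) (.node 59 (.node 57
  (.leaf [33, 34, 35, 55]) (.node 58 (.leaf [32, 33, 56]) (.leaf [31, 32, 34, 56, 57]))) (.node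
  60 (.leaf [31, 58]) (.node 61 (.leaf [41, 42]) (.leaf [39, 40, 41, 60]))))) (.node 68 (.node
  65 (.node 63 (.leaf [38, 39, 61]) (.node 64 (.leaf [37, 38, 40, 61, 62]) (.leaf [37, 63])))
  (.node 66 (.leaf [37, 64]) (.node 67 (.leaf [19, 20, 37, 65]) (.leaf [17, 20, 43, 66]))))
  (.node 71 (.node 69 (.leaf [43, 46, 67]) (.node 70 (.leaf [16, 17, 23, 46, 67, 68]) (.leaf
  [17, 18, 19, 66, 67, 69]))) (.node 73 (.node 72 (.leaf [15, 16, 18, 69, 70]) (.leaf [31, 59]))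
  (.node 74 (.leaf [29, 30, 31, 72]) (.leaf [27, 28, 30, 73])))))) (.node 88 (.node 81 (.node 78
  (.node 76 (.leaf [25, 26, 27, 74]) (.node 77 (.leaf [24, 25, 28, 49, 74, 75]) (.leaf [28, 29,
  53, 73, 74, 76]))) (.node 79 (.leaf [49, 53, 76, 77]) (.node 80 (.leaf [58, 59]) (.leaf [56,
  57, 58, 79])))) (.node 84 (.node 82 (.leaf [55, 56, 80]) (.node 83 (.leaf [63, 64]) (.leaf
  [61, 62, 63, 82]))) (.node 86 (.node 85 (.leaf [60, 61, 83]) (.leaf [80, 81])) (.node 87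
  (.leaf [79, 80, 85]) (.leaf [83, 84]))))) (.node 94 (.node 91 (.node 89 (.leaf [82, 83, 87])
  (.node 90 (.leaf [46, 47, 50]) (.leaf [43, 46, 68, 89]))) (.node 92 (.leaf [49, 53, 78])
  (.node 93 (.leaf [47, 48, 49, 91]) (.leaf [66, 67, 70])))) (.node 97 (.node 95 (.leaf [65, 66,
  93]) (.node 96 (.leaf [73, 74, 77]) (.leaf [72, 73, 95]))) (.node 99 (.node 98 (.leaf [85,
  86]) (.leaf [87, 88])) (.node 100 (.leaf [97]) (.leaf [98])))))))), 373, 365⟩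

/-- Level data. -/
def nd14a : Nd :=
⟨135, (.node 67 (.node 33 (.node 16 (.node 8 (.node 4 (.node 2 (.node 1 (.leaf [0, 1, 2, 3])
  (.leaf [3, 4, 5])) (.node 3 (.leaf [0, 5, 6, 7]) (.leaf [2, 4, 7]))) (.node 6 (.node 5 (.leaf
  [4, 8, 9]) (.leaf [2, 9, 10])) (.node 7 (.leaf [1, 10, 11, 12]) (.leaf [3, 9, 12])))) (.node
  12 (.node 10 (.node 9 (.leaf [6, 13, 14]) (.leaf [5, 14, 15])) (.node 11 (.leaf [0, 13, 15,
  16]) (.leaf [1, 16, 17, 18]))) (.node 14 (.node 13 (.leaf [3, 15, 18]) (.leaf [12, 18, 19]))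
  (.node 15 (.leaf [11, 17, 19, 20]) (.leaf [11, 21, 22]))))) (.node 24 (.node 20 (.node 18
  (.node 17 (.leaf [17, 22, 23]) (.leaf [16, 23, 24, 25])) (.node 19 (.leaf [1, 22, 25, 26])
  (.leaf [10, 21, 26]))) (.node 22 (.node 21 (.leaf [2, 26, 27]) (.leaf [0, 25, 27, 28])) (.node
  23 (.leaf [13, 24, 28]) (.leaf [6, 28, 29, 30])))) (.node 28 (.node 26 (.node 25 (.leaf [7,
  27, 30]) (.leaf [29, 31, 32])) (.node 27 (.leaf [14, 33]) (.leaf [6, 32, 33, 34]))) (.node 30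
  (.node 29 (.leaf [30, 31, 34]) (.leaf [7, 34, 35])) (.node 31 (.leaf [5, 33, 35]) (.node 32
  (.leaf [4, 35, 36]) (.leaf [8, 36]))))))) (.node 50 (.node 41 (.node 37 (.node 35 (.node 34
  (.leaf [20, 37, 38]) (.leaf [21, 39])) (.node 36 (.leaf [11, 38, 39, 40]) (.leaf [19, 37,
  40]))) (.node 39 (.node 38 (.leaf [12, 40, 41]) (.leaf [10, 39, 41])) (.node 40 (.leaf [9, 41,
  42]) (.leaf [8, 42])))) (.node 45 (.node 43 (.node 42 (.leaf [20, 43, 44]) (.leaf [38, 44]))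
  (.node 44 (.leaf [11, 44, 45]) (.leaf [17, 43, 45, 46]))) (.node 47 (.node 46 (.leaf [23, 46,
  47, 48]) (.leaf [22, 45, 48])) (.node 48 (.leaf [24, 47, 49, 50]) (.node 49 (.leaf [16, 46,
  50, 51]) (.leaf [25, 48, 49, 51])))))) (.node 58 (.node 54 (.node 52 (.node 51 (.leaf [1, 45,
  51]) (.leaf [0, 51, 52])) (.node 53 (.leaf [13, 50, 52]) (.leaf [28, 49, 52, 53]))) (.node 56
  (.node 55 (.leaf [29, 53, 54]) (.leaf [6, 52, 54])) (.node 57 (.leaf [32, 54]) (.leaf [36,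
  55])))) (.node 62 (.node 60 (.node 59 (.leaf [35, 55, 56]) (.leaf [33, 56, 57])) (.node 61
  (.leaf [32, 57, 58]) (.leaf [34, 56, 58]))) (.node 64 (.node 63 (.leaf [31, 58, 59]) (.leaf
  [42, 60])) (.node 65 (.leaf [41, 60, 61]) (.node 66 (.leaf [39, 61, 62]) (.leaf [38, 62,
  63])))))))) (.node 101 (.node 84 (.node 75 (.node 71 (.node 69 (.node 68 (.leaf [40, 61, 63])
  (.leaf [37, 63, 64])) (.node 70 (.leaf [64, 65]) (.leaf [37, 65, 66]))) (.node 73 (.node 72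
  (.leaf [20, 66, 67]) (.leaf [43, 67, 68])) (.node 74 (.leaf [46, 68, 69]) (.leaf [23, 69]))))
  (.node 79 (.node 77 (.node 76 (.leaf [17, 67, 69, 70]) (.leaf [19, 66, 70])) (.node 78 (.leaf
  [18, 70, 71]) (.leaf [16, 69, 71]))) (.node 81 (.node 80 (.leaf [15, 71]) (.leaf [59, 72]))
  (.node 82 (.leaf [31, 72, 73]) (.node 83 (.leaf [30, 73, 74]) (.leaf [27, 74, 75])))))) (.node
  92 (.node 88 (.node 86 (.node 85 (.leaf [26, 75]) (.leaf [25, 75, 76])) (.node 87 (.leaf [24,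
  76]) (.leaf [28, 74, 76, 77]))) (.node 90 (.node 89 (.leaf [29, 73, 77]) (.leaf [53, 77, 78]))
  (.node 91 (.leaf [49, 76, 78]) (.leaf [59, 79])))) (.node 96 (.node 94 (.node 93 (.leaf [58,
  79, 80]) (.leaf [57, 80])) (.node 95 (.leaf [56, 80, 81]) (.leaf [55, 81]))) (.node 98 (.node
  97 (.leaf [64, 82]) (.leaf [63, 82, 83])) (.node 99 (.leaf [62, 83]) (.node 100 (.leaf [61,
  83, 84]) (.leaf [60, 84]))))))) (.node 118 (.node 109 (.node 105 (.node 103 (.node 102 (.leaf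
  [81, 85]) (.leaf [80, 85, 86])) (.node 104 (.leaf [79, 86]) (.leaf [84, 87]))) (.node 107
  (.node 106 (.leaf [83, 87, 88]) (.leaf [82, 88])) (.node 108 (.leaf [50, 89]) (.leaf [47,
  89])))) (.node 113 (.node 111 (.node 110 (.leaf [46, 89, 90]) (.leaf [68, 90])) (.node 112
  (.leaf [43, 90]) (.leaf [78, 91]))) (.node 115 (.node 114 (.leaf [53, 91]) (.leaf [49, 91,
  92])) (.node 116 (.leaf [48, 92]) (.node 117 (.leaf [47, 92]) (.leaf [70, 93])))))) (.node 126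
  (.node 122 (.node 120 (.node 119 (.leaf [67, 93]) (.leaf [66, 93, 94])) (.node 121 (.leaf [65,
  94]) (.leaf [77, 95]))) (.node 124 (.node 123 (.leaf [74, 95]) (.leaf [73, 95, 96])) (.node
  125 (.leaf [72, 96]) (.leaf [86, 97])))) (.node 130 (.node 128 (.node 127 (.leaf [85, 97])
  (.leaf [88, 98])) (.node 129 (.leaf [87, 98]) (.leaf [97, 99]))) (.node 132 (.node 131 (.leaf
  [98, 100]) (.leaf [94])) (.node 133 (.leaf [96]) (.node 134 (.leaf [99]) (.leaf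
  [100]))))))))), (.node 67 (.node 33 (.node 16 (.node 8 (.node 4 (.node 2 (.node 1 (.leaf [])
  (.leaf [0])) (.node 3 (.leaf [0, 1]) (.leaf [0, 1, 2]))) (.node 6 (.node 5 (.leaf [1, 3])
  (.leaf [0, 3, 4])) (.node 7 (.leaf [0, 5]) (.leaf [0, 1, 4, 5, 6])))) (.node 12 (.node 10
  (.node 9 (.leaf [2]) (.leaf [1, 2, 8])) (.node 11 (.leaf [0, 2, 8, 9]) (.leaf [0, 6, 10])))
  (.node 14 (.node 13 (.leaf [0, 1, 7, 9, 10, 11]) (.leaf [6, 7, 11, 12])) (.node 15 (.leaf [6,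
  11, 13]) (.leaf [6, 14]))))) (.node 24 (.node 20 (.node 18 (.node 17 (.leaf [11, 14, 15])
  (.leaf [10, 11, 16])) (.node 19 (.leaf [0, 6, 11, 15, 16, 17]) (.leaf [5, 6, 15, 18]))) (.node
  22 (.node 21 (.leaf [0, 3, 5, 18, 19]) (.leaf [0, 2, 10, 17, 18, 20])) (.node 23 (.leaf [8,
  10, 17, 21]) (.leaf [2, 8, 21, 22])))) (.node 28 (.node 26 (.node 25 (.leaf [2, 3, 20, 21,
  23]) (.leaf [23])) (.node 27 (.leaf [8, 9]) (.leaf [2, 8, 23, 25, 26]))) (.node 30 (.node 29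
  (.leaf [23, 24, 25, 27]) (.leaf [2, 3, 24, 27, 28])) (.node 31 (.leaf [1, 2, 9, 26, 27, 29])
  (.node 32 (.leaf [1, 3, 4, 29, 30]) (.leaf [4, 31]))))))) (.node 50 (.node 41 (.node 37 (.node
  35 (.node 34 (.leaf [14]) (.leaf [15, 19])) (.node 36 (.leaf [6, 14, 15, 33, 34]) (.leaf [13,
  14, 33, 35]))) (.node 39 (.node 38 (.leaf [6, 7, 13, 35, 36]) (.leaf [5, 6, 19, 34, 35, 37]))
  (.node 40 (.leaf [4, 5, 7, 37, 38]) (.leaf [4, 32, 39])))) (.node 45 (.node 43 (.node 42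
  (.leaf [14, 33]) (.leaf [33, 35, 41])) (.node 44 (.leaf [6, 14, 15, 35, 41, 42]) (.leaf [11,
  14, 16, 41, 43]))) (.node 47 (.node 46 (.leaf [16, 17, 44]) (.leaf [15, 16, 18, 43, 44, 45]))
  (.node 48 (.leaf [17, 22, 45]) (.node 49 (.leaf [10, 11, 17, 44, 45, 47]) (.leaf [17, 18, 21,
  45, 46, 47, 48])))))) (.node 58 (.node 54 (.node 52 (.node 51 (.leaf [0, 6, 11, 18, 43, 44,
  46, 48, 49]) (.leaf [0, 2, 10, 21, 48, 49, 50])) (.node 53 (.leaf [8, 10, 22, 47, 48, 51])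
  (.leaf [21, 22, 23, 47, 49, 51, 52]))) (.node 56 (.node 55 (.leaf [23, 25, 53]) (.leaf [2, 8,
  23, 27, 51, 52, 53, 54])) (.node 57 (.leaf [25, 27, 54, 55]) (.leaf [31, 32])))) (.node 62
  (.node 60 (.node 59 (.leaf [29, 30, 31, 57]) (.leaf [26, 27, 30, 58])) (.node 61 (.leaf [25,
  27, 56, 59]) (.leaf [27, 28, 29, 58, 59, 60]))) (.node 64 (.node 63 (.leaf [25, 28, 60, 61])
  (.leaf [39, 40])) (.node 65 (.leaf [37, 38, 39, 63]) (.node 66 (.leaf [34, 35, 38, 64]) (.leaf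
  [33, 35, 42, 65])))))))) (.node 101 (.node 84 (.node 75 (.node 71 (.node 69 (.node 68 (.leaf
  [35, 36, 37, 64, 65, 66]) (.leaf [33, 36, 66, 67])) (.node 70 (.leaf [68]) (.leaf [33, 36, 68,
  69]))) (.node 73 (.node 72 (.leaf [14, 33, 41, 70]) (.leaf [41, 44, 71])) (.node 74 (.leaf
  [44, 45, 48, 72]) (.leaf [16, 17, 45, 73])))) (.node 79 (.node 77 (.node 76 (.leaf [11, 14,
  16, 44, 71, 72, 73, 74]) (.leaf [13, 14, 36, 70, 71, 75])) (.node 78 (.leaf [11, 12, 13, 75,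
  76]) (.leaf [10, 11, 17, 48, 73, 74, 75, 77]))) (.node 81 (.node 80 (.leaf [9, 10, 12, 77,
  78]) (.leaf [62])) (.node 82 (.leaf [25, 28, 62, 80]) (.node 83 (.leaf [23, 24, 28, 81])
  (.leaf [20, 21, 24, 82])))))) (.node 92 (.node 88 (.node 86 (.node 85 (.leaf [18, 19, 20, 83])
  (.leaf [17, 18, 21, 49, 83, 84])) (.node 87 (.leaf [17, 22, 47, 85]) (.leaf [21, 22, 23, 53,
  82, 83, 85, 86]))) (.node 90 (.node 89 (.leaf [23, 25, 54, 81, 82, 87]) (.leaf [53, 54, 87,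
  88])) (.node 91 (.leaf [47, 49, 53, 85, 86, 87, 89]) (.leaf [62, 80])))) (.node 96 (.node 94
  (.node 93 (.leaf [60, 61, 62, 91]) (.leaf [59, 60, 92])) (.node 95 (.leaf [58, 59, 61, 92,
  93]) (.leaf [57, 58, 94]))) (.node 98 (.node 97 (.leaf [68, 69]) (.leaf [66, 67, 68, 96]))
  (.node 99 (.leaf [65, 66, 97]) (.node 100 (.leaf [64, 65, 67, 97, 98]) (.leaf [63, 64,
  99]))))))) (.node 118 (.node 109 (.node 105 (.node 103 (.node 102 (.leaf [94, 95]) (.leaf [92,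
  93, 94, 101])) (.node 104 (.leaf [91, 92, 102]) (.leaf [99, 100]))) (.node 107 (.node 106
  (.leaf [97, 98, 99, 104]) (.leaf [96, 97, 105])) (.node 108 (.leaf [47, 48, 52]) (.leaf [45,
  47, 107])))) (.node 113 (.node 111 (.node 110 (.leaf [44, 45, 48, 73, 107, 108]) (.leaf [72,
  73, 109])) (.node 112 (.leaf [41, 44, 72, 109, 110]) (.leaf [89, 90]))) (.node 115 (.node 114
  (.leaf [53, 54, 89, 112]) (.leaf [47, 49, 53, 90, 112, 113])) (.node 116 (.leaf [45, 46, 49,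
  114]) (.node 117 (.leaf [45, 47, 108, 114, 115]) (.leaf [75, 76, 77])))))) (.node 126 (.node
  122 (.node 120 (.node 119 (.leaf [71, 72, 75, 117]) (.leaf [70, 71, 76, 117, 118])) (.node 121
  (.leaf [69, 70, 119]) (.leaf [87, 88, 89]))) (.node 124 (.node 123 (.leaf [82, 83, 87, 121])
  (.leaf [81, 82, 88, 121, 122])) (.node 125 (.leaf [80, 81, 123]) (.leaf [102, 103])))) (.node
  130 (.node 128 (.node 127 (.leaf [101, 102, 125]) (.leaf [105, 106])) (.node 129 (.leaf [104,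
  105, 127]) (.leaf [125, 126]))) (.node 132 (.node 131 (.leaf [127, 128]) (.leaf [119, 120]))
  (.node 133 (.leaf [123, 124]) (.node 134 (.leaf [129]) (.leaf [130]))))))))), 508, 525⟩

/-- Level data. -/
def nd15a : Nd :=
⟨176, (.node 88 (.node 44 (.node 22 (.node 11 (.node 5 (.node 2 (.node 1 (.leaf [0, 1, 2, 3])
  (.leaf [3, 4, 5])) (.node 3 (.leaf [0, 5, 6, 7]) (.node 4 (.leaf [1, 4, 7]) (.leaf [2, 8, 9,
  10])))) (.node 8 (.node 6 (.leaf [0, 10, 11, 12]) (.node 7 (.leaf [1, 9, 12]) (.leaf [7, 12,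
  13]))) (.node 9 (.leaf [6, 11, 13, 14]) (.node 10 (.leaf [14, 15, 16]) (.leaf [11, 16, 17,
  18]))))) (.node 16 (.node 13 (.node 12 (.leaf [6, 15, 18, 19]) (.leaf [5, 19, 20])) (.node 14
  (.leaf [0, 18, 20, 21]) (.node 15 (.leaf [10, 17, 21, 22]) (.leaf [8, 22, 23])))) (.node 19
  (.node 17 (.leaf [2, 21, 23, 24]) (.node 18 (.leaf [3, 20, 24]) (.leaf [8, 26, 27]))) (.node
  20 (.leaf [23, 25, 27, 28]) (.node 21 (.leaf [24, 28, 29]) (.leaf [2, 27, 29, 30])))))) (.node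
  33 (.node 27 (.node 24 (.node 23 (.leaf [9, 26, 30]) (.leaf [1, 30, 31])) (.node 25 (.leaf [3,
  29, 31]) (.node 26 (.leaf [4, 31, 32]) (.leaf [15, 34, 35])))) (.node 30 (.node 28 (.leaf [14,
  33, 35, 36]) (.node 29 (.leaf [13, 36, 37]) (.leaf [6, 35, 37, 38]))) (.node 31 (.leaf [19,
  34, 38]) (.node 32 (.leaf [5, 38, 39]) (.leaf [7, 37, 39]))))) (.node 38 (.node 35 (.node 34
  (.leaf [4, 39, 40]) (.leaf [32, 40])) (.node 36 (.leaf [33, 41, 42]) (.node 37 (.leaf [35, 42,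
  43]) (.leaf [14, 41, 43, 44])))) (.node 41 (.node 39 (.leaf [16, 44, 45, 46]) (.node 40 (.leaf
  [15, 43, 46]) (.leaf [17, 45, 47, 48, 49]))) (.node 42 (.leaf [18, 46, 49, 50]) (.node 43
  (.leaf [11, 44, 48, 50]) (.leaf [6, 43, 50]))))))) (.node 66 (.node 55 (.node 49 (.node 46
  (.node 45 (.leaf [0, 50, 51]) (.leaf [10, 48, 51, 52])) (.node 47 (.leaf [22, 47, 52, 53])
  (.node 48 (.leaf [21, 49, 51, 53]) (.leaf [23, 53, 54, 55])))) (.node 52 (.node 50 (.leaf [8,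
  52, 55]) (.node 51 (.leaf [2, 51, 55]) (.leaf [27, 55, 56]))) (.node 53 (.leaf [25, 54, 56])
  (.node 54 (.leaf [32, 57]) (.leaf [31, 57, 58]))))) (.node 60 (.node 57 (.node 56 (.leaf [30,
  58, 59]) (.leaf [26, 59])) (.node 58 (.leaf [56, 60]) (.node 59 (.leaf [27, 59, 60, 61])
  (.leaf [29, 58, 61])))) (.node 63 (.node 61 (.leaf [28, 61, 62]) (.node 62 (.leaf [25, 60,
  62]) (.leaf [40, 63]))) (.node 64 (.leaf [39, 63, 64]) (.node 65 (.leaf [38, 64, 65]) (.leaf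
  [34, 65])))))) (.node 77 (.node 71 (.node 68 (.node 67 (.leaf [42, 66]) (.leaf [35, 65, 66,
  67])) (.node 69 (.leaf [37, 64, 67]) (.node 70 (.leaf [36, 67, 68]) (.leaf [33, 66, 68]))))
  (.node 74 (.node 72 (.leaf [68, 69, 70]) (.node 73 (.leaf [33, 70, 71]) (.leaf [41, 71, 72])))
  (.node 75 (.leaf [45, 73, 74]) (.node 76 (.leaf [16, 74, 75]) (.leaf [44, 72, 73, 75])))))
  (.node 82 (.node 79 (.node 78 (.leaf [14, 71, 75, 76]) (.leaf [36, 70, 76])) (.node 80 (.leaf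
  [13, 76, 77]) (.node 81 (.leaf [11, 75, 77, 78]) (.leaf [17, 74, 78])))) (.node 85 (.node 83
  (.leaf [48, 73, 78]) (.node 84 (.leaf [10, 78, 79]) (.leaf [12, 77, 79]))) (.node 86 (.leaf
  [9, 79]) (.node 87 (.leaf [62, 80, 81]) (.leaf [28, 81, 82])))))))) (.node 132 (.node 110
  (.node 99 (.node 93 (.node 90 (.node 89 (.leaf [24, 82, 83]) (.leaf [20, 83, 84])) (.node 91
  (.leaf [19, 84]) (.node 92 (.leaf [18, 84, 85]) (.leaf [17, 85, 86])))) (.node 96 (.node 94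
  (.leaf [22, 86, 87]) (.node 95 (.leaf [21, 83, 85, 87]) (.leaf [23, 82, 87, 88]))) (.node 97
  (.leaf [25, 81, 88]) (.node 98 (.leaf [54, 88, 89]) (.leaf [53, 87, 89, 90]))))) (.node 104
  (.node 101 (.node 100 (.leaf [47, 86, 90]) (.leaf [49, 85, 90])) (.node 102 (.leaf [80, 91])
  (.node 103 (.leaf [62, 91, 92]) (.leaf [60, 92, 93])))) (.node 107 (.node 105 (.leaf [59, 93,
  94]) (.node 106 (.leaf [61, 92, 94]) (.leaf [58, 94, 95]))) (.node 108 (.leaf [57, 95]) (.node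
  109 (.leaf [69, 96]) (.leaf [68, 96, 97])))))) (.node 121 (.node 115 (.node 112 (.node 111
  (.leaf [66, 97, 98]) (.leaf [65, 98, 99])) (.node 113 (.leaf [67, 97, 99]) (.node 114 (.leaf
  [64, 99, 100]) (.leaf [63, 100])))) (.node 118 (.node 116 (.leaf [95, 101]) (.node 117 (.leaf
  [94, 101, 102]) (.leaf [93, 102]))) (.node 119 (.leaf [92, 102, 103]) (.node 120 (.leaf [91,
  103]) (.leaf [100, 104]))))) (.node 126 (.node 123 (.node 122 (.leaf [99, 104, 105]) (.leaf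
  [98, 105])) (.node 124 (.leaf [97, 105, 106]) (.node 125 (.leaf [96, 106]) (.leaf [52,
  107])))) (.node 129 (.node 127 (.leaf [47, 107, 108]) (.node 128 (.leaf [45, 108, 109]) (.leaf
  [48, 107, 109]))) (.node 130 (.leaf [73, 109, 110]) (.node 131 (.leaf [72, 110, 111]) (.leaf
  [44, 109, 111]))))))) (.node 154 (.node 143 (.node 137 (.node 134 (.node 133 (.leaf [41, 111])
  (.leaf [89, 112, 113])) (.node 135 (.leaf [54, 113]) (.node 136 (.leaf [53, 113, 114]) (.leaf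
  [90, 112, 114])))) (.node 140 (.node 138 (.leaf [49, 114, 115]) (.node 139 (.leaf [46, 115])
  (.leaf [45, 115, 116]))) (.node 141 (.leaf [47, 114, 116]) (.node 142 (.leaf [108, 116])
  (.leaf [77, 117]))))) (.node 148 (.node 145 (.node 144 (.leaf [75, 117, 118]) (.leaf [72,
  118])) (.node 146 (.leaf [71, 118, 119]) (.node 147 (.leaf [76, 117, 119]) (.leaf [70, 119,
  120])))) (.node 151 (.node 149 (.leaf [69, 120]) (.node 150 (.leaf [89, 121]) (.leaf [87, 121,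
  122]))) (.node 152 (.leaf [83, 122]) (.node 153 (.leaf [82, 122, 123]) (.leaf [88, 121,
  123])))))) (.node 165 (.node 159 (.node 156 (.node 155 (.leaf [81, 123, 124]) (.leaf [80,
  124])) (.node 157 (.leaf [103, 125]) (.node 158 (.leaf [102, 125, 126]) (.leaf [101, 126]))))
  (.node 162 (.node 160 (.leaf [106, 127]) (.node 161 (.leaf [105, 127, 128]) (.leaf [104,
  128]))) (.node 163 (.leaf [126, 129]) (.node 164 (.leaf [125, 129]) (.leaf [128, 130])))))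
  (.node 170 (.node 167 (.node 166 (.leaf [127, 130]) (.leaf [120, 131])) (.node 168 (.leaf
  [119, 131]) (.node 169 (.leaf [124, 132]) (.leaf [123, 132])))) (.node 173 (.node 171 (.leaf
  [129, 133]) (.node 172 (.leaf [130, 134]) (.leaf [110]))) (.node 174 (.leaf [112]) (.node 175
  (.leaf [133]) (.leaf [134]))))))))), (.node 88 (.node 44 (.node 22 (.node 11 (.node 5 (.node 2
  (.node 1 (.leaf []) (.leaf [0])) (.node 3 (.leaf [0, 1]) (.node 4 (.leaf [0, 1, 2]) (.leaf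
  [0])))) (.node 8 (.node 6 (.leaf [0, 2, 4]) (.node 7 (.leaf [0, 3, 4, 5]) (.leaf [2, 3, 5,
  6]))) (.node 9 (.leaf [2, 5, 7]) (.node 10 (.leaf [8]) (.leaf [5, 8, 9]))))) (.node 16 (.node
  13 (.node 12 (.leaf [2, 8, 9, 10]) (.leaf [1, 2, 11])) (.node 14 (.leaf [0, 2, 5, 10, 11, 12])
  (.node 15 (.leaf [4, 5, 10, 13]) (.leaf [4, 14])))) (.node 19 (.node 17 (.leaf [0, 4, 13, 14,
  15]) (.node 18 (.leaf [0, 1, 12, 13, 16]) (.leaf [4, 15]))) (.node 20 (.leaf [15, 16, 18])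
  (.node 21 (.leaf [16, 17, 19]) (.leaf [0, 4, 16, 18, 19, 20])))))) (.node 33 (.node 27 (.node
  24 (.node 23 (.leaf [4, 6, 18, 21]) (.leaf [0, 3, 6, 21, 22])) (.node 25 (.leaf [0, 1, 17, 20,
  21, 23]) (.node 26 (.leaf [1, 3, 23, 24]) (.leaf [9, 11])))) (.node 30 (.node 28 (.leaf [8, 9,
  26]) (.node 29 (.leaf [7, 8, 27]) (.leaf [2, 8, 11, 26, 27, 28]))) (.node 31 (.leaf [11, 12,
  26, 29]) (.node 32 (.leaf [1, 2, 12, 29, 30]) (.leaf [2, 3, 7, 28, 29, 31]))))) (.node 38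
  (.node 35 (.node 34 (.leaf [1, 3, 25, 31, 32]) (.leaf [25, 33])) (.node 36 (.leaf [27]) (.node
  37 (.leaf [26, 27, 29, 35]) (.leaf [8, 9, 27, 35, 36])))) (.node 41 (.node 39 (.leaf [9, 10,
  37]) (.node 40 (.leaf [9, 11, 26, 36, 37, 38]) (.leaf [10, 14, 38]))) (.node 42 (.leaf [10,
  11, 13, 38, 39, 40]) (.node 43 (.leaf [5, 8, 10, 37, 38, 40, 41]) (.leaf [2, 8, 11, 29, 36,
  37, 39, 41, 42]))))))) (.node 66 (.node 55 (.node 49 (.node 46 (.node 45 (.leaf [0, 2, 5, 13,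
  41, 42, 43]) (.leaf [4, 5, 14, 40, 42, 44])) (.node 47 (.leaf [14, 15, 40, 45]) (.node 48
  (.leaf [13, 14, 16, 40, 41, 44, 45, 46]) (.leaf [15, 16, 19, 46, 47])))) (.node 52 (.node 50
  (.leaf [4, 15, 18, 45, 46, 48]) (.node 51 (.leaf [0, 4, 16, 21, 44, 45, 47, 48, 49]) (.leaf
  [18, 19, 21, 48, 49, 50]))) (.node 53 (.leaf [19, 48, 51]) (.node 54 (.leaf [25, 34]) (.leaf
  [23, 24, 25, 53]))))) (.node 60 (.node 57 (.node 56 (.leaf [21, 22, 23, 54]) (.leaf [18, 22,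
  55])) (.node 58 (.leaf [51, 52]) (.node 59 (.leaf [18, 19, 21, 51, 55, 56, 57]) (.leaf [20,
  21, 24, 54, 55, 58])))) (.node 63 (.node 61 (.leaf [19, 20, 58, 59]) (.node 62 (.leaf [19, 52,
  57, 58, 60]) (.leaf [33, 34]))) (.node 64 (.leaf [31, 32, 33, 62]) (.node 65 (.leaf [29, 30,
  31, 63]) (.leaf [26, 30, 64])))))) (.node 77 (.node 71 (.node 68 (.node 67 (.leaf [35, 36])
  (.leaf [26, 27, 29, 36, 64, 65, 66])) (.node 69 (.leaf [28, 29, 32, 63, 64, 67]) (.node 70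
  (.leaf [27, 28, 67, 68]) (.leaf [27, 35, 66, 67, 69])))) (.node 74 (.node 72 (.leaf [69, 70])
  (.node 73 (.leaf [27, 35, 70, 71]) (.leaf [35, 37, 72]))) (.node 75 (.leaf [38, 40]) (.node 76
  (.leaf [9, 10, 38, 74]) (.leaf [37, 38, 42, 73, 74, 75]))))) (.node 82 (.node 79 (.node 78
  (.leaf [8, 9, 27, 37, 72, 73, 75, 76]) (.leaf [27, 28, 69, 71, 72, 77])) (.node 80 (.leaf [7,
  8, 28, 77, 78]) (.node 81 (.leaf [5, 8, 10, 42, 75, 76, 77, 79]) (.leaf [10, 14, 40, 74, 75,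
  80])))) (.node 85 (.node 83 (.leaf [40, 42, 45, 74, 76, 80, 81]) (.node 84 (.leaf [4, 5, 14,
  45, 80, 81, 82]) (.leaf [5, 6, 7, 79, 80, 83]))) (.node 86 (.leaf [4, 6, 22, 83, 84]) (.node
  87 (.leaf [60, 61]) (.leaf [19, 20, 60, 86])))))))) (.node 132 (.node 110 (.node 99 (.node 93
  (.node 90 (.node 89 (.leaf [16, 17, 20, 87]) (.leaf [12, 13, 17, 88])) (.node 91 (.leaf [11,
  12, 30, 89]) (.node 92 (.leaf [10, 11, 13, 41, 89, 90]) (.leaf [10, 14, 40, 81, 91])))) (.node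
  96 (.node 94 (.leaf [14, 15, 46, 92]) (.node 95 (.leaf [13, 14, 16, 47, 88, 89, 91, 92, 93])
  (.leaf [15, 16, 19, 48, 87, 88, 93, 94]))) (.node 97 (.leaf [19, 52, 61, 86, 87, 95]) (.node
  98 (.leaf [48, 52, 95, 96]) (.leaf [46, 47, 48, 93, 94, 95, 97]))))) (.node 104 (.node 101
  (.node 100 (.leaf [40, 46, 92, 93, 98]) (.leaf [40, 41, 47, 91, 92, 94, 98, 99])) (.node 102
  (.leaf [86]) (.node 103 (.leaf [60, 61, 86, 101]) (.leaf [57, 58, 61, 102])))) (.node 107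
  (.node 105 (.leaf [55, 56, 58, 103]) (.node 106 (.leaf [58, 59, 60, 102, 103, 104]) (.leaf
  [54, 55, 59, 104, 105]))) (.node 108 (.leaf [53, 54, 106]) (.node 109 (.leaf [71]) (.leaf [69,
  70, 71, 108])))))) (.node 121 (.node 115 (.node 112 (.node 111 (.leaf [66, 67, 70, 109])
  (.leaf [64, 65, 67, 110])) (.node 113 (.leaf [67, 68, 69, 109, 110, 111]) (.node 114 (.leaf
  [63, 64, 68, 111, 112]) (.leaf [62, 63, 113])))) (.node 118 (.node 116 (.leaf [106, 107])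
  (.node 117 (.leaf [104, 105, 106, 115]) (.leaf [103, 104, 116]))) (.node 119 (.leaf [102, 103,
  105, 116, 117]) (.node 120 (.leaf [101, 102, 118]) (.leaf [113, 114]))))) (.node 126 (.node
  123 (.node 122 (.leaf [111, 112, 113, 120]) (.leaf [110, 111, 121])) (.node 124 (.leaf [109,
  110, 112, 121, 122]) (.node 125 (.leaf [108, 109, 123]) (.leaf [45, 46, 49])))) (.node 129
  (.node 127 (.leaf [40, 46, 99, 125]) (.node 128 (.leaf [38, 40, 74, 126]) (.leaf [40, 42, 45,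
  82, 125, 126, 127]))) (.node 130 (.leaf [74, 76, 82, 127, 128]) (.node 131 (.leaf [73, 76,
  129]) (.leaf [37, 38, 42, 76, 127, 128, 129, 130]))))))) (.node 154 (.node 143 (.node 137
  (.node 134 (.node 133 (.leaf [35, 37, 73, 130, 131]) (.leaf [97, 98])) (.node 135 (.leaf [48,
  52, 97, 133]) (.node 136 (.leaf [46, 47, 48, 98, 133, 134]) (.leaf [98, 99, 100, 133, 135]))))
  (.node 140 (.node 138 (.leaf [40, 41, 47, 100, 135, 136]) (.node 139 (.leaf [38, 39, 41, 137])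
  (.leaf [38, 40, 74, 127, 137, 138]))) (.node 141 (.leaf [40, 46, 99, 126, 135, 136, 137, 139])
  (.node 142 (.leaf [126, 127, 139, 140]) (.leaf [79, 80, 84]))))) (.node 148 (.node 145 (.node
  144 (.leaf [75, 76, 77, 80, 142]) (.leaf [73, 76, 130, 143])) (.node 146 (.leaf [72, 73, 77,
  143, 144]) (.node 147 (.leaf [77, 78, 79, 142, 143, 145]) (.leaf [71, 72, 78, 145, 146]))))
  (.node 151 (.node 149 (.leaf [71, 108, 147]) (.node 150 (.leaf [97, 98, 133]) (.leaf [93, 94,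
  95, 98, 149]))) (.node 152 (.leaf [88, 89, 94, 150]) (.node 153 (.leaf [87, 88, 95, 150, 151])
  (.leaf [95, 96, 97, 149, 150, 152])))))) (.node 165 (.node 159 (.node 156 (.node 155 (.leaf
  [86, 87, 96, 152, 153]) (.leaf [86, 101, 154])) (.node 157 (.leaf [118, 119]) (.node 158
  (.leaf [116, 117, 118, 156]) (.leaf [115, 116, 157])))) (.node 162 (.node 160 (.leaf [123,
  124]) (.node 161 (.leaf [121, 122, 123, 159]) (.leaf [120, 121, 160]))) (.node 163 (.leaf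
  [157, 158]) (.node 164 (.leaf [156, 157, 162]) (.leaf [160, 161]))))) (.node 170 (.node 167
  (.node 166 (.leaf [159, 160, 164]) (.leaf [147, 148])) (.node 168 (.leaf [145, 146, 147, 166])
  (.node 169 (.leaf [154, 155]) (.leaf [152, 153, 154, 168])))) (.node 173 (.node 171 (.leaf
  [162, 163]) (.node 172 (.leaf [164, 165]) (.leaf [129, 130]))) (.node 174 (.leaf [133, 136])
  (.node 175 (.leaf [170]) (.leaf [171]))))))))), 684, 738⟩

/-- Level data. -/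
def nd16a : Nd :=
⟨231, (.node 115 (.node 57 (.node 28 (.node 14 (.node 7 (.node 3 (.node 1 (.leaf [0, 1, 2, 3])
  (.node 2 (.leaf [0, 4, 5, 6]) (.leaf [3, 6, 7]))) (.node 5 (.node 4 (.leaf [2, 5, 7, 8])
  (.leaf [8, 9, 10, 11])) (.node 6 (.leaf [2, 11, 12, 13]) (.leaf [5, 10, 13, 14])))) (.node 10
  (.node 8 (.leaf [4, 14, 15, 16]) (.node 9 (.leaf [0, 13, 16, 17]) (.leaf [1, 12, 17]))) (.node
  12 (.node 11 (.leaf [15, 18, 19]) (.leaf [16, 19, 20, 21])) (.node 13 (.leaf [4, 18, 21, 22])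
  (.leaf [6, 22, 23]))))) (.node 21 (.node 17 (.node 15 (.leaf [0, 21, 23, 24]) (.node 16 (.leaf
  [17, 20, 24]) (.leaf [1, 24, 25]))) (.node 19 (.node 18 (.leaf [3, 23, 25]) (.leaf [9, 26,
  27])) (.node 20 (.leaf [8, 27, 28, 29]) (.leaf [11, 26, 29, 30])))) (.node 24 (.node 22 (.leaf
  [12, 30, 31]) (.node 23 (.leaf [2, 29, 31, 32]) (.leaf [7, 28, 32]))) (.node 26 (.node 25
  (.leaf [3, 32, 33]) (.leaf [1, 31, 33])) (.node 27 (.leaf [25, 33, 34]) (.leaf [27, 35, 36,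
  37])))))) (.node 42 (.node 35 (.node 31 (.node 29 (.leaf [9, 37, 38, 39]) (.node 30 (.leaf
  [26, 36, 39]) (.leaf [10, 38, 40, 41, 42]))) (.node 33 (.node 32 (.leaf [8, 37, 42, 43])
  (.leaf [11, 39, 41, 43])) (.node 34 (.leaf [29, 36, 43]) (.leaf [2, 43, 44])))) (.node 38
  (.node 36 (.leaf [5, 42, 44, 45]) (.node 37 (.leaf [14, 40, 45, 46, 47]) (.leaf [13, 41, 44,
  47]))) (.node 40 (.node 39 (.leaf [15, 46, 48, 49]) (.leaf [4, 45, 49, 50])) (.node 41 (.leaf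
  [16, 47, 48, 50]) (.leaf [0, 44, 50]))))) (.node 49 (.node 45 (.node 43 (.leaf [21, 50, 51])
  (.node 44 (.leaf [18, 49, 51]) (.leaf [19, 48, 51, 52]))) (.node 47 (.node 46 (.leaf [34, 53])
  (.leaf [25, 53, 54])) (.node 48 (.leaf [23, 54, 55]) (.leaf [22, 55, 56])))) (.node 53 (.node
  51 (.node 50 (.leaf [51, 57, 58]) (.leaf [18, 56, 58])) (.node 52 (.leaf [21, 55, 58, 59])
  (.leaf [24, 54, 59]))) (.node 55 (.node 54 (.leaf [20, 59, 60]) (.leaf [19, 58, 60, 61]))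
  (.node 56 (.leaf [52, 57, 61]) (.leaf [34, 62]))))))) (.node 86 (.node 71 (.node 64 (.node 60
  (.node 58 (.leaf [33, 62, 63]) (.node 59 (.leaf [31, 63, 64]) (.leaf [30, 64, 65]))) (.node 62
  (.node 61 (.leaf [36, 66, 67]) (.leaf [26, 65, 67])) (.node 63 (.leaf [29, 64, 67, 68]) (.leaf
  [32, 63, 68])))) (.node 67 (.node 65 (.leaf [28, 68, 69]) (.node 66 (.leaf [27, 67, 69, 70])
  (.leaf [35, 66, 70]))) (.node 69 (.node 68 (.leaf [70, 71, 72]) (.leaf [35, 72, 73])) (.node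
  70 (.leaf [38, 74, 75, 76]) (.leaf [37, 73, 76, 77]))))) (.node 78 (.node 74 (.node 72 (.leaf
  [9, 75, 77]) (.node 73 (.leaf [27, 72, 77, 78]) (.leaf [69, 71, 78]))) (.node 76 (.node 75
  (.leaf [28, 78, 79]) (.leaf [8, 77, 79, 80])) (.node 77 (.leaf [10, 75, 80, 81]) (.leaf [40,
  74, 81, 82])))) (.node 82 (.node 80 (.node 79 (.leaf [42, 76, 80, 82]) (.leaf [45, 82, 83]))
  (.node 81 (.leaf [14, 81, 83]) (.leaf [5, 80, 83, 84]))) (.node 84 (.node 83 (.leaf [7, 79,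
  84]) (.leaf [6, 84, 85])) (.node 85 (.leaf [4, 83, 85]) (.leaf [22, 85])))))) (.node 100
  (.node 93 (.node 89 (.node 87 (.leaf [60, 86, 87]) (.node 88 (.leaf [20, 87, 88]) (.leaf [17,
  88, 89]))) (.node 91 (.node 90 (.leaf [12, 89, 90]) (.leaf [30, 90])) (.node 92 (.leaf [11,
  90, 91]) (.leaf [10, 91, 92])))) (.node 96 (.node 94 (.leaf [81, 92]) (.node 95 (.leaf [14,
  92, 93, 94]) (.leaf [13, 89, 91, 94]))) (.node 98 (.node 97 (.leaf [16, 88, 94, 95]) (.leaf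
  [15, 93, 95])) (.node 99 (.leaf [19, 87, 95, 96]) (.leaf [61, 86, 96]))))) (.node 107 (.node
  103 (.node 101 (.leaf [52, 96, 97]) (.node 102 (.leaf [48, 95, 97, 98]) (.leaf [46, 93, 98,
  99]))) (.node 105 (.node 104 (.leaf [40, 92, 99, 100]) (.leaf [47, 94, 98, 100])) (.node 106
  (.leaf [41, 91, 100]) (.leaf [86, 101, 102])))) (.node 111 (.node 109 (.node 108 (.leaf [61,
  102, 103]) (.leaf [57, 103])) (.node 110 (.leaf [56, 104]) (.leaf [58, 103, 104, 105])))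
  (.node 113 (.node 112 (.leaf [60, 102, 105]) (.leaf [59, 105, 106])) (.node 114 (.leaf [55,
  104, 106]) (.leaf [54, 106, 107])))))))) (.node 173 (.node 144 (.node 129 (.node 122 (.node
  118 (.node 116 (.leaf [53, 107]) (.node 117 (.leaf [71, 108, 109]) (.leaf [70, 109, 110])))
  (.node 120 (.node 119 (.leaf [66, 110]) (.leaf [65, 111])) (.node 121 (.leaf [67, 110, 111,
  112]) (.leaf [69, 109, 112])))) (.node 125 (.node 123 (.leaf [68, 112, 113]) (.node 124 (.leaf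
  [64, 111, 113]) (.leaf [63, 113, 114]))) (.node 127 (.node 126 (.leaf [62, 114]) (.leaf [107,
  115])) (.node 128 (.leaf [106, 115, 116]) (.leaf [104, 116, 117]))))) (.node 136 (.node 132
  (.node 130 (.leaf [103, 117, 118]) (.node 131 (.leaf [105, 116, 118]) (.leaf [102, 118,
  119]))) (.node 134 (.node 133 (.leaf [101, 119]) (.leaf [114, 120])) (.node 135 (.leaf [113,
  120, 121]) (.leaf [111, 121, 122])))) (.node 140 (.node 138 (.node 137 (.leaf [110, 122, 123])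
  (.leaf [112, 121, 123])) (.node 139 (.leaf [109, 123, 124]) (.leaf [108, 124]))) (.node 142
  (.node 141 (.leaf [49, 125]) (.leaf [46, 125, 126])) (.node 143 (.leaf [99, 126]) (.leaf [40,
  126, 127, 128])))))) (.node 158 (.node 151 (.node 147 (.node 145 (.leaf [45, 125, 128]) (.node
  146 (.leaf [82, 128, 129]) (.leaf [74, 127, 129]))) (.node 149 (.node 148 (.leaf [76, 129,
  130, 131]) (.leaf [42, 128, 131])) (.node 150 (.leaf [38, 127, 131]) (.leaf [37, 131, 132]))))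
  (.node 154 (.node 152 (.leaf [73, 130, 132]) (.node 153 (.leaf [35, 132]) (.leaf [97, 133,
  134]))) (.node 156 (.node 155 (.leaf [52, 134]) (.leaf [48, 134, 135])) (.node 157 (.leaf [98,
  133, 135, 136]) (.leaf [100, 136, 137]))))) (.node 165 (.node 161 (.node 159 (.leaf [47, 135,
  137]) (.node 160 (.leaf [41, 137, 138]) (.leaf [39, 138]))) (.node 163 (.node 162 (.leaf [38,
  138, 139]) (.leaf [74, 139])) (.node 164 (.leaf [40, 137, 139, 140]) (.leaf [99, 136, 140]))))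
  (.node 169 (.node 167 (.node 166 (.leaf [46, 135, 140]) (.leaf [126, 140, 141])) (.node 168
  (.leaf [127, 139, 141]) (.leaf [84, 142]))) (.node 171 (.node 170 (.leaf [80, 142, 143])
  (.leaf [75, 143])) (.node 172 (.leaf [76, 143, 144]) (.leaf [130, 144]))))))) (.node 202
  (.node 187 (.node 180 (.node 176 (.node 174 (.leaf [73, 144, 145]) (.node 175 (.leaf [77, 143,
  145, 146]) (.leaf [79, 142, 146]))) (.node 178 (.node 177 (.leaf [78, 146, 147]) (.leaf [72,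
  145, 147])) (.node 179 (.leaf [71, 147, 148]) (.leaf [108, 148])))) (.node 183 (.node 181
  (.leaf [133, 149]) (.node 182 (.leaf [98, 149, 150]) (.leaf [93, 150]))) (.node 185 (.node 184
  (.leaf [94, 150, 151]) (.leaf [89, 151])) (.node 186 (.leaf [88, 151, 152]) (.leaf [95, 150,
  152, 153]))))) (.node 194 (.node 190 (.node 188 (.leaf [97, 149, 153]) (.node 189 (.leaf [96,
  153, 154]) (.leaf [87, 152, 154]))) (.node 192 (.node 191 (.leaf [86, 154, 155]) (.leaf [101,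
  155])) (.node 193 (.leaf [119, 156]) (.leaf [118, 156, 157])))) (.node 198 (.node 196 (.node
  195 (.leaf [117, 157]) (.leaf [116, 157, 158])) (.node 197 (.leaf [115, 158]) (.leaf [124,
  159]))) (.node 200 (.node 199 (.leaf [123, 159, 160]) (.leaf [122, 160])) (.node 201 (.leaf
  [121, 160, 161]) (.leaf [120, 161])))))) (.node 216 (.node 209 (.node 205 (.node 203 (.leaf
  [158, 162]) (.node 204 (.leaf [157, 162, 163]) (.leaf [156, 163]))) (.node 207 (.node 206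
  (.leaf [161, 164]) (.leaf [160, 164, 165])) (.node 208 (.leaf [159, 165]) (.leaf [148,
  166])))) (.node 212 (.node 210 (.leaf [147, 166, 167]) (.node 211 (.leaf [146, 167]) (.leaf
  [145, 167]))) (.node 214 (.node 213 (.leaf [155, 168]) (.leaf [154, 168, 169])) (.node 215
  (.leaf [153, 169]) (.leaf [152, 169]))))) (.node 223 (.node 219 (.node 217 (.leaf [163, 170])
  (.node 218 (.leaf [162, 170]) (.leaf [165, 171]))) (.node 221 (.node 220 (.leaf [164, 171])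
  (.leaf [130, 172])) (.node 222 (.leaf [129, 172]) (.leaf [136, 173])))) (.node 227 (.node 225
  (.node 224 (.leaf [133, 173]) (.leaf [170, 174])) (.node 226 (.leaf [171, 175]) (.leaf
  [141]))) (.node 229 (.node 228 (.leaf [166]) (.leaf [168])) (.node 230 (.leaf [174]) (.leaf
  [175]))))))))), (.node 115 (.node 57 (.node 28 (.node 14 (.node 7 (.node 3 (.node 1 (.leaf [])
  (.node 2 (.leaf [0]) (.leaf [0, 1]))) (.node 5 (.node 4 (.leaf [0, 1, 2]) (.leaf [3])) (.node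
  6 (.leaf [0, 3, 4]) (.leaf [1, 3, 4, 5])))) (.node 10 (.node 8 (.leaf [1, 6]) (.node 9 (.leaf
  [0, 1, 5, 6, 7]) (.leaf [0, 5, 8]))) (.node 12 (.node 11 (.leaf [7]) (.leaf [7, 8, 10]))
  (.node 13 (.leaf [1, 7, 10, 11]) (.leaf [1, 2, 12]))))) (.node 21 (.node 17 (.node 15 (.leaf
  [0, 1, 8, 11, 12, 13]) (.node 16 (.leaf [8, 9, 11, 14]) (.leaf [0, 9, 14, 15]))) (.node 19
  (.node 18 (.leaf [0, 2, 13, 14, 16]) (.leaf [4])) (.node 20 (.leaf [3, 4, 18]) (.leaf [4, 5,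
  18, 19])))) (.node 24 (.node 22 (.leaf [5, 9, 20]) (.node 23 (.leaf [0, 3, 5, 19, 20, 21])
  (.leaf [2, 3, 19, 22]))) (.node 26 (.node 25 (.leaf [0, 2, 17, 22, 23]) (.leaf [0, 9, 16, 21,
  22, 24])) (.node 27 (.leaf [16, 17, 24, 25]) (.leaf [18, 19])))))) (.node 42 (.node 35 (.node
  31 (.node 29 (.leaf [4, 18, 27]) (.node 30 (.leaf [18, 20, 27, 28]) (.leaf [4, 6, 28])))
  (.node 33 (.node 32 (.leaf [3, 4, 19, 27, 28, 30]) (.leaf [4, 5, 20, 28, 29, 30, 31])) (.node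
  34 (.leaf [19, 20, 22, 27, 29, 31, 32]) (.leaf [0, 3, 5, 22, 31, 32, 33])))) (.node 38 (.node
  36 (.leaf [1, 3, 6, 30, 31, 34]) (.node 37 (.leaf [6, 7, 30, 35]) (.leaf [5, 6, 8, 30, 32, 34,
  35, 36]))) (.node 40 (.node 39 (.leaf [7, 10, 36]) (.leaf [1, 7, 12, 35, 36, 38])) (.node 41
  (.leaf [7, 8, 11, 36, 37, 38, 39]) (.leaf [0, 1, 8, 14, 34, 35, 37, 39, 40]))))) (.node 49
  (.node 45 (.node 43 (.leaf [11, 12, 14, 39, 40, 41]) (.node 44 (.leaf [10, 12, 38, 39, 42])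
  (.leaf [10, 11, 38, 40, 42, 43]))) (.node 47 (.node 46 (.leaf [26]) (.leaf [16, 17, 26, 45]))
  (.node 48 (.leaf [13, 14, 17, 46]) (.leaf [12, 13, 47])))) (.node 53 (.node 51 (.node 50
  (.leaf [42, 43, 44]) (.leaf [10, 12, 43, 48, 49])) (.node 52 (.leaf [11, 12, 14, 42, 47, 48,
  49, 50]) (.leaf [14, 15, 16, 46, 47, 51]))) (.node 55 (.node 54 (.leaf [11, 15, 51, 52])
  (.leaf [10, 11, 44, 49, 50, 51, 53])) (.node 56 (.leaf [44, 49, 54]) (.leaf [26, 45])))))))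
  (.node 86 (.node 71 (.node 64 (.node 60 (.node 58 (.leaf [24, 25, 26, 56]) (.node 59 (.leaf
  [21, 22, 25, 57]) (.leaf [20, 21, 58]))) (.node 62 (.node 61 (.leaf [27, 29, 33]) (.leaf [18,
  20, 29, 59, 60])) (.node 63 (.leaf [19, 20, 22, 33, 58, 59, 60, 61]) (.leaf [22, 23, 24, 57,
  58, 62])))) (.node 67 (.node 65 (.leaf [19, 23, 62, 63]) (.node 66 (.leaf [18, 19, 27, 60, 61,
  62, 64]) (.leaf [27, 60, 65]))) (.node 69 (.node 68 (.leaf [65, 66]) (.leaf [27, 66, 67]))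
  (.node 70 (.leaf [28, 30]) (.leaf [27, 28, 31, 68, 69]))))) (.node 78 (.node 74 (.node 72
  (.leaf [4, 18, 28, 69, 70]) (.node 73 (.leaf [18, 19, 27, 65, 67, 68, 70, 71]) (.leaf [64, 65,
  67, 72]))) (.node 76 (.node 75 (.leaf [19, 23, 64, 72, 73]) (.leaf [3, 4, 19, 31, 70, 71, 72,
  74])) (.node 77 (.leaf [4, 6, 30, 69, 71, 75]) (.leaf [30, 36, 69, 76])))) (.node 82 (.node 80
  (.node 79 (.leaf [30, 31, 35, 69, 70, 75, 76, 77]) (.leaf [35, 36, 39, 77, 78])) (.node 81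
  (.leaf [6, 7, 36, 76, 77, 79]) (.leaf [1, 3, 6, 35, 75, 76, 78, 79, 80]))) (.node 84 (.node 83
  (.leaf [2, 3, 23, 74, 75, 81]) (.leaf [1, 2, 13, 81, 82])) (.node 85 (.leaf [1, 7, 12, 39, 79,
  80, 81, 83]) (.leaf [12, 13, 48, 83, 84])))))) (.node 100 (.node 93 (.node 89 (.node 87 (.leaf
  [53, 54]) (.node 88 (.leaf [11, 15, 53, 86]) (.leaf [8, 9, 15, 87]))) (.node 91 (.node 90
  (.leaf [5, 9, 21, 88]) (.leaf [20, 21, 59, 89])) (.node 92 (.leaf [4, 5, 20, 32, 89, 90])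
  (.leaf [4, 6, 30, 76, 91])))) (.node 96 (.node 94 (.leaf [76, 77, 80, 92]) (.node 95 (.leaf
  [6, 7, 36, 80, 92, 93]) (.leaf [5, 6, 8, 37, 88, 89, 91, 92, 94]))) (.node 98 (.node 97 (.leaf
  [7, 8, 11, 40, 87, 88, 94, 95]) (.leaf [7, 10, 38, 94, 96])) (.node 99 (.leaf [10, 11, 44, 54,
  86, 87, 96, 97]) (.leaf [54, 55, 86, 98]))))) (.node 107 (.node 103 (.node 101 (.leaf [44, 55,
  98, 99]) (.node 102 (.leaf [38, 40, 44, 96, 97, 98, 100]) (.leaf [36, 38, 94, 97, 101])))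
  (.node 105 (.node 104 (.leaf [30, 36, 77, 92, 93, 94, 102]) (.leaf [36, 37, 40, 94, 95, 96,
  101, 102, 103])) (.node 106 (.leaf [30, 32, 37, 91, 92, 95, 103, 104]) (.leaf [86, 99]))))
  (.node 111 (.node 109 (.node 108 (.leaf [54, 55, 99, 106]) (.leaf [49, 55, 107])) (.node 110
  (.leaf [48, 50]) (.leaf [49, 50, 51, 54, 107, 108, 109]))) (.node 113 (.node 112 (.leaf [53,
  54, 86, 106, 107, 110]) (.leaf [51, 52, 53, 110, 111])) (.node 114 (.leaf [47, 48, 51, 109,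
  110, 112]) (.leaf [46, 47, 52, 112, 113])))))))) (.node 173 (.node 144 (.node 129 (.node 122
  (.node 118 (.node 116 (.leaf [45, 46, 114]) (.node 117 (.leaf [67, 73]) (.leaf [65, 66, 67,
  116]))) (.node 120 (.node 119 (.leaf [60, 66, 117]) (.leaf [59, 61])) (.node 121 (.leaf [60,
  61, 62, 65, 117, 118, 119]) (.leaf [64, 65, 73, 116, 117, 120])))) (.node 125 (.node 123
  (.leaf [62, 63, 64, 120, 121]) (.node 124 (.leaf [58, 59, 62, 119, 120, 122]) (.leaf [57, 58,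
  63, 122, 123]))) (.node 127 (.node 126 (.leaf [56, 57, 124]) (.leaf [114, 115])) (.node 128
  (.leaf [112, 113, 114, 126]) (.leaf [109, 110, 113, 127]))))) (.node 136 (.node 132 (.node 130
  (.leaf [107, 108, 110, 128]) (.node 131 (.leaf [110, 111, 112, 127, 128, 129]) (.leaf [106,
  107, 111, 129, 130]))) (.node 134 (.node 133 (.leaf [106, 131]) (.leaf [124, 125])) (.node 135
  (.leaf [122, 123, 124, 133]) (.leaf [119, 120, 123, 134])))) (.node 140 (.node 138 (.node 137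
  (.leaf [117, 118, 120, 135]) (.leaf [120, 121, 122, 134, 135, 136])) (.node 139 (.leaf [116,
  117, 121, 136, 137]) (.leaf [116, 138]))) (.node 142 (.node 141 (.leaf [38, 39, 43]) (.leaf
  [36, 38, 102, 140])) (.node 143 (.leaf [102, 103, 141]) (.leaf [30, 36, 77, 103, 141,
  142])))))) (.node 158 (.node 151 (.node 147 (.node 145 (.leaf [35, 36, 39, 79, 140, 141, 143])
  (.node 146 (.leaf [77, 78, 79, 143, 144]) (.leaf [69, 77, 143, 145]))) (.node 149 (.node 148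
  (.leaf [69, 70, 78, 145, 146]) (.leaf [30, 31, 35, 78, 143, 144, 145, 147])) (.node 150 (.leaf
  [28, 30, 69, 143, 146, 147, 148]) (.leaf [27, 28, 31, 70, 147, 148, 149])))) (.node 154 (.node
  152 (.leaf [68, 70, 147, 150]) (.node 153 (.leaf [27, 66, 68, 150, 151]) (.leaf [100, 101])))
  (.node 156 (.node 155 (.leaf [44, 55, 100, 153]) (.leaf [38, 40, 44, 101, 153, 154])) (.node
  157 (.leaf [101, 102, 104, 153, 155]) (.leaf [103, 104, 105, 156]))))) (.node 165 (.node 161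
  (.node 159 (.leaf [36, 37, 40, 104, 155, 156, 157]) (.node 160 (.leaf [30, 32, 37, 105, 157,
  158]) (.leaf [28, 29, 32, 159]))) (.node 163 (.node 162 (.leaf [28, 30, 69, 149, 159, 160])
  (.leaf [69, 77, 146, 161])) (.node 164 (.leaf [30, 36, 77, 103, 143, 157, 158, 159, 161, 162])
  (.leaf [102, 103, 142, 156, 157, 163])))) (.node 169 (.node 167 (.node 166 (.leaf [36, 38,
  102, 141, 155, 156, 158, 163, 164]) (.leaf [141, 142, 143, 163, 164, 165])) (.node 168 (.leaf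
  [143, 146, 149, 161, 162, 163, 166]) (.leaf [81, 82, 83]))) (.node 171 (.node 170 (.leaf [75,
  76, 78, 81, 168]) (.leaf [69, 71, 76, 169])) (.node 172 (.leaf [69, 70, 78, 147, 169, 170])
  (.leaf [147, 151, 171]))))))) (.node 202 (.node 187 (.node 180 (.node 176 (.node 174 (.leaf
  [68, 70, 151, 171, 172]) (.node 175 (.leaf [70, 71, 72, 75, 169, 170, 171, 173]) (.leaf [74,
  75, 82, 168, 169, 174]))) (.node 178 (.node 177 (.leaf [72, 73, 74, 174, 175]) (.leaf [67, 68,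
  72, 173, 174, 176])) (.node 179 (.leaf [67, 73, 116, 176, 177]) (.leaf [116, 139, 178]))))
  (.node 183 (.node 181 (.leaf [153, 156]) (.node 182 (.leaf [101, 102, 104, 156, 180]) (.leaf
  [94, 97, 102, 181]))) (.node 185 (.node 184 (.leaf [94, 95, 96, 104, 181, 182]) (.leaf [88,
  89, 95, 183])) (.node 186 (.leaf [87, 88, 96, 183, 184]) (.leaf [96, 97, 98, 101, 181, 182,
  183, 185]))))) (.node 194 (.node 190 (.node 188 (.leaf [100, 101, 153, 180, 181, 186]) (.node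
  189 (.leaf [98, 99, 100, 186, 187]) (.leaf [86, 87, 98, 185, 186, 188]))) (.node 192 (.node
  191 (.leaf [86, 99, 106, 188, 189]) (.leaf [106, 132, 190])) (.node 193 (.leaf [131, 132])
  (.leaf [129, 130, 131, 192])))) (.node 198 (.node 196 (.node 195 (.leaf [128, 129, 193])
  (.leaf [127, 128, 130, 193, 194])) (.node 197 (.leaf [126, 127, 195]) (.leaf [138, 139])))
  (.node 200 (.node 199 (.leaf [136, 137, 138, 197]) (.leaf [135, 136, 198])) (.node 201 (.leaf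
  [134, 135, 137, 198, 199]) (.leaf [133, 134, 200])))))) (.node 216 (.node 209 (.node 205
  (.node 203 (.leaf [195, 196]) (.node 204 (.leaf [193, 194, 195, 202]) (.leaf [192, 193,
  203]))) (.node 207 (.node 206 (.leaf [200, 201]) (.leaf [198, 199, 200, 205])) (.node 208
  (.leaf [197, 198, 206]) (.leaf [178, 179])))) (.node 212 (.node 210 (.leaf [176, 177, 178,
  208]) (.node 211 (.leaf [174, 175, 176, 209]) (.leaf [173, 174, 177, 209, 210]))) (.node 214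
  (.node 213 (.leaf [190, 191]) (.leaf [188, 189, 190, 212])) (.node 215 (.leaf [186, 187, 188,
  213]) (.leaf [185, 186, 189, 213, 214]))))) (.node 223 (.node 219 (.node 217 (.leaf [203,
  204]) (.node 218 (.leaf [202, 203, 216]) (.leaf [206, 207]))) (.node 221 (.node 220 (.leaf
  [205, 206, 218]) (.leaf [147, 151, 172])) (.node 222 (.leaf [145, 146, 147, 220]) (.leaf [156,
  157, 164])))) (.node 227 (.node 225 (.node 224 (.leaf [153, 156, 180, 222]) (.leaf [216,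
  217])) (.node 226 (.leaf [218, 219]) (.leaf [166, 167]))) (.node 229 (.node 228 (.leaf [208,
  209]) (.leaf [212, 213])) (.node 230 (.leaf [224]) (.leaf [225]))))))))), 915, 1033⟩

end Pool.Agent.helper63.DP
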