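import Pool.Agent.helper63.DP.Sound
import Mathlib.Order.Grade
import Mathlib.Order.Atoms.Finite
import Mathlib.Order.Interval.Finset.Nat
import Mathlib.Data.Set.Card
import Mathlib.SetTheory.Cardinal.Finite

/-!
# From differential posets to families of lists
-/

namespace Pool.Agent.helper63.DP

/-- The axioms of a `1`-differential poset (on top of the order structure). -/
structure Diff1 (P : Type) [PartialOrder P] [GradeMinOrder ℕ P] : Prop where
  zero : ∃! x : P, grade ℕ x = 0
  common : ∀ x y : P, x ≠ y →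
    {z : P | z ⋖ x ∧ z ⋖ y}.encard = {z : P | x ⋖ z ∧ y ⋖ z}.encard
  degree : ∀ (x : P) (m : ℕ), {z : P | z ⋖ x}.encard = m → {z : P | x ⋖ z}.encard = m + 1

/-- The level `k` of the poset is enumerated, with the lower covers given by `d.low`. -/
def Lvl (P : Type) [PartialOrder P] [GradeMinOrder ℕ P] (k N' : ℕ) (d : Nd) : Prop :=
  ∃ p q : ℕ → P,
    Set.BijOn p (Set.Iio N') {z | grade ℕ z + 1 = k} ∧
    Set.BijOn q (Set.Iio d.N) {z | grade ℕ z = k} ∧
    (∀ a < N', ∀ x < d.N, (p a ⋖ q x ↔ a ∈ d.low.get x)) ∧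
    ∀ x < d.N, (d.low.get x).Pairwise (· < ·) ∧ ∀ a ∈ d.low.get x, a < N'

section

variable {P : Type} [PartialOrder P] [GradeMinOrder ℕ P]

theorem grade_cov {x z : P} (h : x ⋖ z) : grade ℕ z = grade ℕ x + 1 :=
  (Nat.covBy_iff_add_one_eq.1 (CovBy.grade ℕ h)).symm

theorem exists_perm_map {α β : Type} [DecidableEq α] (f : α → β) (m : List β) :
    ∀ l : List α, (l.map f).Perm m → ∃ l' : List α, l'.Perm l ∧ l'.map f = m := by
  induction m with
  | nil =>
    intro l h
    have : l.map f = [] := List.Perm.eq_nil h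
    have hl : l = [] := List.map_eq_nil_iff.1 this
    exact ⟨[], by rw [hl], rfl⟩
  | cons b m ih =>
    intro l h
    have hb : b ∈ l.map f := h.symm.subset (by simp)
    obtain ⟨a, ha, hfa⟩ := List.mem_map.1 hb
    have h1 : l.Perm (a :: l.erase a) := List.perm_cons_erase ha
    have h2 : ((l.erase a).map f).Perm m := by
      have h3 : (List.map f (a :: l.erase a)).Perm (b :: m) := (h1.map f).symm.trans h
      rw [List.map_cons, hfa] at h3
      exact h3.cons_inv
    obtain ⟨l', hl', hm⟩ := ih _ h2
    exact ⟨a :: l', (hl'.cons a).trans h1.symm, by rw [List.map_cons, hfa, hm]⟩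

variable [LocallyFiniteOrder P]

theorem exists_lower {z : P} {k : ℕ} (h : grade ℕ z = k + 1) : ∃ y : P, y ⋖ z := by
  have h1 : ¬ IsMin z := by
    intro hm
    have := GradeMinOrder.isMin_grade (𝕆 := ℕ) hm
    have h2 : grade ℕ z = 0 := by
      have h3 := this (Nat.zero_le (grade ℕ z))
      exact Nat.le_zero.1 h3
    omega
  rw [not_isMin_iff] at h1
  obtain ⟨y, hy⟩ := h1
  obtain ⟨x, _, hx⟩ := exists_le_covBy_of_lt hy
  exact ⟨x, hx⟩

open Classical in
theorem step (hP : Diff1 P) {k N' : ℕ} {d : Nd} (hL : Lvl P k N' d) {t : ℕ}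
    (hcard : Nat.card {z : P // grade ℕ z = k + 1} = t) (ht : t ≠ 0)
    {outs : List (RT (List ℕ))} {tr : Tr} (hok : nodeOK d t outs tr = true) :
    ∃ o ∈ outs, ∀ d' : Nd, d'.low = o → d'.N = t → Lvl P (k + 1) d.N d' := by
  obtain ⟨p, q, hp, hq, hpq, hst⟩ := hL
  have hfin : Finite {z : P // grade ℕ z = k + 1} :=
    Nat.finite_of_card_ne_zero (by rw [hcard]; exact ht)
  haveI : Fintype {z : P // grade ℕ z = k + 1} := Fintype.ofFinite _
  let L : {z : P // grade ℕ z = k + 1} → List ℕ := fun z =>
    (List.range d.N).filter (fun x => q x ⋖ z.1)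
  have hmemL : ∀ (z : {z : P // grade ℕ z = k + 1}) (x : ℕ),
      x ∈ L z ↔ x < d.N ∧ q x ⋖ z.1 := by
    intro z x
    show x ∈ (List.range d.N).filter (fun x => q x ⋖ z.1) ↔ _
    rw [List.mem_filter, List.mem_range]; simp
  have hqg : ∀ x < d.N, grade ℕ (q x) = k := fun x hx => hq.1 hx
  have hup : ∀ x < d.N, ∀ z : P, q x ⋖ z → grade ℕ z = k + 1 := by
    intro x hx z hz
    rw [grade_cov hz, hqg x hx]
  have hdown : ∀ x < d.N, ∀ z : P, z ⋖ q x → ∃ a < N', p a = z := by
    intro x hx z hz
    have h1 : grade ℕ z + 1 = k := by rw [← grade_cov hz, hqg x hx]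
    obtain ⟨a, ha, hae⟩ := hp.2.2 h1
    exact ⟨a, ha, hae⟩
  -- cardinality of sets of upper covers
  have hcardup : ∀ (Q : P → Prop), (∀ z, Q z → grade ℕ z = k + 1) →
      {z : P | Q z}.encard =
        ((Finset.univ.filter (fun i : {z : P // grade ℕ z = k + 1} => Q i.1)).card : ℕ∞) := by
    intro Q hQ
    have h1 : {z : P | Q z} = Subtype.val ''
        ((Finset.univ.filter (fun i : {z : P // grade ℕ z = k + 1} => Q i.1) : Finset _) :
          Set {z : P // grade ℕ z = k + 1}) := by
      ext z
      constructor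
      · intro hz
        exact ⟨⟨z, hQ z hz⟩, by simpa using hz, rfl⟩
      · rintro ⟨i, hi, rfl⟩
        simpa using hi
    rw [h1, Subtype.val_injective.encard_image, Set.encard_coe_eq_coe_finsetCard]
  have hcarddown : ∀ (l : List ℕ) (Q : P → Prop), l.Nodup → (∀ a ∈ l, a < N') →
      (∀ z, Q z ↔ ∃ a ∈ l, p a = z) → {z : P | Q z}.encard = (l.length : ℕ∞) := by
    intro l Q hnd hlt hQ
    have h1 : {z : P | Q z} = p '' ((l.toFinset : Finset ℕ) : Set ℕ) := by
      ext z
      rw [Set.mem_setOf_eq, hQ]
      simp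
    rw [h1, Set.InjOn.encard_image, Set.encard_coe_eq_coe_finsetCard,
      List.toFinset_card_of_nodup hnd]
    apply hp.2.1.mono
    intro a ha
    have : a ∈ l := by simpa using ha
    exact hlt a this
  have hF : Fam d t L := by
    constructor
    · intro i
      exact List.Pairwise.filter _ List.pairwise_lt_range
    · intro i x hx
      exact ((hmemL i x).1 hx).1
    · intro i hi
      obtain ⟨y, hy⟩ := exists_lower i.2
      have h1 : grade ℕ y = k := by
        have := grade_cov hy
        rw [i.2] at this; omega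
      obtain ⟨x, hx, hxy⟩ := hq.2.2 h1
      have h2 : x ∈ L i := (hmemL i x).2 ⟨hx, by rw [hxy]; exact hy⟩
      rw [hi] at h2
      exact absurd h2 (by simp)
    · intro x hx
      have hnd : (d.low.get x).Nodup := (hst x hx).1.imp (fun h => ne_of_lt h)
      have h1 : {z : P | z ⋖ q x}.encard = ((d.low.get x).length : ℕ∞) := by
        apply hcarddown _ _ hnd (hst x hx).2
        intro z
        constructor
        · intro hz
          obtain ⟨a, ha, hae⟩ := hdown x hx z hz
          refine ⟨a, ?_, hae⟩
          rw [← hpq a ha x hx, hae]; exact hz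
        · rintro ⟨a, ha, rfl⟩
          exact (hpq a ((hst x hx).2 a ha) x hx).2 ha
      have h2 := hP.degree (q x) _ h1
      rw [hcardup (fun z => q x ⋖ z) (hup x hx)] at h2
      have h3 : (Finset.univ.filter (fun i : {z : P // grade ℕ z = k + 1} => x ∈ L i)) =
          Finset.univ.filter (fun i : {z : P // grade ℕ z = k + 1} => q x ⋖ i.1) := by
        ext i
        simp only [Finset.mem_filter, Finset.mem_univ, true_and]
        rw [hmemL]
        exact ⟨fun h => h.2, fun h => ⟨hx, h⟩⟩
      rw [h3]
      exact_mod_cast h2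
    · intro x hx v hv
      have hvN := lt_trans hv hx
      have hnd : (d.low.get x).Nodup := (hst x hx).1.imp (fun h => ne_of_lt h)
      have hne : q x ≠ q v := by
        intro h
        have := hq.2.1 (show x ∈ Set.Iio d.N from hx) (show v ∈ Set.Iio d.N from hvN) h
        omega
      have h1 := hP.common (q x) (q v) hne
      rw [hcardup (fun z => q x ⋖ z ∧ q v ⋖ z) (fun z hz => hup x hx z hz.1)] at h1
      have h4 : {z : P | z ⋖ q x ∧ z ⋖ q v}.encard =
          (((d.low.get x).filter (fun a => a ∈ d.low.get v)).length : ℕ∞) := by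
        apply hcarddown
        · exact hnd.filter _
        · intro a ha
          exact (hst x hx).2 a (List.mem_filter.1 ha).1
        · intro z
          constructor
          · rintro ⟨hz1, hz2⟩
            obtain ⟨a, ha, hae⟩ := hdown x hx z hz1
            refine ⟨a, ?_, hae⟩
            rw [List.mem_filter]
            rw [← hpq a ha x hx, hae]
            refine ⟨hz1, ?_⟩
            rw [decide_eq_true_iff, ← hpq a ha v hvN, hae]
            exact hz2
          · rintro ⟨a, ha, rfl⟩
            rw [List.mem_filter, decide_eq_true_iff] at ha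
            have haN := (hst x hx).2 a ha.1
            exact ⟨(hpq a haN x hx).2 ha.1, (hpq a haN v hvN).2 ha.2⟩
      rw [h4] at h1
      have h3 : (Finset.univ.filter (fun i : {z : P // grade ℕ z = k + 1} =>
          x ∈ L i ∧ v ∈ L i)) =
          Finset.univ.filter (fun i : {z : P // grade ℕ z = k + 1} =>
            q x ⋖ i.1 ∧ q v ⋖ i.1) := by
        ext i
        simp only [Finset.mem_filter, Finset.mem_univ, true_and]
        rw [hmemL, hmemL]
        exact ⟨fun h => ⟨h.1.2, h.2.2⟩, fun h => ⟨⟨hx, h.1⟩, ⟨hvN, h.2⟩⟩⟩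
      rw [h3, cm_eq]
      have h6 := h1.symm
      norm_cast at h6
      convert h6
    · rw [← hcard, Nat.card_eq_fintype_card]
  obtain ⟨o, ho, hM⟩ := nodeOK_sound hok hF
  refine ⟨o, ho, ?_⟩
  intro d' hd' hN'
  -- enumerate the next level
  obtain ⟨us, hus⟩ : ∃ us : List {z : P // grade ℕ z = k + 1},
      (Finset.univ : Finset {z : P // grade ℕ z = k + 1}).val = (us : Multiset _) :=
    ⟨_, (Quot.out_eq _).symm⟩
  have h1 := hM.eq
  rw [hus, Multiset.map_coe, Multiset.coe_eq_coe] at h1
  obtain ⟨us', hperm, hmap⟩ := exists_perm_map L _ us h1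
  have hlen : us'.length = t := by
    have := congrArg List.length hmap
    rw [List.length_map, tab_eq, List.length_map, List.length_range] at this
    exact this
  have hnd : us'.Nodup := by
    rw [hperm.nodup_iff, ← Multiset.coe_nodup, ← hus]
    exact Finset.nodup _
  have hall : ∀ z : {z : P // grade ℕ z = k + 1}, z ∈ us' := by
    intro z
    rw [hperm.mem_iff, ← Multiset.mem_coe, ← hus]
    exact Finset.mem_univ z
  have hL' : ∀ j (hj : j < us'.length), L us'[j] = o.get j := by
    intro j hj
    have h2 : (us'.map L)[j]'(by rw [List.length_map]; exact hj) =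
      (tab o.get t)[j]'(by rw [tab_eq, List.length_map, List.length_range, ← hlen]; exact hj) := by
      simp only [hmap]
    rw [List.getElem_map] at h2
    rw [h2]
    simp only [tab_eq, List.getElem_map, List.getElem_range]
  refine ⟨q, fun j => if hj : j < us'.length then (us'[j]).1 else q 0, ?_, ?_, ?_, ?_⟩
  · convert hq using 1
    ext z
    simp
  · rw [hN']
    refine ⟨?_, ?_, ?_⟩
    · intro j hj
      have hj' : j < us'.length := by rw [hlen]; exact hj
      simp only [hj', dif_pos]
      exact (us'[j]).2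
    · intro j hj j' hj' he
      have h2 : j < us'.length := by rw [hlen]; exact hj
      have h3 : j' < us'.length := by rw [hlen]; exact hj'
      simp only [h2, h3, dif_pos] at he
      have h4 : us'[j] = us'[j'] := Subtype.ext he
      exact (List.Nodup.getElem_inj_iff hnd).1 h4
    · intro z hz
      obtain ⟨j, hj, hje⟩ := List.getElem_of_mem (hall ⟨z, hz⟩)
      refine ⟨j, by rw [← hlen]; exact hj, ?_⟩
      simp only [hj, dif_pos, hje]
  · intro a ha x hx
    rw [hN'] at hx
    have hx' : x < us'.length := by rw [hlen]; exact hx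
    simp only [hx', dif_pos]
    rw [hd', ← hL' x hx', hmemL]
    exact ⟨fun h => ⟨ha, h⟩, fun h => h.2⟩
  · intro x hx
    rw [hN'] at hx
    rw [hd']
    exact ⟨hM.asc x hx, hM.lt x hx⟩

/-- The base of the induction. -/
theorem base (hP : Diff1 P) (d : Nd) (hd : d.low = .leaf [0]) (hN : d.N = 1)
    (h1 : Nat.card {z : P // grade ℕ z = 1} = 1) : Lvl P 1 1 d := by
  obtain ⟨p0, hp0, hp0u⟩ := hP.zero
  have : Finite {z : P // grade ℕ z = 1} := Nat.finite_of_card_ne_zero (by rw [h1]; omega)
  rw [Nat.card_eq_one_iff_unique] at h1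
  obtain ⟨hs, hne⟩ := h1
  obtain ⟨q0⟩ := hne
  have hcov : p0 ⋖ q0.1 := by
    obtain ⟨y, hy⟩ := exists_lower (k := 0) q0.2
    have := grade_cov hy
    rw [q0.2] at this
    have hy0 : grade ℕ y = 0 := by omega
    rw [← hp0u y hy0]; exact hy
  refine ⟨fun _ => p0, fun _ => q0.1, ?_, ?_, ?_, ?_⟩
  · refine ⟨fun a _ => ?_, fun a ha b hb _ => ?_, fun z hz => ?_⟩
    · show grade ℕ p0 + 1 = 1
      rw [hp0]
    · have h1 : a < 1 := ha
      have h2 : b < 1 := hb
      omega
    · refine ⟨0, by simp, ?_⟩
      have hz' : grade ℕ z + 1 = 1 := hz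
      exact (hp0u z (by omega)).symm
  · rw [hN]
    refine ⟨fun a _ => q0.2, fun a ha b hb _ => ?_, fun z hz => ?_⟩
    · have h1 : a < 1 := ha
      have h2 : b < 1 := hb
      omega
    · refine ⟨0, by simp, ?_⟩
      exact congrArg Subtype.val (hs.elim q0 ⟨z, hz⟩)
  · intro a ha x _
    rw [hd]
    have : a = 0 := by omega
    subst this
    exact ⟨fun _ => by simp [RT.get], fun _ => hcov⟩
  · intro x _
    rw [hd]
    exact ⟨List.pairwise_singleton _ _, fun a ha => by
      have : a = 0 := by simpa [RT.get] using ha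
      omega⟩

end

end Pool.Agent.helper63.DP
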