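import Pool.Agent.helper63.DP.Base

/-!
# The certificate checker (programs)
-/

namespace Pool.Agent.helper63.DP

/-- Enumeration of cliques, with continuation. -/
noncomputable def goK {β : Type} (nb : RT (List ℕ)) (f : ℕ) :
    List ℕ → List ℕ → State → (State → β) → β :=
  Nat.rec (motive := fun _ => List ℕ → List ℕ → State → (State → β) → β)
    (fun _ _ acc k => k acc)
    (fun _ ihf cands cur acc k =>
      List.rec (motive := fun _ => State → β) (fun acc => k acc)
        (fun v _ ih acc => nb.getK v (fun nv =>
          fwalk (fun u => elem u nv) cands [] (fun nc =>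
            ihf nc (v :: cur) ((v :: cur, false) :: acc) ih))) cands acc) f

/-- The specification of `goK`. -/
def goL (nb : ℕ → List ℕ) : ℕ → List ℕ → List ℕ → State → State
  | 0, _, _, acc => acc
  | f + 1, cands, cur, acc =>
    cands.foldl (fun acc v =>
      goL nb f ((cands.filter (fun u => u ∈ nb v)).reverse) (v :: cur)
        ((v :: cur, false) :: acc)) acc

theorem goK_eq {β : Type} (nb : RT (List ℕ)) (f : ℕ) (cands cur : List ℕ) (acc : State)
    (k : State → β) : goK nb f cands cur acc k = k (goL nb.get f cands cur acc) := by
  induction f generalizing cands cur acc k with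
  | zero => rfl
  | succ f ihf =>
    have key : ∀ (l : List ℕ) (acc : State),
        List.rec (motive := fun _ => State → β) (fun acc => k acc)
        (fun v _ ih acc => nb.getK v (fun nv =>
          fwalk (fun u => elem u nv) cands [] (fun nc =>
            goK nb f nc (v :: cur) ((v :: cur, false) :: acc) ih))) l acc =
        k (l.foldl (fun acc v =>
          goL nb.get f ((cands.filter (fun u => u ∈ nb.get v)).reverse) (v :: cur)
            ((v :: cur, false) :: acc)) acc) := by
      intro l
      induction l with
      | nil => intro acc; rfl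
      | cons v l ih =>
        intro acc
        show nb.getK v (fun nv =>
          fwalk (fun u => elem u nv) cands [] (fun nc =>
            goK nb f nc (v :: cur) ((v :: cur, false) :: acc)
              (List.rec (motive := fun _ => State → β) (fun acc => k acc)
                (fun v _ ih acc => nb.getK v (fun nv =>
                  fwalk (fun u => elem u nv) cands [] (fun nc =>
                    goK nb f nc (v :: cur) ((v :: cur, false) :: acc) ih))) l))) = _
        rw [RT.getK_eq, fwalk_eq, ihf, ih, List.foldl_cons, List.append_nil]
        have hf : (cands.filter (fun u => elem u (nb.get v))) =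
            cands.filter (fun u => u ∈ nb.get v) := by
          apply List.filter_congr
          intro u _
          cases h : elem u (nb.get v)
          · have : ¬ u ∈ nb.get v := by
              intro h'; rw [(elem_iff _ _).2 h'] at h; exact absurd h (by simp)
            simp [this]
          · have : u ∈ nb.get v := (elem_iff _ _).1 h
            simp [this]
        rw [hf]
    exact key cands acc

theorem goL_acc (nb : ℕ → List ℕ) (f : ℕ) (cands cur : List ℕ) (acc : State)
    (r : List ℕ × Bool) (hr : r ∈ acc) : r ∈ goL nb f cands cur acc := by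
  induction f generalizing cands cur acc with
  | zero => exact hr
  | succ f ihf =>
    have key : ∀ (l : List ℕ) (acc : State), r ∈ acc →
        r ∈ (l.foldl (fun acc v =>
          goL nb f ((cands.filter (fun u => u ∈ nb v)).reverse) (v :: cur)
            ((v :: cur, false) :: acc)) acc) := by
      intro l
      induction l with
      | nil => intro acc h; exact h
      | cons v l ih =>
        intro acc h
        rw [List.foldl_cons]
        exact ih _ (ihf _ _ _ (List.mem_cons_of_mem _ h))
    exact key cands acc hr

theorem goL_elem (nb : ℕ → List ℕ) (f : ℕ) (cands cur : List ℕ) (acc : State)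
    (r : List ℕ × Bool) (hr : r ∈ goL nb f cands cur acc) :
    r ∈ acc ∨ (r.2 = false ∧ cur.length < r.1.length) := by
  induction f generalizing cands cur acc with
  | zero => exact Or.inl hr
  | succ f ihf =>
    have key : ∀ (l : List ℕ) (acc : State),
        r ∈ (l.foldl (fun acc v =>
          goL nb f ((cands.filter (fun u => u ∈ nb v)).reverse) (v :: cur)
            ((v :: cur, false) :: acc)) acc) →
        r ∈ acc ∨ (r.2 = false ∧ cur.length < r.1.length) := by
      intro l
      induction l with
      | nil => intro acc h; exact Or.inl h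
      | cons v l ih =>
        intro acc h
        rw [List.foldl_cons] at h
        rcases ih _ h with h1 | h1
        · rcases ihf _ _ _ h1 with h2 | h2
          · rcases List.mem_cons.1 h2 with h3 | h3
            · right; rw [h3]; simp
            · exact Or.inl h3
          · right
            refine ⟨h2.1, ?_⟩
            have := h2.2
            rw [List.length_cons] at this
            omega
        · exact Or.inr h1
    exact key cands acc hr

theorem goL_complete (nb : ℕ → List ℕ) (f : ℕ) (cands cur : List ℕ) (acc : State)
    (l : List ℕ) (hl : l ≠ []) (hf : l.length ≤ f) (hc : ∀ x ∈ l, x ∈ cands)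
    (hp : l.Pairwise (fun u x => u ∈ nb x)) : (l ++ cur, false) ∈ goL nb f cands cur acc := by
  induction f generalizing cands cur acc l with
  | zero =>
    exfalso
    exact hl (List.length_eq_zero_iff.1 (Nat.le_zero.1 hf))
  | succ f ihf =>
    -- last element
    obtain ⟨l', v, rfl⟩ : ∃ l' v, l = l' ++ [v] :=
      ⟨l.dropLast, l.getLast hl, (List.dropLast_append_getLast hl).symm⟩
    have hv : v ∈ cands := hc v (by simp)
    rw [List.pairwise_append] at hp
    have hvl : ∀ u ∈ l', u ∈ nb v := fun u hu => hp.2.2 u hu v (by simp)
    have key : ∀ (m : List ℕ) (acc : State), v ∈ m →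
        ((l' ++ [v]) ++ cur, false) ∈ (m.foldl (fun acc v =>
          goL nb f ((cands.filter (fun u => u ∈ nb v)).reverse) (v :: cur)
            ((v :: cur, false) :: acc)) acc) := by
      intro m
      induction m with
      | nil => intro acc h; exact absurd h (by simp)
      | cons w m ih =>
        intro acc h
        rw [List.foldl_cons]
        by_cases hm : v ∈ m
        · exact ih _ hm
        · have hvw : v = w := by
            rcases List.mem_cons.1 h with h1 | h1
            · exact h1
            · exact absurd h1 hm
          subst hvw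
          have h1 : ((l' ++ [v]) ++ cur, false) ∈
              goL nb f ((cands.filter (fun u => u ∈ nb v)).reverse) (v :: cur)
                ((v :: cur, false) :: acc) := by
            by_cases hl' : l' = []
            · rw [hl']
              exact goL_acc _ _ _ _ _ _ (by simp)
            · have := ihf ((cands.filter (fun u => u ∈ nb v)).reverse) (v :: cur)
                ((v :: cur, false) :: acc) l' hl' ?_ ?_ hp.1
              · rw [List.append_assoc]
                exact this
              · rw [List.length_append] at hf
                simp at hf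
                omega
              · intro x hx
                rw [List.mem_reverse, List.mem_filter]
                exact ⟨hc x (by simp [hx]), by simpa using hvl x hx⟩
          -- persists
          have key2 : ∀ (m : List ℕ) (acc : State), ((l' ++ [v]) ++ cur, false) ∈ acc →
              ((l' ++ [v]) ++ cur, false) ∈ (m.foldl (fun acc v =>
                goL nb f ((cands.filter (fun u => u ∈ nb v)).reverse) (v :: cur)
                  ((v :: cur, false) :: acc)) acc) := by
            intro m
            induction m with
            | nil => intro acc h; exact h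
            | cons w m ih =>
              intro acc h
              rw [List.foldl_cons]
              exact ih _ (goL_acc _ _ _ _ _ _ (List.mem_cons_of_mem _ h))
          exact key2 _ _ h1
    exact key cands acc hv

/-- All cliques with at least two elements. -/
noncomputable def topK {β : Type} (nb : RT (List ℕ)) (f : ℕ) (N : ℕ) (k : State → β) : β :=
  Nat.rec (motive := fun _ => State → β) (fun acc => k acc)
    (fun v ih acc => nb.getK v (fun nv => goK nb f nv [v] acc ih)) N []

theorem topK_eq {β : Type} (nb : RT (List ℕ)) (f : ℕ) (N : ℕ) (k : State → β) :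
    ∃ S : State, topK nb f N k = k S ∧
      (∀ r ∈ S, r.2 = false ∧ 2 ≤ r.1.length) ∧
      ∀ l : List ℕ, l.length ≤ f + 1 → 2 ≤ l.length → (∀ x ∈ l, x < N) →
        l.Pairwise (· < ·) → l.Pairwise (fun u x => u ∈ nb.get x) → (l, false) ∈ S := by
  have key : ∀ (N : ℕ) (acc : State), (∀ r ∈ acc, r.2 = false ∧ 2 ≤ r.1.length) →
      ∃ S : State, Nat.rec (motive := fun _ => State → β) (fun acc => k acc)
        (fun v ih acc => nb.getK v (fun nv => goK nb f nv [v] acc ih)) N acc = k S ∧
      (∀ r ∈ S, r.2 = false ∧ 2 ≤ r.1.length) ∧ (∀ r ∈ acc, r ∈ S) ∧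
      ∀ l : List ℕ, l.length ≤ f + 1 → 2 ≤ l.length → (∀ x ∈ l, x < N) →
        l.Pairwise (· < ·) → l.Pairwise (fun u x => u ∈ nb.get x) → (l, false) ∈ S := by
    intro N
    induction N with
    | zero =>
      intro acc hacc
      refine ⟨acc, rfl, hacc, fun r h => h, ?_⟩
      intro l _ h2 hx
      exfalso
      have : l ≠ [] := by
        intro h; rw [h] at h2; simp at h2
      obtain ⟨a, ha⟩ := List.exists_mem_of_ne_nil l this
      exact absurd (hx a ha) (Nat.not_lt_zero a)
    | succ N ih =>
      intro acc hacc
      have h1 : Nat.rec (motive := fun _ => State → β) (fun acc => k acc)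
        (fun v ih acc => nb.getK v (fun nv => goK nb f nv [v] acc ih)) (N + 1) acc =
        Nat.rec (motive := fun _ => State → β) (fun acc => k acc)
          (fun v ih acc => nb.getK v (fun nv => goK nb f nv [v] acc ih)) N
            (goL nb.get f (nb.get N) [N] acc) := by
        show nb.getK N (fun nv => goK nb f nv [N] acc _) = _
        rw [RT.getK_eq, goK_eq]
      rw [h1]
      have hacc' : ∀ r ∈ goL nb.get f (nb.get N) [N] acc, r.2 = false ∧ 2 ≤ r.1.length := by
        intro r hr
        rcases goL_elem _ _ _ _ _ _ hr with h2 | h2
        · exact hacc r h2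
        · refine ⟨h2.1, ?_⟩
          have := h2.2
          simp at this
          omega
      obtain ⟨S, hS1, hS2, hS3, hS4⟩ := ih (goL nb.get f (nb.get N) [N] acc) hacc'
      refine ⟨S, hS1, hS2, fun r hr => hS3 r (goL_acc _ _ _ _ _ _ hr), ?_⟩
      intro l hlf hl2 hx hasc hp
      have hne : l ≠ [] := by
        intro h; rw [h] at hl2; simp at hl2
      obtain ⟨l', v, rfl⟩ : ∃ l' v, l = l' ++ [v] :=
        ⟨l.dropLast, l.getLast hne, (List.dropLast_append_getLast hne).symm⟩
      by_cases hvN : v = N
      · subst hvN
        have hp' := hp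
        rw [List.pairwise_append] at hp'
        apply hS3
        apply goL_complete
        · intro h; rw [h] at hl2; simp at hl2
        · rw [List.length_append] at hlf
          simp at hlf
          exact hlf
        · intro x hx'
          exact hp'.2.2 x hx' v (by simp)
        · exact hp'.1
      · have hvlt : v < N := by
          rcases Nat.lt_succ_iff_lt_or_eq.1 (hx v (by simp)) with h3 | h3
          · exact h3
          · exact absurd h3 hvN
        refine hS4 (l' ++ [v]) hlf hl2 ?_ hasc hp
        intro x hx'
        rw [List.pairwise_append] at hasc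
        rcases List.mem_append.1 hx' with h3 | h3
        · exact lt_trans (hasc.2.2 x h3 v (by simp)) hvlt
        · rw [List.mem_singleton.1 h3]; exact hvlt
  obtain ⟨S, h1, h2, _, h4⟩ := key N [] (by simp)
  exact ⟨S, h1, h2, h4⟩

/-! ### Values -/

/-- Value of a clique; `prev` are the smaller members already seen. -/
def lv (w : ℕ → ℕ) (y : ℕ → ℕ → ℕ) : List ℕ → List ℕ → ℕ
  | [], _ => 0
  | x :: r, prev => w x + (prev.map (y x)).sum + lv w y r (x :: prev)

/-- Vertex weight function of a certificate table. -/
noncomputable def wf (T : RT (ℕ × List ℕ)) (x : ℕ) : ℕ := (T.get x).1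

/-- Edge weight function of a certificate table. -/
noncomputable def yf (nb : RT (List ℕ)) (T : RT (ℕ × List ℕ)) (x v : ℕ) : ℕ :=
  look v (nb.get x) (T.get x).2

/-- Value of a clique, computed. -/
noncomputable def lvalR (nb : RT (List ℕ)) (T : RT (ℕ × List ℕ)) (C : List ℕ) : List ℕ → ℕ :=
  List.rec (motive := fun _ => List ℕ → ℕ) (fun _ => 0)
    (fun x _ ih prev => nb.getK x (fun nx => T.getK x (fun p =>
      p.1 + sumL (fun v => look v nx p.2) prev)) + ih (x :: prev)) C

theorem lvalR_eq (nb : RT (List ℕ)) (T : RT (ℕ × List ℕ)) (C prev : List ℕ) :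
    lvalR nb T C prev = lv (wf T) (yf nb T) C prev := by
  induction C generalizing prev with
  | nil => rfl
  | cons x r ih =>
    show nb.getK x (fun nx => T.getK x (fun p =>
      p.1 + sumL (fun v => look v nx p.2) prev)) + lvalR nb T r (x :: prev) = _
    rw [RT.getK_eq, RT.getK_eq, ih, sumL_eq]
    rfl

/-- The bound. -/
noncomputable def bndR (M K2 K : ℕ) (C : List ℕ) : ℕ :=
  List.rec (motive := fun _ => ℕ → ℕ) (fun _ => M)
    (fun _ _ ih s => K2 + K * s + ih (s + 1)) C 0

theorem bndR_eq (M K2 K : ℕ) (C : List ℕ) :
    bndR M K2 K C = M + lv (fun _ => K2) (fun _ _ => K) C [] := by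
  have key : ∀ (C prev : List ℕ), List.rec (motive := fun _ => ℕ → ℕ) (fun _ => M)
      (fun _ _ ih s => K2 + K * s + ih (s + 1)) C prev.length =
      M + lv (fun _ => K2) (fun _ _ => K) C prev := by
    intro C
    induction C with
    | nil => intro prev; rfl
    | cons x r ih =>
      intro prev
      show K2 + K * prev.length + List.rec (motive := fun _ => ℕ → ℕ) (fun _ => M)
        (fun _ _ ih s => K2 + K * s + ih (s + 1)) r (prev.length + 1) = _
      have := ih (x :: prev)
      rw [List.length_cons] at this
      have e : lv (fun _ => K2) (fun _ _ => K) (x :: r) prev =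
        K2 + (prev.map (fun _ => K)).sum + lv (fun _ => K2) (fun _ _ => K) r (x :: prev) := rfl
      rw [this, e, List.map_const', List.sum_replicate, nsmul_eq_mul, Nat.cast_id]
      ring
  exact key C []

/-! ### Masks -/

/-- Bits of the pairs `(v, x)`, `x ∈ cur`. -/
noncomputable def pm1 (v : ℕ) (cur : List ℕ) : ℕ :=
  List.rec (motive := fun _ => ℕ) 0
    (fun x _ ih => Nat.lor (Nat.pow 2 (256 * x + v)) ih) cur

/-- Bits of the pairs of a clique. -/
noncomputable def pmask (C : List ℕ) : ℕ :=
  List.rec (motive := fun _ => ℕ) 0 (fun v cur ih => Nat.lor (pm1 v cur) ih) C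

/-- Bits of the pairs of the marked cliques. -/
noncomputable def fmask (S : State) : ℕ :=
  List.rec (motive := fun _ => ℕ) 0
    (fun r _ ih => Prod.rec (motive := fun _ => ℕ) (fun C b =>
      Bool.rec (motive := fun _ => ℕ) ih (Nat.lor (pmask C) ih) b) r) S

/-- Does a pair of `C` have its bit in `fe`? -/
noncomputable def pany (fe : ℕ) (C : List ℕ) : Bool :=
  List.rec (motive := fun _ => Bool) false
    (fun v cur ih => Bool.rec (motive := fun _ => Bool) ih true
      (List.rec (motive := fun _ => Bool) false
        (fun x _ ih2 => Bool.rec (motive := fun _ => Bool) ih2 true (tb fe (256 * x + v))) cur)) C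

theorem tb_lor (a b k : ℕ) (h : tb (Nat.lor a b) k = true) : tb a k = true ∨ tb b k = true := by
  rw [tb_eq] at *
  have h1 : Nat.lor a b = a ||| b := rfl
  rw [h1, Nat.testBit_or] at h
  rw [tb_eq]
  simpa using h

theorem tb_pow (j k : ℕ) (h : tb (Nat.pow 2 j) k = true) : j = k := by
  rw [tb_eq] at h
  have h1 : Nat.pow 2 j = 2 ^ j := rfl
  rw [h1, Nat.testBit_two_pow] at h
  simpa using h

theorem tb_zero (k : ℕ) : tb 0 k = false := by
  rw [tb_eq]; exact Nat.zero_testBit k

theorem pm1_spec (v : ℕ) (cur : List ℕ) (k : ℕ) (h : tb (pm1 v cur) k = true) :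
    ∃ x ∈ cur, k = 256 * x + v := by
  induction cur with
  | nil =>
    have : tb 0 k = true := h
    rw [tb_zero] at this
    exact absurd this (by simp)
  | cons x r ih =>
    rcases tb_lor _ _ _ (show tb (Nat.lor (Nat.pow 2 (256 * x + v)) (pm1 v r)) k = true from h)
      with h1 | h1
    · exact ⟨x, by simp, (tb_pow _ _ h1).symm⟩
    · obtain ⟨y, hy, e⟩ := ih h1
      exact ⟨y, List.mem_cons_of_mem _ hy, e⟩

theorem pmask_spec (C : List ℕ) (k : ℕ) (h : tb (pmask C) k = true) (hC : C.Pairwise (· < ·)) :
    ∃ v ∈ C, ∃ x ∈ C, v < x ∧ k = 256 * x + v := by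
  induction C with
  | nil =>
    have : tb 0 k = true := h
    rw [tb_zero] at this
    exact absurd this (by simp)
  | cons v r ih =>
    rw [List.pairwise_cons] at hC
    rcases tb_lor _ _ _ (show tb (Nat.lor (pm1 v r) (pmask r)) k = true from h) with h1 | h1
    · obtain ⟨x, hx, e⟩ := pm1_spec _ _ _ h1
      exact ⟨v, by simp, x, List.mem_cons_of_mem _ hx, hC.1 x hx, e⟩
    · obtain ⟨v', hv', x, hx, hlt, e⟩ := ih h1 hC.2
      exact ⟨v', List.mem_cons_of_mem _ hv', x, List.mem_cons_of_mem _ hx, hlt, e⟩

theorem fmask_spec (S : State) (k : ℕ) (h : tb (fmask S) k = true) :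
    ∃ C, (C, true) ∈ S ∧ tb (pmask C) k = true := by
  induction S with
  | nil =>
    have : tb 0 k = true := h
    rw [tb_zero] at this
    exact absurd this (by simp)
  | cons r S ih =>
    obtain ⟨C, b⟩ := r
    cases b
    · obtain ⟨C', h1, h2⟩ := ih h
      exact ⟨C', List.mem_cons_of_mem _ h1, h2⟩
    · rcases tb_lor _ _ _ (show tb (Nat.lor (pmask C) (fmask S)) k = true from h) with h1 | h1
      · exact ⟨C, by simp, h1⟩
      · obtain ⟨C', h2, h3⟩ := ih h1
        exact ⟨C', List.mem_cons_of_mem _ h2, h3⟩

theorem pany_spec (fe : ℕ) (C : List ℕ) (hC : C.Pairwise (· < ·)) (h : pany fe C = true) :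
    ∃ v ∈ C, ∃ x ∈ C, v < x ∧ tb fe (256 * x + v) = true := by
  induction C with
  | nil => exact absurd h (by simp [pany])
  | cons v r ih =>
    rw [List.pairwise_cons] at hC
    have h1 : pany fe (v :: r) = Bool.rec (motive := fun _ => Bool) (pany fe r) true
      (List.rec (motive := fun _ => Bool) false
        (fun x _ ih2 => Bool.rec (motive := fun _ => Bool) ih2 true (tb fe (256 * x + v))) r) :=
      rfl
    rw [h1] at h
    have key : ∀ l : List ℕ, (List.rec (motive := fun _ => Bool) false
        (fun x _ ih2 => Bool.rec (motive := fun _ => Bool) ih2 true (tb fe (256 * x + v))) l)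
          = true → ∃ x ∈ l, tb fe (256 * x + v) = true := by
      intro l
      induction l with
      | nil => intro h; exact absurd h (by simp)
      | cons x l ihl =>
        intro h
        have h2 : Bool.rec (motive := fun _ => Bool)
          (List.rec (motive := fun _ => Bool) false
          (fun x _ ih2 => Bool.rec (motive := fun _ => Bool) ih2 true
            (tb fe (256 * x + v))) l) true (tb fe (256 * x + v)) = true := h
        cases hb : tb fe (256 * x + v)
        · rw [hb] at h2
          obtain ⟨y, hy, e⟩ := ihl h2
          exact ⟨y, List.mem_cons_of_mem _ hy, e⟩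
        · exact ⟨x, by simp, hb⟩
    cases hb : (List.rec (motive := fun _ => Bool) false
        (fun x _ ih2 => Bool.rec (motive := fun _ => Bool) ih2 true (tb fe (256 * x + v))) r
          : Bool)
    · rw [hb] at h
      obtain ⟨v', hv', x, hx, hlt, e⟩ := ih hC.2 h
      exact ⟨v', List.mem_cons_of_mem _ hv', x, List.mem_cons_of_mem _ hx, hlt, e⟩
    · obtain ⟨x, hx, e⟩ := key r hb
      exact ⟨v, by simp, x, List.mem_cons_of_mem _ hx, hC.1 x hx, e⟩

end Pool.Agent.helper63.DP
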