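import Pool.Agent.helper63.DP.Check

/-!
# Soundness of the certificate checker
-/

namespace Pool.Agent.helper63.DP

/-- Total value, computed. -/
noncomputable def totB (d : Nd) (T : RT (ℕ × List ℕ)) : ℕ :=
  sumN (fun x => d.low.getK x (fun l => d.nb.getK x (fun nx => T.getK x (fun p =>
    (len l + 1) * p.1 + sumL (fun u => look u nx p.2) nx)))) d.N

/-- Are the vertex weights small enough? -/
noncomputable def okw (d : Nd) (c : Cert) : Bool :=
  forceNat (c.M + c.K2) (fun m => allN (fun x => c.T.getK x (fun p => Nat.ble p.1 m)) d.N)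

/-- Total excess, computed. -/
noncomputable def Vc (nb : RT (List ℕ)) (c : Cert) (S : State) : ℕ :=
  sumL (fun r => Prod.rec (motive := fun _ => ℕ)
    (fun C _ => lvalR nb c.T C [] - bndR c.M c.K2 c.K C) r) S

/-- One step: killing and marking. -/
noncomputable def stepG (nb : RT (List ℕ)) (c : Cert) (D : ℕ) (C : List ℕ) (b : Bool) : Op :=
  Bool.rec (motive := fun _ => Op)
    (Bool.rec (motive := fun _ => Op)
      (Bool.rec (motive := fun _ => Op) Op.keep Op.mark
        (Nat.ble (Nat.succ (bndR c.M c.K2 c.K C + D)) (lvalR nb c.T C []))) Op.mark b)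
    Op.drop (Nat.ble (Nat.succ (lvalR nb c.T C [] + D)) (bndR c.M c.K2 c.K C))

/-- Drop the unmarked cliques sharing a pair with a marked one. -/
noncomputable def compG (fe : ℕ) (C : List ℕ) (b : Bool) : Op :=
  Bool.rec (motive := fun _ => Op)
    (Bool.rec (motive := fun _ => Op) Op.keep Op.drop (pany fe C)) Op.mark b

/-- Mark `C₀`. -/
noncomputable def useG (C0 C : List ℕ) (b : Bool) : Op :=
  Bool.rec (motive := fun _ => Op)
    (Bool.rec (motive := fun _ => Op) Op.keep Op.mark b) Op.mark (leq C C0)

/-- Drop `C₀`. -/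
noncomputable def dropG (C0 C : List ℕ) (b : Bool) : Op :=
  Bool.rec (motive := fun _ => Op)
    (Bool.rec (motive := fun _ => Op) Op.keep Op.mark b) Op.drop (leq C C0)

noncomputable def compatK (S : State) (k : State → Bool) : Bool :=
  forceNat (fmask S) (fun fe => walk (compG fe) S [] k)

noncomputable def certK (d : Nd) (t : ℕ) (c : Cert) (S : State) (k : State → Bool) : Bool :=
  okw d c && forceNat (Vc d.nb c S) (fun V => forceNat (totB d c.T) (fun B =>
    forceNat (c.M * t + (c.K2 * d.sd + c.K * d.ne)) (fun T =>
      Nat.ble B (T + V) && forceNat (T + V - B) (fun D =>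
        walk (stepG d.nb c D) S [] (fun S1 => compatK S1 k)))))

noncomputable def deadC (d : Nd) (t : ℕ) (c : Cert) (S : State) : Bool :=
  okw d c && forceNat (Vc d.nb c S) (fun V => forceNat (totB d c.T) (fun B =>
    forceNat (c.M * t + (c.K2 * d.sd + c.K * d.ne)) (fun T => Nat.ble (Nat.succ (T + V)) B)))

/-- First components. -/
noncomputable def fsts (S : State) : List (List ℕ) :=
  List.rec (motive := fun _ => List (List ℕ)) []
    (fun r _ ih => Prod.rec (motive := fun _ => List (List ℕ)) (fun C _ => C :: ih) r) S

theorem fsts_eq (S : State) : fsts S = S.map Prod.fst := by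
  induction S with
  | nil => rfl
  | cons r S ih =>
    obtain ⟨C, b⟩ := r
    have : fsts ((C, b) :: S) = C :: fsts S := rfl
    rw [this, ih]; rfl

/-- Number of pairs in the cliques of the state. -/
noncomputable def pairs (S : State) : ℕ :=
  sumL (fun r => Prod.rec (motive := fun _ => ℕ) (fun C _ => bndR 0 0 1 C) r) S

/-- Sum of the lengths. -/
noncomputable def lens (S : State) : ℕ :=
  sumL (fun r => Prod.rec (motive := fun _ => ℕ) (fun C _ => len C) r) S

/-- The proposed next level is correct. -/
noncomputable def outOK (d : Nd) (t : ℕ) (S : State) (o : RT (List ℕ)) : Bool :=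
  lleq (bigs (tab o.get t)) (fsts S) &&
    (allN (fun j => o.getK j (fun l => (asc l && lall (fun x => Nat.ble (Nat.succ x) d.N) l) &&
      Nat.ble 1 (len l))) t &&
    allN (fun x => d.low.getK x (fun lx => Nat.beq (sumN (fun j => o.getK j (fun l =>
      Bool.rec (motive := fun _ => ℕ) 0 1 (elem x l))) t) (len lx + 1))) d.N)

/-- Apply a test to the `i`-th entry. -/
noncomputable def nthB {α : Type} (p : α → Bool) (l : List α) : ℕ → Bool :=
  List.rec (motive := fun _ => ℕ → Bool) (fun _ => false)
    (fun o _ ih i => Nat.rec (motive := fun _ => Bool) (p o) (fun i' _ => ih i') i) l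

theorem nthB_spec {α : Type} (p : α → Bool) (l : List α) (i : ℕ) (h : nthB p l i = true) :
    ∃ o ∈ l, p o = true := by
  induction l generalizing i with
  | nil => exact absurd h (by simp [nthB])
  | cons o l ih =>
    cases i with
    | zero => exact ⟨o, by simp, h⟩
    | succ i =>
      obtain ⟨o', h1, h2⟩ := ih i h
      exact ⟨o', List.mem_cons_of_mem _ h1, h2⟩

/-- The checker. -/
noncomputable def check (d : Nd) (t : ℕ) (outs : List (RT (List ℕ))) : Tr → State → Bool
  | .cert c n, S => certK d t c S (fun S1 => check d t outs n S1)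
  | .dead c, S => deadC d t c S
  | .split C a b, S =>
    walk (useG C) S [] (fun S1 => compatK S1 (fun S2 => check d t outs a S2)) &&
    walk (dropG C) S [] (fun S1 => compatK S1 (fun S2 => check d t outs b S2))
  | .solved i, S => Nat.beq (pairs S) d.ne && nthB (outOK d t S) outs i
  | .bad, S => Nat.beq (pairs S) d.ne &&
    Bool.rec (motive := fun _ => Bool) true false (Nat.beq (t + lens S) (len S + d.sd))

/-- The full check of a node. -/
noncomputable def nodeOK (d : Nd) (t : ℕ) (outs : List (RT (List ℕ))) (tr : Tr) : Bool :=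
  graphOK d && topK d.nb 256 d.N (fun S => check d t outs tr S)

/-- The family is enumerated by the table `o`. -/
structure Match (d : Nd) (t : ℕ) {ι : Type} [Fintype ι] (L : ι → List ℕ) (o : RT (List ℕ)) :
    Prop where
  eq : (Finset.univ : Finset ι).val.map L = ((tab o.get t : List (List ℕ)) : Multiset (List ℕ))
  asc : ∀ j < t, (o.get j).Pairwise (· < ·)
  lt : ∀ j < t, ∀ x ∈ o.get j, x < d.N

section

variable {d : Nd} {t : ℕ} {ι : Type} [Fintype ι] {L : ι → List ℕ}

theorem totB_eq (hF : Fam d t L) (hg : GOK d) (T : RT (ℕ × List ℕ)) :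
    totB d T = ∑ i, lv (wf T) (yf d.nb T) (L i) [] := by
  rw [total hF hg, totB, sumN_eq]
  apply Finset.sum_congr rfl
  intro x hx
  rw [Finset.mem_range] at hx
  rw [RT.getK_eq, RT.getK_eq, RT.getK_eq, len_eq, sumL_nodup _ _
    ((hg.asc x hx).imp (fun h => ne_of_lt h))]
  rfl

theorem totc_eq (hF : Fam d t L) (hg : GOK d) (K2 K : ℕ) :
    K2 * d.sd + K * d.ne = ∑ i, lv (fun _ => K2) (fun _ _ => K) (L i) [] := by
  rw [total hF hg, ← hg.sd, ← hg.ne, Finset.mul_sum, Finset.mul_sum, ← Finset.sum_add_distrib]
  apply Finset.sum_congr rfl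
  intro x hx
  rw [Finset.mem_range] at hx
  rw [Finset.sum_const, List.toFinset_card_of_nodup ((hg.asc x hx).imp (fun h => ne_of_lt h)),
    nsmul_eq_mul, Nat.cast_id]
  ring

theorem okw_spec (c : Cert) (h : okw d c = true) : ∀ x < d.N, wf c.T x ≤ c.M + c.K2 := by
  unfold okw at h
  rw [forceNat_eq, allN_iff] at h
  intro x hx
  have := h x hx
  rw [RT.getK_eq] at this
  exact Nat.le_of_ble_eq_true this

theorem Vc_eq (nb : RT (List ℕ)) (c : Cert) (S : State) :
    Vc nb c S = Vof (wf c.T) (yf nb c.T) c.M c.K2 c.K S := by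
  unfold Vc Vof
  rw [sumL_eq]
  congr 1
  apply List.map_congr_left
  intro r _
  obtain ⟨C, b⟩ := r
  show lvalR nb c.T C [] - bndR c.M c.K2 c.K C = _
  rw [lvalR_eq, bndR_eq]
  rfl

theorem mem_walk {g : List ℕ → Bool → Op} {S : State} {r : List ℕ × Bool} :
    r ∈ (S.filterMap (app g)).reverse ++ [] ↔ ∃ r' ∈ S, app g r' = some r := by
  rw [List.append_nil, List.mem_reverse, List.mem_filterMap]

theorem compat_spec (hF : Fam d t L) (hg : GOK d) {S : State} (hS : Inv L S)
    {k : State → Bool} (h : compatK S k = true) : ∃ S', Inv L S' ∧ k S' = true := by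
  unfold compatK at h
  rw [forceNat_eq, walk_eq] at h
  refine ⟨_, ?_, h⟩
  constructor
  · intro i hi
    obtain ⟨b, hb⟩ := hS.mem i hi
    cases b
    · cases hp : pany (fmask S) (L i)
      · refine ⟨false, mem_walk.2 ⟨_, hb, ?_⟩⟩
        unfold app compG
        rw [hp]
      · -- shares a pair with a marked one
        obtain ⟨v, hv, x, hx, hvx, htb⟩ := pany_spec _ _ (hF.asc i) hp
        obtain ⟨C, hC, htb2⟩ := fmask_spec _ _ htb
        obtain ⟨j, hj⟩ := hS.used C hC
        have hCa : C.Pairwise (· < ·) := by rw [← hj]; exact hF.asc j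
        obtain ⟨v', hv', x', hx', hvx', he⟩ := pmask_spec _ _ htb2 hCa
        have hvN := lt_of_lt_of_le (hF.lt i v hv) hg.N
        have hv'N : v' < 256 := by
          rw [← hj] at hv'
          exact lt_of_lt_of_le (hF.lt j v' hv') hg.N
        have e1 : v = v' := by omega
        have e2 : x = x' := by omega
        subst e1 e2
        have hij : i = j := pairinj hF hg hvx hx hv (by rw [hj]; exact hx') (by rw [hj]; exact hv')
        refine ⟨true, mem_walk.2 ⟨(C, true), hC, ?_⟩⟩
        unfold app compG
        rw [hij, hj]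
    · refine ⟨true, mem_walk.2 ⟨_, hb, ?_⟩⟩
      unfold app compG
      rfl
  · intro C hC
    obtain ⟨⟨C', b⟩, h1, h2⟩ := mem_walk.1 hC
    cases b
    · unfold app compG at h2
      cases hp : pany (fmask S) C'
      · rw [hp] at h2
        simp at h2
      · rw [hp] at h2
        simp at h2
    · unfold app compG at h2
      have : C' = C := by simpa using h2
      rw [this] at h1
      exact hS.used C h1
  · intro r hr
    obtain ⟨⟨C', b⟩, h1, h2⟩ := mem_walk.1 hr
    have h3 := hS.big _ h1
    unfold app at h2
    cases hg' : compG (fmask S) C' b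
    · rw [show compG (fmask S) (C', b).1 (C', b).2 = compG (fmask S) C' b from rfl, hg'] at h2
      simp at h2
    · rw [show compG (fmask S) (C', b).1 (C', b).2 = compG (fmask S) C' b from rfl, hg'] at h2
      have : r.1 = C' := by
        have := Option.some.inj h2
        rw [← this]
      rw [this]; exact h3
    · rw [show compG (fmask S) (C', b).1 (C', b).2 = compG (fmask S) C' b from rfl, hg'] at h2
      have : r.1 = C' := by
        have := Option.some.inj h2
        rw [← this]
      rw [this]; exact h3

theorem app_fst {g : List ℕ → Bool → Op} {r r' : List ℕ × Bool} (h : app g r' = some r) :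
    r.1 = r'.1 := by
  unfold app at h
  cases hg' : g r'.1 r'.2
  · rw [hg'] at h; simp at h
  · rw [hg'] at h
    have := Option.some.inj h
    rw [← this]
  · rw [hg'] at h
    have := Option.some.inj h
    rw [← this]

theorem app_true {g : List ℕ → Bool → Op} {C : List ℕ} {r' : List ℕ × Bool}
    (h : app g r' = some (C, true)) : r'.1 = C ∧ g r'.1 r'.2 = Op.mark := by
  refine ⟨(app_fst h).symm, ?_⟩
  unfold app at h
  cases hg' : g r'.1 r'.2
  · rw [hg'] at h; simp at h
  · rw [hg'] at h
    have := Option.some.inj h
    have h2 := congrArg Prod.snd this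
    simp at h2
  · rfl

theorem app_ne {g : List ℕ → Bool → Op} {r' : List ℕ × Bool} (h : g r'.1 r'.2 ≠ Op.drop) :
    ∃ b, app g r' = some (r'.1, b) := by
  unfold app
  cases hg' : g r'.1 r'.2
  · exact absurd hg' h
  · exact ⟨false, rfl⟩
  · exact ⟨true, rfl⟩

/-- General preservation lemma for walks. -/
theorem walk_inv {g : List ℕ → Bool → Op} {S : State} (hS : Inv L S)
    (h1 : ∀ i b, (L i, b) ∈ S → 2 ≤ (L i).length → g (L i) b ≠ Op.drop)
    (h2 : ∀ C b, (C, b) ∈ S → g C b = Op.mark → ∃ i, L i = C) :
    Inv L ((S.filterMap (app g)).reverse ++ []) := by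
  constructor
  · intro i hi
    obtain ⟨b, hb⟩ := hS.mem i hi
    obtain ⟨b', hb'⟩ := app_ne (g := g) (r' := (L i, b)) (h1 i b hb hi)
    exact ⟨b', mem_walk.2 ⟨_, hb, hb'⟩⟩
  · intro C hC
    obtain ⟨r', h3, h4⟩ := mem_walk.1 hC
    obtain ⟨h5, h6⟩ := app_true h4
    obtain ⟨C', b⟩ := r'
    have h7 : C' = C := h5
    subst h7
    exact h2 _ _ h3 h6
  · intro r hr
    obtain ⟨r', h3, h4⟩ := mem_walk.1 hr
    rw [app_fst h4]
    exact hS.big r' h3

theorem certK_spec (hF : Fam d t L) (hg : GOK d) {S : State} (hS : Inv L S) (c : Cert)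
    {k : State → Bool} (h : certK d t c S k = true) : ∃ S', Inv L S' ∧ k S' = true := by
  unfold certK at h
  rw [Bool.and_eq_true] at h
  obtain ⟨hok, h⟩ := h
  have hw := okw_spec c hok
  rw [forceNat_eq, forceNat_eq, forceNat_eq, Bool.and_eq_true, forceNat_eq, walk_eq, Vc_eq,
    totB_eq hF hg, totc_eq hF hg] at h
  obtain ⟨hble, h⟩ := h
  have hble' := Nat.le_of_ble_eq_true hble
  have hi1 := ineq1 hF hg hS (wf c.T) (yf d.nb c.T) c.M c.K2 c.K hw
  have hi2 := fun C b hC hun =>
    ineq2 hF hg hS (wf c.T) (yf d.nb c.T) c.M c.K2 c.K hw (C := C) (b := b) hC hun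
  set B := ∑ i, lv (wf c.T) (yf d.nb c.T) (L i) [] with hB
  set TT := c.M * t + ∑ i, lv (fun _ => c.K2) (fun _ _ => c.K) (L i) [] with hTT
  set V := Vof (wf c.T) (yf d.nb c.T) c.M c.K2 c.K S with hV
  apply compat_spec hF hg _ h
  apply walk_inv hS
  · intro i b _ _ hdrop
    unfold stepG at hdrop
    rw [lvalR_eq, bndR_eq] at hdrop
    have h1 := hi1 i
    cases hb : Nat.ble (Nat.succ (lv (wf c.T) (yf d.nb c.T) (L i) [] + (TT + V - B)))
        (c.M + lv (fun _ => c.K2) (fun _ _ => c.K) (L i) [])
    · rw [hb] at hdrop
      cases b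
      · cases hb2 : Nat.ble (Nat.succ (c.M + lv (fun _ => c.K2) (fun _ _ => c.K) (L i) [] +
            (TT + V - B))) (lv (wf c.T) (yf d.nb c.T) (L i) [])
        · rw [hb2] at hdrop
          exact absurd hdrop (by simp)
        · rw [hb2] at hdrop
          exact absurd hdrop (by simp)
      · exact absurd hdrop (by simp)
    · have := Nat.le_of_ble_eq_true hb
      omega
  · intro C b hC hmark
    by_contra hun
    have hun' : ∀ i, L i ≠ C := fun i hi => hun ⟨i, hi⟩
    have h1 := hi2 C b hC hun'
    unfold stepG at hmark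
    rw [lvalR_eq, bndR_eq] at hmark
    unfold exc at h1
    cases hb : Nat.ble (Nat.succ (lv (wf c.T) (yf d.nb c.T) C [] + (TT + V - B)))
        (c.M + lv (fun _ => c.K2) (fun _ _ => c.K) C [])
    · rw [hb] at hmark
      cases b
      · cases hb2 : Nat.ble (Nat.succ (c.M + lv (fun _ => c.K2) (fun _ _ => c.K) C [] +
            (TT + V - B))) (lv (wf c.T) (yf d.nb c.T) C [])
        · rw [hb2] at hmark
          exact absurd hmark (by simp)
        · have := Nat.le_of_ble_eq_true hb2
          omega
      · obtain ⟨i, hi⟩ := hS.used C hC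
        exact hun' i hi
    · rw [hb] at hmark
      exact absurd hmark (by simp)

theorem deadC_spec (hF : Fam d t L) (hg : GOK d) {S : State} (hS : Inv L S) (c : Cert)
    (h : deadC d t c S = true) : False := by
  unfold deadC at h
  rw [Bool.and_eq_true] at h
  obtain ⟨hok, h⟩ := h
  have hw := okw_spec c hok
  rw [forceNat_eq, forceNat_eq, forceNat_eq, Vc_eq, totB_eq hF hg, totc_eq hF hg] at h
  have h' := Nat.le_of_ble_eq_true h
  have hi := ineq0 hF hg hS (wf c.T) (yf d.nb c.T) c.M c.K2 c.K hw
  omega

theorem pairs_eq (S : State) : pairs S =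
    ((((S.map Prod.fst : List (List ℕ)) : Multiset (List ℕ)).map
      (fun C => lv (fun _ => 0) (fun _ _ => 1) C []))).sum := by
  unfold pairs
  rw [sumL_eq, Multiset.map_coe, Multiset.sum_coe, List.map_map]
  congr 1
  apply List.map_congr_left
  intro r _
  obtain ⟨C, b⟩ := r
  show bndR 0 0 1 C = _
  rw [bndR_eq]
  simp

theorem lens_eq (S : State) : lens S =
    ((((S.map Prod.fst : List (List ℕ)) : Multiset (List ℕ)).map List.length)).sum := by
  unfold lens
  rw [sumL_eq, Multiset.map_coe, Multiset.sum_coe, List.map_map]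
  congr 1
  apply List.map_congr_left
  intro r _
  obtain ⟨C, b⟩ := r
  show len C = _
  rw [len_eq]; rfl

theorem lv_one_pos (C : List ℕ) (h : 2 ≤ C.length) :
    0 < lv (fun _ => 0) (fun _ _ => 1) C [] := by
  match C, h with
  | [], h => simp at h
  | [a], h => simp at h
  | a :: b :: r, _ =>
    show 0 < 0 + (List.map (fun _ => 1) ([] : List ℕ)).sum +
      (0 + (List.map (fun _ => 1) [a]).sum + lv (fun _ => 0) (fun _ _ => 1) r [b, a])
    simp

open Classical in
/-- If the state has the right number of pairs, then all its cliques are used. -/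
theorem solved_eq (hF : Fam d t L) (hg : GOK d) {S : State} (hS : Inv L S)
    (h : pairs S = d.ne) :
    (Finset.univ.filter (fun i => 2 ≤ (L i).length)).val.map L =
      ((S.map Prod.fst : List (List ℕ)) : Multiset (List ℕ)) := by
  have hle := sub_state hF hg hS
  obtain ⟨u, hu⟩ := Multiset.le_iff_exists_add.1 hle
  have h1 : ∑ i, lv (fun _ => 0) (fun _ _ => 1) (L i) [] = d.ne := by
    rw [← totc_eq hF hg 0 1]; simp
  have h2 : ∑ i, lv (fun _ => 0) (fun _ _ => 1) (L i) [] =
      (((Finset.univ.filter (fun i => 2 ≤ (L i).length)).val.map L).map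
        (fun C => lv (fun _ => 0) (fun _ _ => 1) C [])).sum := by
    rw [Multiset.map_map]
    show _ = ∑ i ∈ Finset.univ.filter (fun i => 2 ≤ (L i).length),
      lv (fun _ => 0) (fun _ _ => 1) (L i) []
    symm
    apply Finset.sum_filter_of_ne
    intro i _ hne
    by_contra hcon
    apply hne
    match hL : L i with
    | [] => rfl
    | [x] => rfl
    | a :: b :: r => rw [hL] at hcon; simp at hcon
  have h3 := pairs_eq S
  rw [h, hu, Multiset.map_add, Multiset.sum_add, ← h2, h1] at h3
  have h4 : (u.map (fun C => lv (fun _ => 0) (fun _ _ => 1) C [])).sum = 0 := by omega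
  have h5 : u = 0 := by
    rw [Multiset.eq_zero_iff_forall_notMem]
    intro C hC
    have hCS : C ∈ ((S.map Prod.fst : List (List ℕ)) : Multiset (List ℕ)) := by
      rw [hu]; exact Multiset.mem_add.2 (Or.inr hC)
    rw [Multiset.mem_coe, List.mem_map] at hCS
    obtain ⟨r, hr, rfl⟩ := hCS
    have h6 := lv_one_pos r.1 (hS.big r hr)
    have h7 : lv (fun _ => 0) (fun _ _ => 1) r.1 [] ≤
        (u.map (fun C => lv (fun _ => 0) (fun _ _ => 1) C [])).sum :=
      Multiset.le_sum_of_mem (Multiset.mem_map_of_mem
        (fun C => lv (fun _ => 0) (fun _ _ => 1) C []) hC)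
    omega
  rw [hu, h5, add_zero]

theorem lv_one_len (C prev : List ℕ) : lv (fun _ => 1) (fun _ _ => 0) C prev = C.length := by
  induction C generalizing prev with
  | nil => rfl
  | cons x r ih =>
    have e : lv (fun _ => 1) (fun _ _ => 0) (x :: r) prev =
      1 + (prev.map (fun _ => 0)).sum + lv (fun _ => 1) (fun _ _ => 0) r (x :: prev) := rfl
    rw [e, ih, List.map_const', List.sum_replicate, List.length_cons]
    simp [add_comm]

open Classical in
theorem bad_spec (hF : Fam d t L) (hg : GOK d) {S : State} (hS : Inv L S)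
    (h : pairs S = d.ne) : t + lens S = S.length + d.sd := by
  have h1 := solved_eq hF hg hS h
  have h2 : ∑ i, (L i).length = d.sd := by
    have := totc_eq hF hg 1 0
    simp only [lv_one_len] at this
    rw [← this]; simp
  have h3 : lens S = ∑ i ∈ Finset.univ.filter (fun i => 2 ≤ (L i).length), (L i).length := by
    rw [lens_eq, ← h1, Multiset.map_map]; rfl
  have h4 : S.length = (Finset.univ.filter (fun i => 2 ≤ (L i).length)).card := by
    have := congrArg Multiset.card h1
    rw [Multiset.card_map, Multiset.coe_card, List.length_map] at this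
    exact this.symm
  have h5 : ∑ i ∈ Finset.univ.filter (fun i => ¬ 2 ≤ (L i).length), (L i).length =
      (Finset.univ.filter (fun i => ¬ 2 ≤ (L i).length)).card := by
    rw [Finset.card_eq_sum_ones]
    apply Finset.sum_congr rfl
    intro i hi
    rw [Finset.mem_filter] at hi
    have := hF.ne i
    match hL : L i with
    | [] => exact absurd hL this
    | [x] => rfl
    | a :: b :: r => rw [hL] at hi; simp at hi
  have h6 := Finset.sum_filter_add_sum_filter_not Finset.univ (fun i => 2 ≤ (L i).length)
    (fun i => (L i).length)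
  have h7 := Finset.card_filter_add_card_filter_not (s := (Finset.univ : Finset ι))
    (fun i => 2 ≤ (L i).length)
  rw [Finset.card_univ, hF.card] at h7
  omega

theorem mset_ext (A T : Multiset (List ℕ)) (hA : ∀ C ∈ A, C ≠ []) (hT : ∀ C ∈ T, C ≠ [])
    (hb : A.filter (fun C => 2 ≤ C.length) = T.filter (fun C => 2 ≤ C.length))
    (hc : ∀ x, A.countP (fun C => x ∈ C) = T.countP (fun C => x ∈ C)) : A = T := by
  have key : ∀ (B : Multiset (List ℕ)), (∀ C ∈ B, C ≠ []) → ∀ x,
      B.countP (fun C => x ∈ C) =
        (B.filter (fun C => 2 ≤ C.length)).countP (fun C => x ∈ C) + B.count [x] := by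
    intro B hB x
    conv_lhs => rw [← Multiset.filter_add_not (fun C : List ℕ => 2 ≤ C.length) B]
    rw [Multiset.countP_add]
    congr 1
    rw [Multiset.countP_filter]
    unfold Multiset.count
    apply Multiset.countP_congr rfl
    intro C hC
    have hne := hB C hC
    match C with
    | [] => exact absurd rfl hne
    | [y] => simp
    | a :: b :: r => simp
  ext C
  match C with
  | [] =>
    rw [Multiset.count_eq_zero_of_notMem (fun h => hA _ h rfl),
      Multiset.count_eq_zero_of_notMem (fun h => hT _ h rfl)]
  | [x] =>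
    have h1 := key A hA x
    have h2 := key T hT x
    rw [hb] at h1
    have h3 := hc x
    omega
  | a :: b :: r =>
    have h1 := congrArg (fun M : Multiset (List ℕ) => M.count (a :: b :: r)) hb
    simp only [Multiset.count_filter] at h1
    simpa using h1

open Classical in
theorem outOK_spec (hF : Fam d t L) (hg : GOK d) {S : State} (hS : Inv L S)
    (h : pairs S = d.ne) (o : RT (List ℕ)) (ho : outOK d t S o = true) : Match d t L o := by
  unfold outOK at ho
  rw [Bool.and_eq_true, Bool.and_eq_true, lleq_iff, allN_iff, allN_iff, bigs_eq, fsts_eq] at ho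
  obtain ⟨h1, h2, h3⟩ := ho
  have h2' : ∀ j < t, (asc (o.get j) = true ∧
      lall (fun x => Nat.ble (Nat.succ x) d.N) (o.get j) = true) ∧
        Nat.ble 1 (len (o.get j)) = true := by
    intro j hj
    have := h2 j hj
    rw [RT.getK_eq, Bool.and_eq_true, Bool.and_eq_true] at this
    exact this
  have hlt : ∀ j < t, ∀ x ∈ o.get j, x < d.N := fun j hj x hx =>
    Nat.le_of_ble_eq_true ((lall_iff _ _).1 (h2' j hj).1.2 x hx)
  refine ⟨?_, fun j hj => asc_iff _ (h2' j hj).1.1, hlt⟩
  apply mset_ext
  · intro C hC
    rw [Multiset.mem_map] at hC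
    obtain ⟨i, _, rfl⟩ := hC
    exact hF.ne i
  · intro C hC
    rw [Multiset.mem_coe, tab_eq, List.mem_map] at hC
    obtain ⟨j, hj, rfl⟩ := hC
    rw [List.mem_range] at hj
    intro he
    have h4 := Nat.le_of_ble_eq_true (h2' j hj).2
    rw [len_eq, he] at h4
    simp at h4
  · have h4 := solved_eq hF hg hS h
    rw [Multiset.filter_map]
    rw [show (Multiset.filter ((fun C : List ℕ => 2 ≤ C.length) ∘ L)
        (Finset.univ : Finset ι).val) =
        (Finset.univ.filter (fun i => 2 ≤ (L i).length)).val from rfl]
    rw [h4, Multiset.filter_coe, ← h1]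
  · intro x
    by_cases hx : x < d.N
    · have h4 := h3 x hx
      rw [RT.getK_eq] at h4
      have h5 := Nat.eq_of_beq_eq_true h4
      rw [len_eq] at h5
      have h6 := hF.deg x hx
      have h7 : Multiset.countP (fun C => x ∈ C) ((Finset.univ : Finset ι).val.map L) =
          (Finset.univ.filter (fun i => x ∈ L i)).card := by
        rw [Multiset.countP_map]; rfl
      rw [h7, h6, ← h5, sumN_eq, tab_eq, Multiset.coe_countP, List.countP_map]
      have hsum : ∀ (f : ℕ → ℕ) (n : ℕ),
          ∑ j ∈ Finset.range n, f j = ((List.range n).map f).sum := by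
        intro f n
        induction n with
        | zero => rfl
        | succ n ih => rw [Finset.sum_range_succ, List.range_succ, ih]; simp
      rw [hsum]
      have key : ∀ l : List ℕ, (l.map (fun j => o.getK j (fun l =>
          Bool.rec (motive := fun _ => ℕ) 0 1 (elem x l)))).sum =
          List.countP ((fun C => decide (x ∈ C)) ∘ o.get) l := by
        intro l
        induction l with
        | nil => rfl
        | cons j l ih =>
          rw [List.map_cons, List.sum_cons, ih, List.countP_cons, RT.getK_eq]
          cases he : elem x (o.get j)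
          · have : ¬ x ∈ o.get j := by
              intro h'; rw [(elem_iff _ _).2 h'] at he; exact absurd he (by simp)
            simp [this]
          · have : x ∈ o.get j := (elem_iff _ _).1 he
            simp [this, add_comm]
      rw [← key]
    · have h4 : Multiset.countP (fun C => x ∈ C) ((Finset.univ : Finset ι).val.map L) = 0 := by
        rw [Multiset.countP_eq_zero]
        intro C hC
        rw [Multiset.mem_map] at hC
        obtain ⟨i, _, rfl⟩ := hC
        exact fun hxi => hx (hF.lt i x hxi)
      have h5 : Multiset.countP (fun C => x ∈ C) ((tab o.get t : List (List ℕ)) :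
          Multiset (List ℕ)) = 0 := by
        rw [Multiset.countP_eq_zero]
        intro C hC
        rw [Multiset.mem_coe, tab_eq, List.mem_map] at hC
        obtain ⟨j, hj, rfl⟩ := hC
        exact fun hxi => hx (hlt j (List.mem_range.1 hj) x hxi)
      rw [h4, h5]

theorem check_sound (hF : Fam d t L) (hg : GOK d) (outs : List (RT (List ℕ))) (tr : Tr)
    (S : State) (hS : Inv L S) (h : check d t outs tr S = true) : ∃ o ∈ outs, Match d t L o := by
  induction tr generalizing S with
  | cert c n ih =>
    obtain ⟨S', h1, h2⟩ := certK_spec hF hg hS c h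
    exact ih S' h1 h2
  | dead c => exact (deadC_spec hF hg hS c h).elim
  | split C a b iha ihb =>
    have h' : (walk (useG C) S [] (fun S1 => compatK S1 (fun S2 => check d t outs a S2)) &&
      walk (dropG C) S [] (fun S1 => compatK S1 (fun S2 => check d t outs b S2))) = true := h
    rw [Bool.and_eq_true, walk_eq, walk_eq] at h'
    by_cases hC : ∃ i, L i = C
    · have hinv : Inv L ((S.filterMap (app (useG C))).reverse ++ []) := by
        apply walk_inv hS
        · intro i b _ _ hd
          unfold useG at hd
          cases he : leq (L i) C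
          · rw [he] at hd; cases b <;> exact absurd hd (by simp)
          · rw [he] at hd; exact absurd hd (by simp)
        · intro C' b hC' hm
          unfold useG at hm
          cases he : leq C' C
          · rw [he] at hm
            cases b
            · exact absurd hm (by simp)
            · exact hS.used C' hC'
          · rw [(leq_iff _ _).1 he]; exact hC
      obtain ⟨S', h1, h2⟩ := compat_spec hF hg hinv h'.1
      exact iha S' h1 h2
    · have hinv : Inv L ((S.filterMap (app (dropG C))).reverse ++ []) := by
        apply walk_inv hS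
        · intro i b _ _ hd
          unfold dropG at hd
          cases he : leq (L i) C
          · rw [he] at hd; cases b <;> exact absurd hd (by simp)
          · exact hC ⟨i, (leq_iff _ _).1 he⟩
        · intro C' b hC' hm
          unfold dropG at hm
          cases he : leq C' C
          · rw [he] at hm
            cases b
            · exact absurd hm (by simp)
            · exact hS.used C' hC'
          · rw [he] at hm; exact absurd hm (by simp)
      obtain ⟨S', h1, h2⟩ := compat_spec hF hg hinv h'.2
      exact ihb S' h1 h2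
  | solved i =>
    have h' : (Nat.beq (pairs S) d.ne && nthB (outOK d t S) outs i) = true := h
    rw [Bool.and_eq_true] at h'
    obtain ⟨o, ho1, ho2⟩ := nthB_spec _ _ _ h'.2
    exact ⟨o, ho1, outOK_spec hF hg hS (Nat.eq_of_beq_eq_true h'.1) o ho2⟩
  | bad =>
    have h' : (Nat.beq (pairs S) d.ne && Bool.rec (motive := fun _ => Bool) true false
      (Nat.beq (t + lens S) (len S + d.sd))) = true := h
    rw [Bool.and_eq_true] at h'
    have h1 := bad_spec hF hg hS (Nat.eq_of_beq_eq_true h'.1)
    have h2 := h'.2
    rw [len_eq, h1, Nat.beq_refl] at h2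
    exact absurd h2 (by simp)

theorem nodeOK_sound {outs : List (RT (List ℕ))} {tr : Tr} (h : nodeOK d t outs tr = true)
    (hF : Fam d t L) : ∃ o ∈ outs, Match d t L o := by
  unfold nodeOK at h
  rw [Bool.and_eq_true] at h
  have hg := graphOK_spec d h.1
  obtain ⟨S, h1, h2, h3⟩ := topK_eq d.nb 256 d.N (fun S => check d t outs tr S)
  rw [h1] at h
  refine check_sound hF hg outs tr S ?_ h.2
  constructor
  · intro i hi
    refine ⟨false, h3 (L i) ?_ hi (hF.lt i) (hF.asc i) ?_⟩
    · -- length at most 257
      have hnd : (L i).Nodup := (hF.asc i).imp (fun h => ne_of_lt h)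
      have h4 : (L i).toFinset ⊆ Finset.range d.N := by
        intro x hx
        rw [List.mem_toFinset] at hx
        exact Finset.mem_range.2 (hF.lt i x hx)
      have h5 := Finset.card_le_card h4
      rw [List.toFinset_card_of_nodup hnd, Finset.card_range] at h5
      have := hg.N
      omega
    · -- adjacency
      have hasc := hF.asc i
      rw [List.pairwise_iff_forall_sublist] at hasc ⊢
      intro u x hux
      have hlt := hasc hux
      have hu : u ∈ L i := hux.subset (by simp)
      have hx : x ∈ L i := hux.subset (by simp)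
      have hxN := hF.lt i x hx
      have h6 := hF.pair x hxN u hlt
      rw [hg.cm x hxN u hlt] at h6
      by_contra hcon
      rw [if_neg hcon, Finset.card_eq_zero] at h6
      have : i ∈ (∅ : Finset ι) := by
        rw [← h6]; simp [hu, hx]
      simp at this
  · intro C hC
    exact absurd (h2 _ hC).1 (by simp)
  · intro r hr
    exact (h2 r hr).2

end

end Pool.Agent.helper63.DP
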