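import Pool.Agent.helper76.DP.Spec

/-!
# DP, row dp:TVL: the law of `a v - b v'` modulo `q` is almost uniform
-/

set_option autoImplicit false

namespace Pool.Agent.DP

open Finset
open Pool.Agent.FR (mean Eig)
open Pool.Agent.AT (Qk Pair)
open Pool.Agent.HF (Om TC NoTC)
open Pool.Agent.IT (Ad)

lemma TVL_prod (s : Finset ℕ) (f : ℕ → ℝ) (hf : ∀ p ∈ s, 0 ≤ f p ∧ f p ≤ 1) :
    1 - ∑ p ∈ s, f p ≤ ∏ p ∈ s, (1 - f p) := by
  classical
  induction s using Finset.induction_on with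
  | empty => simp
  | insert a s ha ih =>
    rw [Finset.sum_insert ha, Finset.prod_insert ha]
    have h1 := hf a (Finset.mem_insert_self a s)
    have h2 := ih (fun p hp => hf p (Finset.mem_insert_of_mem hp))
    have h3 : 0 ≤ ∑ p ∈ s, f p :=
      Finset.sum_nonneg (fun p hp => (hf p (Finset.mem_insert_of_mem hp)).1)
    have h4 : (1 - f a) * (1 - ∑ p ∈ s, f p) ≤ (1 - f a) * ∏ p ∈ s, (1 - f p) :=
      mul_le_mul_of_nonneg_left h2 (by linarith)
    nlinarith [mul_nonneg h1.1 h3]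

/-- the product over the prime factors -/
lemma TVL_low (q a b y : ℕ) (hq : q ≠ 0) (hy : 2 ≤ y)
    (hp : ∀ p : ℕ, p.Prime → p ∣ q → y < p ∧ ¬ p ∣ a * b) :
    1 - 2 / (y : ℝ) ≤ ∏ p ∈ q.primeFactors,
      (if p ∣ 2 * a * b then (p : ℝ) / (p - 1) else 1 - 1 / ((p : ℝ) - 1) ^ 2) := by
  classical
  have hpm : ∀ p ∈ q.primeFactors, p.Prime ∧ p ∣ q ∧ y < p ∧ ¬ p ∣ a * b := by
    intro p hpq
    have h1 := Nat.prime_of_mem_primeFactors hpq
    have h2 := Nat.dvd_of_mem_primeFactors hpq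
    exact ⟨h1, h2, hp p h1 h2⟩
  have h1 : ∏ p ∈ q.primeFactors,
      (if p ∣ 2 * a * b then (p : ℝ) / (p - 1) else 1 - 1 / ((p : ℝ) - 1) ^ 2) =
      ∏ p ∈ q.primeFactors, (1 - 1 / ((p : ℝ) - 1) ^ 2) := by
    refine Finset.prod_congr rfl ?_
    intro p hpq
    obtain ⟨e1, e2, e3, e4⟩ := hpm p hpq
    rw [if_neg]
    intro hd
    rw [mul_assoc] at hd
    rcases e1.dvd_mul.1 hd with h | h
    · have := Nat.le_of_dvd (by norm_num) h
      omega
    · exact e4 h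
  rw [h1]
  have h2 := TVL_prod q.primeFactors (fun p => 1 / ((p : ℝ) - 1) ^ 2) (by
    intro p hpq
    obtain ⟨e1, e2, e3, e4⟩ := hpm p hpq
    have h3 : (3 : ℝ) ≤ p := by
      have : 3 ≤ p := by omega
      exact_mod_cast this
    refine ⟨by positivity, ?_⟩
    rw [div_le_one (by nlinarith)]
    nlinarith)
  refine le_trans ?_ h2
  have h3 : ∑ p ∈ q.primeFactors, 1 / ((p : ℝ) - 1) ^ 2 ≤ 2 / (y : ℝ) := by
    have h4 : ∑ p ∈ q.primeFactors, 1 / ((p : ℝ) - 1) ^ 2 =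
        ∑ n ∈ q.primeFactors.image (fun p : ℕ => (p - 1 : ℕ)), (((n : ℕ) : ℝ) ^ 2)⁻¹ := by
      rw [Finset.sum_image]
      · refine Finset.sum_congr rfl ?_
        intro p hpq
        obtain ⟨e1, e2, e3, e4⟩ := hpm p hpq
        rw [one_div, Nat.cast_sub e1.one_le, Nat.cast_one]
      · intro p hpq p' hpq' h
        have e1 := (hpm p hpq).1.one_le
        have e2 := (hpm p' hpq').1.one_le
        have h' : p - 1 = p' - 1 := h
        omega
    rw [h4]
    have h5 := sum_Ioo_inv_sq_le (α := ℝ) (y - 1) (q + 1)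
    rw [Nat.cast_sub (by omega : 1 ≤ y), Nat.cast_one, sub_add_cancel] at h5
    refine le_trans ?_ h5
    refine Finset.sum_le_sum_of_subset_of_nonneg ?_ (fun n _ _ => by positivity)
    intro n hn
    obtain ⟨p, hpq, rfl⟩ := Finset.mem_image.1 hn
    obtain ⟨e1, e2, e3, e4⟩ := hpm p hpq
    have e5 := Nat.le_of_dvd (Nat.pos_of_ne_zero hq) e2
    rw [Finset.mem_Ioo]
    omega
  linarith

/-- sums over pairs of units by classes -/
lemma TVL_sum (q a b : ℕ) [NeZero q] (G : ZMod q → ℝ) :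
    ∑ p : (ZMod q)ˣ × (ZMod q)ˣ, G ((a : ZMod q) * p.1 - b * p.2) =
      ∑ κ : ZMod q, (Nu q a b κ : ℝ) * G κ := by
  classical
  rw [← Finset.sum_fiberwise (Finset.univ : Finset ((ZMod q)ˣ × (ZMod q)ˣ))
    (fun p => (a : ZMod q) * p.1 - b * p.2) (fun p => G ((a : ZMod q) * p.1 - b * p.2))]
  refine Finset.sum_congr rfl ?_
  intro κ _
  have h1 : ∑ p ∈ (Finset.univ : Finset ((ZMod q)ˣ × (ZMod q)ˣ)) with
      (a : ZMod q) * p.1 - b * p.2 = κ, G ((a : ZMod q) * p.1 - b * p.2) =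
      ∑ p ∈ (Finset.univ : Finset ((ZMod q)ˣ × (ZMod q)ˣ)) with
      (a : ZMod q) * p.1 - b * p.2 = κ, G κ := by
    refine Finset.sum_congr rfl ?_
    intro p hp
    rw [(Finset.mem_filter.1 hp).2]
  rw [h1, Finset.sum_const, nsmul_eq_mul]
  rfl

theorem TVL (hCRL : CRL_stmt) : TVL_stmt := by
  classical
  intro q a b y _ G C ha hb hab hy hp hG
  have hq0 : q ≠ 0 := NeZero.ne q
  have hq : (0 : ℝ) < q := by
    have : 0 < q := Nat.pos_of_ne_zero hq0
    exact_mod_cast this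
  have hφ0 : 0 < Nat.totient q := Nat.totient_pos.2 (Nat.pos_of_ne_zero hq0)
  have hφ : (0 : ℝ) < (Nat.totient q : ℝ) := by exact_mod_cast hφ0
  have hlow := TVL_low q a b y hq0 hy hp
  obtain ⟨s, hs⟩ : ∃ s : ℝ, s = (1 - 2 / (y : ℝ)) / q := ⟨_, rfl⟩
  have hσ : ∀ κ : ZMod q, s ≤ (Nu q a b κ : ℝ) / (Nat.totient q : ℝ) ^ 2 := by
    intro κ
    have h1 := hCRL q a b ((κ.val : ℕ) : ℤ) ha hb hab
      (fun p hpp hpq hpab => absurd hpab (hp p hpp hpq).2)
      (fun h2 _ => by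
        have := (hp 2 Nat.prime_two h2).1
        omega)
    have h2 : (((κ.val : ℕ) : ℤ) : ZMod q) = κ := by
      rw [Int.cast_natCast, ZMod.natCast_zmod_val]
    rw [h2] at h1
    rw [hs, div_le_div_iff₀ hq (by positivity)]
    have h3 : (1 - 2 / (y : ℝ)) * (Nat.totient q : ℝ) ^ 2 ≤ (Nat.totient q : ℝ) ^ 2 *
        ∏ p ∈ q.primeFactors,
        (if p ∣ 2 * a * b then (p : ℝ) / (p - 1) else 1 - 1 / ((p : ℝ) - 1) ^ 2) := by
      rw [mul_comm]
      exact mul_le_mul_of_nonneg_left hlow (by positivity)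
    linarith
  have hcardU : (Fintype.card ((ZMod q)ˣ × (ZMod q)ˣ) : ℝ) = (Nat.totient q : ℝ) ^ 2 := by
    rw [Fintype.card_prod, ZMod.card_units_eq_totient, Nat.cast_mul, sq]
  have hcardZ : (Fintype.card (ZMod q) : ℝ) = q := by
    rw [ZMod.card]
  have h1 : (mean fun p : (ZMod q)ˣ × (ZMod q)ˣ => G ((a : ZMod q) * p.1 - b * p.2)) =
      ∑ κ : ZMod q, (Nu q a b κ : ℝ) / (Nat.totient q : ℝ) ^ 2 * G κ := by
    unfold mean
    rw [TVL_sum, hcardU, Finset.sum_div]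
    refine Finset.sum_congr rfl ?_
    intro κ _
    ring
  have hone : ∑ κ : ZMod q, (Nu q a b κ : ℝ) / (Nat.totient q : ℝ) ^ 2 = 1 := by
    have h2 := TVL_sum q a b (fun _ => (1 : ℝ))
    rw [Finset.sum_const, Finset.card_univ, nsmul_eq_mul, mul_one, hcardU] at h2
    simp only [mul_one] at h2
    rw [← Finset.sum_div, ← h2, div_self (by positivity)]
  rw [h1]
  have hmean : mean G = (∑ κ, G κ) / q := by
    unfold mean
    rw [hcardZ]
  have hsum0 : 0 ≤ ∑ κ, G κ := Finset.sum_nonneg (fun κ _ => (hG κ).1)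
  have hsum : ∑ κ : ZMod q, (Nu q a b κ : ℝ) / (Nat.totient q : ℝ) ^ 2 * G κ =
      ∑ κ : ZMod q, ((Nu q a b κ : ℝ) / (Nat.totient q : ℝ) ^ 2 - s) * G κ + s * ∑ κ, G κ := by
    rw [Finset.mul_sum, ← Finset.sum_add_distrib]
    refine Finset.sum_congr rfl ?_
    intro κ _
    ring
  have hle : ∑ κ : ZMod q, ((Nu q a b κ : ℝ) / (Nat.totient q : ℝ) ^ 2 - s) * G κ ≤
      ∑ κ : ZMod q, ((Nu q a b κ : ℝ) / (Nat.totient q : ℝ) ^ 2 - s) * C := by
    refine Finset.sum_le_sum ?_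
    intro κ _
    exact mul_le_mul_of_nonneg_left (hG κ).2 (by linarith [hσ κ])
  have heq : ∑ κ : ZMod q, ((Nu q a b κ : ℝ) / (Nat.totient q : ℝ) ^ 2 - s) * C =
      C * (2 / y) := by
    rw [← Finset.sum_mul, Finset.sum_sub_distrib, hone, Finset.sum_const, Finset.card_univ,
      nsmul_eq_mul, hcardZ, hs]
    field_simp
    ring
  have hlast : s * ∑ κ, G κ ≤ mean G := by
    rw [hmean, hs, div_mul_eq_mul_div]
    refine div_le_div_of_nonneg_right ?_ hq.le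
    have h2 : (0 : ℝ) ≤ 2 / (y : ℝ) := by positivity
    nlinarith
  rw [hsum]
  linarith

end Pool.Agent.DP
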