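import Pool.Agent.helper63.DP.Build

/-!
# Checking the correctness of explicit levels
-/

namespace Pool.Agent.helper63.DP

/-- The numbers of common covers of `x` and `v < x` agree. -/
noncomputable def okp (f J : RT (List ℕ)) (x : ℕ) (jx fx : List ℕ) (v : ℕ) : Bool :=
  Bool.rec (motive := fun _ => Bool) true
    (J.getK v (fun jv => f.getK v (fun fv => Nat.beq (cm jx jv) (cm fx fv))))
    (Nat.ble (Nat.succ v) x)

/-- Check of one step, with the lists `J` and `Jp` of upper covers (of this level and of the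
previous one) as additional data. -/
noncomputable def stepOK (N N2 : ℕ) (f g J Jp : RT (List ℕ)) : Bool :=
  allN (fun z => g.getK z (fun l => (asc l && Nat.ble 1 (len l)) &&
    lall (fun x => Nat.ble (Nat.succ x) N && J.getK x (fun jx => elem z jx)) l)) N2 &&
  (allN (fun x => J.getK x (fun jx => f.getK x (fun fx =>
    (asc jx && Nat.beq (len jx) (len fx + 1)) &&
    lall (fun z => Nat.ble (Nat.succ z) N2 && g.getK z (fun l => elem x l)) jx))) N &&
  allN (fun x => J.getK x (fun jx => f.getK x (fun fx =>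
    lall (fun a => Jp.getK a (fun ua => lall (okp f J x jx fx) ua)) fx &&
    lall (fun z => g.getK z (fun l => lall (okp f J x jx fx) l)) jx))) N)

theorem okp_spec {f J : RT (List ℕ)} {x v : ℕ} (hv : v < x)
    (h : okp f J x (J.get x) (f.get x) v = true) :
    cm (J.get x) (J.get v) = cm (f.get x) (f.get v) := by
  unfold okp at h
  have h1 : Nat.ble (Nat.succ v) x = true := Nat.ble_eq_true_of_le hv
  rw [h1] at h
  have h2 : J.getK v (fun jv => f.getK v (fun fv =>
    Nat.beq (cm (J.get x) jv) (cm (f.get x) fv))) = true := h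
  rw [RT.getK_eq, RT.getK_eq] at h2
  exact Nat.eq_of_beq_eq_true h2

theorem cm_pos {l m : List ℕ} (h : cm l m ≠ 0) : ∃ a ∈ l, a ∈ m := by
  rw [cm_eq] at h
  have h1 : l.filter (fun a => a ∈ m) ≠ [] := by
    intro h2; rw [h2] at h; exact h rfl
  obtain ⟨a, ha⟩ := List.exists_mem_of_ne_nil _ h1
  rw [List.mem_filter, decide_eq_true_iff] at ha
  exact ⟨a, ha.1, ha.2⟩

theorem stepOK_spec {N N2 : ℕ} {f g J Jp : RT (List ℕ)} (h : stepOK N N2 f g J Jp = true)
    (hJp : ∀ v < N, ∀ a ∈ f.get v, v ∈ Jp.get a) :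
    LocOK N N2 f.get g.get ∧ ∀ z < N2, ∀ x ∈ g.get z, z ∈ J.get x := by
  unfold stepOK at h
  rw [Bool.and_eq_true, Bool.and_eq_true, allN_iff, allN_iff, allN_iff] at h
  obtain ⟨h1, h2, h3⟩ := h
  have h1' : ∀ z < N2, (asc (g.get z) = true ∧ 1 ≤ (g.get z).length) ∧
      ∀ x ∈ g.get z, x < N ∧ z ∈ J.get x := by
    intro z hz
    have h4 := h1 z hz
    rw [RT.getK_eq, Bool.and_eq_true, Bool.and_eq_true, lall_iff] at h4
    refine ⟨⟨h4.1.1, ?_⟩, ?_⟩
    · have := Nat.le_of_ble_eq_true h4.1.2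
      rwa [len_eq] at this
    · intro x hx
      have h5 := h4.2 x hx
      rw [Bool.and_eq_true, RT.getK_eq, elem_iff] at h5
      exact ⟨Nat.le_of_ble_eq_true h5.1, h5.2⟩
  have h2' : ∀ x < N, (asc (J.get x) = true ∧ (J.get x).length = (f.get x).length + 1) ∧
      ∀ z ∈ J.get x, z < N2 ∧ x ∈ g.get z := by
    intro x hx
    have h4 := h2 x hx
    rw [RT.getK_eq, RT.getK_eq, Bool.and_eq_true, Bool.and_eq_true, lall_iff] at h4
    refine ⟨⟨h4.1.1, ?_⟩, ?_⟩
    · have := Nat.eq_of_beq_eq_true h4.1.2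
      rwa [len_eq, len_eq] at this
    · intro z hz
      have h5 := h4.2 z hz
      rw [Bool.and_eq_true, RT.getK_eq, elem_iff] at h5
      exact ⟨Nat.le_of_ble_eq_true h5.1, h5.2⟩
  have hnd : ∀ x < N, (J.get x).Nodup := fun x hx =>
    (asc_iff _ (h2' x hx).1.1).imp (fun h => ne_of_lt h)
  have hJ : ∀ x < N, ∀ z, z ∈ J.get x ↔ z < N2 ∧ x ∈ g.get z := by
    intro x hx z
    exact ⟨fun h => (h2' x hx).2 z h, fun h => ((h1' z h.1).2 x h.2).2⟩
  refine ⟨⟨?_, ?_, ?_⟩, fun z hz x hx => ((h1' z hz).2 x hx).2⟩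
  · intro z hz
    refine ⟨(asc_iff _ (h1' z hz).1.1).imp (fun h => ne_of_lt h),
      fun x hx => ((h1' z hz).2 x hx).1, ?_⟩
    intro he
    have := (h1' z hz).1.2
    rw [he] at this
    simp at this
  · intro x hx
    have e : (Finset.range N2).filter (fun z => x ∈ g.get z) = (J.get x).toFinset := by
      ext z
      rw [Finset.mem_filter, Finset.mem_range, List.mem_toFinset, hJ x hx]
    rw [e, List.toFinset_card_of_nodup (hnd x hx), (h2' x hx).1.2]
  · intro x hx v hv
    have hvN := lt_trans hv hx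
    have e : (Finset.range N2).filter (fun z => x ∈ g.get z ∧ v ∈ g.get z) =
        ((J.get x).filter (fun z => z ∈ J.get v)).toFinset := by
      ext z
      rw [Finset.mem_filter, Finset.mem_range, List.mem_toFinset, List.mem_filter,
        decide_eq_true_iff, hJ x hx, hJ v hvN]
      exact ⟨fun h => ⟨⟨h.1, h.2.1⟩, ⟨h.1, h.2.2⟩⟩, fun h => ⟨h.1.1, h.1.2, h.2.2⟩⟩
    rw [e, List.toFinset_card_of_nodup ((hnd x hx).filter _), ← cm_eq]
    have h4 := h3 x hx
    rw [RT.getK_eq, RT.getK_eq, Bool.and_eq_true, lall_iff, lall_iff] at h4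
    by_cases hf : cm (f.get x) (f.get v) = 0
    · by_cases hj : cm (J.get x) (J.get v) = 0
      · rw [hf, hj]
      · obtain ⟨z, hz1, hz2⟩ := cm_pos hj
        have h5 := h4.2 z hz1
        rw [RT.getK_eq, lall_iff] at h5
        exact okp_spec hv (h5 v ((hJ v hvN z).1 hz2).2)
    · obtain ⟨a, ha1, ha2⟩ := cm_pos hf
      have h5 := h4.1 a ha1
      rw [RT.getK_eq, lall_iff] at h5
      exact okp_spec hv (h5 v (hJp v hvN a ha2))

end Pool.Agent.helper63.DP
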