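import Pool.Agent.helper63.DP.Tab
import Pool.Agent.helper63.DP.Lev

/-!
# Tables for the two posets (generated)
-/

set_option maxRecDepth 100000
set_option linter.all false

namespace Pool.Agent.helper63.DP

open RT Tr

/-- Level zero. -/
def l0 : RT (List ℕ) := .leaf []

/-- Level data (lower covers). -/
def y17 : RT (List ℕ) :=
(.node 148 (.node 74 (.node 37 (.node 18 (.node 9 (.node 4 (.node 2 (.node 1 (.leaf [0, 1, 2,
  3]) (.leaf [0, 5, 8, 9])) (.node 3 (.leaf [0, 14, 16, 17]) (.leaf [0, 22, 24, 25]))) (.node 6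
  (.node 5 (.leaf [0, 34, 41]) (.leaf [1, 6, 7, 8])) (.node 7 (.leaf [1, 12, 13, 14]) (.node 8
  (.leaf [1, 35, 39, 41]) (.leaf [1, 81, 83, 84]))))) (.node 13 (.node 11 (.node 10 (.leaf [2,
  13, 17]) (.leaf [2, 23, 24])) (.node 12 (.leaf [2, 82, 83]) (.leaf [3, 4, 5, 6]))) (.node 15
  (.node 14 (.leaf [3, 19, 22, 23]) (.leaf [3, 31, 34, 35])) (.node 16 (.leaf [3, 75, 81, 82])
  (.node 17 (.leaf [4, 18, 19, 20]) (.leaf [4, 28, 30, 31, 32])))))) (.node 27 (.node 22 (.node
  20 (.node 19 (.leaf [4, 71, 75, 76]) (.leaf [4, 91, 92])) (.node 21 (.leaf [5, 20, 21, 22])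
  (.leaf [5, 32, 34, 37]))) (.node 24 (.node 23 (.leaf [5, 89, 91, 95]) (.leaf [6, 30, 35, 36,
  37])) (.node 25 (.leaf [6, 76, 80, 81]) (.node 26 (.leaf [6, 92, 94, 95]) (.leaf [7, 10, 11,
  12]))))) (.node 32 (.node 29 (.node 28 (.leaf [7, 36, 38, 39, 40]) (.leaf [7, 80, 84])) (.node
  30 (.leaf [7, 94, 96, 97]) (.node 31 (.leaf [8, 11, 14, 15]) (.leaf [8, 37, 40, 41])))) (.node
  34 (.node 33 (.leaf [8, 88, 95, 96]) (.leaf [9, 15, 16])) (.node 35 (.leaf [9, 21, 25]) (.node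
  36 (.leaf [9, 88, 89]) (.leaf [10, 38, 43, 44]))))))) (.node 55 (.node 46 (.node 41 (.node 39
  (.node 38 (.leaf [10, 50, 54]) (.leaf [10, 97, 98])) (.node 40 (.leaf [11, 40, 42, 44]) (.leaf
  [11, 51, 53, 54]))) (.node 43 (.node 42 (.leaf [11, 87, 96, 98]) (.leaf [12, 39, 42, 43]))
  (.node 44 (.leaf [12, 48, 50, 51]) (.node 45 (.leaf [12, 84, 85]) (.leaf [13, 47, 48])))))
  (.node 50 (.node 48 (.node 47 (.leaf [13, 83, 85]) (.leaf [14, 41, 42])) (.node 49 (.leaf [14,
  47, 51, 52]) (.leaf [15, 52, 53]))) (.node 52 (.node 51 (.leaf [15, 87, 88]) (.leaf [16, 25,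
  26])) (.node 53 (.leaf [16, 46, 52]) (.node 54 (.leaf [17, 24, 26]) (.leaf [17, 46, 47]))))))
  (.node 64 (.node 59 (.node 57 (.node 56 (.leaf [18, 27, 28, 29]) (.leaf [18, 61, 65])) (.node
  58 (.leaf [18, 71, 72]) (.leaf [19, 27, 31, 33]))) (.node 61 (.node 60 (.leaf [19, 62, 64,
  65]) (.leaf [19, 72, 74, 75])) (.node 62 (.leaf [20, 29, 32, 33]) (.node 63 (.leaf [20, 59,
  61, 62]) (.leaf [20, 90, 91]))))) (.node 69 (.node 66 (.node 65 (.leaf [21, 58, 59]) (.leaf
  [21, 89, 90])) (.node 67 (.leaf [22, 33, 34]) (.node 68 (.leaf [22, 58, 62, 63]) (.leaf [23,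
  63, 64])))) (.node 71 (.node 70 (.leaf [23, 74, 82]) (.leaf [24, 57, 63])) (.node 72 (.leaf
  [25, 57, 58]) (.node 73 (.leaf [26, 45, 46]) (.leaf [26, 56, 57])))))))) (.node 111 (.node 92
  (.node 83 (.node 78 (.node 76 (.node 75 (.leaf [27, 60, 65, 66]) (.leaf [27, 68, 70, 72]))
  (.node 77 (.leaf [27, 150, 152]) (.leaf [28, 69, 70, 71]))) (.node 80 (.node 79 (.leaf [28,
  149, 150]) (.leaf [28, 160, 161])) (.node 81 (.leaf [29, 60, 61]) (.node 82 (.leaf [29, 160])
  (.leaf [30, 69, 76, 77, 78]))))) (.node 87 (.node 85 (.node 84 (.leaf [30, 92, 103, 105])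
  (.leaf [30, 143, 148, 149])) (.node 86 (.leaf [30, 159, 161, 163]) (.leaf [31, 70, 75, 78])))
  (.node 89 (.node 88 (.leaf [31, 148, 150]) (.leaf [32, 91, 105])) (.node 90 (.leaf [32, 159,
  160]) (.node 91 (.leaf [33, 60, 62]) (.leaf [35, 78, 79, 81])))))) (.node 101 (.node 96 (.node
  94 (.node 93 (.leaf [35, 144, 148]) (.leaf [36, 77, 79, 80])) (.node 95 (.leaf [36, 94, 102,
  103, 104]) (.leaf [36, 141, 143, 144]))) (.node 98 (.node 97 (.leaf [36, 158, 163, 165])
  (.leaf [37, 95, 104, 105])) (.node 99 (.leaf [37, 158, 159]) (.node 100 (.leaf [38, 97, 101,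
  102]) (.leaf [38, 140, 141]))))) (.node 106 (.node 103 (.node 102 (.leaf [38, 155, 165])
  (.leaf [39, 79, 84])) (.node 104 (.leaf [39, 140, 144]) (.node 105 (.leaf [40, 96, 101, 104])
  (.leaf [40, 155, 158])))) (.node 108 (.node 107 (.leaf [42, 49, 51]) (.leaf [43, 49, 50]))
  (.node 109 (.leaf [43, 140]) (.node 110 (.leaf [44, 49, 54, 55]) (.leaf [44, 98, 100,
  101]))))))) (.node 129 (.node 120 (.node 115 (.node 113 (.node 112 (.leaf [44, 154, 155])
  (.leaf [45, 56])) (.node 114 (.leaf [45, 115]) (.leaf [46, 114, 115]))) (.node 117 (.node 116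
  (.leaf [47, 113, 114]) (.leaf [48, 85])) (.node 118 (.leaf [48, 109, 113]) (.node 119 (.leaf
  [49, 108, 110]) (.leaf [50, 109, 110]))))) (.node 124 (.node 122 (.node 121 (.leaf [51, 110,
  112, 113]) (.leaf [52, 112, 114])) (.node 123 (.leaf [53, 86, 87]) (.leaf [53, 111, 112])))
  (.node 126 (.node 125 (.leaf [54, 86, 98, 99]) (.leaf [54, 107, 110, 111])) (.node 127 (.leaf
  [55, 99, 100]) (.node 128 (.leaf [55, 107, 108]) (.leaf [55, 154])))))) (.node 138 (.node 133
  (.node 131 (.node 130 (.leaf [56, 125]) (.leaf [57, 124, 125])) (.node 132 (.leaf [58, 123,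
  124]) (.leaf [59, 90]))) (.node 135 (.node 134 (.leaf [59, 119, 123]) (.leaf [60, 118, 120]))
  (.node 136 (.leaf [61, 119, 120]) (.node 137 (.leaf [62, 120, 122, 123]) (.leaf [63, 122,
  124]))))) (.node 143 (.node 140 (.node 139 (.leaf [64, 73, 74]) (.leaf [64, 121, 122])) (.node
  141 (.leaf [65, 67, 72, 73]) (.node 142 (.leaf [65, 117, 120, 121]) (.leaf [66, 67, 68]))))
  (.node 145 (.node 144 (.leaf [66, 117, 118]) (.leaf [66, 152])) (.node 146 (.leaf [67, 116,
  117]) (.node 147 (.leaf [67, 177, 178]) (.leaf [68, 151, 152]))))))))) (.node 222 (.node 185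
  (.node 166 (.node 157 (.node 152 (.node 150 (.node 149 (.leaf [68, 173, 177]) (.leaf [69, 146,
  147, 149])) (.node 151 (.leaf [69, 161, 162]) (.leaf [69, 170, 171]))) (.node 154 (.node 153
  (.leaf [70, 147, 150, 151]) (.leaf [70, 171, 173, 174])) (.node 155 (.leaf [71, 170, 174])
  (.node 156 (.leaf [72, 174, 176, 177]) (.leaf [73, 116, 121]))))) (.node 161 (.node 159 (.node
  158 (.leaf [73, 176, 178]) (.leaf [74, 175, 176])) (.node 160 (.leaf [75, 169, 174, 175])
  (.leaf [76, 92, 93]))) (.node 163 (.node 162 (.leaf [76, 169, 170]) (.leaf [77, 93, 103]))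
  (.node 164 (.leaf [77, 143, 145, 146]) (.node 165 (.leaf [77, 162, 163]) (.leaf [78, 145, 147,
  148])))))) (.node 175 (.node 170 (.node 168 (.node 167 (.leaf [78, 169, 171]) (.leaf [79, 144,
  145])) (.node 169 (.leaf [80, 93, 94]) (.leaf [81, 168, 169]))) (.node 172 (.node 171 (.leaf
  [82, 168, 175]) (.leaf [83, 168])) (.node 173 (.leaf [86, 106, 111]) (.node 174 (.leaf [86,
  189, 190]) (.leaf [87, 185, 189]))))) (.node 180 (.node 177 (.node 176 (.leaf [88, 184, 185])
  (.leaf [89, 184])) (.node 178 (.leaf [94, 182, 183]) (.node 179 (.leaf [95, 183, 184]) (.leaf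
  [96, 183, 185, 186])))) (.node 182 (.node 181 (.leaf [97, 182, 186]) (.leaf [98, 186, 188,
  189])) (.node 183 (.leaf [99, 106, 107]) (.node 184 (.leaf [99, 188, 190]) (.leaf [100, 153,
  154]))))))) (.node 203 (.node 194 (.node 189 (.node 187 (.node 186 (.leaf [100, 187, 188])
  (.leaf [101, 153, 155, 156])) (.node 188 (.leaf [101, 181, 186, 187]) (.leaf [102, 141,
  142]))) (.node 191 (.node 190 (.leaf [102, 156, 164, 165]) (.leaf [102, 181, 182])) (.node 192
  (.leaf [103, 142, 143]) (.node 193 (.leaf [103, 157, 163, 164]) (.leaf [104, 156, 157,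
  158]))))) (.node 198 (.node 196 (.node 195 (.leaf [104, 181, 183]) (.leaf [105, 157, 159]))
  (.node 197 (.leaf [106, 131, 132]) (.leaf [106, 190, 191]))) (.node 200 (.node 199 (.leaf
  [107, 129, 131]) (.leaf [108, 129])) (.node 201 (.leaf [109, 128]) (.node 202 (.leaf [110,
  128, 129, 130]) (.leaf [111, 130, 131])))))) (.node 212 (.node 207 (.node 205 (.node 204
  (.leaf [112, 127, 130]) (.leaf [113, 127, 128])) (.node 206 (.leaf [114, 126, 127]) (.leaf
  [115, 126]))) (.node 209 (.node 208 (.leaf [116, 138, 139]) (.leaf [116, 178, 179])) (.node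
  210 (.leaf [117, 136, 138]) (.node 211 (.leaf [118, 136]) (.leaf [119, 135]))))) (.node 217
  (.node 214 (.node 213 (.leaf [120, 135, 136, 137]) (.leaf [121, 137, 138])) (.node 215 (.leaf
  [122, 134, 137]) (.node 216 (.leaf [123, 134, 135]) (.leaf [124, 133, 134])))) (.node 219
  (.node 218 (.leaf [125, 133]) (.leaf [126, 196])) (.node 220 (.leaf [127, 195, 196]) (.node
  221 (.leaf [128, 194, 195]) (.leaf [129, 193, 194])))))))) (.node 259 (.node 240 (.node 231
  (.node 226 (.node 224 (.node 223 (.leaf [130, 193, 195]) (.leaf [131, 192, 193])) (.node 225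
  (.leaf [132, 191]) (.leaf [132, 192]))) (.node 228 (.node 227 (.leaf [133, 201]) (.leaf [134,
  200, 201])) (.node 229 (.leaf [135, 199, 200]) (.node 230 (.leaf [136, 198, 199]) (.leaf [137,
  198, 200]))))) (.node 235 (.node 233 (.node 232 (.leaf [138, 197, 198]) (.leaf [139, 179]))
  (.node 234 (.leaf [139, 197]) (.leaf [141, 165, 166]))) (.node 237 (.node 236 (.leaf [142,
  164, 166]) (.leaf [143, 163, 166, 167])) (.node 238 (.leaf [145, 221]) (.node 239 (.leaf [146,
  162, 167]) (.leaf [146, 221])))))) (.node 249 (.node 244 (.node 242 (.node 241 (.leaf [147,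
  171, 172]) (.leaf [147, 220, 221])) (.node 243 (.leaf [149, 161, 167]) (.leaf [151, 172,
  173]))) (.node 246 (.node 245 (.leaf [151, 220]) (.leaf [153, 180, 187])) (.node 247 (.leaf
  [153, 223]) (.node 248 (.leaf [156, 180, 181]) (.leaf [156, 222, 223]))))) (.node 254 (.node
  251 (.node 250 (.leaf [157, 222]) (.leaf [164, 222])) (.node 252 (.leaf [166, 226]) (.node 253
  (.leaf [167, 226]) (.leaf [172, 220])))) (.node 256 (.node 255 (.leaf [173, 211]) (.leaf [174,
  210, 211])) (.node 257 (.leaf [175, 210]) (.node 258 (.leaf [176, 209, 210]) (.leaf [177, 209,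
  211]))))))) (.node 278 (.node 268 (.node 263 (.node 261 (.node 260 (.leaf [178, 208, 209])
  (.leaf [179, 208])) (.node 262 (.leaf [180, 223]) (.leaf [185, 215]))) (.node 265 (.node 264
  (.leaf [186, 214, 215]) (.leaf [187, 214])) (.node 266 (.leaf [188, 213, 214]) (.node 267
  (.leaf [189, 213, 215]) (.leaf [190, 212, 213]))))) (.node 273 (.node 270 (.node 269 (.leaf
  [191, 212]) (.leaf [192, 204])) (.node 271 (.leaf [193, 203, 204]) (.node 272 (.leaf [194,
  203]) (.leaf [195, 202, 203])))) (.node 275 (.node 274 (.leaf [196, 202]) (.leaf [197, 207]))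
  (.node 276 (.leaf [198, 206, 207]) (.node 277 (.leaf [199, 206]) (.leaf [200, 205, 206]))))))
  (.node 287 (.node 282 (.node 280 (.node 279 (.leaf [201, 205]) (.leaf [202, 217])) (.node 281
  (.leaf [203, 216, 217]) (.leaf [204, 216]))) (.node 284 (.node 283 (.leaf [205, 219]) (.leaf
  [206, 218, 219])) (.node 285 (.leaf [207, 218]) (.node 286 (.leaf [208, 227]) (.leaf [209,
  227]))))) (.node 292 (.node 289 (.node 288 (.leaf [212, 228]) (.leaf [213, 228])) (.node 290
  (.leaf [216, 224]) (.node 291 (.leaf [217, 224]) (.leaf [218, 225])))) (.node 294 (.node 293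
  (.leaf [219, 225]) (.leaf [224, 229])) (.node 295 (.leaf [225, 230]) (.node 296 (.leaf [229])
  (.leaf [230]))))))))))

/-- Level data (lower covers). -/
def e17 : RT (List ℕ) :=
(.node 149 (.node 74 (.node 37 (.node 18 (.node 9 (.node 4 (.node 2 (.node 1 (.leaf [0, 1, 2,
  3]) (.leaf [0, 5, 8, 9])) (.node 3 (.leaf [0, 14, 16, 17]) (.leaf [0, 22, 24, 25]))) (.node 6
  (.node 5 (.leaf [0, 34, 41]) (.leaf [1, 6, 7, 8])) (.node 7 (.leaf [1, 12, 13, 14]) (.node 8
  (.leaf [1, 35, 39, 41]) (.leaf [1, 81, 83, 84]))))) (.node 13 (.node 11 (.node 10 (.leaf [2,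
  13, 17]) (.leaf [2, 23, 24])) (.node 12 (.leaf [2, 82, 83]) (.leaf [3, 4, 5, 6]))) (.node 15
  (.node 14 (.leaf [3, 19, 22, 23]) (.leaf [3, 31, 34, 35])) (.node 16 (.leaf [3, 75, 81, 82])
  (.node 17 (.leaf [4, 18, 19, 20]) (.leaf [4, 28, 30, 31, 32])))))) (.node 27 (.node 22 (.node
  20 (.node 19 (.leaf [4, 71, 75, 76]) (.leaf [4, 91, 92])) (.node 21 (.leaf [5, 20, 21, 22])
  (.leaf [5, 32, 34, 37]))) (.node 24 (.node 23 (.leaf [5, 89, 91, 95]) (.leaf [6, 30, 35, 36,
  37])) (.node 25 (.leaf [6, 76, 80, 81]) (.node 26 (.leaf [6, 92, 94, 95]) (.leaf [7, 10, 11,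
  12]))))) (.node 32 (.node 29 (.node 28 (.leaf [7, 36, 38, 39, 40]) (.leaf [7, 80, 84])) (.node
  30 (.leaf [7, 94, 96, 97]) (.node 31 (.leaf [8, 11, 14, 15]) (.leaf [8, 37, 40, 41])))) (.node
  34 (.node 33 (.leaf [8, 88, 95, 96]) (.leaf [9, 15, 16])) (.node 35 (.leaf [9, 21, 25]) (.node
  36 (.leaf [9, 88, 89]) (.leaf [10, 38, 43, 44]))))))) (.node 55 (.node 46 (.node 41 (.node 39
  (.node 38 (.leaf [10, 50, 54]) (.leaf [10, 97, 98])) (.node 40 (.leaf [11, 40, 42, 44]) (.leaf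
  [11, 51, 53, 54]))) (.node 43 (.node 42 (.leaf [11, 87, 96, 98]) (.leaf [12, 39, 42, 43]))
  (.node 44 (.leaf [12, 48, 50, 51]) (.node 45 (.leaf [12, 84, 85]) (.leaf [13, 47, 48])))))
  (.node 50 (.node 48 (.node 47 (.leaf [13, 83, 85]) (.leaf [14, 41, 42])) (.node 49 (.leaf [14,
  47, 51, 52]) (.leaf [15, 52, 53]))) (.node 52 (.node 51 (.leaf [15, 87, 88]) (.leaf [16, 25,
  26])) (.node 53 (.leaf [16, 46, 52]) (.node 54 (.leaf [17, 24, 26]) (.leaf [17, 46, 47]))))))
  (.node 64 (.node 59 (.node 57 (.node 56 (.leaf [18, 27, 28, 29]) (.leaf [18, 61, 65])) (.node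
  58 (.leaf [18, 71, 72]) (.leaf [19, 27, 31, 33]))) (.node 61 (.node 60 (.leaf [19, 62, 64,
  65]) (.leaf [19, 72, 74, 75])) (.node 62 (.leaf [20, 29, 32, 33]) (.node 63 (.leaf [20, 59,
  61, 62]) (.leaf [20, 90, 91]))))) (.node 69 (.node 66 (.node 65 (.leaf [21, 58, 59]) (.leaf
  [21, 89, 90])) (.node 67 (.leaf [22, 33, 34]) (.node 68 (.leaf [22, 58, 62, 63]) (.leaf [23,
  63, 64])))) (.node 71 (.node 70 (.leaf [23, 74, 82]) (.leaf [24, 57, 63])) (.node 72 (.leaf
  [25, 57, 58]) (.node 73 (.leaf [26, 45, 46]) (.leaf [26, 56, 57])))))))) (.node 111 (.node 92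
  (.node 83 (.node 78 (.node 76 (.node 75 (.leaf [27, 60, 65, 66]) (.leaf [27, 68, 70, 72]))
  (.node 77 (.leaf [27, 150, 152]) (.leaf [28, 69, 70, 71]))) (.node 80 (.node 79 (.leaf [28,
  149, 150]) (.leaf [28, 160, 161])) (.node 81 (.leaf [29, 60, 61]) (.node 82 (.leaf [29, 160])
  (.leaf [30, 69, 76, 77, 78]))))) (.node 87 (.node 85 (.node 84 (.leaf [30, 92, 103, 105])
  (.leaf [30, 143, 148, 149])) (.node 86 (.leaf [30, 159, 161, 163]) (.leaf [31, 70, 75, 78])))
  (.node 89 (.node 88 (.leaf [31, 148, 150]) (.leaf [32, 91, 105])) (.node 90 (.leaf [32, 159,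
  160]) (.node 91 (.leaf [33, 60, 62]) (.leaf [35, 78, 79, 81])))))) (.node 101 (.node 96 (.node
  94 (.node 93 (.leaf [35, 144, 148]) (.leaf [36, 77, 79, 80])) (.node 95 (.leaf [36, 94, 102,
  103, 104]) (.leaf [36, 141, 143, 144]))) (.node 98 (.node 97 (.leaf [36, 158, 163, 165])
  (.leaf [37, 95, 104, 105])) (.node 99 (.leaf [37, 158, 159]) (.node 100 (.leaf [38, 97, 101,
  102]) (.leaf [38, 140, 141]))))) (.node 106 (.node 103 (.node 102 (.leaf [38, 155, 165])
  (.leaf [39, 79, 84])) (.node 104 (.leaf [39, 140, 144]) (.node 105 (.leaf [40, 96, 101, 104])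
  (.leaf [40, 155, 158])))) (.node 108 (.node 107 (.leaf [42, 49, 51]) (.leaf [43, 49, 50]))
  (.node 109 (.leaf [43, 140]) (.node 110 (.leaf [44, 49, 54, 55]) (.leaf [44, 98, 100,
  101]))))))) (.node 130 (.node 120 (.node 115 (.node 113 (.node 112 (.leaf [44, 154, 155])
  (.leaf [45, 56])) (.node 114 (.leaf [45, 115]) (.leaf [46, 114, 115]))) (.node 117 (.node 116
  (.leaf [47, 113, 114]) (.leaf [48, 85])) (.node 118 (.leaf [48, 109, 113]) (.node 119 (.leaf
  [49, 108, 110]) (.leaf [50, 109, 110]))))) (.node 125 (.node 122 (.node 121 (.leaf [51, 110,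
  112, 113]) (.leaf [52, 112, 114])) (.node 123 (.leaf [53, 86, 87]) (.node 124 (.leaf [53, 111,
  112]) (.leaf [54, 86, 98, 99])))) (.node 127 (.node 126 (.leaf [54, 107, 110, 111]) (.leaf
  [55, 99, 107])) (.node 128 (.leaf [55, 100, 154]) (.node 129 (.leaf [55, 108]) (.leaf [56,
  125])))))) (.node 139 (.node 134 (.node 132 (.node 131 (.leaf [57, 124, 125]) (.leaf [58, 123,
  124])) (.node 133 (.leaf [59, 90]) (.leaf [59, 119, 123]))) (.node 136 (.node 135 (.leaf [60,
  118, 120]) (.leaf [61, 119, 120])) (.node 137 (.leaf [62, 120, 122, 123]) (.node 138 (.leaf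
  [63, 122, 124]) (.leaf [64, 73, 74]))))) (.node 144 (.node 141 (.node 140 (.leaf [64, 121,
  122]) (.leaf [65, 67, 72, 73])) (.node 142 (.leaf [65, 117, 120, 121]) (.node 143 (.leaf [66,
  67, 68]) (.leaf [66, 117, 118])))) (.node 146 (.node 145 (.leaf [66, 152]) (.leaf [67, 116,
  117])) (.node 147 (.leaf [67, 177, 178]) (.node 148 (.leaf [68, 151, 152]) (.leaf [68, 173,
  177]))))))))) (.node 224 (.node 186 (.node 167 (.node 158 (.node 153 (.node 151 (.node 150
  (.leaf [69, 146, 147, 149]) (.leaf [69, 161, 162])) (.node 152 (.leaf [69, 170, 171]) (.leaf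
  [70, 147, 150, 151]))) (.node 155 (.node 154 (.leaf [70, 171, 173, 174]) (.leaf [71, 170,
  174])) (.node 156 (.leaf [72, 174, 176, 177]) (.node 157 (.leaf [73, 116, 121]) (.leaf [73,
  176, 178]))))) (.node 162 (.node 160 (.node 159 (.leaf [74, 175, 176]) (.leaf [75, 169, 174,
  175])) (.node 161 (.leaf [76, 92, 93]) (.leaf [76, 169, 170]))) (.node 164 (.node 163 (.leaf
  [77, 93, 103]) (.leaf [77, 143, 145, 146])) (.node 165 (.leaf [77, 162, 163]) (.node 166
  (.leaf [78, 145, 147, 148]) (.leaf [78, 169, 171])))))) (.node 176 (.node 171 (.node 169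
  (.node 168 (.leaf [79, 144, 145]) (.leaf [80, 93, 94])) (.node 170 (.leaf [81, 168, 169])
  (.leaf [82, 168, 175]))) (.node 173 (.node 172 (.leaf [83, 168]) (.leaf [86, 106, 111]))
  (.node 174 (.leaf [86, 189, 190]) (.node 175 (.leaf [87, 185, 189]) (.leaf [88, 184, 185])))))
  (.node 181 (.node 178 (.node 177 (.leaf [89, 184]) (.leaf [94, 182, 183])) (.node 179 (.leaf
  [95, 183, 184]) (.node 180 (.leaf [96, 183, 185, 186]) (.leaf [97, 182, 186])))) (.node 183
  (.node 182 (.leaf [98, 186, 188, 189]) (.leaf [99, 100, 188])) (.node 184 (.leaf [99, 106,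
  190]) (.node 185 (.leaf [100, 153, 187]) (.leaf [101, 153, 155, 156]))))))) (.node 205 (.node
  195 (.node 190 (.node 188 (.node 187 (.leaf [101, 181, 186, 187]) (.leaf [102, 141, 142]))
  (.node 189 (.leaf [102, 156, 164, 165]) (.leaf [102, 181, 182]))) (.node 192 (.node 191 (.leaf
  [103, 142, 143]) (.leaf [103, 157, 163, 164])) (.node 193 (.leaf [104, 156, 157, 158]) (.node
  194 (.leaf [104, 181, 183]) (.leaf [105, 157, 159]))))) (.node 200 (.node 197 (.node 196
  (.leaf [106, 107, 131]) (.leaf [106, 132, 191])) (.node 198 (.leaf [107, 108, 129]) (.node 199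
  (.leaf [109, 128]) (.leaf [110, 128, 129, 130])))) (.node 202 (.node 201 (.leaf [111, 130,
  131]) (.leaf [112, 127, 130])) (.node 203 (.leaf [113, 127, 128]) (.node 204 (.leaf [114, 126,
  127]) (.leaf [115, 126])))))) (.node 214 (.node 209 (.node 207 (.node 206 (.leaf [116, 138,
  139]) (.leaf [116, 178, 179])) (.node 208 (.leaf [117, 136, 138]) (.leaf [118, 136]))) (.node
  211 (.node 210 (.leaf [119, 135]) (.leaf [120, 135, 136, 137])) (.node 212 (.leaf [121, 137,
  138]) (.node 213 (.leaf [122, 134, 137]) (.leaf [123, 134, 135]))))) (.node 219 (.node 216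
  (.node 215 (.leaf [124, 133, 134]) (.leaf [125, 133])) (.node 217 (.leaf [126, 196]) (.node
  218 (.leaf [127, 195, 196]) (.leaf [128, 194, 195])))) (.node 221 (.node 220 (.leaf [129, 131,
  193]) (.leaf [129, 194])) (.node 222 (.leaf [130, 193, 195]) (.node 223 (.leaf [131, 132,
  192]) (.leaf [132])))))))) (.node 261 (.node 242 (.node 233 (.node 228 (.node 226 (.node 225
  (.leaf [133, 201]) (.leaf [134, 200, 201])) (.node 227 (.leaf [135, 199, 200]) (.leaf [136,
  198, 199]))) (.node 230 (.node 229 (.leaf [137, 198, 200]) (.leaf [138, 197, 198])) (.node 231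
  (.leaf [139, 179]) (.node 232 (.leaf [139, 197]) (.leaf [141, 165, 166]))))) (.node 237 (.node
  235 (.node 234 (.leaf [142, 164, 166]) (.leaf [143, 163, 166, 167])) (.node 236 (.leaf [145,
  221]) (.leaf [146, 162, 167]))) (.node 239 (.node 238 (.leaf [146, 221]) (.leaf [147, 171,
  172])) (.node 240 (.leaf [147, 220, 221]) (.node 241 (.leaf [149, 161, 167]) (.leaf [151, 172,
  173])))))) (.node 251 (.node 246 (.node 244 (.node 243 (.leaf [151, 220]) (.leaf [153, 154]))
  (.node 245 (.leaf [153, 180, 223]) (.leaf [156, 180, 181]))) (.node 248 (.node 247 (.leaf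
  [156, 222, 223]) (.leaf [157, 222])) (.node 249 (.leaf [164, 222]) (.node 250 (.leaf [166,
  226]) (.leaf [167, 226]))))) (.node 256 (.node 253 (.node 252 (.leaf [172, 220]) (.leaf [173,
  211])) (.node 254 (.leaf [174, 210, 211]) (.node 255 (.leaf [175, 210]) (.leaf [176, 209,
  210])))) (.node 258 (.node 257 (.leaf [177, 209, 211]) (.leaf [178, 208, 209])) (.node 259
  (.leaf [179, 208]) (.node 260 (.leaf [180, 187]) (.leaf [185, 215]))))))) (.node 280 (.node
  270 (.node 265 (.node 263 (.node 262 (.leaf [186, 214, 215]) (.leaf [187, 188, 214])) (.node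
  264 (.leaf [188, 190, 213]) (.leaf [189, 213, 215]))) (.node 267 (.node 266 (.leaf [190, 191,
  212]) (.leaf [191])) (.node 268 (.leaf [192]) (.node 269 (.leaf [192, 193, 204]) (.leaf [193,
  194, 203]))))) (.node 275 (.node 272 (.node 271 (.leaf [195, 202, 203]) (.leaf [196, 202]))
  (.node 273 (.leaf [197, 207]) (.node 274 (.leaf [198, 206, 207]) (.leaf [199, 206])))) (.node
  277 (.node 276 (.leaf [200, 205, 206]) (.leaf [201, 205])) (.node 278 (.leaf [202, 217])
  (.node 279 (.leaf [203, 204]) (.leaf [203, 216, 217])))))) (.node 289 (.node 284 (.node 282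
  (.node 281 (.leaf [204, 216]) (.leaf [205, 219])) (.node 283 (.leaf [206, 218, 219]) (.leaf
  [207, 218]))) (.node 286 (.node 285 (.leaf [208, 227]) (.leaf [209, 227])) (.node 287 (.leaf
  [212]) (.node 288 (.leaf [212, 213, 228]) (.leaf [213, 214]))))) (.node 294 (.node 291 (.node
  290 (.leaf [216, 224]) (.leaf [217, 224])) (.node 292 (.leaf [218, 225]) (.node 293 (.leaf
  [219, 225]) (.leaf [223])))) (.node 296 (.node 295 (.leaf [224, 229]) (.leaf [225, 230]))
  (.node 297 (.leaf [228]) (.node 298 (.leaf [229]) (.leaf [230]))))))))))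

/-- Level data (lower covers). -/
def e18 : RT (List ℕ) :=
(.node 264 (.node 132 (.node 66 (.node 33 (.node 16 (.node 8 (.node 4 (.node 2 (.node 1 (.leaf
  [0, 1, 2, 3, 4]) (.leaf [0, 5, 6, 7, 8])) (.node 3 (.leaf [0, 9, 10, 11]) (.leaf [0, 12, 13,
  14, 15]))) (.node 6 (.node 5 (.leaf [12, 16, 17, 18, 19]) (.leaf [1, 12, 20, 21, 22])) (.node
  7 (.leaf [5, 12, 23, 24, 25]) (.leaf [5, 26, 27, 28, 29])))) (.node 12 (.node 10 (.node 9
  (.leaf [1, 5, 30, 31, 32]) (.leaf [1, 33, 34, 35])) (.node 11 (.leaf [26, 36, 37, 38]) (.leaf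
  [26, 30, 39, 40, 41]))) (.node 14 (.node 13 (.leaf [6, 26, 42, 43, 44]) (.leaf [6, 9, 45,
  46])) (.node 15 (.leaf [2, 6, 30, 47, 48]) (.leaf [30, 33, 49, 50]))))) (.node 24 (.node 20
  (.node 18 (.node 17 (.leaf [2, 33, 51, 52]) (.leaf [2, 9, 53, 54])) (.node 19 (.leaf [16, 55,
  56, 57]) (.leaf [13, 16, 58, 59, 60]))) (.node 22 (.node 21 (.leaf [16, 20, 61, 62, 63])
  (.leaf [20, 34, 64, 65])) (.node 23 (.leaf [3, 13, 20, 66, 67]) (.leaf [10, 13, 68, 69]))))
  (.node 28 (.node 26 (.node 25 (.leaf [3, 10, 53, 70]) (.leaf [3, 34, 51, 71])) (.node 27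
  (.leaf [51, 53, 72, 73]) (.leaf [55, 58, 74, 75, 76]))) (.node 30 (.node 29 (.leaf [17, 55,
  77, 78, 79]) (.leaf [55, 61, 80, 81])) (.node 31 (.leaf [17, 23, 82, 83, 84, 85]) (.node 32
  (.leaf [14, 17, 58, 86, 87]) (.leaf [17, 21, 61, 88, 89]))))))) (.node 49 (.node 41 (.node 37
  (.node 35 (.node 34 (.leaf [58, 61, 66, 90]) (.leaf [4, 14, 21, 66])) (.node 36 (.leaf [7, 14,
  23, 91, 92]) (.leaf [23, 27, 93, 94, 95, 96]))) (.node 39 (.node 38 (.leaf [21, 23, 31, 97,
  98]) (.leaf [27, 36, 99, 100, 101])) (.node 40 (.leaf [7, 27, 42, 102, 103]) (.leaf [27, 31,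
  39, 104, 105])))) (.node 45 (.node 43 (.node 42 (.leaf [4, 7, 31, 47]) (.leaf [39, 42, 47,
  106])) (.node 44 (.leaf [36, 42, 107, 108]) (.leaf [36, 39, 109, 110, 111]))) (.node 47 (.node
  46 (.leaf [72, 112]) (.leaf [72, 113])) (.node 48 (.leaf [112, 113]) (.leaf [52, 54, 72,
  114]))))) (.node 57 (.node 53 (.node 51 (.node 50 (.leaf [45, 48, 54, 115]) (.leaf [43, 45,
  116, 117])) (.node 52 (.leaf [106, 107, 109, 118]) (.leaf [37, 43, 107, 119]))) (.node 55
  (.node 54 (.leaf [40, 43, 48, 106, 120]) (.leaf [48, 49, 52, 121])) (.node 56 (.leaf [40, 49,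
  122, 123]) (.leaf [37, 40, 109, 124, 125])))) (.node 61 (.node 59 (.node 58 (.leaf [109, 126,
  127, 128]) (.leaf [73, 112, 129])) (.node 60 (.leaf [70, 71, 73, 130]) (.leaf [64, 67, 71,
  131]))) (.node 63 (.node 62 (.leaf [62, 64, 132, 133]) (.leaf [74, 80, 90, 134])) (.node 64
  (.leaf [56, 62, 80, 135]) (.node 65 (.leaf [59, 62, 67, 90, 136]) (.leaf [67, 68, 70,
  137])))))))) (.node 99 (.node 82 (.node 74 (.node 70 (.node 68 (.node 67 (.leaf [59, 68, 138,
  139]) (.leaf [56, 59, 74, 140, 141])) (.node 69 (.leaf [74, 142, 143, 144]) (.leaf [140, 142,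
  145, 146]))) (.node 72 (.node 71 (.leaf [75, 142, 147, 148]) (.leaf [77, 82, 149, 150, 151]))
  (.node 73 (.leaf [75, 77, 86, 152, 153]) (.leaf [18, 57, 77, 154])))) (.node 78 (.node 76
  (.node 75 (.leaf [57, 60, 75, 140, 155]) (.leaf [138, 140, 156, 157])) (.node 77 (.leaf [60,
  69, 138, 158]) (.leaf [15, 18, 60, 86, 159]))) (.node 80 (.node 79 (.leaf [18, 24, 82, 160,
  161]) (.leaf [82, 93, 162, 163, 164])) (.node 81 (.leaf [82, 86, 91, 165, 166]) (.leaf [91,
  93, 102, 167]))))) (.node 90 (.node 86 (.node 84 (.node 83 (.leaf [24, 28, 93, 168]) (.leaf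
  [8, 15, 24, 91, 169])) (.node 85 (.leaf [11, 15, 69, 170]) (.leaf [8, 11, 46, 171]))) (.node
  88 (.node 87 (.leaf [8, 28, 44, 102]) (.leaf [44, 46])) (.node 89 (.leaf [44, 116]) (.leaf
  [46, 116])))) (.node 94 (.node 92 (.node 91 (.leaf [122, 124, 172, 173]) (.leaf [41, 50, 122,
  174])) (.node 93 (.leaf [32, 35, 50, 175]) (.leaf [22, 35, 65, 176]))) (.node 96 (.node 95
  (.leaf [63, 65, 132]) (.leaf [19, 22, 63, 88])) (.node 97 (.leaf [19, 25, 83, 160]) (.node 98
  (.leaf [160, 162, 168]) (.leaf [25, 29, 94, 168, 177]))))))) (.node 115 (.node 107 (.node 103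
  (.node 101 (.node 100 (.leaf [22, 25, 32, 97, 178]) (.leaf [29, 32, 41, 104, 179])) (.node 102
  (.leaf [29, 38, 99, 180]) (.leaf [38, 41, 110, 124, 181]))) (.node 105 (.node 104 (.leaf [124,
  126, 182, 183]) (.leaf [110, 127, 182, 184])) (.node 106 (.leaf [99, 104, 110, 185, 186])
  (.leaf [94, 99, 187, 188, 189])))) (.node 111 (.node 109 (.node 108 (.leaf [83, 94, 162, 190,
  191]) (.leaf [94, 97, 104, 192, 193])) (.node 110 (.leaf [83, 88, 97, 194]) (.leaf [172, 183,
  195, 196]))) (.node 113 (.node 112 (.leaf [125, 126, 195, 197]) (.leaf [118, 128, 197]))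
  (.node 114 (.leaf [117, 119, 198]) (.leaf [118, 119, 120, 125, 199]))))) (.node 123 (.node 119
  (.node 117 (.node 116 (.leaf [123, 125, 172, 200]) (.leaf [120, 121, 123, 201])) (.node 118
  (.leaf [115, 117, 120, 202]) (.leaf [114, 115, 121, 203]))) (.node 121 (.node 120 (.leaf [113,
  114, 204]) (.leaf [145, 156, 205, 206])) (.node 122 (.leaf [141, 143, 145, 207]) (.leaf [134,
  143, 208])))) (.node 127 (.node 125 (.node 124 (.leaf [133, 135, 209]) (.leaf [134, 135, 136,
  141, 210])) (.node 126 (.leaf [139, 141, 156, 211]) (.leaf [136, 137, 139, 212]))) (.node 129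
  (.node 128 (.leaf [131, 133, 136, 213]) (.leaf [130, 131, 137, 214])) (.node 130 (.leaf [129,
  130, 215]) (.node 131 (.leaf [203, 204, 216]) (.leaf [201, 202, 203, 217]))))))))) (.node 198
  (.node 165 (.node 148 (.node 140 (.node 136 (.node 134 (.node 133 (.leaf [198, 199, 202, 218])
  (.leaf [197, 199, 219, 220])) (.node 135 (.leaf [199, 200, 201, 221]) (.leaf [195, 200, 219,
  222]))) (.node 138 (.node 137 (.leaf [196, 222, 223]) (.leaf [214, 215, 224])) (.node 139
  (.leaf [212, 213, 214, 225]) (.leaf [209, 210, 213, 226])))) (.node 144 (.node 142 (.node 141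
  (.leaf [207, 208, 210, 227]) (.leaf [210, 211, 212, 228])) (.node 143 (.leaf [205, 207, 211,
  229]) (.leaf [205, 230, 231]))) (.node 146 (.node 145 (.leaf [100, 103, 108]) (.leaf [95, 100,
  187, 232])) (.node 147 (.leaf [187, 190, 233]) (.leaf [84, 95, 163, 190, 234]))))) (.node 156
  (.node 152 (.node 150 (.node 149 (.leaf [92, 95, 103, 167]) (.leaf [163, 165, 167, 235]))
  (.node 151 (.leaf [149, 163, 236, 237]) (.leaf [149, 152, 165, 238, 239]))) (.node 154 (.node
  153 (.leaf [84, 87, 92, 165]) (.leaf [78, 84, 149, 240])) (.node 155 (.leaf [76, 78, 87, 152])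
  (.leaf [147, 152, 241, 242])))) (.node 160 (.node 158 (.node 157 (.leaf [76, 144, 147]) (.leaf
  [184, 185, 243, 244])) (.node 159 (.leaf [111, 127, 243]) (.leaf [101, 105, 111, 185])))
  (.node 162 (.node 161 (.leaf [185, 188, 192, 245, 246]) (.leaf [191, 192, 194, 247])) (.node
  163 (.leaf [96, 98, 105, 192]) (.node 164 (.leaf [85, 89, 98, 194]) (.leaf [79, 81, 89])))))))
  (.node 181 (.node 173 (.node 169 (.node 167 (.node 166 (.leaf [79, 85, 150, 240]) (.leaf [150,
  164, 236])) (.node 168 (.leaf [85, 96, 164, 191, 234]) (.leaf [188, 191, 233, 248]))) (.node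
  171 (.node 170 (.leaf [96, 101, 188, 232]) (.leaf [232, 233, 234, 249])) (.node 172 (.leaf
  [234, 236, 240, 250]) (.leaf [169, 170, 171])))) (.node 177 (.node 175 (.node 174 (.leaf [159,
  161, 166, 169]) (.leaf [151, 154, 161])) (.node 176 (.leaf [151, 153, 166, 238]) (.leaf [238,
  241, 251]))) (.node 179 (.node 178 (.leaf [148, 153, 241, 252]) (.leaf [153, 154, 155, 159,
  253])) (.node 180 (.leaf [158, 159, 170, 254]) (.leaf [155, 157, 158, 255]))))) (.node 189
  (.node 185 (.node 183 (.node 182 (.leaf [146, 148, 155, 256]) (.leaf [146, 157, 206, 257]))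
  (.node 184 (.leaf [206, 230, 258]) (.leaf [244, 245, 259]))) (.node 187 (.node 186 (.leaf
  [186, 189, 193, 245]) (.leaf [177, 180, 189])) (.node 188 (.leaf [177, 178, 179, 193]) (.leaf
  [175, 176, 178])))) (.node 193 (.node 191 (.node 190 (.leaf [174, 175, 179, 260]) (.leaf [179,
  180, 181, 186, 261])) (.node 192 (.leaf [184, 186, 259, 262]) (.leaf [181, 182, 262, 263])))
  (.node 195 (.node 194 (.leaf [173, 174, 181, 264]) (.leaf [173, 183, 263, 265])) (.node 196
  (.leaf [196, 265, 266]) (.node 197 (.leaf [222, 267, 268]) (.leaf [219, 221, 268, 269]))))))))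
  (.node 231 (.node 214 (.node 206 (.node 202 (.node 200 (.node 199 (.leaf [218, 220, 269])
  (.leaf [217, 218, 221, 270])) (.node 201 (.leaf [216, 217, 271]) (.leaf [229, 231, 272])))
  (.node 204 (.node 203 (.leaf [227, 228, 229, 273]) (.leaf [226, 227, 274])) (.node 205 (.leaf
  [225, 226, 228, 275]) (.leaf [224, 225, 276])))) (.node 210 (.node 208 (.node 207 (.leaf [270,
  271, 277]) (.leaf [269, 270, 278, 279])) (.node 209 (.leaf [268, 278, 280]) (.leaf [275, 276,
  281]))) (.node 212 (.node 211 (.leaf [273, 274, 275, 282]) (.leaf [272, 273, 283])) (.node 213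
  (.leaf [257, 258, 284]) (.leaf [255, 256, 257, 285]))))) (.node 222 (.node 218 (.node 216
  (.node 215 (.leaf [253, 254, 255]) (.leaf [252, 253, 256])) (.node 217 (.leaf [265, 286, 287])
  (.leaf [263, 264, 287, 288]))) (.node 220 (.node 219 (.leaf [261, 262, 288]) (.leaf [260, 261,
  264])) (.node 221 (.leaf [279, 280, 289]) (.leaf [277, 279, 290])))) (.node 226 (.node 224
  (.node 223 (.leaf [282, 283, 291]) (.leaf [281, 282, 292])) (.node 225 (.leaf [239, 242, 251])
  (.leaf [235, 237, 239]))) (.node 228 (.node 227 (.leaf [246, 247, 248]) (.leaf [244, 246,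
  293])) (.node 229 (.leaf [289, 290, 294]) (.node 230 (.leaf [291, 292, 295]) (.leaf [249,
  250]))))))) (.node 247 (.node 239 (.node 235 (.node 233 (.node 232 (.leaf [284, 285]) (.leaf
  [287, 296])) (.node 234 (.leaf [294, 297]) (.leaf [295, 298]))) (.node 237 (.node 236 (.leaf
  [0]) (.leaf [1])) (.node 238 (.leaf [2]) (.leaf [3])))) (.node 243 (.node 241 (.node 240
  (.leaf [4]) (.leaf [5])) (.node 242 (.leaf [6]) (.leaf [7]))) (.node 245 (.node 244 (.leaf
  [8]) (.leaf [9])) (.node 246 (.leaf [10]) (.leaf [11]))))) (.node 255 (.node 251 (.node 249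
  (.node 248 (.leaf [12]) (.leaf [13])) (.node 250 (.leaf [14]) (.leaf [15]))) (.node 253 (.node
  252 (.leaf [16]) (.leaf [17])) (.node 254 (.leaf [18]) (.leaf [19])))) (.node 259 (.node 257
  (.node 256 (.leaf [20]) (.leaf [21])) (.node 258 (.leaf [22]) (.leaf [23]))) (.node 261 (.node
  260 (.leaf [24]) (.leaf [25])) (.node 262 (.leaf [26]) (.node 263 (.leaf [27]) (.leaf
  [28])))))))))) (.node 396 (.node 330 (.node 297 (.node 280 (.node 272 (.node 268 (.node 266
  (.node 265 (.leaf [29]) (.leaf [30])) (.node 267 (.leaf [31]) (.leaf [32]))) (.node 270 (.node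
  269 (.leaf [33]) (.leaf [34])) (.node 271 (.leaf [35]) (.leaf [36])))) (.node 276 (.node 274
  (.node 273 (.leaf [37]) (.leaf [38])) (.node 275 (.leaf [39]) (.leaf [40]))) (.node 278 (.node
  277 (.leaf [41]) (.leaf [42])) (.node 279 (.leaf [43]) (.leaf [45]))))) (.node 288 (.node 284
  (.node 282 (.node 281 (.leaf [47]) (.leaf [48])) (.node 283 (.leaf [49]) (.leaf [50]))) (.node
  286 (.node 285 (.leaf [51]) (.leaf [52])) (.node 287 (.leaf [53]) (.leaf [54])))) (.node 292
  (.node 290 (.node 289 (.leaf [55]) (.leaf [56])) (.node 291 (.leaf [57]) (.leaf [58]))) (.node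
  294 (.node 293 (.leaf [59]) (.leaf [60])) (.node 295 (.leaf [61]) (.node 296 (.leaf [62])
  (.leaf [63]))))))) (.node 313 (.node 305 (.node 301 (.node 299 (.node 298 (.leaf [64]) (.leaf
  [65])) (.node 300 (.leaf [66]) (.leaf [67]))) (.node 303 (.node 302 (.leaf [68]) (.leaf [69]))
  (.node 304 (.leaf [70]) (.leaf [71])))) (.node 309 (.node 307 (.node 306 (.leaf [73]) (.leaf
  [74])) (.node 308 (.leaf [75]) (.leaf [76]))) (.node 311 (.node 310 (.leaf [77]) (.leaf [78]))
  (.node 312 (.leaf [79]) (.leaf [80]))))) (.node 321 (.node 317 (.node 315 (.node 314 (.leaf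
  [81]) (.leaf [82])) (.node 316 (.leaf [83]) (.leaf [84]))) (.node 319 (.node 318 (.leaf [85])
  (.leaf [86])) (.node 320 (.leaf [87]) (.leaf [88])))) (.node 325 (.node 323 (.node 322 (.leaf
  [89]) (.leaf [90])) (.node 324 (.leaf [91]) (.leaf [92]))) (.node 327 (.node 326 (.leaf [93])
  (.leaf [94])) (.node 328 (.leaf [95]) (.node 329 (.leaf [96]) (.leaf [97])))))))) (.node 363
  (.node 346 (.node 338 (.node 334 (.node 332 (.node 331 (.leaf [98]) (.leaf [99])) (.node 333
  (.leaf [100]) (.leaf [101]))) (.node 336 (.node 335 (.leaf [102]) (.leaf [103])) (.node 337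
  (.leaf [104]) (.leaf [105])))) (.node 342 (.node 340 (.node 339 (.leaf [106]) (.leaf [107]))
  (.node 341 (.leaf [108]) (.leaf [109]))) (.node 344 (.node 343 (.leaf [110]) (.leaf [111]))
  (.node 345 (.leaf [114]) (.leaf [115]))))) (.node 354 (.node 350 (.node 348 (.node 347 (.leaf
  [117]) (.leaf [118])) (.node 349 (.leaf [119]) (.leaf [120]))) (.node 352 (.node 351 (.leaf
  [121]) (.leaf [122])) (.node 353 (.leaf [123]) (.leaf [124])))) (.node 358 (.node 356 (.node
  355 (.leaf [125]) (.leaf [126])) (.node 357 (.leaf [127]) (.leaf [128]))) (.node 360 (.node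
  359 (.leaf [129]) (.leaf [130])) (.node 361 (.leaf [131]) (.node 362 (.leaf [132]) (.leaf
  [133]))))))) (.node 379 (.node 371 (.node 367 (.node 365 (.node 364 (.leaf [134]) (.leaf
  [135])) (.node 366 (.leaf [136]) (.leaf [137]))) (.node 369 (.node 368 (.leaf [138]) (.leaf
  [139])) (.node 370 (.leaf [140]) (.leaf [141])))) (.node 375 (.node 373 (.node 372 (.leaf
  [142]) (.leaf [143])) (.node 374 (.leaf [144]) (.leaf [145]))) (.node 377 (.node 376 (.leaf
  [146]) (.leaf [147])) (.node 378 (.leaf [148]) (.leaf [149]))))) (.node 387 (.node 383 (.node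
  381 (.node 380 (.leaf [150]) (.leaf [151])) (.node 382 (.leaf [152]) (.leaf [153]))) (.node
  385 (.node 384 (.leaf [154]) (.leaf [155])) (.node 386 (.leaf [156]) (.leaf [157])))) (.node
  391 (.node 389 (.node 388 (.leaf [158]) (.leaf [159])) (.node 390 (.leaf [160]) (.leaf
  [161]))) (.node 393 (.node 392 (.leaf [162]) (.leaf [163])) (.node 394 (.leaf [164]) (.node
  395 (.leaf [165]) (.leaf [166]))))))))) (.node 462 (.node 429 (.node 412 (.node 404 (.node 400
  (.node 398 (.node 397 (.leaf [167]) (.leaf [168])) (.node 399 (.leaf [169]) (.leaf [170])))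
  (.node 402 (.node 401 (.leaf [171]) (.leaf [172])) (.node 403 (.leaf [173]) (.leaf [174]))))
  (.node 408 (.node 406 (.node 405 (.leaf [175]) (.leaf [176])) (.node 407 (.leaf [177]) (.leaf
  [178]))) (.node 410 (.node 409 (.leaf [179]) (.leaf [180])) (.node 411 (.leaf [181]) (.leaf
  [182]))))) (.node 420 (.node 416 (.node 414 (.node 413 (.leaf [183]) (.leaf [184])) (.node 415
  (.leaf [185]) (.leaf [186]))) (.node 418 (.node 417 (.leaf [187]) (.leaf [188])) (.node 419
  (.leaf [189]) (.leaf [190])))) (.node 424 (.node 422 (.node 421 (.leaf [191]) (.leaf [192]))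
  (.node 423 (.leaf [193]) (.leaf [194]))) (.node 426 (.node 425 (.leaf [195]) (.leaf [196]))
  (.node 427 (.leaf [197]) (.node 428 (.leaf [198]) (.leaf [199]))))))) (.node 445 (.node 437
  (.node 433 (.node 431 (.node 430 (.leaf [200]) (.leaf [201])) (.node 432 (.leaf [202]) (.leaf
  [203]))) (.node 435 (.node 434 (.leaf [204]) (.leaf [205])) (.node 436 (.leaf [206]) (.leaf
  [207])))) (.node 441 (.node 439 (.node 438 (.leaf [208]) (.leaf [209])) (.node 440 (.leaf
  [210]) (.leaf [211]))) (.node 443 (.node 442 (.leaf [212]) (.leaf [213])) (.node 444 (.leaf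
  [214]) (.leaf [215]))))) (.node 453 (.node 449 (.node 447 (.node 446 (.leaf [216]) (.leaf
  [217])) (.node 448 (.leaf [218]) (.leaf [219]))) (.node 451 (.node 450 (.leaf [220]) (.leaf
  [221])) (.node 452 (.leaf [222]) (.leaf [223])))) (.node 457 (.node 455 (.node 454 (.leaf
  [224]) (.leaf [225])) (.node 456 (.leaf [226]) (.leaf [227]))) (.node 459 (.node 458 (.leaf
  [228]) (.leaf [229])) (.node 460 (.leaf [230]) (.node 461 (.leaf [231]) (.leaf [232]))))))))
  (.node 495 (.node 478 (.node 470 (.node 466 (.node 464 (.node 463 (.leaf [233]) (.leaf [234]))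
  (.node 465 (.leaf [235]) (.leaf [236]))) (.node 468 (.node 467 (.leaf [237]) (.leaf [238]))
  (.node 469 (.leaf [239]) (.leaf [240])))) (.node 474 (.node 472 (.node 471 (.leaf [241])
  (.leaf [242])) (.node 473 (.leaf [243]) (.leaf [244]))) (.node 476 (.node 475 (.leaf [245])
  (.leaf [246])) (.node 477 (.leaf [247]) (.leaf [248]))))) (.node 486 (.node 482 (.node 480
  (.node 479 (.leaf [249]) (.leaf [250])) (.node 481 (.leaf [251]) (.leaf [252]))) (.node 484
  (.node 483 (.leaf [253]) (.leaf [254])) (.node 485 (.leaf [255]) (.leaf [256])))) (.node 490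
  (.node 488 (.node 487 (.leaf [257]) (.leaf [258])) (.node 489 (.leaf [259]) (.leaf [260])))
  (.node 492 (.node 491 (.leaf [261]) (.leaf [262])) (.node 493 (.leaf [263]) (.node 494 (.leaf
  [264]) (.leaf [265]))))))) (.node 511 (.node 503 (.node 499 (.node 497 (.node 496 (.leaf
  [266]) (.leaf [267])) (.node 498 (.leaf [268]) (.leaf [269]))) (.node 501 (.node 500 (.leaf
  [270]) (.leaf [271])) (.node 502 (.leaf [272]) (.leaf [273])))) (.node 507 (.node 505 (.node
  504 (.leaf [274]) (.leaf [275])) (.node 506 (.leaf [276]) (.leaf [277]))) (.node 509 (.node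
  508 (.leaf [278]) (.leaf [279])) (.node 510 (.leaf [280]) (.leaf [281]))))) (.node 519 (.node
  515 (.node 513 (.node 512 (.leaf [282]) (.leaf [283])) (.node 514 (.leaf [284]) (.leaf
  [285]))) (.node 517 (.node 516 (.leaf [286]) (.leaf [287])) (.node 518 (.leaf [288]) (.leaf
  [289])))) (.node 523 (.node 521 (.node 520 (.leaf [290]) (.leaf [291])) (.node 522 (.leaf
  [292]) (.leaf [293]))) (.node 525 (.node 524 (.leaf [294]) (.leaf [295])) (.node 526 (.leaf
  [296]) (.node 527 (.leaf [297]) (.leaf [298])))))))))))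

/-- Level data (lower covers). -/
def e19 : RT (List ℕ) :=
(.node 412 (.node 206 (.node 103 (.node 51 (.node 25 (.node 12 (.node 6 (.node 3 (.node 1 (.leaf
  [0, 1, 2, 3, 235]) (.node 2 (.leaf [0, 5, 8, 9, 236]) (.leaf [0, 14, 16, 17, 237]))) (.node 4
  (.leaf [0, 22, 24, 25, 238]) (.node 5 (.leaf [0, 34, 41, 239]) (.leaf [1, 6, 7, 8, 240]))))
  (.node 9 (.node 7 (.leaf [1, 12, 13, 14, 241]) (.node 8 (.leaf [1, 35, 39, 41, 242]) (.leaf
  [1, 83, 85, 86, 243]))) (.node 10 (.leaf [2, 13, 17, 244]) (.node 11 (.leaf [2, 23, 24, 245])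
  (.leaf [2, 84, 85, 246]))))) (.node 18 (.node 15 (.node 13 (.leaf [3, 4, 5, 6, 247]) (.node 14
  (.leaf [3, 19, 22, 23, 248]) (.leaf [3, 31, 34, 35, 249]))) (.node 16 (.leaf [3, 77, 83, 84,
  250]) (.node 17 (.leaf [4, 18, 19, 20, 251]) (.leaf [4, 28, 30, 31, 32, 252])))) (.node 21
  (.node 19 (.leaf [4, 73, 77, 78, 253]) (.node 20 (.leaf [4, 95, 96, 254]) (.leaf [5, 20, 21,
  22, 255]))) (.node 23 (.node 22 (.leaf [5, 32, 34, 37, 256]) (.leaf [5, 93, 95, 99, 257]))
  (.node 24 (.leaf [6, 30, 35, 36, 37, 258]) (.leaf [6, 78, 82, 83, 259])))))) (.node 38 (.node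
  31 (.node 28 (.node 26 (.leaf [6, 96, 98, 99, 260]) (.node 27 (.leaf [7, 10, 11, 12, 261])
  (.leaf [7, 36, 38, 39, 40, 262]))) (.node 29 (.leaf [7, 82, 86, 263]) (.node 30 (.leaf [7, 98,
  100, 101, 264]) (.leaf [8, 11, 14, 15, 265])))) (.node 34 (.node 32 (.leaf [8, 37, 40, 41,
  266]) (.node 33 (.leaf [8, 92, 99, 100, 267]) (.leaf [9, 15, 16, 268]))) (.node 36 (.node 35
  (.leaf [9, 21, 25, 269]) (.leaf [9, 92, 93, 270])) (.node 37 (.leaf [10, 38, 43, 44, 271])
  (.leaf [10, 52, 56, 272]))))) (.node 44 (.node 41 (.node 39 (.leaf [10, 101, 102, 273]) (.node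
  40 (.leaf [11, 40, 42, 44, 274]) (.leaf [11, 53, 55, 56, 275]))) (.node 42 (.leaf [11, 91,
  100, 102, 276]) (.node 43 (.leaf [12, 39, 42, 43, 277]) (.leaf [12, 50, 52, 53, 278]))))
  (.node 47 (.node 45 (.leaf [12, 86, 87, 88]) (.node 46 (.leaf [13, 49, 50, 279]) (.leaf [13,
  85, 87, 89]))) (.node 49 (.node 48 (.leaf [14, 41, 42, 280]) (.leaf [14, 49, 53, 54, 281]))
  (.node 50 (.leaf [15, 54, 55, 282]) (.leaf [15, 91, 92, 283]))))))) (.node 77 (.node 64 (.node
  57 (.node 54 (.node 52 (.leaf [16, 25, 26, 284]) (.node 53 (.leaf [16, 48, 54, 285]) (.leaf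
  [17, 24, 26, 286]))) (.node 55 (.leaf [17, 48, 49, 287]) (.node 56 (.leaf [18, 27, 28, 29,
  288]) (.leaf [18, 63, 67, 289])))) (.node 60 (.node 58 (.leaf [18, 73, 74, 290]) (.node 59
  (.leaf [19, 27, 31, 33, 291]) (.leaf [19, 64, 66, 67, 292]))) (.node 62 (.node 61 (.leaf [19,
  74, 76, 77, 293]) (.leaf [20, 29, 32, 33, 294])) (.node 63 (.leaf [20, 61, 63, 64, 295])
  (.leaf [20, 94, 95, 296]))))) (.node 70 (.node 67 (.node 65 (.leaf [21, 60, 61, 297]) (.node
  66 (.leaf [21, 93, 94, 298]) (.leaf [22, 33, 34, 299]))) (.node 68 (.leaf [22, 60, 64, 65,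
  300]) (.node 69 (.leaf [23, 65, 66, 301]) (.leaf [23, 76, 84, 302])))) (.node 73 (.node 71
  (.leaf [24, 59, 65, 303]) (.node 72 (.leaf [25, 59, 60, 304]) (.leaf [26, 45, 46, 48])))
  (.node 75 (.node 74 (.leaf [26, 58, 59, 305]) (.leaf [27, 62, 67, 68, 306])) (.node 76 (.leaf
  [27, 70, 72, 74, 307]) (.leaf [27, 154, 156, 308])))))) (.node 90 (.node 83 (.node 80 (.node
  78 (.leaf [28, 71, 72, 73, 309]) (.node 79 (.leaf [28, 153, 154, 310]) (.leaf [28, 164, 165,
  311]))) (.node 81 (.leaf [29, 62, 63, 312]) (.node 82 (.leaf [29, 164]) (.leaf [29, 313]))))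
  (.node 86 (.node 84 (.leaf [164, 313]) (.node 85 (.leaf [30, 71, 78, 79, 80, 314]) (.leaf [30,
  96, 107, 109, 315]))) (.node 88 (.node 87 (.leaf [30, 147, 152, 153, 316]) (.leaf [30, 163,
  165, 167, 317])) (.node 89 (.leaf [31, 72, 77, 80, 318]) (.leaf [31, 152, 154, 319])))))
  (.node 96 (.node 93 (.node 91 (.leaf [32, 95, 109, 320]) (.node 92 (.leaf [32, 163, 164, 321])
  (.leaf [33, 62, 64, 322]))) (.node 94 (.leaf [35, 80, 81, 83, 323]) (.node 95 (.leaf [35, 148,
  152, 324]) (.leaf [36, 79, 81, 82, 325])))) (.node 99 (.node 97 (.leaf [36, 98, 106, 107, 108,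
  326]) (.node 98 (.leaf [36, 145, 147, 148, 327]) (.leaf [36, 162, 167, 169, 328]))) (.node 101
  (.node 100 (.leaf [37, 99, 108, 109, 329]) (.leaf [37, 162, 163, 330])) (.node 102 (.leaf [38,
  101, 105, 106, 331]) (.leaf [38, 144, 145, 332])))))))) (.node 154 (.node 128 (.node 115
  (.node 109 (.node 106 (.node 104 (.leaf [38, 159, 169, 333]) (.node 105 (.leaf [39, 81, 86,
  334]) (.leaf [39, 144, 148, 335]))) (.node 107 (.leaf [40, 100, 105, 108, 336]) (.node 108
  (.leaf [40, 159, 162, 337]) (.leaf [42, 51, 53, 338])))) (.node 112 (.node 110 (.leaf [43, 51,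
  52, 339]) (.node 111 (.leaf [43, 144]) (.leaf [43, 340]))) (.node 113 (.leaf [144, 340])
  (.node 114 (.leaf [44, 51, 56, 57, 341]) (.leaf [44, 102, 104, 105, 342]))))) (.node 121
  (.node 118 (.node 116 (.leaf [44, 158, 159, 343]) (.node 117 (.leaf [45, 47, 58]) (.leaf [46,
  47, 119]))) (.node 119 (.leaf [48, 118, 119, 344]) (.node 120 (.leaf [49, 117, 118, 345])
  (.leaf [50, 88, 89])))) (.node 124 (.node 122 (.leaf [50, 113, 117, 346]) (.node 123 (.leaf
  [51, 112, 114, 347]) (.leaf [52, 113, 114, 348]))) (.node 126 (.node 125 (.leaf [53, 114, 116,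
  117, 349]) (.leaf [54, 116, 118, 350])) (.node 127 (.leaf [55, 90, 91, 351]) (.leaf [55, 115,
  116, 352])))))) (.node 141 (.node 134 (.node 131 (.node 129 (.leaf [56, 90, 102, 103, 353])
  (.node 130 (.leaf [56, 111, 114, 115, 354]) (.leaf [57, 103, 111, 355]))) (.node 132 (.leaf
  [57, 104, 158, 356]) (.node 133 (.leaf [57, 112, 357]) (.leaf [58, 129, 358])))) (.node 137
  (.node 135 (.leaf [59, 128, 129, 359]) (.node 136 (.leaf [60, 127, 128, 360]) (.leaf [61, 94,
  361]))) (.node 139 (.node 138 (.leaf [61, 123, 127, 362]) (.leaf [62, 122, 124, 363])) (.node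
  140 (.leaf [63, 123, 124, 364]) (.leaf [64, 124, 126, 127, 365]))))) (.node 147 (.node 144
  (.node 142 (.leaf [65, 126, 128, 366]) (.node 143 (.leaf [66, 75, 76, 367]) (.leaf [66, 125,
  126, 368]))) (.node 145 (.leaf [67, 69, 74, 75, 369]) (.node 146 (.leaf [67, 121, 124, 125,
  370]) (.leaf [68, 69, 70, 371])))) (.node 150 (.node 148 (.leaf [68, 121, 122, 372]) (.node
  149 (.leaf [68, 156, 373]) (.leaf [69, 120, 121, 374]))) (.node 152 (.node 151 (.leaf [69,
  181, 182, 375]) (.leaf [70, 155, 156, 376])) (.node 153 (.leaf [70, 177, 181, 377]) (.leaf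
  [71, 150, 151, 153, 378]))))))) (.node 180 (.node 167 (.node 160 (.node 157 (.node 155 (.leaf
  [71, 165, 166, 379]) (.node 156 (.leaf [71, 174, 175, 380]) (.leaf [72, 151, 154, 155, 381])))
  (.node 158 (.leaf [72, 175, 177, 178, 382]) (.node 159 (.leaf [73, 174, 178, 383]) (.leaf [74,
  178, 180, 181, 384])))) (.node 163 (.node 161 (.leaf [75, 120, 125, 385]) (.node 162 (.leaf
  [75, 180, 182, 386]) (.leaf [76, 179, 180, 387]))) (.node 165 (.node 164 (.leaf [77, 173, 178,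
  179, 388]) (.leaf [78, 96, 97, 389])) (.node 166 (.leaf [78, 173, 174, 390]) (.leaf [79, 97,
  107, 391]))))) (.node 173 (.node 170 (.node 168 (.leaf [79, 147, 149, 150, 392]) (.node 169
  (.leaf [79, 166, 167, 393]) (.leaf [80, 149, 151, 152, 394]))) (.node 171 (.leaf [80, 173,
  175, 395]) (.node 172 (.leaf [81, 148, 149, 396]) (.leaf [82, 97, 98, 397])))) (.node 176
  (.node 174 (.leaf [83, 172, 173, 398]) (.node 175 (.leaf [84, 172, 179, 399]) (.leaf [85, 172,
  400]))) (.node 178 (.node 177 (.leaf [90, 110, 115, 401]) (.leaf [90, 193, 194, 402])) (.node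
  179 (.leaf [91, 189, 193, 403]) (.leaf [92, 188, 189, 404])))))) (.node 193 (.node 186 (.node
  183 (.node 181 (.leaf [93, 188, 405]) (.node 182 (.leaf [98, 186, 187, 406]) (.leaf [99, 187,
  188, 407]))) (.node 184 (.leaf [100, 187, 189, 190, 408]) (.node 185 (.leaf [101, 186, 190,
  409]) (.leaf [102, 190, 192, 193, 410])))) (.node 189 (.node 187 (.leaf [103, 104, 192, 411])
  (.node 188 (.leaf [103, 110, 194, 412]) (.leaf [104, 157, 191, 413]))) (.node 191 (.node 190
  (.leaf [105, 157, 159, 160, 414]) (.leaf [105, 185, 190, 191, 415])) (.node 192 (.leaf [106,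
  145, 146, 416]) (.leaf [106, 160, 168, 169, 417]))))) (.node 199 (.node 196 (.node 194 (.leaf
  [106, 185, 186, 418]) (.node 195 (.leaf [107, 146, 147, 419]) (.leaf [107, 161, 167, 168,
  420]))) (.node 197 (.leaf [108, 160, 161, 162, 421]) (.node 198 (.leaf [108, 185, 187, 422])
  (.leaf [109, 161, 163, 423])))) (.node 202 (.node 200 (.leaf [110, 111, 135, 424]) (.node 201
  (.leaf [110, 136, 195, 425]) (.leaf [111, 112, 133, 426]))) (.node 204 (.node 203 (.leaf [113,
  132, 427]) (.leaf [114, 132, 133, 134, 428])) (.node 205 (.leaf [115, 134, 135, 429]) (.leaf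
  [116, 131, 134, 430]))))))))) (.node 309 (.node 257 (.node 231 (.node 218 (.node 212 (.node
  209 (.node 207 (.leaf [117, 131, 132, 431]) (.node 208 (.leaf [118, 130, 131, 432]) (.leaf
  [119, 130, 433]))) (.node 210 (.leaf [120, 142, 143, 434]) (.node 211 (.leaf [120, 182, 183,
  435]) (.leaf [121, 140, 142, 436])))) (.node 215 (.node 213 (.leaf [122, 140, 437]) (.node 214
  (.leaf [123, 139, 438]) (.leaf [124, 139, 140, 141, 439]))) (.node 216 (.leaf [125, 141, 142,
  440]) (.node 217 (.leaf [126, 138, 141, 441]) (.leaf [127, 138, 139, 442]))))) (.node 224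
  (.node 221 (.node 219 (.leaf [128, 137, 138, 443]) (.node 220 (.leaf [129, 137, 444]) (.leaf
  [130, 200, 445]))) (.node 222 (.leaf [131, 199, 200, 446]) (.node 223 (.leaf [132, 198, 199,
  447]) (.leaf [133, 135, 197, 448])))) (.node 227 (.node 225 (.leaf [133, 198, 449]) (.node 226
  (.leaf [134, 197, 199, 450]) (.leaf [135, 136, 196, 451]))) (.node 229 (.node 228 (.leaf [136,
  452]) (.leaf [137, 205, 453])) (.node 230 (.leaf [138, 204, 205, 454]) (.leaf [139, 203, 204,
  455])))))) (.node 244 (.node 237 (.node 234 (.node 232 (.leaf [140, 202, 203, 456]) (.node 233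
  (.leaf [141, 202, 204, 457]) (.leaf [142, 201, 202, 458]))) (.node 235 (.leaf [143, 183, 459])
  (.node 236 (.leaf [143, 201, 460]) (.leaf [145, 169, 170, 461])))) (.node 240 (.node 238
  (.leaf [146, 168, 170, 462]) (.node 239 (.leaf [147, 167, 170, 171, 463]) (.leaf [149, 225,
  464]))) (.node 242 (.node 241 (.leaf [150, 166, 171, 465]) (.leaf [150, 225, 466])) (.node 243
  (.leaf [151, 175, 176, 467]) (.leaf [151, 224, 225, 468]))))) (.node 250 (.node 247 (.node 245
  (.leaf [153, 165, 171, 469]) (.node 246 (.leaf [155, 176, 177, 470]) (.leaf [155, 224, 471])))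
  (.node 248 (.leaf [157, 158, 472]) (.node 249 (.leaf [157, 184, 227, 473]) (.leaf [160, 184,
  185, 474])))) (.node 253 (.node 251 (.leaf [160, 226, 227, 475]) (.node 252 (.leaf [161, 226,
  476]) (.leaf [168, 226, 477]))) (.node 255 (.node 254 (.leaf [170, 230, 478]) (.leaf [171,
  230, 479])) (.node 256 (.leaf [176, 224, 480]) (.leaf [177, 215, 481]))))))) (.node 283 (.node
  270 (.node 263 (.node 260 (.node 258 (.leaf [178, 214, 215, 482]) (.node 259 (.leaf [179, 214,
  483]) (.leaf [180, 213, 214, 484]))) (.node 261 (.leaf [181, 213, 215, 485]) (.node 262 (.leaf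
  [182, 212, 213, 486]) (.leaf [183, 212, 487])))) (.node 266 (.node 264 (.leaf [184, 191, 488])
  (.node 265 (.leaf [189, 219, 489]) (.leaf [190, 218, 219, 490]))) (.node 268 (.node 267 (.leaf
  [191, 192, 218, 491]) (.leaf [192, 194, 217, 492])) (.node 269 (.leaf [193, 217, 219, 493])
  (.leaf [194, 195, 216, 494]))))) (.node 276 (.node 273 (.node 271 (.leaf [195, 495]) (.node
  272 (.leaf [196, 496]) (.leaf [196, 197, 208, 497]))) (.node 274 (.leaf [197, 198, 207, 498])
  (.node 275 (.leaf [199, 206, 207, 499]) (.leaf [200, 206, 500])))) (.node 279 (.node 277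
  (.leaf [201, 211, 501]) (.node 278 (.leaf [202, 210, 211, 502]) (.leaf [203, 210, 503])))
  (.node 281 (.node 280 (.leaf [204, 209, 210, 504]) (.leaf [205, 209, 505])) (.node 282 (.leaf
  [206, 221, 506]) (.leaf [207, 208, 507])))))) (.node 296 (.node 289 (.node 286 (.node 284
  (.leaf [207, 220, 221, 508]) (.node 285 (.leaf [208, 220, 509]) (.leaf [209, 223, 510])))
  (.node 287 (.leaf [210, 222, 223, 511]) (.node 288 (.leaf [211, 222, 512]) (.leaf [212, 231,
  513])))) (.node 292 (.node 290 (.leaf [213, 231, 514]) (.node 291 (.leaf [216, 515]) (.leaf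
  [216, 217, 232, 516]))) (.node 294 (.node 293 (.leaf [217, 218, 517]) (.leaf [220, 228, 518]))
  (.node 295 (.leaf [221, 228, 519]) (.leaf [222, 229, 520]))))) (.node 302 (.node 299 (.node
  297 (.leaf [223, 229, 521]) (.node 298 (.leaf [227, 522]) (.leaf [228, 233, 523]))) (.node 300
  (.leaf [229, 234, 524]) (.node 301 (.leaf [232, 525]) (.leaf [233, 526])))) (.node 305 (.node
  303 (.leaf [234, 527]) (.node 304 (.leaf [0]) (.leaf [1]))) (.node 307 (.node 306 (.leaf [2])
  (.leaf [3])) (.node 308 (.leaf [4]) (.leaf [5])))))))) (.node 360 (.node 334 (.node 321 (.node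
  315 (.node 312 (.node 310 (.leaf [6]) (.node 311 (.leaf [7]) (.leaf [8]))) (.node 313 (.leaf
  [9]) (.node 314 (.leaf [10]) (.leaf [11])))) (.node 318 (.node 316 (.leaf [12]) (.node 317
  (.leaf [13]) (.leaf [14]))) (.node 319 (.leaf [15]) (.node 320 (.leaf [16]) (.leaf [17])))))
  (.node 327 (.node 324 (.node 322 (.leaf [18]) (.node 323 (.leaf [19]) (.leaf [20]))) (.node
  325 (.leaf [21]) (.node 326 (.leaf [22]) (.leaf [23])))) (.node 330 (.node 328 (.leaf [24])
  (.node 329 (.leaf [25]) (.leaf [26]))) (.node 332 (.node 331 (.leaf [27]) (.leaf [28])) (.node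
  333 (.leaf [30]) (.leaf [31])))))) (.node 347 (.node 340 (.node 337 (.node 335 (.leaf [32])
  (.node 336 (.leaf [33]) (.leaf [34]))) (.node 338 (.leaf [35]) (.node 339 (.leaf [36]) (.leaf
  [37])))) (.node 343 (.node 341 (.leaf [38]) (.node 342 (.leaf [39]) (.leaf [40]))) (.node 345
  (.node 344 (.leaf [41]) (.leaf [42])) (.node 346 (.leaf [44]) (.leaf [45]))))) (.node 353
  (.node 350 (.node 348 (.leaf [46]) (.node 349 (.leaf [47]) (.leaf [48]))) (.node 351 (.leaf
  [49]) (.node 352 (.leaf [50]) (.leaf [51])))) (.node 356 (.node 354 (.leaf [52]) (.node 355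
  (.leaf [53]) (.leaf [54]))) (.node 358 (.node 357 (.leaf [55]) (.leaf [56])) (.node 359 (.leaf
  [57]) (.leaf [58]))))))) (.node 386 (.node 373 (.node 366 (.node 363 (.node 361 (.leaf [59])
  (.node 362 (.leaf [60]) (.leaf [61]))) (.node 364 (.leaf [62]) (.node 365 (.leaf [63]) (.leaf
  [64])))) (.node 369 (.node 367 (.leaf [65]) (.node 368 (.leaf [66]) (.leaf [67]))) (.node 371
  (.node 370 (.leaf [68]) (.leaf [69])) (.node 372 (.leaf [70]) (.leaf [71]))))) (.node 379
  (.node 376 (.node 374 (.leaf [72]) (.node 375 (.leaf [73]) (.leaf [74]))) (.node 377 (.leaf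
  [75]) (.node 378 (.leaf [76]) (.leaf [77])))) (.node 382 (.node 380 (.leaf [78]) (.node 381
  (.leaf [79]) (.leaf [80]))) (.node 384 (.node 383 (.leaf [81]) (.leaf [82])) (.node 385 (.leaf
  [83]) (.leaf [84])))))) (.node 399 (.node 392 (.node 389 (.node 387 (.leaf [85]) (.node 388
  (.leaf [86]) (.leaf [87]))) (.node 390 (.leaf [88]) (.node 391 (.leaf [89]) (.leaf [90]))))
  (.node 395 (.node 393 (.leaf [91]) (.node 394 (.leaf [92]) (.leaf [93]))) (.node 397 (.node
  396 (.leaf [94]) (.leaf [95])) (.node 398 (.leaf [96]) (.leaf [97]))))) (.node 405 (.node 402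
  (.node 400 (.leaf [98]) (.node 401 (.leaf [99]) (.leaf [100]))) (.node 403 (.leaf [101])
  (.node 404 (.leaf [102]) (.leaf [103])))) (.node 408 (.node 406 (.leaf [104]) (.node 407
  (.leaf [105]) (.leaf [106]))) (.node 410 (.node 409 (.leaf [107]) (.leaf [108])) (.node 411
  (.leaf [109]) (.leaf [110])))))))))) (.node 618 (.node 515 (.node 463 (.node 437 (.node 424
  (.node 418 (.node 415 (.node 413 (.leaf [111]) (.node 414 (.leaf [112]) (.leaf [113]))) (.node
  416 (.leaf [114]) (.node 417 (.leaf [115]) (.leaf [116])))) (.node 421 (.node 419 (.leaf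
  [117]) (.node 420 (.leaf [118]) (.leaf [119]))) (.node 422 (.leaf [120]) (.node 423 (.leaf
  [121]) (.leaf [122]))))) (.node 430 (.node 427 (.node 425 (.leaf [123]) (.node 426 (.leaf
  [124]) (.leaf [125]))) (.node 428 (.leaf [126]) (.node 429 (.leaf [127]) (.leaf [128]))))
  (.node 433 (.node 431 (.leaf [129]) (.node 432 (.leaf [130]) (.leaf [131]))) (.node 435 (.node
  434 (.leaf [132]) (.leaf [133])) (.node 436 (.leaf [134]) (.leaf [135])))))) (.node 450 (.node
  443 (.node 440 (.node 438 (.leaf [136]) (.node 439 (.leaf [137]) (.leaf [138]))) (.node 441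
  (.leaf [139]) (.node 442 (.leaf [140]) (.leaf [141])))) (.node 446 (.node 444 (.leaf [142])
  (.node 445 (.leaf [143]) (.leaf [145]))) (.node 448 (.node 447 (.leaf [146]) (.leaf [147]))
  (.node 449 (.leaf [148]) (.leaf [149]))))) (.node 456 (.node 453 (.node 451 (.leaf [150])
  (.node 452 (.leaf [151]) (.leaf [152]))) (.node 454 (.leaf [153]) (.node 455 (.leaf [154])
  (.leaf [155])))) (.node 459 (.node 457 (.leaf [156]) (.node 458 (.leaf [157]) (.leaf [158])))
  (.node 461 (.node 460 (.leaf [159]) (.leaf [160])) (.node 462 (.leaf [161]) (.leaf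
  [162]))))))) (.node 489 (.node 476 (.node 469 (.node 466 (.node 464 (.leaf [163]) (.node 465
  (.leaf [165]) (.leaf [166]))) (.node 467 (.leaf [167]) (.node 468 (.leaf [168]) (.leaf
  [169])))) (.node 472 (.node 470 (.leaf [170]) (.node 471 (.leaf [171]) (.leaf [172]))) (.node
  474 (.node 473 (.leaf [173]) (.leaf [174])) (.node 475 (.leaf [175]) (.leaf [176]))))) (.node
  482 (.node 479 (.node 477 (.leaf [177]) (.node 478 (.leaf [178]) (.leaf [179]))) (.node 480
  (.leaf [180]) (.node 481 (.leaf [181]) (.leaf [182])))) (.node 485 (.node 483 (.leaf [183])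
  (.node 484 (.leaf [184]) (.leaf [185]))) (.node 487 (.node 486 (.leaf [186]) (.leaf [187]))
  (.node 488 (.leaf [188]) (.leaf [189])))))) (.node 502 (.node 495 (.node 492 (.node 490 (.leaf
  [190]) (.node 491 (.leaf [191]) (.leaf [192]))) (.node 493 (.leaf [193]) (.node 494 (.leaf
  [194]) (.leaf [195])))) (.node 498 (.node 496 (.leaf [196]) (.node 497 (.leaf [197]) (.leaf
  [198]))) (.node 500 (.node 499 (.leaf [199]) (.leaf [200])) (.node 501 (.leaf [201]) (.leaf
  [202]))))) (.node 508 (.node 505 (.node 503 (.leaf [203]) (.node 504 (.leaf [204]) (.leaf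
  [205]))) (.node 506 (.leaf [206]) (.node 507 (.leaf [207]) (.leaf [208])))) (.node 511 (.node
  509 (.leaf [209]) (.node 510 (.leaf [210]) (.leaf [211]))) (.node 513 (.node 512 (.leaf [212])
  (.leaf [213])) (.node 514 (.leaf [214]) (.leaf [215])))))))) (.node 566 (.node 540 (.node 527
  (.node 521 (.node 518 (.node 516 (.leaf [216]) (.node 517 (.leaf [217]) (.leaf [218]))) (.node
  519 (.leaf [219]) (.node 520 (.leaf [220]) (.leaf [221])))) (.node 524 (.node 522 (.leaf
  [222]) (.node 523 (.leaf [223]) (.leaf [224]))) (.node 525 (.leaf [225]) (.node 526 (.leaf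
  [226]) (.leaf [227]))))) (.node 533 (.node 530 (.node 528 (.leaf [228]) (.node 529 (.leaf
  [229]) (.leaf [230]))) (.node 531 (.leaf [231]) (.node 532 (.leaf [232]) (.leaf [233]))))
  (.node 536 (.node 534 (.leaf [234]) (.node 535 (.leaf [235]) (.leaf [236]))) (.node 538 (.node
  537 (.leaf [237]) (.leaf [238])) (.node 539 (.leaf [239]) (.leaf [240])))))) (.node 553 (.node
  546 (.node 543 (.node 541 (.leaf [241]) (.node 542 (.leaf [242]) (.leaf [243]))) (.node 544
  (.leaf [244]) (.node 545 (.leaf [245]) (.leaf [246])))) (.node 549 (.node 547 (.leaf [247])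
  (.node 548 (.leaf [248]) (.leaf [249]))) (.node 551 (.node 550 (.leaf [250]) (.leaf [251]))
  (.node 552 (.leaf [252]) (.leaf [253]))))) (.node 559 (.node 556 (.node 554 (.leaf [254])
  (.node 555 (.leaf [255]) (.leaf [256]))) (.node 557 (.leaf [257]) (.node 558 (.leaf [258])
  (.leaf [259])))) (.node 562 (.node 560 (.leaf [260]) (.node 561 (.leaf [261]) (.leaf [262])))
  (.node 564 (.node 563 (.leaf [263]) (.leaf [264])) (.node 565 (.leaf [265]) (.leaf
  [266]))))))) (.node 592 (.node 579 (.node 572 (.node 569 (.node 567 (.leaf [267]) (.node 568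
  (.leaf [268]) (.leaf [269]))) (.node 570 (.leaf [270]) (.node 571 (.leaf [271]) (.leaf
  [272])))) (.node 575 (.node 573 (.leaf [273]) (.node 574 (.leaf [274]) (.leaf [275]))) (.node
  577 (.node 576 (.leaf [276]) (.leaf [277])) (.node 578 (.leaf [278]) (.leaf [279]))))) (.node
  585 (.node 582 (.node 580 (.leaf [280]) (.node 581 (.leaf [281]) (.leaf [282]))) (.node 583
  (.leaf [283]) (.node 584 (.leaf [284]) (.leaf [285])))) (.node 588 (.node 586 (.leaf [286])
  (.node 587 (.leaf [287]) (.leaf [288]))) (.node 590 (.node 589 (.leaf [289]) (.leaf [290]))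
  (.node 591 (.leaf [291]) (.leaf [292])))))) (.node 605 (.node 598 (.node 595 (.node 593 (.leaf
  [293]) (.node 594 (.leaf [294]) (.leaf [295]))) (.node 596 (.leaf [296]) (.node 597 (.leaf
  [297]) (.leaf [298])))) (.node 601 (.node 599 (.leaf [299]) (.node 600 (.leaf [300]) (.leaf
  [301]))) (.node 603 (.node 602 (.leaf [302]) (.leaf [303])) (.node 604 (.leaf [304]) (.leaf
  [305]))))) (.node 611 (.node 608 (.node 606 (.leaf [306]) (.node 607 (.leaf [307]) (.leaf
  [308]))) (.node 609 (.leaf [309]) (.node 610 (.leaf [310]) (.leaf [311])))) (.node 614 (.node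
  612 (.leaf [312]) (.node 613 (.leaf [314]) (.leaf [315]))) (.node 616 (.node 615 (.leaf [316])
  (.leaf [317])) (.node 617 (.leaf [318]) (.leaf [319]))))))))) (.node 721 (.node 669 (.node 643
  (.node 630 (.node 624 (.node 621 (.node 619 (.leaf [320]) (.node 620 (.leaf [321]) (.leaf
  [322]))) (.node 622 (.leaf [323]) (.node 623 (.leaf [324]) (.leaf [325])))) (.node 627 (.node
  625 (.leaf [326]) (.node 626 (.leaf [327]) (.leaf [328]))) (.node 628 (.leaf [329]) (.node 629
  (.leaf [330]) (.leaf [331]))))) (.node 636 (.node 633 (.node 631 (.leaf [332]) (.node 632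
  (.leaf [333]) (.leaf [334]))) (.node 634 (.leaf [335]) (.node 635 (.leaf [336]) (.leaf
  [337])))) (.node 639 (.node 637 (.leaf [338]) (.node 638 (.leaf [339]) (.leaf [341]))) (.node
  641 (.node 640 (.leaf [342]) (.leaf [343])) (.node 642 (.leaf [344]) (.leaf [345])))))) (.node
  656 (.node 649 (.node 646 (.node 644 (.leaf [346]) (.node 645 (.leaf [347]) (.leaf [348])))
  (.node 647 (.leaf [349]) (.node 648 (.leaf [350]) (.leaf [351])))) (.node 652 (.node 650
  (.leaf [352]) (.node 651 (.leaf [353]) (.leaf [354]))) (.node 654 (.node 653 (.leaf [355])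
  (.leaf [356])) (.node 655 (.leaf [357]) (.leaf [358]))))) (.node 662 (.node 659 (.node 657
  (.leaf [359]) (.node 658 (.leaf [360]) (.leaf [361]))) (.node 660 (.leaf [362]) (.node 661
  (.leaf [363]) (.leaf [364])))) (.node 665 (.node 663 (.leaf [365]) (.node 664 (.leaf [366])
  (.leaf [367]))) (.node 667 (.node 666 (.leaf [368]) (.leaf [369])) (.node 668 (.leaf [370])
  (.leaf [371]))))))) (.node 695 (.node 682 (.node 675 (.node 672 (.node 670 (.leaf [372])
  (.node 671 (.leaf [373]) (.leaf [374]))) (.node 673 (.leaf [375]) (.node 674 (.leaf [376])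
  (.leaf [377])))) (.node 678 (.node 676 (.leaf [378]) (.node 677 (.leaf [379]) (.leaf [380])))
  (.node 680 (.node 679 (.leaf [381]) (.leaf [382])) (.node 681 (.leaf [383]) (.leaf [384])))))
  (.node 688 (.node 685 (.node 683 (.leaf [385]) (.node 684 (.leaf [386]) (.leaf [387]))) (.node
  686 (.leaf [388]) (.node 687 (.leaf [389]) (.leaf [390])))) (.node 691 (.node 689 (.leaf
  [391]) (.node 690 (.leaf [392]) (.leaf [393]))) (.node 693 (.node 692 (.leaf [394]) (.leaf
  [395])) (.node 694 (.leaf [396]) (.leaf [397])))))) (.node 708 (.node 701 (.node 698 (.node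
  696 (.leaf [398]) (.node 697 (.leaf [399]) (.leaf [400]))) (.node 699 (.leaf [401]) (.node 700
  (.leaf [402]) (.leaf [403])))) (.node 704 (.node 702 (.leaf [404]) (.node 703 (.leaf [405])
  (.leaf [406]))) (.node 706 (.node 705 (.leaf [407]) (.leaf [408])) (.node 707 (.leaf [409])
  (.leaf [410]))))) (.node 714 (.node 711 (.node 709 (.leaf [411]) (.node 710 (.leaf [412])
  (.leaf [413]))) (.node 712 (.leaf [414]) (.node 713 (.leaf [415]) (.leaf [416])))) (.node 717
  (.node 715 (.leaf [417]) (.node 716 (.leaf [418]) (.leaf [419]))) (.node 719 (.node 718 (.leaf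
  [420]) (.leaf [421])) (.node 720 (.leaf [422]) (.leaf [423])))))))) (.node 773 (.node 747
  (.node 734 (.node 727 (.node 724 (.node 722 (.leaf [424]) (.node 723 (.leaf [425]) (.leaf
  [426]))) (.node 725 (.leaf [427]) (.node 726 (.leaf [428]) (.leaf [429])))) (.node 730 (.node
  728 (.leaf [430]) (.node 729 (.leaf [431]) (.leaf [432]))) (.node 732 (.node 731 (.leaf [433])
  (.leaf [434])) (.node 733 (.leaf [435]) (.leaf [436]))))) (.node 740 (.node 737 (.node 735
  (.leaf [437]) (.node 736 (.leaf [438]) (.leaf [439]))) (.node 738 (.leaf [440]) (.node 739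
  (.leaf [441]) (.leaf [442])))) (.node 743 (.node 741 (.leaf [443]) (.node 742 (.leaf [444])
  (.leaf [445]))) (.node 745 (.node 744 (.leaf [446]) (.leaf [447])) (.node 746 (.leaf [448])
  (.leaf [449])))))) (.node 760 (.node 753 (.node 750 (.node 748 (.leaf [450]) (.node 749 (.leaf
  [451]) (.leaf [452]))) (.node 751 (.leaf [453]) (.node 752 (.leaf [454]) (.leaf [455]))))
  (.node 756 (.node 754 (.leaf [456]) (.node 755 (.leaf [457]) (.leaf [458]))) (.node 758 (.node
  757 (.leaf [459]) (.leaf [460])) (.node 759 (.leaf [461]) (.leaf [462]))))) (.node 766 (.node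
  763 (.node 761 (.leaf [463]) (.node 762 (.leaf [464]) (.leaf [465]))) (.node 764 (.leaf [466])
  (.node 765 (.leaf [467]) (.leaf [468])))) (.node 769 (.node 767 (.leaf [469]) (.node 768
  (.leaf [470]) (.leaf [471]))) (.node 771 (.node 770 (.leaf [472]) (.leaf [473])) (.node 772
  (.leaf [474]) (.leaf [475]))))))) (.node 799 (.node 786 (.node 779 (.node 776 (.node 774
  (.leaf [476]) (.node 775 (.leaf [477]) (.leaf [478]))) (.node 777 (.leaf [479]) (.node 778
  (.leaf [480]) (.leaf [481])))) (.node 782 (.node 780 (.leaf [482]) (.node 781 (.leaf [483])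
  (.leaf [484]))) (.node 784 (.node 783 (.leaf [485]) (.leaf [486])) (.node 785 (.leaf [487])
  (.leaf [488]))))) (.node 792 (.node 789 (.node 787 (.leaf [489]) (.node 788 (.leaf [490])
  (.leaf [491]))) (.node 790 (.leaf [492]) (.node 791 (.leaf [493]) (.leaf [494])))) (.node 795
  (.node 793 (.leaf [495]) (.node 794 (.leaf [496]) (.leaf [497]))) (.node 797 (.node 796 (.leaf
  [498]) (.leaf [499])) (.node 798 (.leaf [500]) (.leaf [501])))))) (.node 812 (.node 805 (.node
  802 (.node 800 (.leaf [502]) (.node 801 (.leaf [503]) (.leaf [504]))) (.node 803 (.leaf [505])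
  (.node 804 (.leaf [506]) (.leaf [507])))) (.node 808 (.node 806 (.leaf [508]) (.node 807
  (.leaf [509]) (.leaf [510]))) (.node 810 (.node 809 (.leaf [511]) (.leaf [512])) (.node 811
  (.leaf [513]) (.leaf [514]))))) (.node 818 (.node 815 (.node 813 (.leaf [515]) (.node 814
  (.leaf [516]) (.leaf [517]))) (.node 816 (.leaf [518]) (.node 817 (.leaf [519]) (.leaf
  [520])))) (.node 821 (.node 819 (.leaf [521]) (.node 820 (.leaf [522]) (.leaf [523]))) (.node
  823 (.node 822 (.leaf [524]) (.leaf [525])) (.node 824 (.leaf [526]) (.leaf [527])))))))))))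

/-- Level data (lower covers). -/
def J0 : RT (List ℕ) :=
(.leaf [0])

theorem loc0 : stepOK 1 1 l0 nd1a.low J0 l0 = true := by
  decide +kernel

/-- Level data (lower covers). -/
def J1 : RT (List ℕ) :=
(.leaf [0, 1])

theorem loc1 : stepOK 1 2 nd1a.low nd2a.low J1 J0 = true := by
  decide +kernel

/-- Level data (lower covers). -/
def J2 : RT (List ℕ) :=
(.node 1 (.leaf [0, 1]) (.leaf [0, 2]))

theorem loc2 : stepOK 2 3 nd2a.low nd3a.low J2 J1 = true := by
  decide +kernel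

/-- Level data (lower covers). -/
def J3 : RT (List ℕ) :=
(.node 1 (.leaf [0, 1, 2]) (.node 2 (.leaf [0, 3]) (.leaf [1, 4])))

theorem loc3 : stepOK 3 5 nd3a.low nd4a.low J3 J2 = true := by
  decide +kernel

/-- Level data (lower covers). -/
def J4 : RT (List ℕ) :=
(.node 2 (.node 1 (.leaf [0, 2, 3]) (.leaf [0, 1, 4])) (.node 3 (.leaf [1, 2]) (.node 4 (.leaf
  [3, 5]) (.leaf [4, 6]))))

theorem loc4 : stepOK 5 7 nd4a.low nd5a.low J4 J3 = true := by
  decide +kernel

/-- Level data (lower covers). -/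
def J5 : RT (List ℕ) :=
(.node 3 (.node 1 (.leaf [0, 2, 4]) (.node 2 (.leaf [0, 3, 7]) (.leaf [0, 1, 8]))) (.node 5
  (.node 4 (.leaf [1, 2, 5]) (.leaf [3, 4, 6])) (.node 6 (.leaf [5, 9]) (.leaf [6, 10]))))

theorem loc5 : stepOK 7 11 nd5a.low nd6c.low J5 J4 = true := by
  decide +kernel

/-- Level data (lower covers). -/
def J6 : RT (List ℕ) :=
(.node 5 (.node 2 (.node 1 (.leaf [0, 1, 8, 10]) (.leaf [0, 4, 9])) (.node 3 (.leaf [0, 2, 3])
  (.node 4 (.leaf [1, 6, 7]) (.leaf [1, 2, 5])))) (.node 8 (.node 6 (.leaf [3, 4, 11]) (.node 7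
  (.leaf [5, 6, 12]) (.leaf [7, 8]))) (.node 9 (.leaf [9, 10]) (.node 10 (.leaf [11, 13]) (.leaf
  [12, 14])))))

theorem loc6 : stepOK 11 15 nd6c.low nd7a.low J6 J5 = true := by
  decide +kernel

/-- Level data (lower covers). -/
def J7 : RT (List ℕ) :=
(.node 7 (.node 3 (.node 1 (.leaf [0, 2, 7, 9]) (.node 2 (.leaf [0, 4, 6, 11]) (.leaf [0, 1,
  3]))) (.node 5 (.node 4 (.leaf [1, 2, 13]) (.leaf [2, 8, 12])) (.node 6 (.leaf [3, 4, 15])
  (.leaf [4, 5, 14])))) (.node 11 (.node 9 (.node 8 (.leaf [5, 6, 18]) (.leaf [6, 7, 10]))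
  (.node 10 (.leaf [8, 9, 19]) (.leaf [9, 10, 11]))) (.node 13 (.node 12 (.leaf [12, 13, 16])
  (.leaf [14, 15, 17])) (.node 14 (.leaf [16, 20]) (.leaf [17, 21])))))

theorem loc7 : stepOK 15 22 nd7a.low nd8c.low J7 J6 = true := by
  decide +kernel

/-- Level data (lower covers). -/
def J8 : RT (List ℕ) :=
(.node 11 (.node 5 (.node 2 (.node 1 (.leaf [0, 2, 4, 9]) (.leaf [0, 1, 13])) (.node 3 (.leaf
  [0, 5, 6, 12]) (.node 4 (.leaf [1, 2, 16]) (.leaf [2, 3, 10, 15])))) (.node 8 (.node 6 (.leaf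
  [3, 14, 22]) (.node 7 (.leaf [3, 4, 8, 21]) (.leaf [4, 5, 7]))) (.node 9 (.leaf [6, 11, 24])
  (.node 10 (.leaf [6, 7, 9, 23]) (.leaf [7, 8, 27]))))) (.node 16 (.node 13 (.node 12 (.leaf
  [8, 9, 10]) (.leaf [11, 12, 18])) (.node 14 (.leaf [12, 13, 17]) (.node 15 (.leaf [14, 15,
  20]) (.leaf [15, 16, 19])))) (.node 19 (.node 17 (.leaf [17, 18, 25]) (.node 18 (.leaf [19,
  20, 26]) (.leaf [21, 22]))) (.node 20 (.leaf [23, 24]) (.node 21 (.leaf [25, 28]) (.leaf [26,
  29]))))))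

theorem loc8 : stepOK 22 30 nd8c.low nd9l.low J8 J7 = true := by
  decide +kernel

/-- Level data (lower covers). -/
def J9 : RT (List ℕ) :=
(.node 15 (.node 7 (.node 3 (.node 1 (.leaf [0, 2, 5, 10]) (.node 2 (.leaf [0, 11, 15]) (.leaf
  [0, 1, 6, 14]))) (.node 5 (.node 4 (.leaf [1, 7, 12, 24]) (.leaf [1, 2, 4, 23])) (.node 6
  (.leaf [2, 3, 9]) (.leaf [3, 5, 8, 28])))) (.node 11 (.node 9 (.node 8 (.leaf [3, 4, 27, 35])
  (.leaf [4, 7, 22, 34])) (.node 10 (.leaf [4, 5, 6, 26]) (.leaf [6, 7, 13]))) (.node 13 (.node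
  12 (.leaf [8, 18, 29]) (.leaf [8, 9, 10, 17])) (.node 14 (.leaf [10, 11, 16]) (.leaf [12, 21,
  25]))))) (.node 22 (.node 18 (.node 16 (.leaf [12, 13, 14, 20]) (.node 17 (.leaf [14, 15, 19])
  (.leaf [16, 17, 31]))) (.node 20 (.node 19 (.leaf [17, 18, 30]) (.leaf [19, 20, 33])) (.node
  21 (.leaf [20, 21, 32]) (.leaf [22, 23, 24])))) (.node 26 (.node 24 (.node 23 (.leaf [24, 25,
  38]) (.leaf [26, 27, 28])) (.node 25 (.leaf [28, 29, 39]) (.leaf [30, 31, 36]))) (.node 28
  (.node 27 (.leaf [32, 33, 37]) (.leaf [34, 35])) (.node 29 (.leaf [36, 40]) (.leaf [37,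
  41]))))))

theorem loc9 : stepOK 30 42 nd9l.low nd10o.low J9 J8 = true := by
  decide +kernel

/-- Level data (lower covers). -/
def J10 : RT (List ℕ) :=
(.node 21 (.node 10 (.node 5 (.node 2 (.node 1 (.leaf [0, 2, 7, 11]) (.leaf [0, 3, 10, 23]))
  (.node 3 (.leaf [0, 1, 5, 22]) (.node 4 (.leaf [1, 4, 29, 43]) (.leaf [1, 3, 21, 28, 41]))))
  (.node 7 (.node 6 (.leaf [1, 2, 6, 30]) (.leaf [2, 3, 9, 27])) (.node 8 (.leaf [3, 8, 24, 40])
  (.node 9 (.leaf [4, 6, 16, 31]) (.leaf [4, 5, 15]))))) (.node 15 (.node 12 (.node 11 (.leaf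
  [5, 6, 7, 14]) (.leaf [7, 12, 13])) (.node 13 (.leaf [8, 10, 20, 25]) (.node 14 (.leaf [8, 9,
  19]) (.leaf [9, 10, 11, 18])))) (.node 18 (.node 16 (.leaf [11, 12, 17]) (.node 17 (.leaf [13,
  14, 35]) (.leaf [14, 15, 16, 34]))) (.node 19 (.leaf [16, 32, 33]) (.node 20 (.leaf [17, 18,
  38]) (.leaf [18, 19, 20, 37])))))) (.node 31 (.node 26 (.node 23 (.node 22 (.leaf [20, 26,
  36]) (.leaf [21, 24, 39])) (.node 24 (.leaf [21, 22, 23]) (.node 25 (.leaf [23, 24, 25, 49])
  (.leaf [25, 26, 48])))) (.node 28 (.node 27 (.leaf [27, 28, 30]) (.leaf [28, 29, 42])) (.node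
  29 (.leaf [29, 30, 31, 51]) (.node 30 (.leaf [31, 32, 50]) (.leaf [33, 34, 45]))))) (.node 36
  (.node 33 (.node 32 (.leaf [34, 35, 44]) (.leaf [36, 37, 47])) (.node 34 (.leaf [37, 38, 46])
  (.node 35 (.leaf [39, 40, 41]) (.leaf [41, 42, 43])))) (.node 39 (.node 37 (.leaf [44, 45,
  52]) (.node 38 (.leaf [46, 47, 53]) (.leaf [48, 49]))) (.node 40 (.leaf [50, 51]) (.node 41
  (.leaf [52, 54]) (.leaf [53, 55])))))))

theorem loc10 : stepOK 42 56 nd10o.low nd11a.low J10 J9 = true := by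
  decide +kernel

/-- Level data (lower covers). -/
def J11 : RT (List ℕ) :=
(.node 28 (.node 14 (.node 7 (.node 3 (.node 1 (.leaf [0, 3, 5, 20]) (.node 2 (.leaf [0, 1, 18,
  28, 49]) (.leaf [0, 2, 6, 29]))) (.node 5 (.node 4 (.leaf [0, 4, 21, 26, 45]) (.leaf [1, 11,
  31, 50])) (.node 6 (.leaf [1, 3, 10, 19]) (.leaf [1, 2, 12, 30])))) (.node 10 (.node 8 (.leaf
  [2, 3, 7, 9]) (.node 9 (.leaf [4, 16, 22, 44]) (.leaf [4, 6, 15, 25]))) (.node 12 (.node 11
  (.leaf [4, 5, 17, 23]) (.leaf [5, 6, 7, 14])) (.node 13 (.leaf [7, 8, 13]) (.leaf [8, 9,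
  37]))))) (.node 21 (.node 17 (.node 15 (.leaf [9, 10, 12, 36]) (.node 16 (.leaf [10, 11, 35])
  (.leaf [11, 12, 32, 34]))) (.node 19 (.node 18 (.leaf [13, 14, 42]) (.leaf [14, 15, 17, 41]))
  (.node 20 (.leaf [15, 16, 40]) (.leaf [16, 17, 24, 39])))) (.node 24 (.node 22 (.leaf [18, 21,
  27, 46]) (.node 23 (.leaf [18, 19, 20]) (.leaf [20, 21, 23, 60]))) (.node 26 (.node 25 (.leaf
  [21, 22, 43, 59]) (.leaf [22, 23, 24, 58])) (.node 27 (.leaf [24, 38, 57]) (.leaf [25, 26,
  29])))))) (.node 42 (.node 35 (.node 31 (.node 29 (.leaf [26, 27, 28, 47]) (.node 30 (.leaf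
  [28, 31, 48, 64]) (.leaf [28, 29, 30, 63]))) (.node 33 (.node 32 (.leaf [30, 31, 32, 62])
  (.leaf [32, 33, 61])) (.node 34 (.leaf [33, 34, 53]) (.leaf [34, 35, 36, 52])))) (.node 38
  (.node 36 (.leaf [36, 37, 51]) (.node 37 (.leaf [38, 39, 56]) (.leaf [39, 40, 41, 55])))
  (.node 40 (.node 39 (.leaf [41, 42, 54]) (.leaf [43, 46, 71])) (.node 41 (.leaf [43, 44, 45])
  (.leaf [45, 46, 47, 49]))))) (.node 49 (.node 45 (.node 43 (.leaf [47, 48, 72]) (.node 44
  (.leaf [48, 49, 50]) (.leaf [51, 52, 66]))) (.node 47 (.node 46 (.leaf [52, 53, 65]) (.leaf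
  [54, 55, 68])) (.node 48 (.leaf [55, 56, 67]) (.leaf [57, 58, 73])))) (.node 52 (.node 50
  (.leaf [58, 59, 60]) (.node 51 (.leaf [61, 62, 74]) (.leaf [62, 63, 64]))) (.node 54 (.node 53
  (.leaf [65, 66, 69]) (.leaf [67, 68, 70])) (.node 55 (.leaf [69, 75]) (.leaf [70, 76])))))))

theorem loc11 : stepOK 56 77 nd11a.low nd12b.low J11 J10 = true := by
  decide +kernel

/-- Level data (lower covers). -/
def J12 : RT (List ℕ) :=
(.node 38 (.node 19 (.node 9 (.node 4 (.node 2 (.node 1 (.leaf [0, 1, 16, 25, 51]) (.leaf [0, 6,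
  13, 28, 52])) (.node 3 (.leaf [0, 2, 7, 27]) (.leaf [0, 3, 5, 15]))) (.node 6 (.node 5 (.leaf
  [1, 11, 17, 22, 45]) (.leaf [1, 3, 12, 18])) (.node 7 (.leaf [1, 2, 10, 26]) (.node 8 (.leaf
  [2, 3, 4, 9]) (.leaf [4, 8, 36]))))) (.node 14 (.node 11 (.node 10 (.leaf [4, 5, 7, 35])
  (.leaf [5, 6, 14, 33])) (.node 12 (.leaf [6, 29, 32, 54]) (.node 13 (.leaf [6, 7, 30, 34])
  (.leaf [8, 9, 42])))) (.node 16 (.node 15 (.leaf [9, 10, 12, 41]) (.leaf [10, 11, 21, 39]))
  (.node 17 (.leaf [11, 20, 38, 44]) (.node 18 (.leaf [11, 12, 19, 40]) (.leaf [13, 16, 24,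
  50])))))) (.node 28 (.node 23 (.node 21 (.node 20 (.leaf [13, 14, 15]) (.leaf [15, 16, 18,
  71])) (.node 22 (.leaf [16, 17, 23, 46, 69]) (.leaf [17, 20, 43, 67]))) (.node 25 (.node 24
  (.leaf [17, 18, 19, 70]) (.leaf [19, 20, 37, 66])) (.node 26 (.leaf [21, 22, 26]) (.node 27
  (.leaf [22, 23, 25, 48]) (.leaf [23, 24, 47]))))) (.node 33 (.node 30 (.node 29 (.leaf [24,
  25, 28, 49, 76]) (.leaf [25, 26, 27, 75])) (.node 31 (.leaf [27, 28, 30, 74]) (.node 32 (.leaf
  [28, 29, 53, 77]) (.leaf [29, 30, 31, 73])))) (.node 35 (.node 34 (.leaf [31, 59, 72]) (.leaf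
  [31, 32, 34, 58])) (.node 36 (.leaf [32, 33, 57]) (.node 37 (.leaf [33, 34, 35, 56]) (.leaf
  [35, 36, 55]))))))) (.node 57 (.node 47 (.node 42 (.node 40 (.node 39 (.leaf [37, 64, 65])
  (.leaf [37, 38, 40, 63])) (.node 41 (.leaf [38, 39, 62]) (.leaf [39, 40, 41, 61]))) (.node 44
  (.node 43 (.leaf [41, 42, 60]) (.leaf [43, 46, 68, 90])) (.node 45 (.leaf [43, 44, 45]) (.node
  46 (.leaf [45, 46, 48, 51]) (.leaf [46, 47, 50, 89]))))) (.node 52 (.node 49 (.node 48 (.leaf
  [47, 48, 49, 92]) (.leaf [49, 53, 78, 91])) (.node 50 (.leaf [49, 50, 51, 52]) (.node 51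
  (.leaf [52, 53, 54]) (.leaf [55, 56, 81])))) (.node 54 (.node 53 (.leaf [56, 57, 58, 80])
  (.leaf [58, 59, 79])) (.node 55 (.leaf [60, 61, 84]) (.node 56 (.leaf [61, 62, 63, 83]) (.leaf
  [63, 64, 82])))))) (.node 67 (.node 62 (.node 59 (.node 58 (.leaf [65, 66, 94]) (.leaf [66,
  67, 70, 93])) (.node 60 (.leaf [67, 68, 69]) (.node 61 (.leaf [69, 70, 71]) (.leaf [72, 73,
  96])))) (.node 64 (.node 63 (.leaf [73, 74, 77, 95]) (.leaf [74, 75, 76])) (.node 65 (.leaf
  [76, 77, 78]) (.node 66 (.leaf [79, 80, 86]) (.leaf [80, 81, 85]))))) (.node 72 (.node 69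
  (.node 68 (.leaf [82, 83, 88]) (.leaf [83, 84, 87])) (.node 70 (.leaf [85, 86, 97]) (.node 71
  (.leaf [87, 88, 98]) (.leaf [89, 90])))) (.node 74 (.node 73 (.leaf [91, 92]) (.leaf [93,
  94])) (.node 75 (.leaf [95, 96]) (.node 76 (.leaf [97, 99]) (.leaf [98, 100]))))))))

theorem loc12 : stepOK 77 101 nd12b.low nd13a.low J12 J11 = true := by
  decide +kernel

/-- Level data (lower covers). -/
def J13 : RT (List ℕ) :=
(.node 50 (.node 25 (.node 12 (.node 6 (.node 3 (.node 1 (.leaf [0, 2, 10, 21, 51]) (.node 2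
  (.leaf [0, 6, 11, 18, 50]) (.leaf [0, 3, 5, 20]))) (.node 4 (.leaf [0, 1, 7, 12]) (.node 5
  (.leaf [1, 3, 4, 31]) (.leaf [1, 2, 9, 30])))) (.node 9 (.node 7 (.leaf [2, 8, 23, 27, 55])
  (.node 8 (.leaf [2, 3, 24, 29]) (.leaf [4, 32, 40]))) (.node 10 (.leaf [4, 5, 7, 39]) (.node
  11 (.leaf [5, 6, 19, 38]) (.leaf [6, 14, 15, 35, 43]))))) (.node 18 (.node 15 (.node 13 (.leaf
  [6, 7, 13, 37]) (.node 14 (.leaf [8, 10, 22, 52]) (.leaf [8, 9, 26]))) (.node 16 (.leaf [9,
  10, 12, 79]) (.node 17 (.leaf [10, 11, 17, 48, 78]) (.leaf [11, 14, 16, 44, 75])))) (.node 21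
  (.node 19 (.leaf [11, 12, 13, 77]) (.node 20 (.leaf [13, 14, 36, 76]) (.leaf [14, 33, 41,
  71]))) (.node 23 (.node 22 (.leaf [15, 19, 34]) (.leaf [15, 16, 18, 46])) (.node 24 (.leaf
  [16, 17, 45, 74]) (.leaf [17, 22, 47, 86])))))) (.node 37 (.node 31 (.node 28 (.node 26 (.leaf
  [17, 18, 21, 49, 85]) (.node 27 (.leaf [18, 19, 20, 84]) (.leaf [20, 21, 24, 83]))) (.node 29
  (.leaf [21, 22, 23, 53, 87]) (.node 30 (.leaf [23, 25, 54, 88]) (.leaf [23, 24, 28, 82]))))
  (.node 34 (.node 32 (.leaf [25, 28, 62, 81]) (.node 33 (.leaf [25, 27, 56, 60]) (.leaf [26,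
  27, 30, 59]))) (.node 35 (.leaf [27, 28, 29, 61]) (.node 36 (.leaf [29, 30, 31, 58]) (.leaf
  [31, 32, 57]))))) (.node 43 (.node 40 (.node 38 (.leaf [33, 36, 68, 70]) (.node 39 (.leaf [33,
  35, 42, 66]) (.leaf [34, 35, 38, 65]))) (.node 41 (.leaf [35, 36, 37, 67]) (.node 42 (.leaf
  [37, 38, 39, 64]) (.leaf [39, 40, 63])))) (.node 46 (.node 44 (.leaf [41, 44, 72, 111]) (.node
  45 (.leaf [41, 42, 43]) (.leaf [43, 44, 46, 50]))) (.node 48 (.node 47 (.leaf [44, 45, 48, 73,
  109]) (.leaf [45, 47, 108, 116])) (.node 49 (.leaf [45, 46, 49, 115]) (.leaf [47, 49, 53, 90,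
  114]))))))) (.node 75 (.node 62 (.node 56 (.node 53 (.node 51 (.leaf [47, 48, 52, 107]) (.node
  52 (.leaf [48, 49, 50, 51]) (.leaf [51, 52, 53, 55]))) (.node 54 (.leaf [53, 54, 89, 113])
  (.node 55 (.leaf [54, 55, 56]) (.leaf [57, 58, 95])))) (.node 59 (.node 57 (.leaf [58, 59, 61,
  94]) (.node 58 (.leaf [59, 60, 93]) (.leaf [60, 61, 62, 92]))) (.node 60 (.leaf [62, 80, 91])
  (.node 61 (.leaf [63, 64, 100]) (.leaf [64, 65, 67, 99]))))) (.node 68 (.node 65 (.node 63
  (.leaf [65, 66, 98]) (.node 64 (.leaf [66, 67, 68, 97]) (.leaf [68, 69, 96]))) (.node 66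
  (.leaf [69, 70, 120]) (.node 67 (.leaf [70, 71, 76, 119]) (.leaf [71, 72, 75, 118])))) (.node
  71 (.node 69 (.leaf [72, 73, 110]) (.node 70 (.leaf [73, 74, 75, 78]) (.leaf [75, 76, 77,
  117]))) (.node 73 (.node 72 (.leaf [77, 78, 79]) (.leaf [80, 81, 124])) (.node 74 (.leaf [81,
  82, 88, 123]) (.leaf [82, 83, 87, 122])))))) (.node 88 (.node 81 (.node 78 (.node 76 (.leaf
  [83, 84, 85]) (.node 77 (.leaf [85, 86, 87, 90]) (.leaf [87, 88, 89, 121]))) (.node 79 (.leaf
  [89, 90, 112]) (.node 80 (.leaf [91, 92, 103]) (.leaf [92, 93, 94, 102])))) (.node 84 (.node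
  82 (.leaf [94, 95, 101]) (.node 83 (.leaf [96, 97, 106]) (.leaf [97, 98, 99, 105]))) (.node 86
  (.node 85 (.leaf [99, 100, 104]) (.leaf [101, 102, 126])) (.node 87 (.leaf [102, 103, 125])
  (.leaf [104, 105, 128]))))) (.node 94 (.node 91 (.node 89 (.leaf [105, 106, 127]) (.node 90
  (.leaf [107, 108, 109]) (.leaf [109, 110, 111]))) (.node 92 (.leaf [112, 113, 114]) (.node 93
  (.leaf [114, 115, 116]) (.leaf [117, 118, 119])))) (.node 97 (.node 95 (.leaf [119, 120, 131])
  (.node 96 (.leaf [121, 122, 123]) (.leaf [123, 124, 132]))) (.node 99 (.node 98 (.leaf [125,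
  126, 129]) (.leaf [127, 128, 130])) (.node 100 (.leaf [129, 133]) (.leaf [130, 134]))))))))

theorem loc13 : stepOK 101 135 nd13a.low nd14a.low J13 J12 = true := by
  decide +kernel

/-- Level data (lower covers). -/
def J14 : RT (List ℕ) :=
(.node 67 (.node 33 (.node 16 (.node 8 (.node 4 (.node 2 (.node 1 (.leaf [0, 2, 5, 13, 44])
  (.leaf [0, 3, 6, 23])) (.node 3 (.leaf [0, 4, 16, 21, 50]) (.leaf [0, 1, 17, 24]))) (.node 6
  (.node 5 (.leaf [1, 3, 25, 33]) (.leaf [1, 2, 12, 31])) (.node 7 (.leaf [2, 8, 11, 29, 43])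
  (.leaf [2, 3, 7, 32])))) (.node 12 (.node 10 (.node 9 (.leaf [4, 15, 18, 49]) (.leaf [4, 6,
  22, 85])) (.node 11 (.leaf [4, 5, 14, 45, 83]) (.leaf [5, 8, 10, 42, 80]))) (.node 14 (.node
  13 (.leaf [5, 6, 7, 84]) (.leaf [7, 8, 28, 79])) (.node 15 (.leaf [8, 9, 27, 37, 77]) (.leaf
  [9, 11, 26, 39]))))) (.node 24 (.node 20 (.node 18 (.node 17 (.leaf [9, 10, 38, 75]) (.leaf
  [10, 14, 40, 81, 92])) (.node 19 (.leaf [10, 11, 13, 41, 91]) (.leaf [11, 12, 30, 90])))
  (.node 22 (.node 21 (.leaf [12, 13, 17, 89]) (.leaf [13, 14, 16, 47, 94])) (.node 23 (.leaf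
  [14, 15, 46, 93]) (.leaf [15, 16, 19, 48, 95])))) (.node 28 (.node 26 (.node 25 (.leaf [16,
  17, 20, 88]) (.leaf [19, 52, 61, 96])) (.node 27 (.leaf [18, 22, 56]) (.leaf [18, 19, 21, 51,
  58]))) (.node 30 (.node 29 (.leaf [19, 20, 60, 87]) (.leaf [20, 21, 24, 59])) (.node 31 (.leaf
  [21, 22, 23, 55]) (.node 32 (.leaf [23, 24, 25, 54]) (.leaf [25, 34, 53]))))))) (.node 50
  (.node 41 (.node 37 (.node 35 (.node 34 (.leaf [27, 35, 70, 72]) (.leaf [26, 30, 65])) (.node
  36 (.leaf [26, 27, 29, 36, 67]) (.leaf [27, 28, 69, 78]))) (.node 39 (.node 38 (.leaf [28, 29,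
  32, 68]) (.leaf [29, 30, 31, 64])) (.node 40 (.leaf [31, 32, 33, 63]) (.leaf [33, 34, 62]))))
  (.node 45 (.node 43 (.node 42 (.leaf [35, 37, 73, 132]) (.leaf [35, 36, 66])) (.node 44 (.leaf
  [36, 37, 39, 43]) (.leaf [37, 38, 42, 76, 131]))) (.node 47 (.node 46 (.leaf [38, 40, 74, 127,
  139]) (.leaf [38, 39, 41, 138])) (.node 48 (.leaf [40, 46, 99, 126, 140]) (.node 49 (.leaf
  [40, 42, 45, 82, 128]) (.leaf [40, 41, 47, 100, 137])))))) (.node 58 (.node 54 (.node 52
  (.node 51 (.leaf [41, 42, 43, 44]) (.leaf [44, 45, 47, 50])) (.node 53 (.leaf [45, 46, 49,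
  125]) (.leaf [46, 47, 48, 98, 135]))) (.node 56 (.node 55 (.leaf [48, 52, 97, 134]) (.leaf
  [48, 49, 50, 51])) (.node 57 (.leaf [51, 52, 57]) (.leaf [53, 54, 107])))) (.node 62 (.node 60
  (.node 59 (.leaf [54, 55, 59, 106]) (.leaf [55, 56, 58, 104])) (.node 61 (.leaf [57, 58, 61,
  103]) (.leaf [58, 59, 60, 105]))) (.node 64 (.node 63 (.leaf [60, 61, 86, 102]) (.leaf [62,
  63, 114])) (.node 65 (.leaf [63, 64, 68, 113]) (.node 66 (.leaf [64, 65, 67, 111]) (.leaf [66,
  67, 70, 110])))))))) (.node 101 (.node 84 (.node 75 (.node 71 (.node 69 (.node 68 (.leaf [67,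
  68, 69, 112]) (.leaf [69, 70, 71, 109])) (.node 70 (.leaf [71, 108, 148]) (.leaf [71, 72, 78,
  147]))) (.node 73 (.node 72 (.leaf [72, 73, 77, 145]) (.leaf [73, 76, 130, 144])) (.node 74
  (.leaf [74, 76, 82, 129]) (.leaf [74, 75, 81])))) (.node 79 (.node 77 (.node 76 (.leaf [75,
  76, 77, 80, 143]) (.leaf [77, 78, 79, 146])) (.node 78 (.leaf [79, 80, 84, 142]) (.leaf [80,
  81, 82, 83]))) (.node 81 (.node 80 (.leaf [83, 84, 85]) (.leaf [86, 101, 155])) (.node 82
  (.leaf [86, 87, 96, 154]) (.node 83 (.leaf [87, 88, 95, 152]) (.leaf [88, 89, 94, 151]))))))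
  (.node 92 (.node 88 (.node 86 (.node 85 (.leaf [89, 90, 91]) (.leaf [91, 92, 94, 100])) (.node
  87 (.leaf [92, 93, 99]) (.leaf [93, 94, 95, 98, 150]))) (.node 90 (.node 89 (.leaf [95, 96,
  97, 153]) (.leaf [97, 98, 133, 149])) (.node 91 (.leaf [98, 99, 100, 136]) (.leaf [101, 102,
  119])))) (.node 96 (.node 94 (.node 93 (.leaf [102, 103, 105, 118]) (.leaf [103, 104, 117]))
  (.node 95 (.leaf [104, 105, 106, 116]) (.leaf [106, 107, 115]))) (.node 98 (.node 97 (.leaf
  [108, 109, 124]) (.leaf [109, 110, 112, 123])) (.node 99 (.leaf [110, 111, 122]) (.node 100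
  (.leaf [111, 112, 113, 121]) (.leaf [113, 114, 120]))))))) (.node 118 (.node 109 (.node 105
  (.node 103 (.node 102 (.leaf [115, 116, 158]) (.leaf [116, 117, 118, 157])) (.node 104 (.leaf
  [118, 119, 156]) (.leaf [120, 121, 161]))) (.node 107 (.node 106 (.leaf [121, 122, 123, 160])
  (.leaf [123, 124, 159])) (.node 108 (.leaf [125, 126, 128]) (.leaf [126, 127, 141])))) (.node
  113 (.node 111 (.node 110 (.leaf [127, 128, 129, 131]) (.leaf [129, 130, 172])) (.node 112
  (.leaf [130, 131, 132]) (.leaf [133, 136, 173]))) (.node 115 (.node 114 (.leaf [133, 134,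
  135]) (.leaf [135, 136, 137, 140])) (.node 116 (.leaf [137, 138, 139]) (.node 117 (.leaf [139,
  140, 141]) (.leaf [142, 143, 146])))))) (.node 126 (.node 122 (.node 120 (.node 119 (.leaf
  [143, 144, 145]) (.leaf [145, 146, 147, 167])) (.node 121 (.leaf [147, 148, 166]) (.leaf [149,
  150, 153]))) (.node 124 (.node 123 (.leaf [150, 151, 152]) (.leaf [152, 153, 154, 169]))
  (.node 125 (.leaf [154, 155, 168]) (.leaf [156, 157, 163])))) (.node 130 (.node 128 (.node 127
  (.leaf [157, 158, 162]) (.leaf [159, 160, 165])) (.node 129 (.leaf [160, 161, 164]) (.leaf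
  [162, 163, 170]))) (.node 132 (.node 131 (.leaf [164, 165, 171]) (.leaf [166, 167])) (.node
  133 (.leaf [168, 169]) (.node 134 (.leaf [170, 174]) (.leaf [171, 175])))))))))

theorem loc14 : stepOK 135 176 nd14a.low nd15a.low J14 J13 = true := by
  decide +kernel

/-- Level data (lower covers). -/
def J15 : RT (List ℕ) :=
(.node 88 (.node 44 (.node 22 (.node 11 (.node 5 (.node 2 (.node 1 (.leaf [0, 1, 8, 14, 41])
  (.leaf [0, 9, 16, 25])) (.node 3 (.leaf [0, 3, 5, 22, 34]) (.node 4 (.leaf [0, 2, 17, 24])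
  (.leaf [1, 7, 12, 39, 84])))) (.node 8 (.node 6 (.leaf [1, 3, 6, 35, 81]) (.node 7 (.leaf [1,
  2, 13, 83]) (.leaf [2, 3, 23, 82]))) (.node 9 (.leaf [3, 4, 19, 31, 75]) (.node 10 (.leaf [4,
  18, 28, 71]) (.leaf [4, 6, 30, 76, 92]))))) (.node 16 (.node 13 (.node 12 (.leaf [4, 5, 20,
  32, 91]) (.leaf [5, 9, 21, 89])) (.node 14 (.leaf [5, 6, 8, 37, 95]) (.node 15 (.leaf [6, 7,
  36, 80, 94]) (.leaf [7, 10, 38, 97])))) (.node 19 (.node 17 (.leaf [7, 8, 11, 40, 96]) (.node
  18 (.leaf [8, 9, 15, 88]) (.leaf [10, 12, 43, 50]))) (.node 20 (.leaf [10, 11, 44, 54, 98])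
  (.node 21 (.leaf [11, 15, 53, 87]) (.leaf [11, 12, 14, 42, 51])))))) (.node 33 (.node 27
  (.node 24 (.node 23 (.leaf [12, 13, 48, 85]) (.leaf [13, 14, 17, 47])) (.node 25 (.leaf [14,
  15, 16, 52]) (.node 26 (.leaf [16, 17, 26, 46]) (.leaf [18, 20, 29, 61])))) (.node 30 (.node
  28 (.leaf [18, 19, 27, 65, 72]) (.node 29 (.leaf [19, 23, 64, 74]) (.leaf [19, 20, 22, 33,
  62]))) (.node 31 (.leaf [20, 21, 59, 90]) (.node 32 (.leaf [21, 22, 25, 58]) (.leaf [22, 23,
  24, 63]))))) (.node 38 (.node 35 (.node 34 (.leaf [24, 25, 26, 57]) (.leaf [26, 45, 56]))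
  (.node 36 (.leaf [27, 66, 68, 152]) (.node 37 (.leaf [27, 29, 33, 60]) (.leaf [27, 28, 31, 70,
  150])))) (.node 41 (.node 39 (.leaf [28, 30, 69, 149, 161]) (.node 40 (.leaf [28, 29, 32,
  160]) (.leaf [30, 36, 77, 103, 143, 163]))) (.node 42 (.leaf [30, 32, 37, 105, 159]) (.node 43
  (.leaf [30, 31, 35, 78, 148]) (.leaf [31, 32, 33, 34]))))))) (.node 66 (.node 55 (.node 49
  (.node 46 (.node 45 (.leaf [34, 35, 37, 41]) (.leaf [35, 36, 39, 79, 144])) (.node 47 (.leaf
  [36, 38, 102, 141, 165]) (.node 48 (.leaf [36, 37, 40, 104, 158]) (.leaf [38, 40, 44, 101,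
  155])))) (.node 52 (.node 50 (.leaf [38, 39, 43, 140]) (.node 51 (.leaf [39, 40, 41, 42])
  (.leaf [42, 43, 44, 49]))) (.node 53 (.leaf [44, 55, 100, 154]) (.node 54 (.leaf [45, 46,
  115]) (.leaf [46, 47, 52, 114]))))) (.node 60 (.node 57 (.node 56 (.leaf [47, 48, 51, 113])
  (.leaf [48, 50, 109])) (.node 58 (.leaf [49, 55, 108]) (.node 59 (.leaf [49, 50, 51, 54, 110])
  (.leaf [51, 52, 53, 112])))) (.node 63 (.node 61 (.leaf [53, 54, 86, 111]) (.node 62 (.leaf
  [54, 55, 99, 107]) (.leaf [56, 57, 125]))) (.node 64 (.leaf [57, 58, 63, 124]) (.node 65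
  (.leaf [58, 59, 62, 123]) (.leaf [59, 61, 119])))))) (.node 77 (.node 71 (.node 68 (.node 67
  (.leaf [60, 66, 118]) (.leaf [60, 61, 62, 65, 120])) (.node 69 (.leaf [62, 63, 64, 122])
  (.node 70 (.leaf [64, 65, 73, 121]) (.leaf [65, 66, 67, 117])))) (.node 74 (.node 72 (.leaf
  [67, 73, 116, 178]) (.node 73 (.leaf [67, 68, 72, 177]) (.leaf [68, 70, 151, 173]))) (.node 75
  (.leaf [69, 77, 146, 162]) (.node 76 (.leaf [69, 71, 76, 170]) (.leaf [69, 70, 78, 147,
  171]))))) (.node 82 (.node 79 (.node 78 (.leaf [70, 71, 72, 75, 174]) (.leaf [72, 73, 74,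
  176])) (.node 80 (.leaf [74, 75, 82, 175]) (.node 81 (.leaf [75, 76, 78, 81, 169]) (.leaf [76,
  77, 80, 93])))) (.node 85 (.node 83 (.leaf [77, 78, 79, 145]) (.node 84 (.leaf [79, 80, 81,
  84]) (.leaf [81, 82, 83, 168]))) (.node 86 (.leaf [83, 84, 85]) (.node 87 (.leaf [86, 99, 106,
  190]) (.leaf [86, 87, 98, 189])))))))) (.node 132 (.node 110 (.node 99 (.node 93 (.node 90
  (.node 89 (.leaf [87, 88, 96, 185]) (.leaf [88, 89, 95, 184])) (.node 91 (.leaf [89, 90, 91])
  (.node 92 (.leaf [91, 92, 95, 105]) (.leaf [92, 93, 94, 103])))) (.node 96 (.node 94 (.leaf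
  [94, 97, 102, 182]) (.node 95 (.leaf [94, 95, 96, 104, 183]) (.leaf [96, 97, 98, 101, 186])))
  (.node 97 (.leaf [98, 99, 100, 188]) (.node 98 (.leaf [100, 101, 153, 187]) (.leaf [101, 102,
  104, 156, 181]))))) (.node 104 (.node 101 (.node 100 (.leaf [102, 103, 142, 164]) (.leaf [103,
  104, 105, 157])) (.node 102 (.leaf [106, 132, 191]) (.node 103 (.leaf [106, 107, 111, 131])
  (.leaf [107, 108, 110, 129])))) (.node 107 (.node 105 (.leaf [109, 110, 113, 128]) (.node 106
  (.leaf [110, 111, 112, 130]) (.leaf [112, 113, 114, 127]))) (.node 108 (.leaf [114, 115, 126])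
  (.node 109 (.leaf [116, 139, 179]) (.leaf [116, 117, 121, 138])))))) (.node 121 (.node 115
  (.node 112 (.node 111 (.leaf [117, 118, 120, 136]) (.leaf [119, 120, 123, 135])) (.node 113
  (.leaf [120, 121, 122, 137]) (.node 114 (.leaf [122, 123, 124, 134]) (.leaf [124, 125,
  133])))) (.node 118 (.node 116 (.leaf [126, 127, 196]) (.node 117 (.leaf [127, 128, 130, 195])
  (.leaf [128, 129, 194]))) (.node 119 (.leaf [129, 130, 131, 193]) (.node 120 (.leaf [131, 132,
  192]) (.leaf [133, 134, 201]))))) (.node 126 (.node 123 (.node 122 (.leaf [134, 135, 137,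
  200]) (.leaf [135, 136, 199])) (.node 124 (.leaf [136, 137, 138, 198]) (.node 125 (.leaf [138,
  139, 197]) (.leaf [140, 141, 144])))) (.node 129 (.node 127 (.leaf [141, 142, 143, 166])
  (.node 128 (.leaf [143, 146, 149, 167]) (.leaf [143, 144, 145, 148]))) (.node 130 (.leaf [145,
  146, 147, 221]) (.node 131 (.leaf [147, 151, 172, 220]) (.leaf [147, 148, 149, 150])))))))
  (.node 154 (.node 143 (.node 137 (.node 134 (.node 133 (.leaf [150, 151, 152]) (.leaf [153,
  156, 180, 223])) (.node 135 (.leaf [153, 154, 155]) (.node 136 (.leaf [155, 156, 158, 165])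
  (.leaf [156, 157, 164, 222])))) (.node 140 (.node 138 (.leaf [157, 158, 159, 163]) (.node 139
  (.leaf [159, 160, 161]) (.leaf [161, 162, 163, 167]))) (.node 141 (.leaf [163, 164, 165, 166])
  (.node 142 (.leaf [166, 167, 226]) (.leaf [168, 169, 175]))))) (.node 148 (.node 145 (.node
  144 (.leaf [169, 170, 171, 174]) (.leaf [171, 172, 173])) (.node 146 (.leaf [173, 174, 177,
  211]) (.node 147 (.leaf [174, 175, 176, 210]) (.leaf [176, 177, 178, 209])))) (.node 151
  (.node 149 (.leaf [178, 179, 208]) (.node 150 (.leaf [180, 181, 187]) (.leaf [181, 182, 183,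
  186]))) (.node 152 (.leaf [183, 184, 185]) (.node 153 (.leaf [185, 186, 189, 215]) (.leaf
  [186, 187, 188, 214])))))) (.node 165 (.node 159 (.node 156 (.node 155 (.leaf [188, 189, 190,
  213]) (.leaf [190, 191, 212])) (.node 157 (.leaf [192, 193, 204]) (.node 158 (.leaf [193, 194,
  195, 203]) (.leaf [195, 196, 202])))) (.node 162 (.node 160 (.leaf [197, 198, 207]) (.node 161
  (.leaf [198, 199, 200, 206]) (.leaf [200, 201, 205]))) (.node 163 (.leaf [202, 203, 217])
  (.node 164 (.leaf [203, 204, 216]) (.leaf [205, 206, 219]))))) (.node 170 (.node 167 (.node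
  166 (.leaf [206, 207, 218]) (.leaf [208, 209, 227])) (.node 168 (.leaf [209, 210, 211]) (.node
  169 (.leaf [212, 213, 228]) (.leaf [213, 214, 215])))) (.node 173 (.node 171 (.leaf [216, 217,
  224]) (.node 172 (.leaf [218, 219, 225]) (.leaf [220, 221]))) (.node 174 (.leaf [222, 223])
  (.node 175 (.leaf [224, 229]) (.leaf [225, 230])))))))))

theorem loc15 : stepOK 176 231 nd15a.low nd16a.low J15 J14 = true := by
  decide +kernel

/-- Level data (lower covers). -/
def J16Y : RT (List ℕ) :=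
(.node 115 (.node 57 (.node 28 (.node 14 (.node 7 (.node 3 (.node 1 (.leaf [0, 1, 2, 3, 4])
  (.node 2 (.leaf [0, 5, 6, 7, 8]) (.leaf [0, 9, 10, 11]))) (.node 5 (.node 4 (.leaf [0, 12, 13,
  14, 15]) (.leaf [12, 16, 17, 18, 19])) (.node 6 (.leaf [1, 12, 20, 21, 22]) (.leaf [5, 12, 23,
  24, 25])))) (.node 10 (.node 8 (.leaf [5, 26, 27, 28, 29]) (.node 9 (.leaf [1, 5, 30, 31, 32])
  (.leaf [1, 33, 34, 35]))) (.node 12 (.node 11 (.leaf [26, 36, 37, 38]) (.leaf [26, 30, 39, 40,
  41])) (.node 13 (.leaf [6, 26, 42, 43, 44]) (.leaf [6, 9, 45, 46]))))) (.node 21 (.node 17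
  (.node 15 (.leaf [2, 6, 30, 47, 48]) (.node 16 (.leaf [30, 33, 49, 50]) (.leaf [2, 33, 51,
  52]))) (.node 19 (.node 18 (.leaf [2, 9, 53, 54]) (.leaf [16, 55, 56, 57])) (.node 20 (.leaf
  [13, 16, 58, 59, 60]) (.leaf [16, 20, 61, 62, 63])))) (.node 24 (.node 22 (.leaf [20, 34, 64,
  65]) (.node 23 (.leaf [3, 13, 20, 66, 67]) (.leaf [10, 13, 68, 69]))) (.node 26 (.node 25
  (.leaf [3, 10, 53, 70]) (.leaf [3, 34, 51, 71])) (.node 27 (.leaf [51, 53, 72, 73]) (.leaf
  [55, 58, 74, 75, 76])))))) (.node 42 (.node 35 (.node 31 (.node 29 (.leaf [17, 55, 77, 78,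
  79]) (.node 30 (.leaf [55, 61, 80, 81]) (.leaf [17, 23, 82, 83, 84, 85]))) (.node 33 (.node 32
  (.leaf [14, 17, 58, 86, 87]) (.leaf [17, 21, 61, 88, 89])) (.node 34 (.leaf [58, 61, 66, 90])
  (.leaf [4, 14, 21, 66])))) (.node 38 (.node 36 (.leaf [7, 14, 23, 91, 92]) (.node 37 (.leaf
  [23, 27, 93, 94, 95, 96]) (.leaf [21, 23, 31, 97, 98]))) (.node 40 (.node 39 (.leaf [27, 36,
  99, 100, 101]) (.leaf [7, 27, 42, 102, 103])) (.node 41 (.leaf [27, 31, 39, 104, 105]) (.leaf
  [4, 7, 31, 47]))))) (.node 49 (.node 45 (.node 43 (.leaf [39, 42, 47, 106]) (.node 44 (.leaf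
  [36, 42, 107, 108]) (.leaf [36, 39, 109, 110, 111]))) (.node 47 (.node 46 (.leaf [72, 112,
  113]) (.leaf [52, 54, 72, 114])) (.node 48 (.leaf [45, 48, 54, 115]) (.leaf [43, 45, 116,
  117])))) (.node 53 (.node 51 (.node 50 (.leaf [106, 107, 109, 118]) (.leaf [37, 43, 107,
  119])) (.node 52 (.leaf [40, 43, 48, 106, 120]) (.leaf [48, 49, 52, 121]))) (.node 55 (.node
  54 (.leaf [40, 49, 122, 123]) (.leaf [37, 40, 109, 124, 125])) (.node 56 (.leaf [109, 126,
  127, 128]) (.leaf [73, 112, 129]))))))) (.node 86 (.node 71 (.node 64 (.node 60 (.node 58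
  (.leaf [70, 71, 73, 130]) (.node 59 (.leaf [64, 67, 71, 131]) (.leaf [62, 64, 132, 133])))
  (.node 62 (.node 61 (.leaf [74, 80, 90, 134]) (.leaf [56, 62, 80, 135])) (.node 63 (.leaf [59,
  62, 67, 90, 136]) (.leaf [67, 68, 70, 137])))) (.node 67 (.node 65 (.leaf [59, 68, 138, 139])
  (.node 66 (.leaf [56, 59, 74, 140, 141]) (.leaf [74, 142, 143, 144]))) (.node 69 (.node 68
  (.leaf [140, 142, 145, 146]) (.leaf [75, 142, 147, 148])) (.node 70 (.leaf [77, 82, 149, 150,
  151]) (.leaf [75, 77, 86, 152, 153]))))) (.node 78 (.node 74 (.node 72 (.leaf [18, 57, 77,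
  154]) (.node 73 (.leaf [57, 60, 75, 140, 155]) (.leaf [138, 140, 156, 157]))) (.node 76 (.node
  75 (.leaf [60, 69, 138, 158]) (.leaf [15, 18, 60, 86, 159])) (.node 77 (.leaf [18, 24, 82,
  160, 161]) (.leaf [82, 93, 162, 163, 164])))) (.node 82 (.node 80 (.node 79 (.leaf [82, 86,
  91, 165, 166]) (.leaf [91, 93, 102, 167])) (.node 81 (.leaf [24, 28, 93, 168]) (.leaf [8, 15,
  24, 91, 169]))) (.node 84 (.node 83 (.leaf [11, 15, 69, 170]) (.leaf [8, 11, 46, 171])) (.node
  85 (.leaf [8, 28, 44, 102]) (.leaf [44, 46, 116])))))) (.node 100 (.node 93 (.node 89 (.node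
  87 (.leaf [122, 124, 172, 173]) (.node 88 (.leaf [41, 50, 122, 174]) (.leaf [32, 35, 50,
  175]))) (.node 91 (.node 90 (.leaf [22, 35, 65, 176]) (.leaf [63, 65, 132])) (.node 92 (.leaf
  [19, 22, 63, 88]) (.leaf [19, 25, 83, 160])))) (.node 96 (.node 94 (.leaf [160, 162, 168])
  (.node 95 (.leaf [25, 29, 94, 168, 177]) (.leaf [22, 25, 32, 97, 178]))) (.node 98 (.node 97
  (.leaf [29, 32, 41, 104, 179]) (.leaf [29, 38, 99, 180])) (.node 99 (.leaf [38, 41, 110, 124,
  181]) (.leaf [124, 126, 182, 183]))))) (.node 107 (.node 103 (.node 101 (.leaf [110, 126, 184,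
  185]) (.node 102 (.leaf [99, 104, 110, 186, 187]) (.leaf [94, 99, 188, 189, 190]))) (.node 105
  (.node 104 (.leaf [83, 94, 162, 191, 192]) (.leaf [94, 97, 104, 193, 194])) (.node 106 (.leaf
  [83, 88, 97, 195]) (.leaf [172, 182, 196, 197])))) (.node 111 (.node 109 (.node 108 (.leaf
  [125, 127, 182, 198]) (.leaf [118, 127, 199])) (.node 110 (.leaf [117, 119, 200]) (.leaf [118,
  119, 120, 125, 201]))) (.node 113 (.node 112 (.leaf [123, 125, 172, 202]) (.leaf [120, 121,
  123, 203])) (.node 114 (.leaf [115, 117, 120, 204]) (.leaf [114, 115, 121, 205])))))))) (.node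
  173 (.node 144 (.node 129 (.node 122 (.node 118 (.node 116 (.leaf [113, 114, 206]) (.node 117
  (.leaf [145, 156, 207, 208]) (.leaf [141, 143, 145, 209]))) (.node 120 (.node 119 (.leaf [134,
  143, 210]) (.leaf [133, 135, 211])) (.node 121 (.leaf [134, 135, 136, 141, 212]) (.leaf [139,
  141, 156, 213])))) (.node 125 (.node 123 (.leaf [136, 137, 139, 214]) (.node 124 (.leaf [131,
  133, 136, 215]) (.leaf [130, 131, 137, 216]))) (.node 127 (.node 126 (.leaf [129, 130, 217])
  (.leaf [205, 206, 218])) (.node 128 (.leaf [203, 204, 205, 219]) (.leaf [200, 201, 204,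
  220]))))) (.node 136 (.node 132 (.node 130 (.leaf [198, 199, 201, 221]) (.node 131 (.leaf
  [201, 202, 203, 222]) (.leaf [196, 198, 202, 223]))) (.node 134 (.node 133 (.leaf [196, 224,
  225]) (.leaf [216, 217, 226])) (.node 135 (.leaf [214, 215, 216, 227]) (.leaf [211, 212, 215,
  228])))) (.node 140 (.node 138 (.node 137 (.leaf [209, 210, 212, 229]) (.leaf [212, 213, 214,
  230])) (.node 139 (.leaf [207, 209, 213, 231]) (.leaf [207, 232, 233]))) (.node 142 (.node 141
  (.leaf [100, 103, 108]) (.leaf [95, 100, 188, 234])) (.node 143 (.leaf [188, 191, 235]) (.leaf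
  [84, 95, 163, 191, 236])))))) (.node 158 (.node 151 (.node 147 (.node 145 (.leaf [92, 95, 103,
  167]) (.node 146 (.leaf [163, 165, 167, 237]) (.leaf [149, 163, 238, 239]))) (.node 149 (.node
  148 (.leaf [149, 152, 165, 240, 241]) (.leaf [84, 87, 92, 165])) (.node 150 (.leaf [78, 84,
  149, 242]) (.leaf [76, 78, 87, 152])))) (.node 154 (.node 152 (.leaf [147, 152, 243, 244])
  (.node 153 (.leaf [76, 144, 147]) (.leaf [184, 186, 245, 246]))) (.node 156 (.node 155 (.leaf
  [111, 128, 184]) (.leaf [101, 105, 111, 186])) (.node 157 (.leaf [186, 189, 193, 247, 248])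
  (.leaf [192, 193, 195, 249]))))) (.node 165 (.node 161 (.node 159 (.leaf [96, 98, 105, 193])
  (.node 160 (.leaf [85, 89, 98, 195]) (.leaf [79, 81, 89]))) (.node 163 (.node 162 (.leaf [79,
  85, 150, 242]) (.leaf [150, 164, 238])) (.node 164 (.leaf [85, 96, 164, 192, 236]) (.leaf
  [189, 192, 235, 250])))) (.node 169 (.node 167 (.node 166 (.leaf [96, 101, 189, 234]) (.leaf
  [234, 235, 236, 251])) (.node 168 (.leaf [236, 238, 242, 252]) (.leaf [169, 170, 171])))
  (.node 171 (.node 170 (.leaf [159, 161, 166, 169]) (.leaf [151, 154, 161])) (.node 172 (.leaf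
  [151, 153, 166, 240]) (.leaf [240, 243, 253]))))))) (.node 202 (.node 187 (.node 180 (.node
  176 (.node 174 (.leaf [148, 153, 243, 254]) (.node 175 (.leaf [153, 154, 155, 159, 255])
  (.leaf [158, 159, 170, 256]))) (.node 178 (.node 177 (.leaf [155, 157, 158, 257]) (.leaf [146,
  148, 155, 258])) (.node 179 (.leaf [146, 157, 208, 259]) (.leaf [208, 232, 260])))) (.node 183
  (.node 181 (.leaf [245, 247, 261]) (.node 182 (.leaf [187, 190, 194, 247]) (.leaf [177, 180,
  190]))) (.node 185 (.node 184 (.leaf [177, 178, 179, 194]) (.leaf [175, 176, 178])) (.node 186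
  (.leaf [174, 175, 179, 262]) (.leaf [179, 180, 181, 187, 263]))))) (.node 194 (.node 190
  (.node 188 (.leaf [185, 187, 245, 264]) (.node 189 (.leaf [181, 183, 185, 265]) (.leaf [173,
  174, 181, 266]))) (.node 192 (.node 191 (.leaf [173, 183, 197, 267]) (.leaf [197, 224, 268]))
  (.node 193 (.leaf [223, 225, 269]) (.leaf [221, 222, 223, 270])))) (.node 198 (.node 196
  (.node 195 (.leaf [220, 221, 271]) (.leaf [219, 220, 222, 272])) (.node 197 (.leaf [218, 219,
  273]) (.leaf [231, 233, 274]))) (.node 200 (.node 199 (.leaf [229, 230, 231, 275]) (.leaf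
  [228, 229, 276])) (.node 201 (.leaf [227, 228, 230, 277]) (.leaf [226, 227, 278])))))) (.node
  216 (.node 209 (.node 205 (.node 203 (.leaf [272, 273, 279]) (.node 204 (.leaf [270, 271, 272,
  280]) (.leaf [269, 270, 281]))) (.node 207 (.node 206 (.leaf [277, 278, 282]) (.leaf [275,
  276, 277, 283])) (.node 208 (.leaf [274, 275, 284]) (.leaf [259, 260, 285])))) (.node 212
  (.node 210 (.leaf [257, 258, 259, 286]) (.node 211 (.leaf [255, 256, 257]) (.leaf [254, 255,
  258]))) (.node 214 (.node 213 (.leaf [267, 268, 287]) (.leaf [265, 266, 267, 288])) (.node 215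
  (.leaf [263, 264, 265]) (.leaf [262, 263, 266]))))) (.node 223 (.node 219 (.node 217 (.leaf
  [280, 281, 289]) (.node 218 (.leaf [279, 280, 290]) (.leaf [283, 284, 291]))) (.node 221
  (.node 220 (.leaf [282, 283, 292]) (.leaf [241, 244, 253])) (.node 222 (.leaf [237, 239, 241])
  (.leaf [248, 249, 250])))) (.node 227 (.node 225 (.node 224 (.leaf [246, 248, 261]) (.leaf
  [289, 290, 293])) (.node 226 (.leaf [291, 292, 294]) (.leaf [251, 252]))) (.node 229 (.node
  228 (.leaf [285, 286]) (.leaf [287, 288])) (.node 230 (.leaf [293, 295]) (.leaf [294,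
  296])))))))))

theorem loc16Y : stepOK 231 297 nd16a.low y17 J16Y J15 = true := by
  decide +kernel

/-- Level data (lower covers). -/
def J16E : RT (List ℕ) :=
(.node 115 (.node 57 (.node 28 (.node 14 (.node 7 (.node 3 (.node 1 (.leaf [0, 1, 2, 3, 4])
  (.node 2 (.leaf [0, 5, 6, 7, 8]) (.leaf [0, 9, 10, 11]))) (.node 5 (.node 4 (.leaf [0, 12, 13,
  14, 15]) (.leaf [12, 16, 17, 18, 19])) (.node 6 (.leaf [1, 12, 20, 21, 22]) (.leaf [5, 12, 23,
  24, 25])))) (.node 10 (.node 8 (.leaf [5, 26, 27, 28, 29]) (.node 9 (.leaf [1, 5, 30, 31, 32])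
  (.leaf [1, 33, 34, 35]))) (.node 12 (.node 11 (.leaf [26, 36, 37, 38]) (.leaf [26, 30, 39, 40,
  41])) (.node 13 (.leaf [6, 26, 42, 43, 44]) (.leaf [6, 9, 45, 46]))))) (.node 21 (.node 17
  (.node 15 (.leaf [2, 6, 30, 47, 48]) (.node 16 (.leaf [30, 33, 49, 50]) (.leaf [2, 33, 51,
  52]))) (.node 19 (.node 18 (.leaf [2, 9, 53, 54]) (.leaf [16, 55, 56, 57])) (.node 20 (.leaf
  [13, 16, 58, 59, 60]) (.leaf [16, 20, 61, 62, 63])))) (.node 24 (.node 22 (.leaf [20, 34, 64,
  65]) (.node 23 (.leaf [3, 13, 20, 66, 67]) (.leaf [10, 13, 68, 69]))) (.node 26 (.node 25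
  (.leaf [3, 10, 53, 70]) (.leaf [3, 34, 51, 71])) (.node 27 (.leaf [51, 53, 72, 73]) (.leaf
  [55, 58, 74, 75, 76])))))) (.node 42 (.node 35 (.node 31 (.node 29 (.leaf [17, 55, 77, 78,
  79]) (.node 30 (.leaf [55, 61, 80, 81]) (.leaf [17, 23, 82, 83, 84, 85]))) (.node 33 (.node 32
  (.leaf [14, 17, 58, 86, 87]) (.leaf [17, 21, 61, 88, 89])) (.node 34 (.leaf [58, 61, 66, 90])
  (.leaf [4, 14, 21, 66])))) (.node 38 (.node 36 (.leaf [7, 14, 23, 91, 92]) (.node 37 (.leaf
  [23, 27, 93, 94, 95, 96]) (.leaf [21, 23, 31, 97, 98]))) (.node 40 (.node 39 (.leaf [27, 36,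
  99, 100, 101]) (.leaf [7, 27, 42, 102, 103])) (.node 41 (.leaf [27, 31, 39, 104, 105]) (.leaf
  [4, 7, 31, 47]))))) (.node 49 (.node 45 (.node 43 (.leaf [39, 42, 47, 106]) (.node 44 (.leaf
  [36, 42, 107, 108]) (.leaf [36, 39, 109, 110, 111]))) (.node 47 (.node 46 (.leaf [72, 112,
  113]) (.leaf [52, 54, 72, 114])) (.node 48 (.leaf [45, 48, 54, 115]) (.leaf [43, 45, 116,
  117])))) (.node 53 (.node 51 (.node 50 (.leaf [106, 107, 109, 118]) (.leaf [37, 43, 107,
  119])) (.node 52 (.leaf [40, 43, 48, 106, 120]) (.leaf [48, 49, 52, 121]))) (.node 55 (.node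
  54 (.leaf [40, 49, 122, 123]) (.leaf [37, 40, 109, 124, 125])) (.node 56 (.leaf [109, 126,
  127, 128]) (.leaf [73, 112, 129]))))))) (.node 86 (.node 71 (.node 64 (.node 60 (.node 58
  (.leaf [70, 71, 73, 130]) (.node 59 (.leaf [64, 67, 71, 131]) (.leaf [62, 64, 132, 133])))
  (.node 62 (.node 61 (.leaf [74, 80, 90, 134]) (.leaf [56, 62, 80, 135])) (.node 63 (.leaf [59,
  62, 67, 90, 136]) (.leaf [67, 68, 70, 137])))) (.node 67 (.node 65 (.leaf [59, 68, 138, 139])
  (.node 66 (.leaf [56, 59, 74, 140, 141]) (.leaf [74, 142, 143, 144]))) (.node 69 (.node 68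
  (.leaf [140, 142, 145, 146]) (.leaf [75, 142, 147, 148])) (.node 70 (.leaf [77, 82, 149, 150,
  151]) (.leaf [75, 77, 86, 152, 153]))))) (.node 78 (.node 74 (.node 72 (.leaf [18, 57, 77,
  154]) (.node 73 (.leaf [57, 60, 75, 140, 155]) (.leaf [138, 140, 156, 157]))) (.node 76 (.node
  75 (.leaf [60, 69, 138, 158]) (.leaf [15, 18, 60, 86, 159])) (.node 77 (.leaf [18, 24, 82,
  160, 161]) (.leaf [82, 93, 162, 163, 164])))) (.node 82 (.node 80 (.node 79 (.leaf [82, 86,
  91, 165, 166]) (.leaf [91, 93, 102, 167])) (.node 81 (.leaf [24, 28, 93, 168]) (.leaf [8, 15,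
  24, 91, 169]))) (.node 84 (.node 83 (.leaf [11, 15, 69, 170]) (.leaf [8, 11, 46, 171])) (.node
  85 (.leaf [8, 28, 44, 102]) (.leaf [44, 46, 116])))))) (.node 100 (.node 93 (.node 89 (.node
  87 (.leaf [122, 124, 172, 173]) (.node 88 (.leaf [41, 50, 122, 174]) (.leaf [32, 35, 50,
  175]))) (.node 91 (.node 90 (.leaf [22, 35, 65, 176]) (.leaf [63, 65, 132])) (.node 92 (.leaf
  [19, 22, 63, 88]) (.leaf [19, 25, 83, 160])))) (.node 96 (.node 94 (.leaf [160, 162, 168])
  (.node 95 (.leaf [25, 29, 94, 168, 177]) (.leaf [22, 25, 32, 97, 178]))) (.node 98 (.node 97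
  (.leaf [29, 32, 41, 104, 179]) (.leaf [29, 38, 99, 180])) (.node 99 (.leaf [38, 41, 110, 124,
  181]) (.leaf [124, 126, 182, 183]))))) (.node 107 (.node 103 (.node 101 (.leaf [110, 127, 182,
  184]) (.node 102 (.leaf [99, 104, 110, 185, 186]) (.leaf [94, 99, 187, 188, 189]))) (.node 105
  (.node 104 (.leaf [83, 94, 162, 190, 191]) (.leaf [94, 97, 104, 192, 193])) (.node 106 (.leaf
  [83, 88, 97, 194]) (.leaf [172, 183, 195, 196])))) (.node 111 (.node 109 (.node 108 (.leaf
  [125, 126, 195, 197]) (.leaf [118, 128, 197])) (.node 110 (.leaf [117, 119, 198]) (.leaf [118,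
  119, 120, 125, 199]))) (.node 113 (.node 112 (.leaf [123, 125, 172, 200]) (.leaf [120, 121,
  123, 201])) (.node 114 (.leaf [115, 117, 120, 202]) (.leaf [114, 115, 121, 203])))))))) (.node
  173 (.node 144 (.node 129 (.node 122 (.node 118 (.node 116 (.leaf [113, 114, 204]) (.node 117
  (.leaf [145, 156, 205, 206]) (.leaf [141, 143, 145, 207]))) (.node 120 (.node 119 (.leaf [134,
  143, 208]) (.leaf [133, 135, 209])) (.node 121 (.leaf [134, 135, 136, 141, 210]) (.leaf [139,
  141, 156, 211])))) (.node 125 (.node 123 (.leaf [136, 137, 139, 212]) (.node 124 (.leaf [131,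
  133, 136, 213]) (.leaf [130, 131, 137, 214]))) (.node 127 (.node 126 (.leaf [129, 130, 215])
  (.leaf [203, 204, 216])) (.node 128 (.leaf [201, 202, 203, 217]) (.leaf [198, 199, 202,
  218]))))) (.node 136 (.node 132 (.node 130 (.leaf [197, 199, 219, 220]) (.node 131 (.leaf
  [199, 200, 201, 221]) (.leaf [195, 200, 219, 222]))) (.node 134 (.node 133 (.leaf [196, 222,
  223]) (.leaf [214, 215, 224])) (.node 135 (.leaf [212, 213, 214, 225]) (.leaf [209, 210, 213,
  226])))) (.node 140 (.node 138 (.node 137 (.leaf [207, 208, 210, 227]) (.leaf [210, 211, 212,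
  228])) (.node 139 (.leaf [205, 207, 211, 229]) (.leaf [205, 230, 231]))) (.node 142 (.node 141
  (.leaf [100, 103, 108]) (.leaf [95, 100, 187, 232])) (.node 143 (.leaf [187, 190, 233]) (.leaf
  [84, 95, 163, 190, 234])))))) (.node 158 (.node 151 (.node 147 (.node 145 (.leaf [92, 95, 103,
  167]) (.node 146 (.leaf [163, 165, 167, 235]) (.leaf [149, 163, 236, 237]))) (.node 149 (.node
  148 (.leaf [149, 152, 165, 238, 239]) (.leaf [84, 87, 92, 165])) (.node 150 (.leaf [78, 84,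
  149, 240]) (.leaf [76, 78, 87, 152])))) (.node 154 (.node 152 (.leaf [147, 152, 241, 242])
  (.node 153 (.leaf [76, 144, 147]) (.leaf [184, 185, 243, 244]))) (.node 156 (.node 155 (.leaf
  [111, 127, 243]) (.leaf [101, 105, 111, 185])) (.node 157 (.leaf [185, 188, 192, 245, 246])
  (.leaf [191, 192, 194, 247]))))) (.node 165 (.node 161 (.node 159 (.leaf [96, 98, 105, 192])
  (.node 160 (.leaf [85, 89, 98, 194]) (.leaf [79, 81, 89]))) (.node 163 (.node 162 (.leaf [79,
  85, 150, 240]) (.leaf [150, 164, 236])) (.node 164 (.leaf [85, 96, 164, 191, 234]) (.leaf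
  [188, 191, 233, 248])))) (.node 169 (.node 167 (.node 166 (.leaf [96, 101, 188, 232]) (.leaf
  [232, 233, 234, 249])) (.node 168 (.leaf [234, 236, 240, 250]) (.leaf [169, 170, 171])))
  (.node 171 (.node 170 (.leaf [159, 161, 166, 169]) (.leaf [151, 154, 161])) (.node 172 (.leaf
  [151, 153, 166, 238]) (.leaf [238, 241, 251]))))))) (.node 202 (.node 187 (.node 180 (.node
  176 (.node 174 (.leaf [148, 153, 241, 252]) (.node 175 (.leaf [153, 154, 155, 159, 253])
  (.leaf [158, 159, 170, 254]))) (.node 178 (.node 177 (.leaf [155, 157, 158, 255]) (.leaf [146,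
  148, 155, 256])) (.node 179 (.leaf [146, 157, 206, 257]) (.leaf [206, 230, 258])))) (.node 183
  (.node 181 (.leaf [244, 245, 259]) (.node 182 (.leaf [186, 189, 193, 245]) (.leaf [177, 180,
  189]))) (.node 185 (.node 184 (.leaf [177, 178, 179, 193]) (.leaf [175, 176, 178])) (.node 186
  (.leaf [174, 175, 179, 260]) (.leaf [179, 180, 181, 186, 261]))))) (.node 194 (.node 190
  (.node 188 (.leaf [184, 186, 259, 262]) (.node 189 (.leaf [181, 182, 262, 263]) (.leaf [173,
  174, 181, 264]))) (.node 192 (.node 191 (.leaf [173, 183, 263, 265]) (.leaf [196, 265, 266]))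
  (.node 193 (.leaf [222, 267, 268]) (.leaf [219, 221, 268, 269])))) (.node 198 (.node 196
  (.node 195 (.leaf [218, 220, 269]) (.leaf [217, 218, 221, 270])) (.node 197 (.leaf [216, 217,
  271]) (.leaf [229, 231, 272]))) (.node 200 (.node 199 (.leaf [227, 228, 229, 273]) (.leaf
  [226, 227, 274])) (.node 201 (.leaf [225, 226, 228, 275]) (.leaf [224, 225, 276])))))) (.node
  216 (.node 209 (.node 205 (.node 203 (.leaf [270, 271, 277]) (.node 204 (.leaf [269, 270, 278,
  279]) (.leaf [268, 278, 280]))) (.node 207 (.node 206 (.leaf [275, 276, 281]) (.leaf [273,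
  274, 275, 282])) (.node 208 (.leaf [272, 273, 283]) (.leaf [257, 258, 284])))) (.node 212
  (.node 210 (.leaf [255, 256, 257, 285]) (.node 211 (.leaf [253, 254, 255]) (.leaf [252, 253,
  256]))) (.node 214 (.node 213 (.leaf [265, 286, 287]) (.leaf [263, 264, 287, 288])) (.node 215
  (.leaf [261, 262, 288]) (.leaf [260, 261, 264]))))) (.node 223 (.node 219 (.node 217 (.leaf
  [279, 280, 289]) (.node 218 (.leaf [277, 279, 290]) (.leaf [282, 283, 291]))) (.node 221
  (.node 220 (.leaf [281, 282, 292]) (.leaf [239, 242, 251])) (.node 222 (.leaf [235, 237, 239])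
  (.leaf [246, 247, 248])))) (.node 227 (.node 225 (.node 224 (.leaf [244, 246, 293]) (.leaf
  [289, 290, 294])) (.node 226 (.leaf [291, 292, 295]) (.leaf [249, 250]))) (.node 229 (.node
  228 (.leaf [284, 285]) (.leaf [287, 296])) (.node 230 (.leaf [294, 297]) (.leaf [295,
  298])))))))))

theorem loc16E : stepOK 231 299 nd16a.low e17 J16E J15 = true := by
  decide +kernel

/-- Level data (lower covers). -/
def J17E : RT (List ℕ) :=
(.node 149 (.node 74 (.node 37 (.node 18 (.node 9 (.node 4 (.node 2 (.node 1 (.leaf [0, 1, 2, 3,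
  235]) (.leaf [0, 5, 8, 9, 236])) (.node 3 (.leaf [0, 14, 16, 17, 237]) (.leaf [0, 22, 24, 25,
  238]))) (.node 6 (.node 5 (.leaf [0, 34, 41, 239]) (.leaf [1, 6, 7, 8, 240])) (.node 7 (.leaf
  [1, 12, 13, 14, 241]) (.node 8 (.leaf [1, 35, 39, 41, 242]) (.leaf [1, 83, 85, 86, 243])))))
  (.node 13 (.node 11 (.node 10 (.leaf [2, 13, 17, 244]) (.leaf [2, 23, 24, 245])) (.node 12
  (.leaf [2, 84, 85, 246]) (.leaf [3, 4, 5, 6, 247]))) (.node 15 (.node 14 (.leaf [3, 19, 22,
  23, 248]) (.leaf [3, 31, 34, 35, 249])) (.node 16 (.leaf [3, 77, 83, 84, 250]) (.node 17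
  (.leaf [4, 18, 19, 20, 251]) (.leaf [4, 28, 30, 31, 32, 252])))))) (.node 27 (.node 22 (.node
  20 (.node 19 (.leaf [4, 73, 77, 78, 253]) (.leaf [4, 95, 96, 254])) (.node 21 (.leaf [5, 20,
  21, 22, 255]) (.leaf [5, 32, 34, 37, 256]))) (.node 24 (.node 23 (.leaf [5, 93, 95, 99, 257])
  (.leaf [6, 30, 35, 36, 37, 258])) (.node 25 (.leaf [6, 78, 82, 83, 259]) (.node 26 (.leaf [6,
  96, 98, 99, 260]) (.leaf [7, 10, 11, 12, 261]))))) (.node 32 (.node 29 (.node 28 (.leaf [7,
  36, 38, 39, 40, 262]) (.leaf [7, 82, 86, 263])) (.node 30 (.leaf [7, 98, 100, 101, 264])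
  (.node 31 (.leaf [8, 11, 14, 15, 265]) (.leaf [8, 37, 40, 41, 266])))) (.node 34 (.node 33
  (.leaf [8, 92, 99, 100, 267]) (.leaf [9, 15, 16, 268])) (.node 35 (.leaf [9, 21, 25, 269])
  (.node 36 (.leaf [9, 92, 93, 270]) (.leaf [10, 38, 43, 44, 271]))))))) (.node 55 (.node 46
  (.node 41 (.node 39 (.node 38 (.leaf [10, 52, 56, 272]) (.leaf [10, 101, 102, 273])) (.node 40
  (.leaf [11, 40, 42, 44, 274]) (.leaf [11, 53, 55, 56, 275]))) (.node 43 (.node 42 (.leaf [11,
  91, 100, 102, 276]) (.leaf [12, 39, 42, 43, 277])) (.node 44 (.leaf [12, 50, 52, 53, 278])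
  (.node 45 (.leaf [12, 86, 87, 88]) (.leaf [13, 49, 50, 279]))))) (.node 50 (.node 48 (.node 47
  (.leaf [13, 85, 87, 89]) (.leaf [14, 41, 42, 280])) (.node 49 (.leaf [14, 49, 53, 54, 281])
  (.leaf [15, 54, 55, 282]))) (.node 52 (.node 51 (.leaf [15, 91, 92, 283]) (.leaf [16, 25, 26,
  284])) (.node 53 (.leaf [16, 48, 54, 285]) (.node 54 (.leaf [17, 24, 26, 286]) (.leaf [17, 48,
  49, 287])))))) (.node 64 (.node 59 (.node 57 (.node 56 (.leaf [18, 27, 28, 29, 288]) (.leaf
  [18, 63, 67, 289])) (.node 58 (.leaf [18, 73, 74, 290]) (.leaf [19, 27, 31, 33, 291]))) (.node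
  61 (.node 60 (.leaf [19, 64, 66, 67, 292]) (.leaf [19, 74, 76, 77, 293])) (.node 62 (.leaf
  [20, 29, 32, 33, 294]) (.node 63 (.leaf [20, 61, 63, 64, 295]) (.leaf [20, 94, 95, 296])))))
  (.node 69 (.node 66 (.node 65 (.leaf [21, 60, 61, 297]) (.leaf [21, 93, 94, 298])) (.node 67
  (.leaf [22, 33, 34, 299]) (.node 68 (.leaf [22, 60, 64, 65, 300]) (.leaf [23, 65, 66, 301]))))
  (.node 71 (.node 70 (.leaf [23, 76, 84, 302]) (.leaf [24, 59, 65, 303])) (.node 72 (.leaf [25,
  59, 60, 304]) (.node 73 (.leaf [26, 45, 46, 48]) (.leaf [26, 58, 59, 305])))))))) (.node 111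
  (.node 92 (.node 83 (.node 78 (.node 76 (.node 75 (.leaf [27, 62, 67, 68, 306]) (.leaf [27,
  70, 72, 74, 307])) (.node 77 (.leaf [27, 154, 156, 308]) (.leaf [28, 71, 72, 73, 309])))
  (.node 80 (.node 79 (.leaf [28, 153, 154, 310]) (.leaf [28, 164, 165, 311])) (.node 81 (.leaf
  [29, 62, 63, 312]) (.node 82 (.leaf [29, 164, 313]) (.leaf [30, 71, 78, 79, 80, 314])))))
  (.node 87 (.node 85 (.node 84 (.leaf [30, 96, 107, 109, 315]) (.leaf [30, 147, 152, 153,
  316])) (.node 86 (.leaf [30, 163, 165, 167, 317]) (.leaf [31, 72, 77, 80, 318]))) (.node 89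
  (.node 88 (.leaf [31, 152, 154, 319]) (.leaf [32, 95, 109, 320])) (.node 90 (.leaf [32, 163,
  164, 321]) (.node 91 (.leaf [33, 62, 64, 322]) (.leaf [35, 80, 81, 83, 323])))))) (.node 101
  (.node 96 (.node 94 (.node 93 (.leaf [35, 148, 152, 324]) (.leaf [36, 79, 81, 82, 325]))
  (.node 95 (.leaf [36, 98, 106, 107, 108, 326]) (.leaf [36, 145, 147, 148, 327]))) (.node 98
  (.node 97 (.leaf [36, 162, 167, 169, 328]) (.leaf [37, 99, 108, 109, 329])) (.node 99 (.leaf
  [37, 162, 163, 330]) (.node 100 (.leaf [38, 101, 105, 106, 331]) (.leaf [38, 144, 145,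
  332]))))) (.node 106 (.node 103 (.node 102 (.leaf [38, 159, 169, 333]) (.leaf [39, 81, 86,
  334])) (.node 104 (.leaf [39, 144, 148, 335]) (.node 105 (.leaf [40, 100, 105, 108, 336])
  (.leaf [40, 159, 162, 337])))) (.node 108 (.node 107 (.leaf [42, 51, 53, 338]) (.leaf [43, 51,
  52, 339])) (.node 109 (.leaf [43, 144, 340]) (.node 110 (.leaf [44, 51, 56, 57, 341]) (.leaf
  [44, 102, 104, 105, 342]))))))) (.node 130 (.node 120 (.node 115 (.node 113 (.node 112 (.leaf
  [44, 158, 159, 343]) (.leaf [45, 47, 58])) (.node 114 (.leaf [46, 47, 119]) (.leaf [48, 118,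
  119, 344]))) (.node 117 (.node 116 (.leaf [49, 117, 118, 345]) (.leaf [50, 88, 89])) (.node
  118 (.leaf [50, 113, 117, 346]) (.node 119 (.leaf [51, 112, 114, 347]) (.leaf [52, 113, 114,
  348]))))) (.node 125 (.node 122 (.node 121 (.leaf [53, 114, 116, 117, 349]) (.leaf [54, 116,
  118, 350])) (.node 123 (.leaf [55, 90, 91, 351]) (.node 124 (.leaf [55, 115, 116, 352]) (.leaf
  [56, 90, 102, 103, 353])))) (.node 127 (.node 126 (.leaf [56, 111, 114, 115, 354]) (.leaf [57,
  103, 111, 355])) (.node 128 (.leaf [57, 104, 158, 356]) (.node 129 (.leaf [57, 112, 357])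
  (.leaf [58, 129, 358])))))) (.node 139 (.node 134 (.node 132 (.node 131 (.leaf [59, 128, 129,
  359]) (.leaf [60, 127, 128, 360])) (.node 133 (.leaf [61, 94, 361]) (.leaf [61, 123, 127,
  362]))) (.node 136 (.node 135 (.leaf [62, 122, 124, 363]) (.leaf [63, 123, 124, 364])) (.node
  137 (.leaf [64, 124, 126, 127, 365]) (.node 138 (.leaf [65, 126, 128, 366]) (.leaf [66, 75,
  76, 367]))))) (.node 144 (.node 141 (.node 140 (.leaf [66, 125, 126, 368]) (.leaf [67, 69, 74,
  75, 369])) (.node 142 (.leaf [67, 121, 124, 125, 370]) (.node 143 (.leaf [68, 69, 70, 371])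
  (.leaf [68, 121, 122, 372])))) (.node 146 (.node 145 (.leaf [68, 156, 373]) (.leaf [69, 120,
  121, 374])) (.node 147 (.leaf [69, 181, 182, 375]) (.node 148 (.leaf [70, 155, 156, 376])
  (.leaf [70, 177, 181, 377]))))))))) (.node 224 (.node 186 (.node 167 (.node 158 (.node 153
  (.node 151 (.node 150 (.leaf [71, 150, 151, 153, 378]) (.leaf [71, 165, 166, 379])) (.node 152
  (.leaf [71, 174, 175, 380]) (.leaf [72, 151, 154, 155, 381]))) (.node 155 (.node 154 (.leaf
  [72, 175, 177, 178, 382]) (.leaf [73, 174, 178, 383])) (.node 156 (.leaf [74, 178, 180, 181,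
  384]) (.node 157 (.leaf [75, 120, 125, 385]) (.leaf [75, 180, 182, 386]))))) (.node 162 (.node
  160 (.node 159 (.leaf [76, 179, 180, 387]) (.leaf [77, 173, 178, 179, 388])) (.node 161 (.leaf
  [78, 96, 97, 389]) (.leaf [78, 173, 174, 390]))) (.node 164 (.node 163 (.leaf [79, 97, 107,
  391]) (.leaf [79, 147, 149, 150, 392])) (.node 165 (.leaf [79, 166, 167, 393]) (.node 166
  (.leaf [80, 149, 151, 152, 394]) (.leaf [80, 173, 175, 395])))))) (.node 176 (.node 171 (.node
  169 (.node 168 (.leaf [81, 148, 149, 396]) (.leaf [82, 97, 98, 397])) (.node 170 (.leaf [83,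
  172, 173, 398]) (.leaf [84, 172, 179, 399]))) (.node 173 (.node 172 (.leaf [85, 172, 400])
  (.leaf [90, 110, 115, 401])) (.node 174 (.leaf [90, 193, 194, 402]) (.node 175 (.leaf [91,
  189, 193, 403]) (.leaf [92, 188, 189, 404]))))) (.node 181 (.node 178 (.node 177 (.leaf [93,
  188, 405]) (.leaf [98, 186, 187, 406])) (.node 179 (.leaf [99, 187, 188, 407]) (.node 180
  (.leaf [100, 187, 189, 190, 408]) (.leaf [101, 186, 190, 409])))) (.node 183 (.node 182 (.leaf
  [102, 190, 192, 193, 410]) (.leaf [103, 104, 192, 411])) (.node 184 (.leaf [103, 110, 194,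
  412]) (.node 185 (.leaf [104, 157, 191, 413]) (.leaf [105, 157, 159, 160, 414]))))))) (.node
  205 (.node 195 (.node 190 (.node 188 (.node 187 (.leaf [105, 185, 190, 191, 415]) (.leaf [106,
  145, 146, 416])) (.node 189 (.leaf [106, 160, 168, 169, 417]) (.leaf [106, 185, 186, 418])))
  (.node 192 (.node 191 (.leaf [107, 146, 147, 419]) (.leaf [107, 161, 167, 168, 420])) (.node
  193 (.leaf [108, 160, 161, 162, 421]) (.node 194 (.leaf [108, 185, 187, 422]) (.leaf [109,
  161, 163, 423]))))) (.node 200 (.node 197 (.node 196 (.leaf [110, 111, 135, 424]) (.leaf [110,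
  136, 195, 425])) (.node 198 (.leaf [111, 112, 133, 426]) (.node 199 (.leaf [113, 132, 427])
  (.leaf [114, 132, 133, 134, 428])))) (.node 202 (.node 201 (.leaf [115, 134, 135, 429]) (.leaf
  [116, 131, 134, 430])) (.node 203 (.leaf [117, 131, 132, 431]) (.node 204 (.leaf [118, 130,
  131, 432]) (.leaf [119, 130, 433])))))) (.node 214 (.node 209 (.node 207 (.node 206 (.leaf
  [120, 142, 143, 434]) (.leaf [120, 182, 183, 435])) (.node 208 (.leaf [121, 140, 142, 436])
  (.leaf [122, 140, 437]))) (.node 211 (.node 210 (.leaf [123, 139, 438]) (.leaf [124, 139, 140,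
  141, 439])) (.node 212 (.leaf [125, 141, 142, 440]) (.node 213 (.leaf [126, 138, 141, 441])
  (.leaf [127, 138, 139, 442]))))) (.node 219 (.node 216 (.node 215 (.leaf [128, 137, 138, 443])
  (.leaf [129, 137, 444])) (.node 217 (.leaf [130, 200, 445]) (.node 218 (.leaf [131, 199, 200,
  446]) (.leaf [132, 198, 199, 447])))) (.node 221 (.node 220 (.leaf [133, 135, 197, 448])
  (.leaf [133, 198, 449])) (.node 222 (.leaf [134, 197, 199, 450]) (.node 223 (.leaf [135, 136,
  196, 451]) (.leaf [136, 452])))))))) (.node 261 (.node 242 (.node 233 (.node 228 (.node 226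
  (.node 225 (.leaf [137, 205, 453]) (.leaf [138, 204, 205, 454])) (.node 227 (.leaf [139, 203,
  204, 455]) (.leaf [140, 202, 203, 456]))) (.node 230 (.node 229 (.leaf [141, 202, 204, 457])
  (.leaf [142, 201, 202, 458])) (.node 231 (.leaf [143, 183, 459]) (.node 232 (.leaf [143, 201,
  460]) (.leaf [145, 169, 170, 461]))))) (.node 237 (.node 235 (.node 234 (.leaf [146, 168, 170,
  462]) (.leaf [147, 167, 170, 171, 463])) (.node 236 (.leaf [149, 225, 464]) (.leaf [150, 166,
  171, 465]))) (.node 239 (.node 238 (.leaf [150, 225, 466]) (.leaf [151, 175, 176, 467]))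
  (.node 240 (.leaf [151, 224, 225, 468]) (.node 241 (.leaf [153, 165, 171, 469]) (.leaf [155,
  176, 177, 470])))))) (.node 251 (.node 246 (.node 244 (.node 243 (.leaf [155, 224, 471])
  (.leaf [157, 158, 472])) (.node 245 (.leaf [157, 184, 227, 473]) (.leaf [160, 184, 185,
  474]))) (.node 248 (.node 247 (.leaf [160, 226, 227, 475]) (.leaf [161, 226, 476])) (.node 249
  (.leaf [168, 226, 477]) (.node 250 (.leaf [170, 230, 478]) (.leaf [171, 230, 479]))))) (.node
  256 (.node 253 (.node 252 (.leaf [176, 224, 480]) (.leaf [177, 215, 481])) (.node 254 (.leaf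
  [178, 214, 215, 482]) (.node 255 (.leaf [179, 214, 483]) (.leaf [180, 213, 214, 484]))))
  (.node 258 (.node 257 (.leaf [181, 213, 215, 485]) (.leaf [182, 212, 213, 486])) (.node 259
  (.leaf [183, 212, 487]) (.node 260 (.leaf [184, 191, 488]) (.leaf [189, 219, 489])))))))
  (.node 280 (.node 270 (.node 265 (.node 263 (.node 262 (.leaf [190, 218, 219, 490]) (.leaf
  [191, 192, 218, 491])) (.node 264 (.leaf [192, 194, 217, 492]) (.leaf [193, 217, 219, 493])))
  (.node 267 (.node 266 (.leaf [194, 195, 216, 494]) (.leaf [195, 495])) (.node 268 (.leaf [196,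
  496]) (.node 269 (.leaf [196, 197, 208, 497]) (.leaf [197, 198, 207, 498]))))) (.node 275
  (.node 272 (.node 271 (.leaf [199, 206, 207, 499]) (.leaf [200, 206, 500])) (.node 273 (.leaf
  [201, 211, 501]) (.node 274 (.leaf [202, 210, 211, 502]) (.leaf [203, 210, 503])))) (.node 277
  (.node 276 (.leaf [204, 209, 210, 504]) (.leaf [205, 209, 505])) (.node 278 (.leaf [206, 221,
  506]) (.node 279 (.leaf [207, 208, 507]) (.leaf [207, 220, 221, 508])))))) (.node 289 (.node
  284 (.node 282 (.node 281 (.leaf [208, 220, 509]) (.leaf [209, 223, 510])) (.node 283 (.leaf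
  [210, 222, 223, 511]) (.leaf [211, 222, 512]))) (.node 286 (.node 285 (.leaf [212, 231, 513])
  (.leaf [213, 231, 514])) (.node 287 (.leaf [216, 515]) (.node 288 (.leaf [216, 217, 232, 516])
  (.leaf [217, 218, 517]))))) (.node 294 (.node 291 (.node 290 (.leaf [220, 228, 518]) (.leaf
  [221, 228, 519])) (.node 292 (.leaf [222, 229, 520]) (.node 293 (.leaf [223, 229, 521]) (.leaf
  [227, 522])))) (.node 296 (.node 295 (.leaf [228, 233, 523]) (.leaf [229, 234, 524])) (.node
  297 (.leaf [232, 525]) (.node 298 (.leaf [233, 526]) (.leaf [234, 527]))))))))))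

theorem loc17E : stepOK 299 528 e17 e18 J17E J16E = true := by
  decide +kernel

/-- Level data (lower covers). -/
def J18E : RT (List ℕ) :=
(.node 264 (.node 132 (.node 66 (.node 33 (.node 16 (.node 8 (.node 4 (.node 2 (.node 1 (.leaf
  [0, 1, 2, 3, 4, 303]) (.leaf [0, 5, 6, 7, 8, 304])) (.node 3 (.leaf [0, 9, 10, 11, 305])
  (.leaf [0, 12, 13, 14, 15, 306]))) (.node 6 (.node 5 (.leaf [12, 16, 17, 18, 19, 307]) (.leaf
  [1, 12, 20, 21, 22, 308])) (.node 7 (.leaf [5, 12, 23, 24, 25, 309]) (.leaf [5, 26, 27, 28,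
  29, 310])))) (.node 12 (.node 10 (.node 9 (.leaf [1, 5, 30, 31, 32, 311]) (.leaf [1, 33, 34,
  35, 312])) (.node 11 (.leaf [26, 36, 37, 38, 313]) (.leaf [26, 30, 39, 40, 41, 314]))) (.node
  14 (.node 13 (.leaf [6, 26, 42, 43, 44, 315]) (.leaf [6, 9, 45, 46, 316])) (.node 15 (.leaf
  [2, 6, 30, 47, 48, 317]) (.leaf [30, 33, 49, 50, 318]))))) (.node 24 (.node 20 (.node 18
  (.node 17 (.leaf [2, 33, 51, 52, 319]) (.leaf [2, 9, 53, 54, 320])) (.node 19 (.leaf [16, 55,
  56, 57, 321]) (.leaf [13, 16, 58, 59, 60, 322]))) (.node 22 (.node 21 (.leaf [16, 20, 61, 62,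
  63, 323]) (.leaf [20, 34, 64, 65, 324])) (.node 23 (.leaf [3, 13, 20, 66, 67, 325]) (.leaf
  [10, 13, 68, 69, 326])))) (.node 28 (.node 26 (.node 25 (.leaf [3, 10, 53, 70, 327]) (.leaf
  [3, 34, 51, 71, 328])) (.node 27 (.leaf [51, 53, 72, 73, 329]) (.leaf [55, 58, 74, 75, 76,
  330]))) (.node 30 (.node 29 (.leaf [17, 55, 77, 78, 79, 331]) (.leaf [55, 61, 80, 81, 82]))
  (.node 31 (.leaf [17, 23, 84, 85, 86, 87, 332]) (.node 32 (.leaf [14, 17, 58, 88, 89, 333])
  (.leaf [17, 21, 61, 90, 91, 334]))))))) (.node 49 (.node 41 (.node 37 (.node 35 (.node 34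
  (.leaf [58, 61, 66, 92, 335]) (.leaf [4, 14, 21, 66, 336])) (.node 36 (.leaf [7, 14, 23, 93,
  94, 337]) (.leaf [23, 27, 95, 96, 97, 98, 338]))) (.node 39 (.node 38 (.leaf [21, 23, 31, 99,
  100, 339]) (.leaf [27, 36, 101, 102, 103, 340])) (.node 40 (.leaf [7, 27, 42, 104, 105, 341])
  (.leaf [27, 31, 39, 106, 107, 342])))) (.node 45 (.node 43 (.node 42 (.leaf [4, 7, 31, 47,
  343]) (.leaf [39, 42, 47, 108, 344])) (.node 44 (.leaf [36, 42, 109, 110, 111]) (.leaf [36,
  39, 113, 114, 115, 345]))) (.node 47 (.node 46 (.leaf [72, 116, 346]) (.leaf [72, 117, 347]))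
  (.node 48 (.leaf [116, 117, 348]) (.leaf [52, 54, 72, 118, 349]))))) (.node 57 (.node 53
  (.node 51 (.node 50 (.leaf [45, 48, 54, 119, 350]) (.leaf [43, 45, 120, 121, 351])) (.node 52
  (.leaf [108, 109, 113, 122, 352]) (.leaf [37, 43, 109, 123, 353]))) (.node 55 (.node 54 (.leaf
  [40, 43, 48, 108, 124, 354]) (.leaf [48, 49, 52, 125, 355])) (.node 56 (.leaf [40, 49, 126,
  127, 356]) (.leaf [37, 40, 113, 128, 129, 357])))) (.node 61 (.node 59 (.node 58 (.leaf [113,
  130, 131, 132, 358]) (.leaf [73, 116, 133, 359])) (.node 60 (.leaf [70, 71, 73, 134, 360])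
  (.leaf [64, 67, 71, 135, 361]))) (.node 63 (.node 62 (.leaf [62, 64, 136, 137, 362]) (.leaf
  [74, 80, 92, 138, 363])) (.node 64 (.leaf [56, 62, 80, 139, 364]) (.node 65 (.leaf [59, 62,
  67, 92, 140, 365]) (.leaf [67, 68, 70, 141, 366])))))))) (.node 99 (.node 82 (.node 74 (.node
  70 (.node 68 (.node 67 (.leaf [59, 68, 142, 143, 367]) (.leaf [56, 59, 74, 144, 145, 368]))
  (.node 69 (.leaf [74, 146, 147, 148, 369]) (.leaf [144, 146, 149, 150, 370]))) (.node 72
  (.node 71 (.leaf [75, 146, 151, 152, 371]) (.leaf [77, 84, 153, 154, 155, 372])) (.node 73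
  (.leaf [75, 77, 88, 156, 157, 373]) (.leaf [18, 57, 77, 158, 374])))) (.node 78 (.node 76
  (.node 75 (.leaf [57, 60, 75, 144, 159, 375]) (.leaf [142, 144, 160, 161, 376])) (.node 77
  (.leaf [60, 69, 142, 162, 377]) (.leaf [15, 18, 60, 88, 163, 378]))) (.node 80 (.node 79
  (.leaf [18, 24, 84, 164, 165, 379]) (.leaf [84, 95, 166, 167, 168, 380])) (.node 81 (.leaf
  [84, 88, 93, 169, 170, 381]) (.leaf [93, 95, 104, 171, 382]))))) (.node 90 (.node 86 (.node 84
  (.node 83 (.leaf [24, 28, 95, 172, 383]) (.leaf [8, 15, 24, 93, 173, 384])) (.node 85 (.leaf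
  [11, 15, 69, 174, 385]) (.leaf [8, 11, 46, 175, 386]))) (.node 88 (.node 87 (.leaf [8, 28, 44,
  104, 387]) (.leaf [44, 46, 388])) (.node 89 (.leaf [44, 120, 389]) (.leaf [46, 120, 390]))))
  (.node 94 (.node 92 (.node 91 (.leaf [126, 128, 176, 177, 391]) (.leaf [41, 50, 126, 178,
  392])) (.node 93 (.leaf [32, 35, 50, 179, 393]) (.leaf [22, 35, 65, 180, 394]))) (.node 96
  (.node 95 (.leaf [63, 65, 136, 395]) (.leaf [19, 22, 63, 90, 396])) (.node 97 (.leaf [19, 25,
  85, 164, 397]) (.node 98 (.leaf [164, 166, 172, 398]) (.leaf [25, 29, 96, 172, 181,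
  399]))))))) (.node 115 (.node 107 (.node 103 (.node 101 (.node 100 (.leaf [22, 25, 32, 99,
  182, 400]) (.leaf [29, 32, 41, 106, 183, 401])) (.node 102 (.leaf [29, 38, 101, 184, 402])
  (.leaf [38, 41, 114, 128, 185, 403]))) (.node 105 (.node 104 (.leaf [128, 130, 186, 187, 404])
  (.leaf [114, 131, 186, 188, 405])) (.node 106 (.leaf [101, 106, 114, 189, 190, 406]) (.leaf
  [96, 101, 191, 192, 193, 407])))) (.node 111 (.node 109 (.node 108 (.leaf [85, 96, 166, 194,
  195, 408]) (.leaf [96, 99, 106, 196, 197, 409])) (.node 110 (.leaf [85, 90, 99, 198, 410])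
  (.leaf [176, 187, 199, 200, 411]))) (.node 113 (.node 112 (.leaf [129, 130, 199, 201, 412])
  (.leaf [122, 132, 201, 413])) (.node 114 (.leaf [121, 123, 202, 414]) (.leaf [122, 123, 124,
  129, 203, 415]))))) (.node 123 (.node 119 (.node 117 (.node 116 (.leaf [127, 129, 176, 204,
  416]) (.leaf [124, 125, 127, 205, 417])) (.node 118 (.leaf [119, 121, 124, 206, 418]) (.leaf
  [118, 119, 125, 207, 419]))) (.node 121 (.node 120 (.leaf [117, 118, 208, 420]) (.leaf [149,
  160, 209, 210, 421])) (.node 122 (.leaf [145, 147, 149, 211, 422]) (.leaf [138, 147, 212,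
  423])))) (.node 127 (.node 125 (.node 124 (.leaf [137, 139, 213, 424]) (.leaf [138, 139, 140,
  145, 214, 425])) (.node 126 (.leaf [143, 145, 160, 215, 426]) (.leaf [140, 141, 143, 216,
  427]))) (.node 129 (.node 128 (.leaf [135, 137, 140, 217, 428]) (.leaf [134, 135, 141, 218,
  429])) (.node 130 (.leaf [133, 134, 219, 430]) (.node 131 (.leaf [207, 208, 220, 431]) (.leaf
  [205, 206, 207, 221, 432]))))))))) (.node 198 (.node 165 (.node 148 (.node 140 (.node 136
  (.node 134 (.node 133 (.leaf [202, 203, 206, 222, 433]) (.leaf [201, 203, 223, 224, 434]))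
  (.node 135 (.leaf [203, 204, 205, 225, 435]) (.leaf [199, 204, 223, 226, 436]))) (.node 138
  (.node 137 (.leaf [200, 226, 227, 437]) (.leaf [218, 219, 228, 438])) (.node 139 (.leaf [216,
  217, 218, 229, 439]) (.leaf [213, 214, 217, 230, 440])))) (.node 144 (.node 142 (.node 141
  (.leaf [211, 212, 214, 231, 441]) (.leaf [214, 215, 216, 232, 442])) (.node 143 (.leaf [209,
  211, 215, 233, 443]) (.leaf [209, 234, 235, 444]))) (.node 146 (.node 145 (.leaf [102, 105,
  110, 112]) (.leaf [97, 102, 191, 236, 445])) (.node 147 (.leaf [191, 194, 237, 446]) (.leaf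
  [86, 97, 167, 194, 238, 447]))))) (.node 156 (.node 152 (.node 150 (.node 149 (.leaf [94, 97,
  105, 171, 448]) (.leaf [167, 169, 171, 239, 449])) (.node 151 (.leaf [153, 167, 240, 241,
  450]) (.leaf [153, 156, 169, 242, 243, 451]))) (.node 154 (.node 153 (.leaf [86, 89, 94, 169,
  452]) (.leaf [78, 86, 153, 244, 453])) (.node 155 (.leaf [76, 78, 89, 156, 454]) (.leaf [151,
  156, 245, 246, 455])))) (.node 160 (.node 158 (.node 157 (.leaf [76, 148, 151, 456]) (.leaf
  [188, 189, 247, 248, 457])) (.node 159 (.leaf [115, 131, 247, 458]) (.leaf [103, 107, 115,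
  189, 459]))) (.node 162 (.node 161 (.leaf [189, 192, 196, 249, 250, 460]) (.leaf [195, 196,
  198, 251, 461])) (.node 163 (.leaf [98, 100, 107, 196, 462]) (.node 164 (.leaf [87, 91, 100,
  198, 463]) (.leaf [79, 81, 83, 91]))))))) (.node 181 (.node 173 (.node 169 (.node 167 (.node
  166 (.leaf [79, 87, 154, 244, 464]) (.leaf [154, 168, 240, 465])) (.node 168 (.leaf [87, 98,
  168, 195, 238, 466]) (.leaf [192, 195, 237, 252, 467]))) (.node 171 (.node 170 (.leaf [98,
  103, 192, 236, 468]) (.leaf [236, 237, 238, 253, 469])) (.node 172 (.leaf [238, 240, 244, 254,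
  470]) (.leaf [173, 174, 175, 471])))) (.node 177 (.node 175 (.node 174 (.leaf [163, 165, 170,
  173, 472]) (.leaf [155, 158, 165, 473])) (.node 176 (.leaf [155, 157, 170, 242, 474]) (.leaf
  [242, 245, 255, 475]))) (.node 179 (.node 178 (.leaf [152, 157, 245, 256, 476]) (.leaf [157,
  158, 159, 163, 257, 477])) (.node 180 (.leaf [162, 163, 174, 258, 478]) (.leaf [159, 161, 162,
  259, 479]))))) (.node 189 (.node 185 (.node 183 (.node 182 (.leaf [150, 152, 159, 260, 480])
  (.leaf [150, 161, 210, 261, 481])) (.node 184 (.leaf [210, 234, 262, 482]) (.leaf [248, 249,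
  263, 483]))) (.node 187 (.node 186 (.leaf [190, 193, 197, 249, 484]) (.leaf [181, 184, 193,
  485])) (.node 188 (.leaf [181, 182, 183, 197, 486]) (.leaf [179, 180, 182, 487])))) (.node 193
  (.node 191 (.node 190 (.leaf [178, 179, 183, 264, 488]) (.leaf [183, 184, 185, 190, 265,
  489])) (.node 192 (.leaf [188, 190, 263, 266, 490]) (.leaf [185, 186, 266, 267, 491]))) (.node
  195 (.node 194 (.leaf [177, 178, 185, 268, 492]) (.leaf [177, 187, 267, 269, 493])) (.node 196
  (.leaf [200, 269, 270, 494]) (.node 197 (.leaf [226, 271, 272, 495]) (.leaf [223, 225, 272,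
  273, 496])))))))) (.node 231 (.node 214 (.node 206 (.node 202 (.node 200 (.node 199 (.leaf
  [222, 224, 273, 497]) (.leaf [221, 222, 225, 274, 498])) (.node 201 (.leaf [220, 221, 275,
  499]) (.leaf [233, 235, 276, 500]))) (.node 204 (.node 203 (.leaf [231, 232, 233, 277, 501])
  (.leaf [230, 231, 278, 502])) (.node 205 (.leaf [229, 230, 232, 279, 503]) (.leaf [228, 229,
  280, 504])))) (.node 210 (.node 208 (.node 207 (.leaf [274, 275, 281, 505]) (.leaf [273, 274,
  282, 283, 506])) (.node 209 (.leaf [272, 282, 284, 507]) (.leaf [279, 280, 285, 508]))) (.node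
  212 (.node 211 (.leaf [277, 278, 279, 286, 509]) (.leaf [276, 277, 287, 510])) (.node 213
  (.leaf [261, 262, 288, 511]) (.leaf [259, 260, 261, 289, 512]))))) (.node 222 (.node 218
  (.node 216 (.node 215 (.leaf [257, 258, 259, 513]) (.leaf [256, 257, 260, 514])) (.node 217
  (.leaf [269, 290, 291, 515]) (.leaf [267, 268, 291, 292, 516]))) (.node 220 (.node 219 (.leaf
  [265, 266, 292, 517]) (.leaf [264, 265, 268, 518])) (.node 221 (.leaf [283, 284, 293, 519])
  (.leaf [281, 283, 294, 520])))) (.node 226 (.node 224 (.node 223 (.leaf [286, 287, 295, 521])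
  (.leaf [285, 286, 296, 522])) (.node 225 (.leaf [243, 246, 255, 523]) (.leaf [239, 241, 243,
  524]))) (.node 228 (.node 227 (.leaf [250, 251, 252, 525]) (.leaf [248, 250, 297, 526]))
  (.node 229 (.leaf [293, 294, 298, 527]) (.node 230 (.leaf [295, 296, 299, 528]) (.leaf [253,
  254, 529]))))))) (.node 247 (.node 239 (.node 235 (.node 233 (.node 232 (.leaf [288, 289,
  530]) (.leaf [291, 300, 531])) (.node 234 (.leaf [298, 301, 532]) (.leaf [299, 302, 533])))
  (.node 237 (.node 236 (.leaf [0, 534]) (.leaf [1, 535])) (.node 238 (.leaf [2, 536]) (.leaf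
  [3, 537])))) (.node 243 (.node 241 (.node 240 (.leaf [4, 538]) (.leaf [5, 539])) (.node 242
  (.leaf [6, 540]) (.leaf [7, 541]))) (.node 245 (.node 244 (.leaf [8, 542]) (.leaf [9, 543]))
  (.node 246 (.leaf [10, 544]) (.leaf [11, 545]))))) (.node 255 (.node 251 (.node 249 (.node 248
  (.leaf [12, 546]) (.leaf [13, 547])) (.node 250 (.leaf [14, 548]) (.leaf [15, 549]))) (.node
  253 (.node 252 (.leaf [16, 550]) (.leaf [17, 551])) (.node 254 (.leaf [18, 552]) (.leaf [19,
  553])))) (.node 259 (.node 257 (.node 256 (.leaf [20, 554]) (.leaf [21, 555])) (.node 258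
  (.leaf [22, 556]) (.leaf [23, 557]))) (.node 261 (.node 260 (.leaf [24, 558]) (.leaf [25,
  559])) (.node 262 (.leaf [26, 560]) (.node 263 (.leaf [27, 561]) (.leaf [28, 562]))))))))))
  (.node 396 (.node 330 (.node 297 (.node 280 (.node 272 (.node 268 (.node 266 (.node 265 (.leaf
  [29, 563]) (.leaf [30, 564])) (.node 267 (.leaf [31, 565]) (.leaf [32, 566]))) (.node 270
  (.node 269 (.leaf [33, 567]) (.leaf [34, 568])) (.node 271 (.leaf [35, 569]) (.leaf [36,
  570])))) (.node 276 (.node 274 (.node 273 (.leaf [37, 571]) (.leaf [38, 572])) (.node 275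
  (.leaf [39, 573]) (.leaf [40, 574]))) (.node 278 (.node 277 (.leaf [41, 575]) (.leaf [42,
  576])) (.node 279 (.leaf [43, 577]) (.leaf [45, 578]))))) (.node 288 (.node 284 (.node 282
  (.node 281 (.leaf [47, 579]) (.leaf [48, 580])) (.node 283 (.leaf [49, 581]) (.leaf [50,
  582]))) (.node 286 (.node 285 (.leaf [51, 583]) (.leaf [52, 584])) (.node 287 (.leaf [53,
  585]) (.leaf [54, 586])))) (.node 292 (.node 290 (.node 289 (.leaf [55, 587]) (.leaf [56,
  588])) (.node 291 (.leaf [57, 589]) (.leaf [58, 590]))) (.node 294 (.node 293 (.leaf [59,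
  591]) (.leaf [60, 592])) (.node 295 (.leaf [61, 593]) (.node 296 (.leaf [62, 594]) (.leaf [63,
  595]))))))) (.node 313 (.node 305 (.node 301 (.node 299 (.node 298 (.leaf [64, 596]) (.leaf
  [65, 597])) (.node 300 (.leaf [66, 598]) (.leaf [67, 599]))) (.node 303 (.node 302 (.leaf [68,
  600]) (.leaf [69, 601])) (.node 304 (.leaf [70, 602]) (.leaf [71, 603])))) (.node 309 (.node
  307 (.node 306 (.leaf [73, 604]) (.leaf [74, 605])) (.node 308 (.leaf [75, 606]) (.leaf [76,
  607]))) (.node 311 (.node 310 (.leaf [77, 608]) (.leaf [78, 609])) (.node 312 (.leaf [79,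
  610]) (.leaf [80, 611]))))) (.node 321 (.node 317 (.node 315 (.node 314 (.leaf [82, 83])
  (.leaf [84, 612])) (.node 316 (.leaf [85, 613]) (.leaf [86, 614]))) (.node 319 (.node 318
  (.leaf [87, 615]) (.leaf [88, 616])) (.node 320 (.leaf [89, 617]) (.leaf [90, 618])))) (.node
  325 (.node 323 (.node 322 (.leaf [91, 619]) (.leaf [92, 620])) (.node 324 (.leaf [93, 621])
  (.leaf [94, 622]))) (.node 327 (.node 326 (.leaf [95, 623]) (.leaf [96, 624])) (.node 328
  (.leaf [97, 625]) (.node 329 (.leaf [98, 626]) (.leaf [99, 627])))))))) (.node 363 (.node 346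
  (.node 338 (.node 334 (.node 332 (.node 331 (.leaf [100, 628]) (.leaf [101, 629])) (.node 333
  (.leaf [102, 630]) (.leaf [103, 631]))) (.node 336 (.node 335 (.leaf [104, 632]) (.leaf [105,
  633])) (.node 337 (.leaf [106, 634]) (.leaf [107, 635])))) (.node 342 (.node 340 (.node 339
  (.leaf [108, 636]) (.leaf [109, 637])) (.node 341 (.leaf [111, 112]) (.leaf [113, 638])))
  (.node 344 (.node 343 (.leaf [114, 639]) (.leaf [115, 640])) (.node 345 (.leaf [118, 641])
  (.leaf [119, 642]))))) (.node 354 (.node 350 (.node 348 (.node 347 (.leaf [121, 643]) (.leaf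
  [122, 644])) (.node 349 (.leaf [123, 645]) (.leaf [124, 646]))) (.node 352 (.node 351 (.leaf
  [125, 647]) (.leaf [126, 648])) (.node 353 (.leaf [127, 649]) (.leaf [128, 650])))) (.node 358
  (.node 356 (.node 355 (.leaf [129, 651]) (.leaf [130, 652])) (.node 357 (.leaf [131, 653])
  (.leaf [132, 654]))) (.node 360 (.node 359 (.leaf [133, 655]) (.leaf [134, 656])) (.node 361
  (.leaf [135, 657]) (.node 362 (.leaf [136, 658]) (.leaf [137, 659]))))))) (.node 379 (.node
  371 (.node 367 (.node 365 (.node 364 (.leaf [138, 660]) (.leaf [139, 661])) (.node 366 (.leaf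
  [140, 662]) (.leaf [141, 663]))) (.node 369 (.node 368 (.leaf [142, 664]) (.leaf [143, 665]))
  (.node 370 (.leaf [144, 666]) (.leaf [145, 667])))) (.node 375 (.node 373 (.node 372 (.leaf
  [146, 668]) (.leaf [147, 669])) (.node 374 (.leaf [148, 670]) (.leaf [149, 671]))) (.node 377
  (.node 376 (.leaf [150, 672]) (.leaf [151, 673])) (.node 378 (.leaf [152, 674]) (.leaf [153,
  675]))))) (.node 387 (.node 383 (.node 381 (.node 380 (.leaf [154, 676]) (.leaf [155, 677]))
  (.node 382 (.leaf [156, 678]) (.leaf [157, 679]))) (.node 385 (.node 384 (.leaf [158, 680])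
  (.leaf [159, 681])) (.node 386 (.leaf [160, 682]) (.leaf [161, 683])))) (.node 391 (.node 389
  (.node 388 (.leaf [162, 684]) (.leaf [163, 685])) (.node 390 (.leaf [164, 686]) (.leaf [165,
  687]))) (.node 393 (.node 392 (.leaf [166, 688]) (.leaf [167, 689])) (.node 394 (.leaf [168,
  690]) (.node 395 (.leaf [169, 691]) (.leaf [170, 692]))))))))) (.node 462 (.node 429 (.node
  412 (.node 404 (.node 400 (.node 398 (.node 397 (.leaf [171, 693]) (.leaf [172, 694])) (.node
  399 (.leaf [173, 695]) (.leaf [174, 696]))) (.node 402 (.node 401 (.leaf [175, 697]) (.leaf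
  [176, 698])) (.node 403 (.leaf [177, 699]) (.leaf [178, 700])))) (.node 408 (.node 406 (.node
  405 (.leaf [179, 701]) (.leaf [180, 702])) (.node 407 (.leaf [181, 703]) (.leaf [182, 704])))
  (.node 410 (.node 409 (.leaf [183, 705]) (.leaf [184, 706])) (.node 411 (.leaf [185, 707])
  (.leaf [186, 708]))))) (.node 420 (.node 416 (.node 414 (.node 413 (.leaf [187, 709]) (.leaf
  [188, 710])) (.node 415 (.leaf [189, 711]) (.leaf [190, 712]))) (.node 418 (.node 417 (.leaf
  [191, 713]) (.leaf [192, 714])) (.node 419 (.leaf [193, 715]) (.leaf [194, 716])))) (.node 424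
  (.node 422 (.node 421 (.leaf [195, 717]) (.leaf [196, 718])) (.node 423 (.leaf [197, 719])
  (.leaf [198, 720]))) (.node 426 (.node 425 (.leaf [199, 721]) (.leaf [200, 722])) (.node 427
  (.leaf [201, 723]) (.node 428 (.leaf [202, 724]) (.leaf [203, 725]))))))) (.node 445 (.node
  437 (.node 433 (.node 431 (.node 430 (.leaf [204, 726]) (.leaf [205, 727])) (.node 432 (.leaf
  [206, 728]) (.leaf [207, 729]))) (.node 435 (.node 434 (.leaf [208, 730]) (.leaf [209, 731]))
  (.node 436 (.leaf [210, 732]) (.leaf [211, 733])))) (.node 441 (.node 439 (.node 438 (.leaf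
  [212, 734]) (.leaf [213, 735])) (.node 440 (.leaf [214, 736]) (.leaf [215, 737]))) (.node 443
  (.node 442 (.leaf [216, 738]) (.leaf [217, 739])) (.node 444 (.leaf [218, 740]) (.leaf [219,
  741]))))) (.node 453 (.node 449 (.node 447 (.node 446 (.leaf [220, 742]) (.leaf [221, 743]))
  (.node 448 (.leaf [222, 744]) (.leaf [223, 745]))) (.node 451 (.node 450 (.leaf [224, 746])
  (.leaf [225, 747])) (.node 452 (.leaf [226, 748]) (.leaf [227, 749])))) (.node 457 (.node 455
  (.node 454 (.leaf [228, 750]) (.leaf [229, 751])) (.node 456 (.leaf [230, 752]) (.leaf [231,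
  753]))) (.node 459 (.node 458 (.leaf [232, 754]) (.leaf [233, 755])) (.node 460 (.leaf [234,
  756]) (.node 461 (.leaf [235, 757]) (.leaf [236, 758])))))))) (.node 495 (.node 478 (.node 470
  (.node 466 (.node 464 (.node 463 (.leaf [237, 759]) (.leaf [238, 760])) (.node 465 (.leaf
  [239, 761]) (.leaf [240, 762]))) (.node 468 (.node 467 (.leaf [241, 763]) (.leaf [242, 764]))
  (.node 469 (.leaf [243, 765]) (.leaf [244, 766])))) (.node 474 (.node 472 (.node 471 (.leaf
  [245, 767]) (.leaf [246, 768])) (.node 473 (.leaf [247, 769]) (.leaf [248, 770]))) (.node 476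
  (.node 475 (.leaf [249, 771]) (.leaf [250, 772])) (.node 477 (.leaf [251, 773]) (.leaf [252,
  774]))))) (.node 486 (.node 482 (.node 480 (.node 479 (.leaf [253, 775]) (.leaf [254, 776]))
  (.node 481 (.leaf [255, 777]) (.leaf [256, 778]))) (.node 484 (.node 483 (.leaf [257, 779])
  (.leaf [258, 780])) (.node 485 (.leaf [259, 781]) (.leaf [260, 782])))) (.node 490 (.node 488
  (.node 487 (.leaf [261, 783]) (.leaf [262, 784])) (.node 489 (.leaf [263, 785]) (.leaf [264,
  786]))) (.node 492 (.node 491 (.leaf [265, 787]) (.leaf [266, 788])) (.node 493 (.leaf [267,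
  789]) (.node 494 (.leaf [268, 790]) (.leaf [269, 791]))))))) (.node 511 (.node 503 (.node 499
  (.node 497 (.node 496 (.leaf [270, 792]) (.leaf [271, 793])) (.node 498 (.leaf [272, 794])
  (.leaf [273, 795]))) (.node 501 (.node 500 (.leaf [274, 796]) (.leaf [275, 797])) (.node 502
  (.leaf [276, 798]) (.leaf [277, 799])))) (.node 507 (.node 505 (.node 504 (.leaf [278, 800])
  (.leaf [279, 801])) (.node 506 (.leaf [280, 802]) (.leaf [281, 803]))) (.node 509 (.node 508
  (.leaf [282, 804]) (.leaf [283, 805])) (.node 510 (.leaf [284, 806]) (.leaf [285, 807])))))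
  (.node 519 (.node 515 (.node 513 (.node 512 (.leaf [286, 808]) (.leaf [287, 809])) (.node 514
  (.leaf [288, 810]) (.leaf [289, 811]))) (.node 517 (.node 516 (.leaf [290, 812]) (.leaf [291,
  813])) (.node 518 (.leaf [292, 814]) (.leaf [293, 815])))) (.node 523 (.node 521 (.node 520
  (.leaf [294, 816]) (.leaf [295, 817])) (.node 522 (.leaf [296, 818]) (.leaf [297, 819])))
  (.node 525 (.node 524 (.leaf [298, 820]) (.leaf [299, 821])) (.node 526 (.leaf [300, 822])
  (.node 527 (.leaf [301, 823]) (.leaf [302, 824])))))))))))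

theorem loc18E : stepOK 528 825 e18 e19 J18E J17E = true := by
  decide +kernel

end Pool.Agent.helper63.DP
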